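import Pool.Agent.P.MP_67bca4_pr.AH.S1

/-! The chain of coarse-grained shifts with several roots. -/

namespace Pool.Agent.P.MP_67bca4_pr

open Finset
open scoped Classical

variable {D : ℕ}

lemma Chain_zero {n : ℕ} {s : Fn D} {m : ℕ} (h : Supp n s) (h' : TV s ≤ m) : ChInv n s m 0 s := by
  refine ⟨fun y hy i => ?_, by simpa using h', fun e he => ⟨e, he, fun i => by simp⟩⟩
  have h1 : y ∈ inB D n := by
    by_contra h2
    exact hy (h y h2)
  simpa using mem_inB.1 h1 i

lemma Chain_seq (hD : 2 ≤ D) {n : ℕ} {s : Fn D} {m : ℕ} (h : Supp n s) (h' : TV s ≤ m) :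
    ∃ f : ℕ → Fn D, f 0 = s ∧ (∀ l, ChInv n s m l (f l)) ∧ ∀ l, ChRel (f l) (f (l + 1)) := by
  have key : ∀ l (f : {f : Fn D // ChInv n s m l f}),
      ∃ g : {g : Fn D // ChInv n s m (l + 1) g}, ChRel f.1 g.1 := fun l f => by
    obtain ⟨g, g1, g2⟩ := chInv_step hD f.2
    exact ⟨⟨g, g1⟩, g2⟩
  choose F hF using key
  let f : ∀ l, {f : Fn D // ChInv n s m l f} := fun l =>
    Nat.rec (motive := fun l => {f : Fn D // ChInv n s m l f}) ⟨s, Chain_zero h h'⟩ F l
  exact ⟨fun l => (f l).1, rfl, fun l => (f l).2, fun l => hF l (f l)⟩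

lemma Chain_tour {n : ℕ} {Ω : Finset (V D)} {j : ℕ} {s : Fn D} {m l : ℕ} {f : Fn D}
    (h : ChInv n s m l f) {J : Finset (Ed D)} (hJ : jumps s ⊆ J)
    (hT : MTour l1 id Ω j (bases J) (50 * D * m)) :
    MTour l1 (dn l) Ω j (bases (jumps f)) (58 * D * m) := by
  have h1 := (hT.dn l).near (Q := bases (jumps f)) (δ := D * (4 : ℤ)) (fun y hy => by
    obtain ⟨e, he, rfl⟩ := mem_bases.1 hy
    obtain ⟨e', he', a⟩ := h.2.2 e he
    refine ⟨dn l e'.1, mem_image_of_mem _ (mem_bases.2 ⟨e', hJ he', rfl⟩),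
      chain_l1_le fun i => ?_⟩
    have b := abs_le.1 (a i)
    have c := chain_dn_bounds l e'.1 i
    have hq : (0 : ℤ) < 2 ^ l := by positivity
    rw [abs_le]
    constructor
    · by_contra hh
      have : e.1 i - dn l e'.1 i ≤ -5 := by omega
      nlinarith [b.1, b.2, c.1, c.2]
    · by_contra hh
      have : 5 ≤ e.1 i - dn l e'.1 i := by omega
      nlinarith [b.1, b.2, c.1, c.2])
  refine h1.mono subset_union_right ?_
  have h2 : (bases (jumps f)).card ≤ m :=
    (card_image_le.trans (card_jumps_le f)).trans h.tv_le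
  have h3 : ((bases (jumps f)).card : ℝ) ≤ m := by exact_mod_cast h2
  have h4 : (0 : ℝ) ≤ D := Nat.cast_nonneg _
  push_cast
  nlinarith [mul_le_mul_of_nonneg_left h3 h4]

theorem pf_Chain : StChain := by
  intro D hD n Ω μ s m J h
  have hD2 : 2 ≤ D := by omega
  obtain ⟨f, f0, hf, hr⟩ := Chain_seq hD2 h.1 h.2.1
  choose t ht using fun l => exists_up (f l) l
  have t0 : t 0 = s := by
    ext x
    rw [ht, dn_zero, f0]
  obtain ⟨hJ, hJ1, hJ2, hJ3, j, hj, hT⟩ := h.2.2
  have hD0 : (0 : ℝ) ≤ D := Nat.cast_nonneg _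
  refine ⟨t, t0, fun l => ⟨?_, fun _ => ⟨f l, j, ht l, (hf l).2.1, hj, Chain_tour (hf l) hJ hT⟩⟩,
    fun l => ?_, fun l hl => ?_⟩
  · rintro rfl
    rw [t0]; exact ⟨J, h⟩
  · have hq : (0 : ℤ) < 2 ^ l := by positivity
    have hY : ∀ y ∈ (t (l + 1) - t l).support, f l (dn l y) ≠ f (l + 1) (dn 1 (dn l y)) := by
      intro y hy h1
      rw [Finsupp.mem_support_iff, Finsupp.sub_apply, ht, ht, ← dn_dn, h1] at hy
      exact hy (sub_self _)
    have hnear : ∀ y ∈ (t (l + 1) - t l).support, ∃ p ∈ bases J,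
        l1 (y - p) ≤ 7 * D * ((2 ^ l : ℕ) : ℝ) := by
      intro y hy
      obtain ⟨e', he', a1⟩ := (hr l).2 _ (hY y hy)
      obtain ⟨e'', he'', a2⟩ := (hf l).2.2 e' he'
      refine ⟨e''.1, mem_bases.2 ⟨e'', hJ he'', rfl⟩,
        (chain_l1_le (R := 7 * 2 ^ l) fun i => ?_).trans (le_of_eq (by push_cast; ring))⟩
      have b1 := abs_le.1 (a1 i)
      have b2 := abs_le.1 (a2 i)
      have c := chain_dn_bounds l y i
      rw [abs_le]
      constructor <;> nlinarith [b1.1, b1.2, b2.1, b2.2, c.1, c.2]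
    have htv := (hf l).tv_up hD2 (ht l)
    refine ⟨(hf l).supp (ht l), htv, fun y hy => ?_, ?_, ⟨j, hj, hT⟩, hnear, ?_⟩
    · by_contra h1
      rw [Finsupp.mem_support_iff, Finsupp.sub_apply, (hf l).supp (ht l) y h1,
        (hf (l + 1)).supp (ht (l + 1)) y h1] at hy
      exact hy (sub_self _)
    · have h1 : (t (l + 1) - t l).support.card ≤
          2 ^ (l * D) * ((t (l + 1) - t l).support.image (dn l)).card :=
        card_le_of_dn fun y hy => mem_image_of_mem _ hy
      have h2 := (hr l).1 ((t (l + 1) - t l).support.image (dn l)) (fun z hz => by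
        obtain ⟨y, hy, rfl⟩ := mem_image.1 hz
        exact hY y hy)
      have h3 := (hf l).2.1
      have e1 : 2 ^ (l * D) = (2 ^ l) ^ 2 * 2 ^ (l * (D - 2)) := by
        rw [← pow_mul, ← pow_add, ← mul_add]
        congr 2
        omega
      calc _ ≤ 2 ^ (l * D) * (3 * TV (f l)) := h1.trans (Nat.mul_le_mul_left _ h2)
        _ = 3 * (2 ^ l) ^ 2 * (2 ^ (l * (D - 2)) * TV (f l)) := by rw [e1]; ring
        _ ≤ 3 * (2 ^ l) ^ 2 * m := Nat.mul_le_mul_left _ h3
    · by_cases hl : l = 0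
      · subst hl
        refine ⟨J, t0 ▸ hJ, hJ1, hJ2, by simpa using hJ3,
          fun e he => ⟨e.1, mem_bases.2 ⟨e, he, rfl⟩, ?_⟩⟩
        rw [sub_self, l1_zero]
        positivity
      · refine ⟨jumps (t l), Subset.refl _, sqCl_jumps _, up_big hD hl (ht l),
          (card_jumps_le _).trans htv, fun e he => ?_⟩
        obtain ⟨e', he', a⟩ := (hf l).2.2 _ (up_jump (ht l) he)
        refine ⟨e'.1, mem_bases.2 ⟨e', hJ he', rfl⟩,
          (chain_l1_le (R := 5 * 2 ^ l) fun i => ?_).trans (le_of_eq (by push_cast; ring))⟩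
        have b := abs_le.1 (a i)
        have c := chain_dn_bounds l e.1 i
        rw [abs_le]
        constructor <;> linarith [b.1, b.2, c.1, c.2]
  · have h1 : TV (f l) = 0 := by
      by_contra h2
      have h3 := (hf l).2.1
      have : 2 ^ (l * (D - 2)) * 1 ≤ 2 ^ (l * (D - 2)) * TV (f l) :=
        Nat.mul_le_mul_left _ (Nat.pos_of_ne_zero h2)
      omega
    have h2 : jumps (f l) = ∅ := card_eq_zero.1 (by have := card_jumps_le (f l); omega)
    have h3 : f l = 0 := eq_of_grad_dir ⟨0, by omega⟩ fun x => by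
      have h4 : (x, (⟨0, by omega⟩ : Fin D)) ∉ jumps (f l) := by rw [h2]; exact notMem_empty _
      rw [mem_jumps, not_not] at h4
      rw [h4]; simp [grad]
    ext x
    rw [ht, h3]; rfl

end Pool.Agent.P.MP_67bca4_pr
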