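import Pool.Agent.P.MP_67bca4_pr.AH.S1

/-! Clipping a configuration to a window. -/

namespace Pool.Agent.P.MP_67bca4_pr

open Finset
open scoped Classical

/-- The column cut to the window. -/
noncomputable def Clip_c (l h : ℤ) (S : Col) : Col := (S.inter (flat h)).union (flat l)

lemma Clip_mem {l h k : ℤ} {S : Col} : k ∈ (Clip_c l h S).s ↔ (k ∈ S.s ∧ k ≤ h) ∨ k ≤ l :=
  Iff.rfl

lemma Clip_win {l h : ℤ} (hl : l ≤ h) (S : Col) : WinCol l h (Clip_c l h S) :=
  ⟨fun _ hk => Clip_mem.2 (Or.inr hk), fun _ hk => by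
    rcases Clip_mem.1 hk with h1 | h1
    · exact h1.2
    · exact h1.trans hl⟩

lemma Clip_eq {l h : ℤ} {S : Col} (H : WinCol l h S) : Clip_c l h S = S := by
  ext k
  rw [Clip_mem]
  exact ⟨fun hk => hk.elim (fun h1 => h1.1) (H.1 k), fun hk => Or.inl ⟨hk, H.2 k hk⟩⟩

lemma Clip_bd (l h : ℤ) (S : Col) : bd (Clip_c l h S) ⊆ bd S ∪ {l, h} := by
  intro k hk
  simp only [mem_union, mem_bd, Clip_mem, mem_insert, mem_singleton] at hk ⊢
  by_cases h1 : k ∈ S.s <;> by_cases h2 : k + 1 ∈ S.s <;> simp only [h1, h2] at hk ⊢ <;>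
    simp at hk ⊢ <;> omega

lemma Clip_dif (l h : ℤ) (S T : Col) : dif (Clip_c l h S) (Clip_c l h T) ⊆ dif S T := by
  intro k hk
  simp only [mem_dif, Clip_mem] at hk ⊢
  tauto

lemma Clip_dif0 {l h : ℤ} (hl : l ≤ 0) (hh : 0 ≤ h) (S : Col) :
    dif (Clip_c l h S) S ⊆ dif S (flat 0) := by
  intro k hk
  simp only [mem_dif, Clip_mem, mem_flat] at hk ⊢
  by_cases h1 : k ∈ S.s <;> simp only [h1] at hk ⊢ <;> simp at hk ⊢ <;> omega

lemma Clip_tri (S T S' T' : Col) : dif S' T' ⊆ dif S T ∪ (dif S' S ∪ dif T' T) := by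
  intro k hk
  simp only [mem_union, mem_dif] at hk ⊢
  tauto

lemma Clip_sum_ite {ι : Type*} (A : Finset ι) (p : ι → Prop) [DecidablePred p] {c : ℝ}
    (hc : 0 ≤ c) {m : ℕ} (hm : (A.filter p).card ≤ m) :
    ∑ x ∈ A, (if p x then c else 0) ≤ c * m := by
  rw [← sum_filter, sum_const, nsmul_eq_mul, mul_comm]
  exact mul_le_mul_of_nonneg_left (by exact_mod_cast hm) hc

lemma Clip_vert {D n : ℕ} {b : ℝ} {ξ : Dis D} (hξ : ∀ x o k, 0 ≤ ξ x o k ∧ ξ x o k ≤ b)
    {l h : ℤ} {U S : Conf D} (T : Finset (V D))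
    (hS : ∀ x, S x = U x ∨ (x ∈ T ∧ S x = Clip_c l h (U x))) :
    ∑ x ∈ hatB D n, ∑ k ∈ bd (S x), ξ x none k ≤
      ∑ x ∈ hatB D n, ∑ k ∈ bd (U x), ξ x none k + 2 * b * T.card := by
  have b0 : 0 ≤ b := (hξ 0 none 0).1.trans (hξ 0 none 0).2
  have a := Clip_sum_ite (hatB D n) (fun x => x ∈ T) (c := 2 * b) (by linarith) (m := T.card)
    (card_le_card fun x hx => (mem_filter.1 hx).2)
  refine le_trans ?_ (add_le_add le_rfl a)
  rw [← sum_add_distrib]
  refine sum_le_sum fun x _ => ?_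
  rcases hS x with e | ⟨hx, e⟩
  · rw [e]
    split_ifs <;> linarith
  · rw [e, if_pos hx]
    refine (sum_le_of_sub_union (fun k => (hξ x none k).1) (fun k => (hξ x none k).2)
      (Clip_bd l h (U x))).trans ?_
    have c : ((({l, h} : Finset ℤ).card : ℕ) : ℝ) ≤ 2 := by exact_mod_cast card_le_two
    nlinarith

lemma Clip_card_base {D : ℕ} (n : ℕ) (P : Finset (V D)) :
    ((edB D n).filter fun e => e.1 ∈ P).card ≤ P.card * D := by
  have : P.card * D = (P ×ˢ (univ : Finset (Fin D))).card := by simp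
  rw [this]
  exact card_le_card fun e he => mem_product.2 ⟨(mem_filter.1 he).2, mem_univ _⟩

lemma Clip_card_tip {D : ℕ} (n : ℕ) (P : Finset (V D)) :
    ((edB D n).filter fun e => tip e ∈ P).card ≤ P.card * D := by
  have : P.card * D = (P ×ˢ (univ : Finset (Fin D))).card := by simp
  rw [this]
  refine card_le_card_of_injOn (fun e => (tip e, e.2))
    (fun e he => mem_coe.2 (mem_product.2 ⟨(mem_filter.1 (mem_coe.1 he)).2, mem_univ _⟩)) ?_
  rintro ⟨x, i⟩ - ⟨y, j⟩ - hxy
  simp only [tip_mk, Prod.mk.injEq] at hxy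
  obtain ⟨h1, rfl⟩ := hxy
  rw [add_right_cancel h1]

theorem pf_Clip : StClip := by
  intro D n b ξ hξ l h hl hh U hU
  have b0 : 0 ≤ b := (hξ 0 none 0).1.trans (hξ 0 none 0).2
  have hlh : l ≤ h := hl.trans hh
  have c0 : Clip_c l h (flat 0) = flat 0 := Clip_eq (winCol_flat.2 ⟨hl, hh⟩)
  refine ⟨fun T hT => ⟨fun x => Clip_c l h (U x), ⟨fun x hx => ?_, fun x => Clip_win hlh _⟩, ?_⟩,
    fun P t hP => ⟨fun x => if x ∈ P then Clip_c l h (U x) else U x, fun x hx => ?_,
      fun x hx => ?_, fun x hx => if_neg hx, ?_⟩⟩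
  · show Clip_c l h (U x) = flat 0
    rw [hU x hx, c0]
  · have v := Clip_vert (n := n) hξ (l := l) (h := h) (U := U) (S := fun x => Clip_c l h (U x)) T
      fun x => by
        by_cases hx : WinCol l h (U x)
        · exact Or.inl (Clip_eq hx)
        · exact Or.inr ⟨hT x hx, rfl⟩
    have w : ∑ e ∈ edB D n, ∑ k ∈ dif (Clip_c l h (U e.1)) (Clip_c l h (U (tip e))),
        ξ e.1 (some e.2) k ≤ ∑ e ∈ edB D n, ∑ k ∈ dif (U e.1) (U (tip e)), ξ e.1 (some e.2) k :=
      sum_le_sum fun e _ => sum_le_sum_of_subset_of_nonneg (Clip_dif l h _ _)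
        fun k _ _ => (hξ _ _ k).1
    unfold En
    linarith
  · show (if x ∈ P then Clip_c l h (U x) else U x) = flat 0
    rw [hU x hx, c0, ite_self]
  · show WinCol l h (if x ∈ P then Clip_c l h (U x) else U x)
    rw [if_pos hx]
    exact Clip_win hlh _
  · set S : Conf D := fun x => if x ∈ P then Clip_c l h (U x) else U x with hS
    have v := Clip_vert (n := n) hξ (l := l) (h := h) (U := U) (S := S) P fun x => by
      by_cases hx : x ∈ P
      · exact Or.inr ⟨hx, if_pos hx⟩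
      · exact Or.inl (if_neg hx)
    have d : ∀ x, b * ((dif (S x) (U x)).card : ℝ) ≤ if x ∈ P then b * t else 0 := fun x => by
      by_cases hx : x ∈ P
      · have e : S x = Clip_c l h (U x) := if_pos hx
        rw [if_pos hx, e]
        refine mul_le_mul_of_nonneg_left ?_ b0
        exact_mod_cast (card_le_card (Clip_dif0 hl hh _)).trans (hP x hx)
      · have e : S x = U x := if_neg hx
        rw [if_neg hx, e, dif_self]
        simp
    have bt : 0 ≤ b * t := by positivity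
    have a1 := Clip_sum_ite (edB D n) (fun e => e.1 ∈ P) bt (Clip_card_base n P)
    have a2 := Clip_sum_ite (edB D n) (fun e => tip e ∈ P) bt (Clip_card_tip n P)
    have w : ∑ e ∈ edB D n, ∑ k ∈ dif (S e.1) (S (tip e)), ξ e.1 (some e.2) k ≤
        ∑ e ∈ edB D n, ∑ k ∈ dif (U e.1) (U (tip e)), ξ e.1 (some e.2) k +
          (∑ e ∈ edB D n, (if e.1 ∈ P then b * t else 0) +
            ∑ e ∈ edB D n, (if tip e ∈ P then b * t else 0)) := by
      rw [← sum_add_distrib, ← sum_add_distrib]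
      refine sum_le_sum fun e _ => ?_
      refine (sum_le_of_sub_union (fun k => (hξ _ _ k).1) (fun k => (hξ _ _ k).2)
        (Clip_tri (U e.1) (U (tip e)) _ _)).trans ?_
      have c : ((dif (S e.1) (U e.1) ∪ dif (S (tip e)) (U (tip e))).card : ℝ) ≤
          (dif (S e.1) (U e.1)).card + (dif (S (tip e)) (U (tip e))).card := by
        exact_mod_cast card_union_le _ _
      have c2 := mul_le_mul_of_nonneg_left c b0
      linarith [d e.1, d (tip e)]
    unfold En
    push_cast at a1 a2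
    nlinarith

end Pool.Agent.P.MP_67bca4_pr
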