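import Pool.Agent.P.MP_67bca4_pr.AH.S1

/-!
Clusters of bad blocks and their roots.
-/

namespace Pool.Agent.P.MP_67bca4_pr

open Finset
open scoped Classical

variable {D : ℕ}

lemma Clus_ball_mono {r s : ℕ} (h : r ≤ s) {x : V D} (hx : x ∈ ball D r) : x ∈ ball D s :=
  mem_ball.2 fun i => by have := mem_ball.1 hx i; omega

lemma Clus_ball_add {r s : ℕ} {x y : V D} (hx : x ∈ ball D r) (hy : y - x ∈ ball D s) :
    y ∈ ball D (r + s) := mem_ball.2 fun i => by
  have h1 := mem_ball.1 hx i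
  have h2 := mem_ball.1 hy i
  simp only [Pi.sub_apply] at h2
  push_cast
  omega

lemma Clus_ball_symm {r : ℕ} {x y : V D} (h : x - y ∈ ball D r) : y - x ∈ ball D r :=
  mem_ball.2 fun i => by
    have h1 := mem_ball.1 h i
    simp only [Pi.sub_apply] at h1 ⊢
    omega

lemma Clus_mem {B : V D → Prop} {lam Λ : ℕ} {w : V D} : w ∈ clus B lam Λ ↔ w ∈ ball D Λ ∧
    Relation.ReflTransGen (fun v v' => v' ∈ ball D Λ ∧ B v' ∧ v' - v ∈ ball D lam) 0 w :=
  mem_filter

lemma Clus_bad {B : V D → Prop} {lam Λ : ℕ} {a w : V D} (ha : B a)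
    (h : Relation.ReflTransGen (fun v v' => v' ∈ ball D Λ ∧ B v' ∧ v' - v ∈ ball D lam) a w) :
    B w := by
  cases h with
  | refl => exact ha
  | tail _ h2 => exact h2.2.1

theorem pf_Clus1 : StClus1 := by
  intro D B lam k₀ h0 hcard
  have hB : ∀ w ∈ clus B lam ((k₀ + 1) * lam), B w := fun w hw => Clus_bad h0 (Clus_mem.1 hw).2
  have hin : ∀ w ∈ clus B lam ((k₀ + 1) * lam), w ∈ ball D (k₀ * lam) := by
    intro w hw
    by_contra hn
    have hex : ∀ i : ℕ, ∃ y : V D, i ≤ k₀ → y ∈ (ball D ((k₀ + 1) * lam)).filter B ∧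
        y ∉ ball D (i * lam) ∧ y ∈ ball D ((i + 1) * lam) := by
      intro i
      by_cases hi : i ≤ k₀
      · obtain ⟨x, y, h1, h2, h3⟩ := tourL_cross (S := fun x => x ∈ ball D (i * lam))
          (Clus_mem.1 hw).2 (zero_mem_ball _)
          (fun h => hn (Clus_ball_mono (Nat.mul_le_mul_right lam hi) h))
        refine ⟨y, fun _ => ⟨mem_filter.2 ⟨h1.1, h1.2.1⟩, h3, ?_⟩⟩
        rw [Nat.succ_mul]
        exact Clus_ball_add h2 h1.2.2
      · exact ⟨0, fun h => absurd h hi⟩
    choose g hg using hex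
    have hlt : ∀ i j, i < j → j ≤ k₀ → g i ≠ g j := by
      intro i j hij hj e
      have h1 := (hg i (by omega)).2.2
      rw [e] at h1
      exact (hg j hj).2.1 (Clus_ball_mono (Nat.mul_le_mul_right lam hij) h1)
    have hle : (range (k₀ + 1)).card ≤ ((ball D ((k₀ + 1) * lam)).filter B).card := by
      refine card_le_card_of_injOn g (fun i hi => ?_) fun i hi j hj e => ?_
      · exact (hg i (Nat.lt_succ_iff.1 (mem_range.1 hi))).1
      · have hi' := Nat.lt_succ_iff.1 (mem_range.1 hi)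
        have hj' := Nat.lt_succ_iff.1 (mem_range.1 hj)
        rcases lt_trichotomy i j with h | h | h
        · exact absurd e (hlt i j h hj')
        · exact h
        · exact absurd e.symm (hlt j i h hi')
    rw [card_range] at hle
    omega
  refine ⟨Clus_mem.2 ⟨zero_mem_ball _, .refl⟩, le_trans (card_le_card fun w hw => ?_) hcard,
    fun w hw => ⟨hB w hw, hin w hw⟩, fun w hw v hv hvw => ?_⟩
  · exact mem_filter.2 ⟨(Clus_mem.1 hw).1, hB w hw⟩
  · have h1 : v ∈ ball D ((k₀ + 1) * lam) := by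
      rw [Nat.succ_mul]
      exact Clus_ball_add (hin w hw) hvw
    exact Clus_mem.2 ⟨h1, (Clus_mem.1 hw).2.tail ⟨h1, hv, hvw⟩⟩

/-- A closed set seen from `z` contains the whole path seen from `z'` or none of it. -/
lemma Clus_walk {B : V D → Prop} {lam Λ : ℕ} {z z' : V D} {C : Finset (V D)}
    (hC : ∀ w ∈ C, ∀ v, B (z + v) → v - w ∈ ball D lam → v ∈ C) {a w : V D} (ha : B (z' + a))
    (h : Relation.ReflTransGen
      (fun v v' => v' ∈ ball D Λ ∧ B (z' + v') ∧ v' - v ∈ ball D lam) a w) :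
    z' + a - z ∈ C ↔ z' + w - z ∈ C := by
  induction h with
  | refl => exact Iff.rfl
  | @tail b c h1 h2 ih =>
    have hb : B (z' + b) := Clus_bad (B := fun v => B (z' + v)) ha h1
    refine ih.trans ⟨fun hm => hC _ hm _ ?_ ?_, fun hm => hC _ hm _ ?_ ?_⟩
    · rw [add_sub_cancel]; exact h2.2.1
    · have : z' + c - z - (z' + b - z) = c - b := by abel
      rw [this]; exact h2.2.2
    · rw [add_sub_cancel]; exact hb
    · have : z' + b - z - (z' + c - z) = b - c := by abel
      rw [this]; exact Clus_ball_symm h2.2.2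

lemma Clus_half (h : StClus1) {B : V D → Prop} {lam k₀ : ℕ} {z z' : V D}
    (hz : IsRoot (fun w => B (z + w)) lam ((k₀ + 1) * lam) k₀)
    (hz' : IsRoot (fun w => B (z' + w)) lam ((k₀ + 1) * lam) k₀) {w w' : V D}
    (hw : w ∈ clus (fun w => B (z + w)) lam ((k₀ + 1) * lam))
    (hw' : w' ∈ clus (fun w => B (z' + w)) lam ((k₀ + 1) * lam))
    (hc : z' + w' - (z + w) ∈ ball D lam) : toLex (0 : V D) ≤ toLex (z' - z) := by
  obtain ⟨-, -, -, hcl⟩ := h hz.1 hz.2.1
  obtain ⟨-, -, hb', -⟩ := h hz'.1 hz'.2.1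
  have h1 : z' + w' - z ∈ clus (fun w => B (z + w)) lam ((k₀ + 1) * lam) := by
    refine hcl w hw _ ?_ ?_
    · show B (z + (z' + w' - z))
      rw [add_sub_cancel]; exact (hb' w' hw').1
    · rw [sub_sub]; exact hc
  have h2 := (Clus_walk hcl hz'.1 (Clus_mem.1 hw').2).2 h1
  rw [add_zero] at h2
  exact hz.2.2 _ h2

theorem pf_Clus2 (h : StClus1) : StClus2 := by
  intro D B lam k₀ z z' hne hz hz' w hw w' hw' hc
  have h1 := Clus_half h hz hz' hw hw' hc
  have h2 := Clus_half h hz' hz hw' hw (Clus_ball_symm hc)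
  have h3 : (0 : Lex (V D)) ≤ toLex z' - toLex z := h1
  have h4 : (0 : Lex (V D)) ≤ toLex z - toLex z' := h2
  exact hne (toLex.injective (le_antisymm (sub_nonneg.1 h3) (sub_nonneg.1 h4)))

theorem pf_Clus3 (h : StClus1) : StClus3 := by
  intro D B lam k₀ z hz hcard
  have hz0 : B (z + 0) := by rwa [add_zero]
  have hc0 : ((ball D ((k₀ + 1) * lam)).filter fun w => B (z + w)).card ≤ k₀ := by
    have := hcard 0 (zero_mem_ball _)
    rwa [add_zero] at this
  obtain ⟨h0, -, hb, hcl⟩ := h (B := fun w => B (z + w)) hz0 hc0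
  obtain ⟨v, hv, hmin⟩ := exists_min_image _ (fun w : V D => toLex w) ⟨0, h0⟩
  have hvb : v ∈ ball D ((k₀ + 1) * lam) := (Clus_mem.1 hv).1
  have hv0 : B (z + v + 0) := by rw [add_zero]; exact (hb v hv).1
  obtain ⟨h0', -, -, hcl'⟩ := h (B := fun w => B (z + v + w)) hv0 (hcard v hvb)
  refine ⟨v, hvb, ⟨hv0, hcard v hvb, fun w hw => ?_⟩, ?_⟩
  · have h1 : z + v + 0 - z ∈ clus (fun w => B (z + w)) lam ((k₀ + 1) * lam) := by
      rw [add_zero, add_sub_cancel_left]; exact hv
    have h2 := (Clus_walk hcl hv0 (Clus_mem.1 hw).2).1 h1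
    have h3 : z + v + w - z = v + w := by abel
    rw [h3] at h2
    have h4 : toLex v ≤ toLex v + toLex w := hmin _ h2
    have h5 : (0 : Lex (V D)) ≤ toLex w := (le_add_iff_nonneg_right _).1 h4
    exact h5
  · have h1 : z + v - (z + v) ∈ clus (fun w => B (z + v + w)) lam ((k₀ + 1) * lam) := by
      rw [sub_self]; exact h0'
    have h2 := (Clus_walk hcl' hz0 (Clus_mem.1 hv).2).2 h1
    have h3 : z + 0 - (z + v) = -v := by abel
    rwa [h3] at h2

theorem pf_Clus4 : StClus4 := by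
  intro D lam Λ k₀
  refine ⟨fun {B} hk h0 hn => ?_, fun {B B'} hB => ?_⟩
  · have hz : ∀ w ∈ ball D Λ, B w → w = 0 := fun w hw hb => by
      by_contra hne; exact hn w hw hne hb
    have hcl : clus B lam Λ = {0} := by
      ext w
      rw [mem_singleton]
      constructor
      · intro hw
        exact hz w (Clus_mem.1 hw).1 (Clus_bad h0 (Clus_mem.1 hw).2)
      · rintro rfl
        exact Clus_mem.2 ⟨zero_mem_ball _, .refl⟩
    refine ⟨⟨h0, le_trans ?_ hk, fun w hw => ?_⟩, hcl⟩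
    · rw [← card_singleton (0 : V D)]
      exact card_le_card fun w hw =>
        mem_singleton.2 (hz w (mem_filter.1 hw).1 (mem_filter.1 hw).2)
    · rw [hcl, mem_singleton] at hw
      rw [hw]
  · have hR : (fun v v' : V D => v' ∈ ball D Λ ∧ B v' ∧ v' - v ∈ ball D lam) =
        fun v v' : V D => v' ∈ ball D Λ ∧ B' v' ∧ v' - v ∈ ball D lam := by
      funext v v'
      exact propext (and_congr_right fun hv => and_congr_left' (hB v' hv))
    have hcl : clus B lam Λ = clus B' lam Λ := by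
      ext w
      rw [Clus_mem, Clus_mem, hR]
    refine ⟨hcl, ?_⟩
    have hf : (ball D Λ).filter B = (ball D Λ).filter B' := filter_congr hB
    unfold IsRoot
    rw [hcl, hf, hB 0 (zero_mem_ball _)]

end Pool.Agent.P.MP_67bca4_pr
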