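import Pool.Agent.P.MP_67bca4_pr.AH.S1

/-!
Concentration and density bounds for finitely dependent families, by colouring.
-/

namespace Pool.Agent.P.MP_67bca4_pr

open Finset
open scoped Classical

lemma Colour_jensen {κ : Type} (C : Finset κ) (x : κ → ℝ) {χ : ℝ} (h : C.card ≤ χ) :
    χ * Real.exp (∑ c ∈ C, x c) ≤ ∑ c ∈ C, Real.exp (χ * x c) + (χ - C.card) := by
  obtain ⟨m, hm⟩ : ∃ m, m = ∑ c ∈ C, x c := ⟨_, rfl⟩
  have key : ∀ y, Real.exp m * (y - m + 1) ≤ Real.exp y := fun y => by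
    have := mul_le_mul_of_nonneg_left (Real.add_one_le_exp (y - m)) (Real.exp_pos m).le
    rwa [← Real.exp_add, add_sub_cancel] at this
  have h1 := sum_le_sum fun c (_ : c ∈ C) => key (χ * x c)
  rw [← mul_sum, sum_add_distrib, sum_sub_distrib, ← mul_sum, ← hm, sum_const, sum_const,
    nsmul_eq_mul, nsmul_eq_mul] at h1
  have h2 := mul_le_mul_of_nonneg_left (key 0) (sub_nonneg.2 h)
  rw [Real.exp_zero] at h2
  rw [← hm]
  nlinarith

theorem pf_Colour (h : StIndep) : StColour := by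
  intro I _ _ p h0 h1 ι κ T col A f χ B Nn lam hχ hc hB hN hT hl hdep hdis hb hE
  have hχ' : (1 : ℝ) ≤ χ := by exact_mod_cast hχ
  by_cases hbig : B * Nn < lam
  · refine le_trans (le_of_eq ?_) (Real.exp_pos _).le
    refine sum_eq_zero fun ω _ => if_neg fun hω => ?_
    have := sum_le_card_nsmul T (fun z => f z ω) B fun z hz => (le_abs_self _).trans (hb z hz ω)
    rw [nsmul_eq_mul] at this
    nlinarith
  obtain ⟨θ, hθ⟩ : ∃ θ, θ = lam / (2 * χ ^ 2 * B ^ 2 * Nn) := ⟨_, rfl⟩
  have θ0 : 0 ≤ θ := by rw [hθ]; positivity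
  have θ1 : χ * θ * B ≤ 1 := by
    have : χ * θ * B = lam / (2 * χ * (B * Nn)) := by rw [hθ]; field_simp
    rw [this, div_le_one (by positivity)]
    nlinarith [mul_pos hB hN]
  have one : ∀ z ∈ T, Ex p (fun ω => Real.exp (χ * θ * f z ω)) ≤
      Real.exp ((χ * θ * B) ^ 2) := fun z hz => by
    have a : ∀ ω, |χ * θ * f z ω| ≤ χ * θ * B := fun ω => by
      rw [abs_mul, abs_of_nonneg (by positivity)]
      exact mul_le_mul_of_nonneg_left (hb z hz ω) (by positivity)
    refine (Ex_mono h0 h1 (g := fun ω => χ * θ * f z ω + ((χ * θ * B) ^ 2 + 1))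
      fun ω => ?_).trans ?_
    · have b := TalAux.exp_le_quad ((a ω).trans θ1)
      have c := sq_le_sq' (abs_le.1 (a ω)).1 (abs_le.1 (a ω)).2
      linarith
    · rw [Ex_add, PL_Ex_const_mul, hE z hz, PL_Ex_const, mul_zero, zero_add]
      exact Real.add_one_le_exp _
  obtain ⟨W, hW⟩ : ∃ W, W = Real.exp ((χ * θ * B) ^ 2 * Nn) := ⟨_, rfl⟩
  have W1 : 1 ≤ W := by rw [hW]; exact Real.one_le_exp (by positivity)
  have cls : ∀ c, Ex p (fun ω => Real.exp (χ * ∑ z ∈ T with col z = c, θ * f z ω)) ≤ W := by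
    intro c
    have e := (h (I := I) p).1 (T.filter fun z => col z = c) A
      (fun z ω => Real.exp (χ * θ * f z ω))
      (fun z hz ω ω' hω => by simp only [hdep z (mem_filter.1 hz).1 ω ω' hω])
      fun z hz z' hz' hne => hdis z (mem_filter.1 hz).1 z' (mem_filter.1 hz').1 hne
        ((mem_filter.1 hz).2.trans (mem_filter.1 hz').2.symm)
    simp only [mul_sum, Real.exp_sum, ← mul_assoc]
    rw [e]
    refine (prod_le_prod (fun z _ => ?_) fun z hz => one z (mem_filter.1 hz).1).trans ?_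
    · exact (PL_Ex_const (p := p) (I := I) 0).ge.trans
        (Ex_mono h0 h1 fun _ => (Real.exp_pos _).le)
    · rw [prod_const, ← Real.exp_nat_mul, hW, mul_comm]
      have : ((T.filter fun z => col z = c).card : ℝ) ≤ T.card := by
        exact_mod_cast card_filter_le _ _
      gcongr
      linarith
  have hc' : ((T.image col).card : ℝ) ≤ χ := by exact_mod_cast hc
  have mgf : Ex p (fun ω => Real.exp (θ * ∑ z ∈ T, f z ω)) ≤ W := by
    refine le_of_mul_le_mul_left ?_ (by linarith : (0 : ℝ) < χ)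
    rw [← PL_Ex_const_mul]
    refine (Ex_mono h0 h1 (g := fun ω => ∑ c ∈ T.image col,
      Real.exp (χ * ∑ z ∈ T with col z = c, θ * f z ω) + (χ - (T.image col).card))
      fun ω => ?_).trans ?_
    · have := Colour_jensen (T.image col) (fun c => ∑ z ∈ T with col z = c, θ * f z ω) hc'
      rwa [sum_fiberwise_of_maps_to (fun z hz => mem_image_of_mem col hz), ← mul_sum] at this
    · rw [Ex_add, PL_Ex_sum, PL_Ex_const]
      have := sum_le_card_nsmul (T.image col) _ W fun c _ => cls c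
      rw [nsmul_eq_mul] at this
      nlinarith
  have mk := (Pr_le_Ex h0 h1 (A := fun ω => lam ≤ ∑ z ∈ T, f z ω) (c := Real.exp (θ * lam))
    (fun _ => (Real.exp_pos _).le)
    fun ω hω => Real.exp_le_exp.2 (mul_le_mul_of_nonneg_left hω θ0)).trans mgf
  refine le_of_mul_le_mul_left (mk.trans (le_of_eq ?_)) (Real.exp_pos _)
  rw [hW, ← Real.exp_add, hθ]
  congr 1
  field_simp
  ring

/-- Monochromatic sets. -/
def Colour_mono {ι κ : Type} (col : ι → κ) (S : Finset ι) : Prop :=
  ∀ z ∈ S, ∀ z' ∈ S, col z = col z'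

theorem pf_Dense (h : StIndep) : StDense := by
  intro I _ _ p h0 h1 ι κ T col A E χ k r hc hr hdep hdis hE
  refine (Pr_mono h0 h1 (B := fun ω => ∃ S ∈ (powersetCard k T).filter
    (Colour_mono col), ∀ z ∈ S, E z ω) fun ω hω => ?_).trans
    ((Pr_union h0 h1 _ _).trans ?_)
  · obtain ⟨c, -, hk⟩ := exists_lt_card_fiber_of_mul_lt_card_of_maps_to
      (s := T.filter fun z => E z ω) (t := T.image col) (f := col) (n := k)
      (fun z hz => mem_image_of_mem col (mem_filter.1 hz).1)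
      ((Nat.mul_le_mul_right k hc).trans_lt hω)
    obtain ⟨S, hS, hk'⟩ := exists_subset_card_eq hk.le
    have a := fun z (hz : z ∈ S) => mem_filter.1 (hS hz)
    exact ⟨S, mem_filter.2 ⟨mem_powersetCard.2 ⟨fun z hz => (mem_filter.1 (a z hz).1).1, hk'⟩,
      fun z hz z' hz' => (a z hz).2.trans (a z' hz').2.symm⟩,
      fun z hz => (mem_filter.1 (a z hz).1).2⟩
  refine (sum_le_card_nsmul _ _ (r ^ k) fun S hS => ?_).trans ?_
  · obtain ⟨hS, hm⟩ := mem_filter.1 hS
    obtain ⟨hS, hk⟩ := mem_powersetCard.1 hS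
    have e := (h (I := I) p).1 S A (fun z ω => if E z ω then (1 : ℝ) else 0)
      (fun z hz ω ω' hω => by simp only [hdep z (hS hz) ω ω' hω])
      fun z hz z' hz' hne => hdis z (hS hz) z' (hS hz') hne (hm z hz z' hz')
    have e' : (Pr p fun ω => ∀ z ∈ S, E z ω) = ∏ z ∈ S, Pr p (E z) := by
      rw [PL_Pr_eq_Ex]
      refine Eq.trans ?_ (e.trans (prod_congr rfl fun z _ => (PL_Pr_eq_Ex _).symm))
      congr 1; funext ω
      rw [prod_ite_zero, prod_const_one]
      congr
    rw [e', ← hk, ← prod_const]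
    refine prod_le_prod (fun z _ => sum_nonneg fun ω _ => ?_) fun z hz => hE z (hS hz)
    split_ifs
    · exact wt_nonneg h0 h1 ω
    · exact le_rfl
  · rw [nsmul_eq_mul, mul_pow]
    gcongr
    exact_mod_cast (card_filter_le _ _).trans
      ((card_powersetCard _ _).le.trans (Nat.choose_le_pow _ _))

end Pool.Agent.P.MP_67bca4_pr
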