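import Pool.Agent.P.MP_67bca4_pr.AH.S1

namespace Pool.Agent.P.MP_67bca4_pr

open Finset
open scoped Classical

variable {D : ℕ}

/-- The points of an optional walk. -/
noncomputable def CountFn_pts (x : V D) : Option (List (V D)) → Finset (V D)
  | none => ∅
  | some w => (x :: w).toFinset

/-- The weight of an optional walk. -/
noncomputable def CountFn_wgt (c : V D → ℝ) (θ : ℝ) (x : V D) : Option (List (V D)) → ℝ
  | none => 1
  | some w => 3 * Real.exp (-θ) * Real.exp (-wcost c x w)

/-- The cost of an optional walk. -/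
noncomputable def CountFn_cst (c : V D → ℝ) (θ : ℝ) (x : V D) : Option (List (V D)) → ℝ
  | none => 0
  | some w => 4 * wcost c x w + θ

theorem CountFn_wgt_nonneg (c : V D → ℝ) (θ : ℝ) (x : V D) (o : Option (List (V D))) :
    0 ≤ CountFn_wgt c θ x o := by
  cases o with
  | none => exact zero_le_one
  | some w => unfold CountFn_wgt; positivity

theorem CountFn_one {c : V D → ℝ} (hc : ∀ S : Finset (V D), ∑ v ∈ S, Real.exp (-c v) ≤ 1 / 2)
    (θ : ℝ) (x : V D) (o : Option (List (V D))) :
    (3 : ℝ) ^ (CountFn_pts x o).card ≤ CountFn_wgt c θ x o * Real.exp (CountFn_cst c θ x o) := by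
  cases o with
  | none => simp [CountFn_pts, CountFn_wgt, CountFn_cst]
  | some u =>
    have h5 : (3 : ℝ) ^ (x :: u).toFinset.card ≤ 3 * Real.exp (3 * wcost c x u) := by
      refine (pow_le_pow_right₀ (by norm_num) (List.toFinset_card_le _)).trans ?_
      rw [List.length_cons, pow_succ']
      refine mul_le_mul_of_nonneg_left ?_ (by norm_num)
      calc (3 : ℝ) ^ u.length ≤ (2 ^ 3) ^ u.length := pow_le_pow_left₀ (by norm_num) (by norm_num) _
        _ = (2 ^ u.length) ^ 3 := by rw [← pow_mul, ← pow_mul, mul_comm]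
        _ ≤ Real.exp (wcost c x u) ^ 3 := pow_le_pow_left₀ (by positivity) (count_len hc u x) 3
        _ = Real.exp (3 * wcost c x u) := by rw [← Real.exp_nat_mul]; norm_num
    refine h5.trans (le_of_eq ?_)
    simp only [CountFn_wgt, CountFn_cst]
    rw [mul_assoc, mul_assoc, ← Real.exp_add, ← Real.exp_add]
    congr 2
    ring

theorem CountFn_sum {c : V D → ℝ} (hc : ∀ S : Finset (V D), ∑ v ∈ S, Real.exp (-c v) ≤ 1 / 2)
    (θ : ℝ) (x : V D) (O : Finset (Option (List (V D)))) :
    ∑ o ∈ O, CountFn_wgt c θ x o ≤ Real.exp (6 * Real.exp (-θ)) := by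
  set L : Finset (List (V D)) := O.eraseNone with hL
  have h1 : O ⊆ insertNone L := by
    intro o ho
    rw [mem_insertNone]
    intro a ha
    rw [hL, mem_eraseNone]
    rwa [Option.mem_def.1 ha] at ho
  refine (sum_le_sum_of_subset_of_nonneg h1 fun o _ _ => CountFn_wgt_nonneg c θ x o).trans ?_
  rw [sum_insertNone]
  simp only [CountFn_wgt]
  rw [← mul_sum]
  have h2 := count_lists hc (L.sup List.length + 1) x L fun u hu =>
    Nat.lt_succ_of_le (le_sup (f := List.length) hu)
  have h3 := Real.add_one_le_exp (6 * Real.exp (-θ))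
  have h4 := Real.exp_pos (-θ)
  nlinarith

theorem pf_CountFn : StCountFn := by
  intro D c hc φ Ω j i A T θ hθ S hS
  choose! R Q ℓ hR hj hT hA hP using fun f hf => (hS f hf).1
  choose! w hw1 hw2 using hT
  let W : Fn D → (Ω → Option (List (V D))) := fun f r => if r.1 ∈ R f then some (w f r.1) else none
  have h1 : ∀ u ∈ S.image W, (#{f ∈ S | W f = u} : ℝ) ≤
      Real.exp (4 * A + T + j * θ) * ∏ r : Ω, CountFn_wgt c θ (φ r.1) (u r) := by
    intro u hu
    obtain ⟨g, hg, hgu⟩ := mem_image.1 hu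
    have h2 : ∑ r : Ω, CountFn_cst c θ (φ r.1) (u r) ≤ 4 * A + j * θ := by
      have e1 : ∀ r : Ω, CountFn_cst c θ (φ r.1) (u r) =
          if r.1 ∈ R g then 4 * wcost c (φ r.1) (w g r.1) + θ else 0 := by
        intro r
        rw [← hgu]
        simp only [W]
        split_ifs <;> rfl
      rw [sum_congr rfl fun r _ => e1 r,
        sum_coe_sort Ω fun r => if r ∈ R g then 4 * wcost c (φ r) (w g r) + θ else 0,
        ← sum_filter, filter_mem_eq_inter, inter_eq_right.2 (hR g hg), sum_add_distrib,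
        ← mul_sum, sum_const, nsmul_eq_mul]
      have e2 : ∑ r ∈ R g, wcost c (φ r) (w g r) ≤ A :=
        (sum_le_sum fun r hr => hw2 g hg r hr).trans (hA g hg)
      have e3 : ((R g).card : ℝ) * θ ≤ j * θ :=
        mul_le_mul_of_nonneg_right (Nat.cast_le.2 (hj g hg)) hθ
      linarith
    have h3 := count_fixed (univ.biUnion fun r : Ω => CountFn_pts (φ r.1) (u r)) i
      {f ∈ S | W f = u} fun f hf p hp => by
        obtain ⟨h4, h5⟩ := mem_filter.1 hf
        obtain ⟨r, hr, hpr⟩ := hP f h4 p hp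
        refine mem_biUnion.2 ⟨⟨r, hR f h4 hr⟩, mem_univ _, ?_⟩
        rw [← h5]
        simp only [W, if_pos hr, CountFn_pts]
        exact List.mem_toFinset.2 (hw1 f h4 r hr p hpr)
    have h4 := card_nsmul_le_sum {f ∈ S | W f = u} (fun f => Real.exp (-(TVi f i : ℝ)))
      (Real.exp (-T)) fun f hf => Real.exp_le_exp.2 (neg_le_neg (hS f (mem_filter.1 hf).1).2)
    rw [nsmul_eq_mul] at h4
    have h5 : (3 : ℝ) ^ (univ.biUnion fun r : Ω => CountFn_pts (φ r.1) (u r)).card ≤
        (∏ r : Ω, CountFn_wgt c θ (φ r.1) (u r)) * Real.exp (4 * A + j * θ) := by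
      refine (pow_le_pow_right₀ (by norm_num) card_biUnion_le).trans ?_
      rw [← prod_pow_eq_pow_sum]
      refine (prod_le_prod (fun _ _ => by positivity)
        fun r _ => CountFn_one hc θ (φ r.1) (u r)).trans ?_
      rw [prod_mul_distrib, ← Real.exp_sum]
      exact mul_le_mul_of_nonneg_left (Real.exp_le_exp.2 h2)
        (prod_nonneg fun r _ => CountFn_wgt_nonneg _ _ _ _)
    have h6 := mul_le_mul_of_nonneg_right (h4.trans (h3.trans h5)) (Real.exp_pos T).le
    rw [mul_assoc, ← Real.exp_add, neg_add_cancel, Real.exp_zero, mul_one, mul_assoc,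
      ← Real.exp_add] at h6
    refine h6.trans (le_of_eq ?_)
    rw [mul_comm]
    congr 2
    ring
  rw [card_eq_sum_card_image W S, Nat.cast_sum]
  refine (sum_le_sum h1).trans ?_
  rw [← mul_sum, Real.exp_add (4 * A + T + j * θ)]
  refine mul_le_mul_of_nonneg_left ?_ (Real.exp_pos _).le
  refine (sum_le_sum_of_subset_of_nonneg
    (t := Fintype.piFinset fun r : Ω => S.image fun f => W f r) (fun v hv => ?_)
    fun _ _ _ => prod_nonneg fun r _ => CountFn_wgt_nonneg _ _ _ _).trans ?_
  · obtain ⟨f, hf, rfl⟩ := mem_image.1 hv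
    exact Fintype.mem_piFinset.2 fun p => mem_image_of_mem _ hf
  · rw [← prod_univ_sum (fun r : Ω => S.image fun f => W f r)
      fun r o => CountFn_wgt c θ (φ r.1) o]
    refine (prod_le_prod (fun _ _ => sum_nonneg fun _ _ => CountFn_wgt_nonneg _ _ _ _)
      fun r _ => CountFn_sum hc θ (φ r.1) _).trans (le_of_eq ?_)
    rw [prod_const, card_univ, Fintype.card_coe, ← Real.exp_nat_mul]
    congr 1
    ring

end Pool.Agent.P.MP_67bca4_pr
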