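import Pool.Agent.P.MP_67bca4_pr.AH.S1

/-! The number of shifts of a level, with several roots. -/

namespace Pool.Agent.P.MP_67bca4_pr

open Finset
open scoped Classical

variable {D : ℕ}

lemma CountLev_log (hD : 100 ≤ D) : 3 ≤ Real.log D := by
  have h0 : (100 : ℝ) ≤ D := by exact_mod_cast hD
  rw [Real.le_log_iff_exp_le (by linarith)]
  have h1 := Real.exp_one_lt_d9
  have h2 : Real.exp 3 = Real.exp 1 ^ 3 := by rw [← Real.exp_nat_mul]; norm_num
  have h3 : Real.exp 1 ^ 3 ≤ 3 ^ 3 := pow_le_pow_left₀ (Real.exp_pos 1).le (by linarith) 3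
  rw [h2]
  linarith

lemma CountLev_prune {φ : V D → V D} {Ω P : Finset (V D)} {j μ q m : ℕ} {L : ℝ}
    (h : MTour l1 φ Ω j P L) (hq : 0 < q) (h1 : j * μ ≤ m) (h2 : q * P.card ≤ m) :
    MTour l1 φ Ω (m / max μ q) P L := by
  refine h.prune.mono_j ((Nat.le_div_iff_mul_le (lt_max_of_lt_right hq)).2 ?_)
  rcases max_choice μ q with e | e <;> rw [e]
  · exact (Nat.mul_le_mul_right _ (min_le_left _ _)).trans h1
  · exact (Nat.mul_le_mul_right _ (min_le_right _ _)).trans (by rwa [mul_comm])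

lemma CountLev_div (m ν : ℕ) {θ : ℝ} (hθ : 0 ≤ θ) : ((m / ν : ℕ) : ℝ) * θ ≤ θ * m / ν := by
  rw [mul_comm, mul_div_assoc]
  exact mul_le_mul_of_nonneg_left Nat.cast_div_le hθ

lemma CountLev_zero (h : StCountFn) (hD : 100 ≤ D) (n : ℕ) (Ω : Finset (V D)) (μ m : ℕ) (η : ℝ)
    (hη : 0 ≤ η) (S : Finset (Fn D)) (hS : ∀ t ∈ S, AdmM n Ω μ t m) :
    (S.card : ℝ) ≤ Real.exp (300 * m * Real.log D / D + D + ((m / max μ 1 : ℕ) : ℝ) * η +
      6 * Ω.card * Real.exp (-η)) := by
  have h100 : (100 : ℝ) ≤ D := by exact_mod_cast hD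
  have h0 : (0 : ℝ) < D := by linarith
  have hl1 := cl_log_le hD
  have hl2 := CountLev_log hD
  have h3 := Real.log_le_sub_one_of_pos (x := (3 : ℝ)) (by norm_num)
  have h4 := Real.log_le_sub_one_of_pos (x := (4 : ℝ)) (by norm_num)
  have h3' : 0 ≤ Real.log 3 := Real.log_nonneg (by norm_num)
  have h4' : 0 ≤ Real.log 4 := Real.log_nonneg (by norm_num)
  set θ : ℝ := 1 / (D : ℝ) ^ 2 with hθ
  have hθ0 : 0 < θ := by positivity
  have hθ1 : θ ≤ 1 := by rw [hθ, div_le_one (by positivity)]; nlinarith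
  have hK : Real.log (3 / θ) = Real.log 3 + 2 * Real.log D := by
    rw [hθ, div_div_eq_mul_div, div_one, Real.log_mul (by norm_num) (by positivity), Real.log_pow]
    norm_num
  set K₁ : ℝ := D * Real.log (3 / θ) + Real.log 4 with hK₁
  have hK0 : 0 ≤ K₁ := by rw [hK₁, hK]; positivity
  have hK1 : K₁ ≤ (D : ℝ) ^ 2 := by rw [hK₁, hK]; nlinarith
  let c : Fin D → V D → ℝ := fun i v => min (cLong θ v) (cShort i v)
  set u : ℝ := m / D with hu
  have hu0 : 0 ≤ u := by positivity
  let Q : Fin D → Fn D → Prop := fun i f =>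
    MTour (c i) id Ω (m / max μ 1) (bases (dirE (jumps f) i)) ((53 + 52 * Real.log D) * u) ∧
      (TVi f i : ℝ) ≤ 2 * u
  have hQ : ∀ t ∈ S, ∃ i, Q i t := by
    intro t ht
    obtain ⟨J, -, h1, hJ, h2, h3, h4, j, h6, h5⟩ := hS t ht
    obtain ⟨i, hi⟩ := cl_exists_dir hD J t h4 h1
    have hi' : ((dirE J i).card : ℝ) + TVi t i ≤ 2 * u := by
      rw [hu, ← mul_div_assoc, le_div_iff₀ h0, mul_comm]
      exact_mod_cast hi
    have hJm : (J.card : ℝ) ≤ m := by exact_mod_cast h4
    have a0 : (0 : ℝ) ≤ (dirE J i).card := Nat.cast_nonneg _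
    have a1 : (0 : ℝ) ≤ TVi t i := Nat.cast_nonneg _
    have h7 := CountLev_prune h5 one_pos h6 (by rw [one_mul]; exact card_image_le.trans h4)
    refine ⟨i, (lm_tourM (by omega) h2 h3 h7 i (c := c i) (θ := θ) (K₁ := K₁)
      (K₂ := 13 * Real.log D) (fun v => ?_) hθ0.le hK0 (by positivity)
      (fun v => min_le_left _ _)
      (fun ρ w hw => (min_le_right _ _).trans (cShort_le hD i ρ w hw))).mono
      (cl_bases_dirE_mono hJ i) ?_, by linarith⟩
    · simp [c, cLong, cShort, l1_neg]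
    · have b1 : θ * (50 * D * m) = 50 * u := by rw [hθ, hu]; field_simp
      have b2 : K₁ * (J.card / (D : ℝ) ^ 3) ≤ u := by
        calc K₁ * (J.card / (D : ℝ) ^ 3) ≤ (D : ℝ) ^ 2 * (m / (D : ℝ) ^ 3) := by gcongr
          _ = u := by rw [hu]; field_simp
      have b3 : 2 * (J.card : ℝ) / D ≤ 2 * u := by
        rw [hu, mul_div_assoc]; gcongr
      have b4 : 2 * (13 * Real.log D) * (dirE J i).card ≤ 2 * (13 * Real.log D) * (2 * u) := by
        gcongr; linarith
      rw [b1]
      nlinarith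
  have hc : ∀ i, ((S.filter (Q i)).card : ℝ) ≤
      Real.exp (4 * ((53 + 52 * Real.log D) * u) + 2 * u + ((m / max μ 1 : ℕ) : ℝ) * η +
        6 * Ω.card * Real.exp (-η)) := fun i =>
    h (c := c i) (fun T => by
      have a := sum_cLong hθ0 hθ1 T
      have b := sum_cShort i T
      have : ∑ v ∈ T, Real.exp (-c i v) ≤
          ∑ v ∈ T, (Real.exp (-cLong θ v) + Real.exp (-cShort i v)) := sum_le_sum fun v _ => by
        have p := Real.exp_pos (-cLong θ v)
        have q := Real.exp_pos (-cShort i v)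
        rcases min_choice (cLong θ v) (cShort i v) with h | h <;> simp only [c, h] <;> linarith
      rw [sum_add_distrib] at this
      linarith) id Ω _ i _ _ η hη _ fun f hf => (mem_filter.1 hf).2
  have hsub : S ⊆ univ.biUnion fun i => S.filter (Q i) := fun t ht => by
    obtain ⟨i, hi⟩ := hQ t ht
    exact mem_biUnion.2 ⟨i, mem_univ _, mem_filter.2 ⟨ht, hi⟩⟩
  calc (S.card : ℝ) ≤ ∑ i : Fin D, ((S.filter (Q i)).card : ℝ) := by
        exact_mod_cast (card_le_card hsub).trans card_biUnion_le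
    _ ≤ ∑ _i : Fin D, Real.exp (4 * ((53 + 52 * Real.log D) * u) + 2 * u +
          ((m / max μ 1 : ℕ) : ℝ) * η + 6 * Ω.card * Real.exp (-η)) :=
        sum_le_sum fun i _ => hc i
    _ = Real.exp (Real.log D + (4 * ((53 + 52 * Real.log D) * u) + 2 * u +
          ((m / max μ 1 : ℕ) : ℝ) * η + 6 * Ω.card * Real.exp (-η))) := by
        rw [Real.exp_add (Real.log D), Real.exp_log h0]; simp
    _ ≤ _ := by
        refine Real.exp_le_exp.2 ?_
        have : 300 * m * Real.log D / D = 300 * Real.log D * u := by rw [hu]; ring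
        rw [this]
        nlinarith [mul_nonneg hu0 (sub_nonneg.2 hl2)]

theorem pf_CountLev (h : StCountFn) : StCountLev := by
  intro D hD n Ω μ m l η hη S hS
  by_cases hl : l = 0
  · rw [ent, if_pos hl]
    refine (CountLev_zero h hD n Ω μ m η hη S fun t ht => (hS t ht).1 hl).trans
      (Real.exp_le_exp.2 ?_)
    have := CountLev_div m (max μ 1) hη
    rw [hl, zero_mul, pow_zero]
    linarith
  rw [ent, if_neg hl]
  have h100 : (100 : ℝ) ≤ D := by exact_mod_cast hD
  have h0 : (0 : ℝ) < D := by linarith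
  have hl1 := cl_log_le hD
  have hl2 := cl_one_le_log hD
  have h3 := Real.log_le_sub_one_of_pos (x := (3 : ℝ)) (by norm_num)
  have h4 := Real.log_le_sub_one_of_pos (x := (4 : ℝ)) (by norm_num)
  have h3' : 0 ≤ Real.log 3 := Real.log_nonneg (by norm_num)
  have h4' : 0 ≤ Real.log 4 := Real.log_nonneg (by norm_num)
  have h2 := Real.log_two_lt_d9
  have h2' : 0 ≤ Real.log 2 := Real.log_nonneg (by norm_num)
  have hl' : (1 : ℝ) ≤ l := by exact_mod_cast Nat.one_le_iff_ne_zero.2 hl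
  have hdiv := CountLev_div m (max μ (2 ^ (l * (D - 2)))) hη
  set q : ℝ := 2 ^ (l * (D - 2)) with hq
  have hq1 : 1 ≤ q := one_le_pow₀ (by norm_num)
  set θ : ℝ := 1 / (D * q) with hθ
  have hθ0 : 0 < θ := by positivity
  have hθ1 : θ ≤ 1 := by rw [hθ, div_le_one (by positivity)]; nlinarith
  have hlq : Real.log q ≤ l * D * 0.7 := by
    rw [hq, Real.log_pow]
    have : ((l * (D - 2) : ℕ) : ℝ) ≤ l * D := by
      exact_mod_cast Nat.mul_le_mul_left l (Nat.sub_le D 2)
    calc ((l * (D - 2) : ℕ) : ℝ) * Real.log 2 ≤ l * D * Real.log 2 := by gcongr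
      _ ≤ l * D * 0.7 := by gcongr; linarith
  have hlq0 : 0 ≤ Real.log q := Real.log_nonneg hq1
  have hK : Real.log (3 / θ) = Real.log 3 + (Real.log D + Real.log q) := by
    rw [hθ, div_div_eq_mul_div, div_one, Real.log_mul (by norm_num) (by positivity),
      Real.log_mul (by positivity) (by positivity)]
  set K : ℝ := D * Real.log (3 / θ) + Real.log 4 with hKd
  have hK0 : 0 ≤ K := by rw [hKd, hK]; positivity
  have hK1 : 4 * (58 + K) + 1 ≤ 5 * (D : ℝ) ^ 2 * l := by
    have a : D * Real.log q ≤ D * (l * D * 0.7) := by gcongr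
    have b : D * Real.log D ≤ D * (D / 10 + 8) := by gcongr
    have c : D * Real.log 3 ≤ D * 2 := by gcongr; linarith
    have d : (D : ℝ) ^ 2 * 1 ≤ (D : ℝ) ^ 2 * l := by gcongr
    rw [hKd, hK]
    nlinarith
  set T : ℝ := m / q with hT
  have hT0 : 0 ≤ T := by positivity
  choose! f j hf using fun t ht => (hS t ht).2 hl
  have hinj : Set.InjOn f S := fun t ht t' ht' h => by
    ext x
    rw [(hf t ht).1, (hf t' ht').1, h]
  rw [← card_image_of_injOn hinj]
  let i : Fin D := ⟨0, by omega⟩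
  refine (h (c := cLong θ) (fun U => (sum_cLong hθ0 hθ1 U).trans (by norm_num))
    (dn l) Ω (m / max μ (2 ^ (l * (D - 2)))) i (58 * T + K * T) T η hη _ fun g hg => ?_).trans
    (Real.exp_le_exp.2 ?_)
  · obtain ⟨t, ht, rfl⟩ := mem_image.1 hg
    obtain ⟨-, a, a', b⟩ := hf t ht
    have hTV : (TV (f t) : ℝ) ≤ T := by
      rw [hT, le_div_iff₀ (by positivity), mul_comm, hq]
      exact_mod_cast a
    have hb : (bases (jumps (f t))).card ≤ TV (f t) := card_image_le.trans (card_jumps_le _)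
    have b' := CountLev_prune b (q := 2 ^ (l * (D - 2))) (by positivity) a'
      ((Nat.mul_le_mul_left _ hb).trans a)
    refine ⟨(b'.short hθ0.le (K := K) fun v => le_rfl).mono
      (image_subset_image (filter_subset _ _)) ?_, le_trans ?_ hTV⟩
    · have b1 : θ * (58 * D * m) = 58 * T := by rw [hθ, hT]; field_simp
      have b2 : ((bases (jumps (f t))).card : ℝ) ≤ T := le_trans (by exact_mod_cast hb) hTV
      rw [b1]
      gcongr
    · exact_mod_cast sum_le_sum_of_subset (filter_subset _ _)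
  · have : 5 * m * (D : ℝ) ^ 2 * l / q = 5 * (D : ℝ) ^ 2 * l * T := by rw [hT]; ring
    rw [this]
    nlinarith [mul_le_mul_of_nonneg_right hK1 hT0]

end Pool.Agent.P.MP_67bca4_pr
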