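import Pool.Agent.P.MP_67bca4_pr.AH.S2

/-!
Uncovered violating columns and unused roots lie in problem blocks or in the boundary layer.
-/

namespace Pool.Agent.P.MP_67bca4_pr

open Finset
open scoped Classical

variable {D : ℕ}

lemma Cover_blkL (P : Par D) (x : V D) : x - P.cL (P.blk x) ∈ P.blkL :=
  mem_cube.2 fun i => by
    have h := P.blk_bounds x i
    simp only [Pi.sub_apply, Par.cL]
    omega

lemma Cover_hatQ (P : Par D) (x : V D) : x - P.cQ (P.blk x) ∈ hatB D P.nQ :=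
  mem_hatB.2 fun i => by
    have h := P.blk_bounds x i
    have h5 := P.nQ_eq
    simp only [Pi.sub_apply, Par.cQ]
    omega

lemma Cover_corner (P : Par D) (z : V D) {v : V D} (hv : v ∈ ball D P.Lam) :
    P.cB z - P.cQ (z + v) ∈ hatB D P.nQ :=
  mem_hatB.2 fun i => by
    have h3 := P.mul_ball hv i
    have h4 := P.RQ_eq
    have h5 := P.nQ_eq
    simp only [Pi.sub_apply, Par.cQ, Par.cB, Pi.add_apply, mul_add]
    omega

lemma Cover_tr (P : Par D) (z : V D) (ξ : Dis D) :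
    tr (P.cL 0 + cv P.RQ) (tr (P.cQ z) ξ) = tr (P.cL z) ξ := by
  rw [tr_tr]
  congr 1
  funext i
  simp only [Pi.add_apply, Par.cL, Par.cQ, cv_apply, Pi.zero_apply]
  ring

/-- A violating column in a block that is not spoilt makes its block bad at every level. -/
lemma Cover_bad (h1 : StE2) {P : Par D} {a b : ℝ} (hP : P.Ok a b) {n : ℕ} {ξ : Dis D}
    (hξ : TwoV a b ξ) {F : Conf D} (hF : IsMin n ξ F) {x : V D} (hz : P.blk x ∈ P.ZQ n)
    (hw : ¬WinCol (-P.K1) P.K2 (F x)) (hS : ¬P.Sp a b n ξ (P.blk x)) (u : ℤ) :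
    P.Bad b u ξ (P.blk x) := by
  have hL : P.blk x ∈ P.ZL n := by simpa using P.add_mem_ZL hz (zero_mem_ball _)
  rcases h1 hP.hD hP.ha hP.hab.le hP.hb hξ (P.cubeIn_of_ZL hL) hF (B := P.blkL) hP.one_le_mg
    (fun p hp q hq => P.far_blkL hp hq) (Cover_blkL P x) hw with h | h | h
  · exact Or.inl h
  · exact absurd (Or.inr ⟨hz, Or.inr ⟨x, Cover_hatQ P x, h⟩⟩) hS
  · refine absurd (Or.inr ⟨hz, Or.inl ⟨0, by omega, by omega, Or.inr ⟨0, zero_mem_ball _,
      x - P.cL (P.blk x), hP.blkL_sub_inB (Cover_blkL P x), ?_⟩⟩⟩) hS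
    rw [shc_zero, Cover_tr]
    exact h

/-- Blocks that are not dense have few bad blocks nearby. -/
lemma Cover_sparse (P : Par D) {b : ℝ} {n : ℕ} {ξ : Dis D} {z : V D} (hz : z ∈ P.ZQ n)
    (hS : ¬P.DenseS b n ξ z) {u : ℤ} (hu1 : -(P.K : ℤ) ≤ u) (hu2 : u ≤ P.K) :
    ((ball D P.Lam).filter fun w => P.Bad b u ξ (z + w)).card ≤ P.k0 := by
  by_contra h
  refine hS ⟨u, hu1, hu2, lt_of_lt_of_le (not_le.1 h) ?_⟩
  refine card_le_card_of_injOn (fun w => z + w) (fun w hw => ?_) fun w _ w' _ e => ?_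
  · obtain ⟨hw1, hw2⟩ := mem_filter.1 (mem_coe.1 hw)
    refine mem_coe.2 (mem_filter.2 ⟨P.add_mem_ZL hz hw1, ?_, hw2⟩)
    rw [add_sub_cancel_left]
    refine mem_ball.2 fun i => ?_
    have h3 := mem_ball.1 hw1 i
    have h4 := P.Lam_le_rs
    omega
  · exact add_left_cancel e

theorem pf_Cover (h1 : StE2) (h2 : StPure) (h3 : StClus3) (h4 : StGain) : StCover := by
  intro D P a b hP n ξ hξ U U' C s hG t F hF
  refine ⟨fun x hx hz => ?_, fun x hx hz => ?_, fun z hz hzz hY => ?_⟩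
  · obtain ⟨-, hw, hu⟩ := mem_filter.1 hx
    obtain ⟨hzQ, hzv⟩ := mem_filter.1 hz
    by_contra hn
    have hS : ∀ v ∈ ball D P.Lam, ¬P.Sp a b n ξ (P.blk x + v) := fun v hv h =>
      hn (Or.inl ⟨v, hv, h⟩)
    have hS0 : ¬P.Sp a b n ξ (P.blk x) := by simpa using hS 0 (zero_mem_ball _)
    have hB := Cover_bad h1 hP hξ hF hzQ hw hS0
    have hPu : ∀ v ∈ ball D P.Lam, P.Pure n C s t (P.blk x + v) := fun v hv => by
      by_contra h
      exact hn (Or.inr ⟨⟨0, by omega, by omega, hB 0⟩, v, hv, hzv v hv, h⟩)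
    have hP0 : P.Pure n C s t (P.blk x) := by simpa using hPu 0 (zero_mem_ball _)
    obtain ⟨-, hr1, hr2⟩ := h2 hP hG hP0
    have hlev : ∀ v ∈ ball D P.Lam, t (P.cB (P.blk x + v)) = t (P.cB (P.blk x)) := fun v hv => by
      rw [← ((h2 hP hG (hPu v hv)).1 _ (Cover_corner P _ hv)).1]
      exact hP0.2.2
    have hK1 := hP.h3
    have hK2 := hP.h4
    obtain ⟨v, hv, hR, hc⟩ := h3 (B := fun z => P.Bad b (t (P.cB (P.blk x))) ξ z) (lam := P.lam)
      (k₀ := P.k0) (z := P.blk x) (hB _) fun v hv =>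
        Cover_sparse P (hzv v hv) (fun h => hS v hv (Or.inl h)) (by omega) (by omega)
    have hZ : P.blk x + v ∈ P.ZZ a b n ξ C s t := by
      refine mem_filter.2 ⟨hzv v hv, hPu v hv, ?_, hS v hv⟩
      rw [hlev v hv, Par.Root, P.badQ_tr_eq]
      exact hR
    refine hu _ hZ (P.mem_nb.2 ⟨-v, ?_, fun i => ?_⟩)
    · rw [hlev v hv, Par.Kl, P.badQ_tr_eq]
      exact hc
    · have h := P.blk_bounds x i
      simp only [Pi.sub_apply, Par.cQ, Pi.add_apply, Pi.neg_apply, mul_add, mul_neg]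
      omega
  · obtain ⟨hx1, hw, -⟩ := mem_filter.1 hx
    refine ⟨mem_filter.2 ⟨hx1, hz⟩, Gain.goodAt hP.ha.le ?_⟩
    have hk1 := hP.h1
    have hk2 := hP.h2
    exact ((h4 hP.hD hP.ha hP.hab.le hP.hb hξ).1 hF x).1 P.h0 _ _ hP.one_le_h0 (by omega)
      (by omega) hw
  · obtain ⟨hR, -, -, hr1, hr2⟩ := Par.ind_of_Y_ne hY
    have hK1 := hP.h3
    have hK2 := hP.h4
    by_cases hS : P.Sp a b n ξ z
    · exact Or.inl ⟨0, zero_mem_ball _, by simpa using hS⟩
    · refine Or.inr ⟨⟨t (P.cB z), by omega, by omega, ?_⟩, 0, zero_mem_ball _,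
        by simpa using hz, ?_⟩
      · simpa using (P.badQ_tr b _ ξ z 0).1 hR.1
      · rw [add_zero]
        exact fun h => hzz (mem_filter.2 ⟨hz, h, hR, hS⟩)

end Pool.Agent.P.MP_67bca4_pr
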