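import Pool.Agent.P.MP_67bca4_pr.AH.S2

/-! The data from a slab minimiser and the lower bound for the centred sum along a chain. -/

namespace Pool.Agent.P.MP_67bca4_pr

open Finset
open scoped Classical

/-- A closed family of the remaining contours is closed in the full contour set. -/
theorem Data_closed {D : ℕ} {J C C' : Finset (Ed D)} (hC : Closed J C) (h : Closed (J \ C) C') :
    Closed J C' ∧ Disjoint C' C := by
  refine ⟨⟨h.1.trans sdiff_subset, fun e he e' he' hs => ?_⟩, ?_⟩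
  · have h1 := mem_sdiff.1 (h.1 he)
    refine h.2 e he e' (mem_sdiff.2 ⟨he', fun h2 => h1.2 ?_⟩) hs
    exact hC.2 e' h2 e h1.1 hs.symm
  · exact disjoint_left.2 fun e he => (mem_sdiff.1 (h.1 he)).2

theorem pf_Data (h1 : StBigW) (h2 : StMaxFam) (h3 : StLemA) : StData := by
  intro D P a b hP n ξ hξ
  have hD := hP.hD
  have hle : ∀ x o k, a ≤ ξ x o k ∧ ξ x o k ≤ b := fun x o k => hξ.le hP.hab.le x o k
  obtain ⟨U, hU⟩ := exists_isMinC (n := n) (K := WCl n (-P.K1) P.K2) hP.ha.le hP.b_pos.le hξ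
    (wcl_nonempty n (by omega) (by omega))
  have hbig : Big (JU n U) := h1 hD hP.ha hP.hb hle hU
  obtain ⟨C, hC, ⟨j, hj, hT⟩, hmax⟩ := h2 (Jst n U) (hatB D n) P.M hP.one_le_M
  obtain ⟨s, U', c1, c2, c3, c4, c5, c6, c7, c8⟩ :=
    h3 (n := n) (by omega) (fun x o k => (hle x o k).1) hU.1.1 hC
  have hcard : C.card ≤ 2 * D * Xs n U C := card_le_Xs (by omega) hC.1
  refine ⟨U, U', C, s, ⟨hU, hC, c1, c2, c3.trans inter_subset_right, c5,
    fun x => c7 x _ _ (hU.1.2 x), c8, ?_⟩, ⟨j, hj, hT⟩, hcard, c4, fun m hm => ?_⟩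
  · rintro y hy ⟨C', d1, d2, d3⟩
    rw [c6] at d1
    obtain ⟨e1, e2⟩ := Data_closed hC d1
    exact hmax y hy C' e1 e2 d2 d3
  · have hcm : C.card ≤ D * m := hcard.trans (by
      rw [mul_comm 2 D, mul_assoc]
      exact Nat.mul_le_mul_left _ hm)
    refine ⟨c2, c4.trans hm, c3, sqCl_JU_inter hU.1.1 hC, hbig.JU_inter hC, ?_, j, ?_, ?_⟩
    · have := (card_JU_inter_le (n := n) (U := U) (C := C)).trans (Wt_le_Xs (n := n))
      omega
    · have h4 : D * (j * P.mu) ≤ D * m := by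
        have h5 : D * (j * P.mu) = j * P.M := by unfold Par.M; ring
        rw [h5]
        exact hj.trans hcm
      exact Nat.le_of_mul_le_mul_left h4 (by omega)
    · refine hT.mono (image_subset_image inter_subset_right) ?_
      have h4 : (C.card : ℝ) ≤ D * m := by exact_mod_cast hcm
      linarith

/-- Telescoping along a chain with geometrically small steps. -/
theorem Data_tele {f : ℕ → ℝ} {c : ℝ} {l₀ : ℕ}
    (h : ∀ l, l₀ ≤ l → f (l + 1) - f l ≤ c / 2 ^ (l + 5)) (k : ℕ) :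
    f (l₀ + k) - f l₀ ≤ c / 2 ^ (l₀ + 4) - c / 2 ^ (l₀ + k + 4) := by
  induction k with
  | zero => simp
  | succ k ih =>
    have h1 := h (l₀ + k) (by omega)
    have h2 : c / 2 ^ (l₀ + k + 4) = 2 * (c / 2 ^ (l₀ + k + 5)) := by
      field_simp
      ring
    rw [show l₀ + (k + 1) + 4 = l₀ + k + 5 by omega, ← add_assoc]
    linarith

theorem Data_step {α β : Type} {t : ℕ → α → β} {x : α} {k : ℕ} (h : t 0 x ≠ t k x) :
    ∃ l, l < k ∧ t (l + 1) x ≠ t l x := by
  induction k with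
  | zero => exact absurd rfl h
  | succ k ih =>
    by_cases h1 : t (k + 1) x = t k x
    · obtain ⟨l, h2, h3⟩ := ih (h1 ▸ h)
      exact ⟨l, by omega, h3⟩
    · exact ⟨k, by omega, h1⟩

theorem pf_Ylow : StYlow := by
  intro D P a b hP mY hmY n m₀ m ξ t Q hm hL hK hz hY
  have hD := hP.hD
  have ha := hP.ha
  have h0 : P.Ybar b mY n ξ (0 : Fn D) = 0 := by
    unfold Par.Ybar
    refine sum_eq_zero fun z _ => ?_
    simp only [Finsupp.coe_zero, Pi.zero_apply, hP.Y_zero, hmY, sub_self]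
  have ham : (0 : ℝ) ≤ a * m := by positivity
  refine ⟨?_, fun x hx => ?_⟩
  · have hstep : ∀ l, P.l0 ≤ l → P.Ybar b mY n ξ (t (l + 1)) - P.Ybar b mY n ξ (t l) ≤
        a * m / 2 ^ (l + 5) := by
      intro l hl
      by_cases h1 : 2 ^ (l * (D - 2)) ≤ m
      · by_contra h2
        exact hY ⟨m, l, t l, t (l + 1), hm, hl, h1, hL l, hL (l + 1), (hK l).2.2.2.1,
          (not_le.1 h2).le⟩
      · have h2 : m < 2 ^ (l * (D - 2)) := not_le.1 h1
        have h3 : m < 2 ^ ((l + 1) * (D - 2)) :=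
          h2.trans_le (Nat.pow_le_pow_right (by norm_num) (Nat.mul_le_mul_right _ (by omega)))
        rw [hz l h2, hz (l + 1) h3, sub_self]
        positivity
    have h1 := Data_tele (f := fun l => P.Ybar b mY n ξ (t l)) hstep m
    have h2 : m < 2 ^ ((P.l0 + m) * (D - 2)) := by
      refine Nat.lt_two_pow_self.trans_le (Nat.pow_le_pow_right (by norm_num) ?_)
      exact le_trans (by omega) (Nat.le_mul_of_pos_right _ (by omega))
    simp only [hz _ h2, h0] at h1
    have h3 : a * m / 2 ^ (P.l0 + 4) ≤ a * m / 16 := by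
      refine div_le_div_of_nonneg_left ham (by norm_num) ?_
      rw [pow_add]
      have : (1 : ℝ) ≤ 2 ^ P.l0 := one_le_pow₀ (by norm_num)
      norm_num
      exact this
    have h4 : 0 ≤ a * m / 2 ^ (P.l0 + m + 4) := by positivity
    linarith
  · obtain ⟨l, h1, h2⟩ := Data_step (t := fun l x => t l x) hx
    obtain ⟨p, hp, h3⟩ := (hK l).2.2.2.2.2.1 x (by
      rw [Finsupp.mem_support_iff, Finsupp.sub_apply]
      exact sub_ne_zero.2 h2)
    refine ⟨p, hp, h3.trans ?_⟩
    have h4 : (2 : ℝ) ^ l ≤ 2 ^ P.l0 := pow_le_pow_right₀ (by norm_num) h1.le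
    push_cast
    gcongr

end Pool.Agent.P.MP_67bca4_pr
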