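import Pool.Agent.P.MP_67bca4_pr.AH.S1

namespace Pool.Agent.P.MP_67bca4_pr

open Finset
open scoped Classical

/-- One flip of a small nonempty closed family. -/
theorem Debig_step (h : StFlip) {D n : ℕ} (hD : 100 ≤ D) {a b : ℝ} (ha : 0 < a)
    (hb : 4 * b ≤ a * D) {ξ : Dis D} (hξ : ∀ x o k, a ≤ ξ x o k ∧ ξ x o k ≤ b) {U : Conf D}
    (hU : Cfg n U) (hB : ¬Big (JU n U)) :
    ∃ (U' : Conf D) (A : Finset (V D)), Cfg n U' ∧ (JU n U').card < (JU n U).card ∧
      (∀ x, x ∉ A → U' x = U x) ∧ En n ξ U' + a * D / 2 * A.card ≤ En n ξ U ∧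
      En n ξ U' < En n ξ U ∧ ∀ l h, Win l h U → Win l h U' := by
  unfold Big at hB
  push Not at hB
  obtain ⟨K, hK, hne, hlt⟩ := hB
  obtain ⟨U', A, SA, h1, h2, h3, h4, h5, h6, h7⟩ := h hD ha.le hξ hU hK hlt.le
  have hW : 1 ≤ Wt U K := by
    have := card_JU_inter_le (n := n) (U := U) (C := K)
    rw [inter_eq_right.mpr hK.1] at this
    exact le_trans hne.card_pos this
  have r1 : (1 : ℝ) ≤ Wt U K := by exact_mod_cast hW
  have r4 : (A.card : ℝ) ≤ SA := by exact_mod_cast h4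
  have r5 : (D : ℝ) * SA ≤ Wt U K := by exact_mod_cast h5
  have rS : (0 : ℝ) ≤ SA := Nat.cast_nonneg _
  have rD : (0 : ℝ) ≤ D := Nat.cast_nonneg _
  have t1 := mul_le_mul_of_nonneg_right hb rS
  have t2 := mul_le_mul_of_nonneg_left r5 ha.le
  have t3 := mul_le_mul_of_nonneg_left r4 (mul_nonneg ha.le rD)
  have t4 := mul_le_mul_of_nonneg_left r1 ha.le
  refine ⟨U', A, h1, ?_, h3, by linarith, by linarith, h7⟩
  rw [h2]
  exact card_lt_card (sdiff_ssubset hK.1 hne)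

theorem pf_Debig (h : StFlip) : StDebig := by
  intro D n hD a b ha hb ξ hξ S hS
  induction hk : (JU n S).card using Nat.strong_induction_on generalizing S with
  | _ k ih =>
    by_cases hB : Big (JU n S)
    · exact ⟨S, ∅, hS, hB, fun _ _ => rfl, by simp⟩
    obtain ⟨U', A, h1, h2, h3, h4, -, -⟩ := Debig_step h hD ha hb hξ hS hB
    obtain ⟨S', E, g1, g2, g3, g4⟩ := ih _ (hk ▸ h2) h1 rfl
    refine ⟨S', E ∪ A, g1, g2, fun x hx => ?_, ?_⟩
    · rw [mem_union, not_or] at hx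
      rw [g3 x hx.1, h3 x hx.2]
    · have r : ((E ∪ A).card : ℝ) ≤ E.card + A.card := by exact_mod_cast card_union_le E A
      have := mul_le_mul_of_nonneg_left r (show 0 ≤ a * D / 2 by positivity)
      linarith

theorem pf_BigW (h : StFlip) : StBigW := by
  intro D n hD a b ha hb ξ hξ l u U hU
  by_contra hB
  obtain ⟨U', -, h1, -, -, -, h5, h6⟩ := Debig_step h hD ha hb hξ hU.1.1 hB
  exact absurd (hU.2 U' ⟨h1, h6 l u hU.1.2⟩) (not_le.mpr h5)

end Pool.Agent.P.MP_67bca4_pr
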