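import Pool.Agent.P.MP_67bca4_pr.AH.S2

/-!
The deterministic count of the columns that are not nice, and the size of the boundary layer.
-/

namespace Pool.Agent.P.MP_67bca4_pr

open Finset
open scoped Classical

lemma Det_slab {D : ℕ} (n : ℕ) (i : Fin D) (S : Finset ℤ) :
    (Fintype.piFinset fun j : Fin D => if j = i then S else Finset.Icc 0 (n : ℤ)).card =
      S.card * (n + 1) ^ (D - 1) := by
  rw [Fintype.card_piFinset, ← mul_prod_erase univ _ (mem_univ i), if_pos rfl,
    prod_congr rfl (g := fun _ => n + 1) fun j hj => by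
      rw [if_neg (ne_of_mem_erase hj)]; simp]
  simp

lemma Det_ZD {D : ℕ} (P : Par D) {n : ℕ} {x : V D} (h : ∀ i, (P.R3 : ℤ) ≤ x i ∧ x i ≤ n - P.R3) :
    P.blk x ∈ P.ZD n := by
  have key : ∀ v ∈ ball D P.Lam, P.blk x + v ∈ P.ZQ n := fun v hv => P.mem_ZQ.2 fun i => by
    have h1 := h i
    have h2 := P.blk_bounds x i
    have h3 := P.mul_ball hv i
    have h4 : (P.R3 : ℤ) = P.RQ + ((P.Lam * P.r0 : ℕ) : ℤ) + 2 * P.r0 := by
      unfold Par.R3; push_cast; ring
    have h5 := P.nQ_eq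
    have h6 := P.r0_pos
    simp only [Par.cQ, Pi.add_apply, mul_add]
    omega
  refine mem_filter.2 ⟨?_, key⟩
  simpa using key 0 (zero_mem_ball _)

theorem pf_BL : StBL := by
  intro D P n
  have hsub : P.BL n ⊆ univ.biUnion fun i : Fin D =>
      (Fintype.piFinset fun j : Fin D =>
        if j = i then Finset.Ico 0 (P.R3 : ℤ) ∪ Finset.Ioc ((n : ℤ) - P.R3) n
        else Finset.Icc 0 (n : ℤ)) := by
    intro x hx
    obtain ⟨h1, h2⟩ := mem_filter.1 hx
    have h3 := mem_inB.1 h1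
    obtain ⟨i, hi⟩ := not_forall.1 fun h => h2 (Det_ZD P h)
    refine mem_biUnion.2 ⟨i, mem_univ _, Fintype.mem_piFinset.2 fun j => ?_⟩
    have := h3 j
    split_ifs with hj
    · subst hj
      simp only [mem_union, mem_Ico, mem_Ioc]
      omega
    · simp only [mem_Icc]
      omega
  refine (card_le_card hsub).trans (card_biUnion_le.trans ?_)
  simp only [Det_slab]
  rw [sum_const, card_univ, Fintype.card_fin, smul_eq_mul, ← mul_assoc]
  refine Nat.mul_le_mul_right _ ?_
  have : (Finset.Ico 0 (P.R3 : ℤ) ∪ Finset.Ioc ((n : ℤ) - P.R3) n).card ≤ 2 * P.R3 := by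
    refine (card_union_le _ _).trans ?_
    simp only [Int.card_Ico, Int.card_Ioc]
    omega
  calc _ ≤ D * (2 * P.R3) := Nat.mul_le_mul_left _ this
    _ = _ := by ring

lemma Det_fib {D : ℕ} (P : Par D) (S : Finset (V D)) (z : V D) :
    (S.filter fun x => P.blk x = z).card ≤ P.r0 ^ D := by
  have hsub : (S.filter fun x => P.blk x = z) ⊆
      Fintype.piFinset fun i => Finset.Ico (P.r0 * z i) (P.r0 * z i + P.r0) := by
    intro x hx
    refine Fintype.mem_piFinset.2 fun i => mem_Ico.2 ?_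
    have := P.blk_bounds x i
    rw [(mem_filter.1 hx).2] at this
    omega
  refine (card_le_card hsub).trans (le_of_eq ?_)
  simp

theorem pf_Det (h1 : StIneq) (h2 : StNiceP) (h3 : StImp) (h4 : StSupp) (h5 : StPure) :
    StDet := by
  intro D P a b hP n ξ hξ mY κ hκ m0 m1 m2 m₀ hm hg hy hs
  obtain ⟨U, U', C, s, t, hG, hC, hs', hst, hk⟩ := h1 hP hξ hκ m0 m1 m2 hm hg hy hs
  set S : Finset (V D) := (inB D n).filter fun x => P.Pure n C s t (P.blk x) ∧
    t (P.cB (P.blk x)) ≠ 0 ∧ t (P.cB (P.blk x)) ≠ P.us with hS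
  refine ⟨S.card, ?_, ?_, ?_⟩
  · have hsub : ((inB D n).filter fun x => ¬P.Nice n ξ x) ⊆
        (P.BL n ∪ (bases C).biUnion fun p => (ball D P.R4).image (· + p)) ∪ S := by
      intro x hx
      obtain ⟨a1, a2⟩ := mem_filter.1 hx
      by_cases c1 : P.blk x ∈ P.ZD n
      swap
      · exact mem_union_left _ (mem_union_left _ (mem_filter.2 ⟨a1, c1⟩))
      by_cases c2 : P.Pure n C s t (P.blk x)
      · refine mem_union_right _ (mem_filter.2 ⟨a1, c2, ?_⟩)
        exact not_or.1 fun h => a2 (h2 hP hξ hG c2 h)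
      obtain ⟨p, p1, p2⟩ := h3 P hst _ (mem_filter.1 c1).1 c2
      refine mem_union_left _ (mem_union_right _ (mem_biUnion.2 ⟨p, p1,
        mem_image.2 ⟨x - p, mem_ball.2 fun i => ?_, sub_add_cancel _ _⟩⟩))
      have b1 := (abs_le_l1 (P.cB (P.blk x) - p) i).trans p2
      have b2 : |(P.cB (P.blk x) - p) i| ≤ (P.R1 : ℤ) := by exact_mod_cast b1
      have b3 := P.blk_bounds x i
      have b4 : P.R4 = P.R1 + P.r0 := rfl
      rw [abs_le] at b2
      simp only [Par.cB, Pi.sub_apply] at b2 ⊢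
      omega
    refine (card_le_card hsub).trans ((card_union_le _ _).trans (Nat.add_le_add_right
      ((card_union_le _ _).trans (Nat.add_le_add_left ?_ _)) _))
    refine (card_biUnion_le_card_mul _ _ ((2 * P.R4 + 1) ^ D) fun p _ =>
      card_image_le.trans (card_ball _).le).trans (Nat.mul_le_mul_right _ ?_)
    exact card_image_le.trans hC
  · have hsub : S ⊆ s.support := by
      intro x hx
      obtain ⟨_, a2, a3, _⟩ := mem_filter.1 hx
      refine Finsupp.mem_support_iff.2 ?_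
      rw [((h5 hP hG a2).1 x (mem_hatB.2 fun i => ?_)).1]
      · exact a3
      · have b3 := P.blk_bounds x i
        have h5 := P.nQ_eq
        simp only [Par.cQ, Pi.sub_apply]
        omega
    exact (card_le_card hsub).trans
      ((h4 (le_trans (by norm_num) hP.hD) hG.supp).trans (Nat.mul_le_mul_left _ hs'))
  · have hc : S.card ≤ P.r0 ^ D * ((P.ZQ n).filter fun z => -(P.K1 : ℤ) ≤ t (P.cB z) ∧
        t (P.cB z) ≤ P.K2 ∧ t (P.cB z) ≠ 0 ∧ t (P.cB z) ≠ P.us).card := by
      refine card_le_mul_card_image_of_maps_to (f := P.blk) (fun x hx => ?_) _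
        fun z _ => Det_fib P S z
      obtain ⟨_, a2, a3, a4⟩ := mem_filter.1 hx
      have := (h5 hP hG a2).2
      exact mem_filter.2 ⟨a2.1, this.1, this.2, a3, a4⟩
    have hc' : (S.card : ℝ) ≤ (P.r0 : ℝ) ^ D * ((P.ZQ n).filter fun z => -(P.K1 : ℤ) ≤ t (P.cB z) ∧
        t (P.cB z) ≤ P.K2 ∧ t (P.cB z) ≠ 0 ∧ t (P.cB z) ≠ P.us).card := by exact_mod_cast hc
    refine (mul_le_mul_of_nonneg_left hc' hκ).trans ?_
    rw [mul_left_comm]
    exact mul_le_mul_of_nonneg_left hk (by positivity)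

end Pool.Agent.P.MP_67bca4_pr
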