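import Pool.Agent.P.MP_67bca4_pr.AH.S2

/-!
Localisation of a window violation in a small cube, and the bound for the central window costs.
-/

namespace Pool.Agent.P.MP_67bca4_pr

open Finset
open scoped Classical

theorem pf_E2 (h1 : StSep) (h2 : StGain) (h3 : StMv) : StE2 := by
  intro D n n' hD a b ha hab hb ξ hξ c hc U hU B m₁ hm hfar x hx l h hW
  by_contra hcon
  rw [not_or, not_or] at hcon
  obtain ⟨hV, hG1, hG2⟩ := hcon
  have hb0 : 0 < b := ha.trans_le hab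
  have hb2 : 2 * b < a * D := by linarith
  obtain ⟨F, hF⟩ : ∃ F, IsMin n' (tr c ξ) F :=
    exists_isMinC ha.le hb0.le (hξ.tr c) ⟨_, cfg_flat n'⟩
  have nh : ∀ {k : ℕ} {ζ : Dis D}, TwoV a b ζ → ∀ {S : Conf D}, IsMin k ζ S → ∀ y,
      ¬GoodAt k a ζ y m₁ → ¬Heavy k S y (D * m₁) := by
    intro k ζ hζ S hS y hg hh
    refine hg ((h2 hD ha hab hb hζ).2 hS.1 (big_of_isMin hD ha hb2 (hζ.le hab) hS) 0 y (D * m₁) m₁
      ?_ hh ?_ le_rfl)
    · rw [GE, IsMinC.GEc_eq hS, add_zero]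
    · rw [mul_zero]; positivity
  obtain ⟨A, W, hA1, -, -, hW1, hW2, -, hE⟩ := h1 (by omega) hc hU.1 hF.1 hF.1 (E := ∅)
    (fun _ _ => rfl) (M := D * m₁) (Nat.mul_pos (by omega) hm) (by simp)
    (P := fun p => p = x) (Nb := fun q => q - c ∈ inB D n') (fun _ h => h)
    (by
      rintro p q rfl hq
      have := hfar _ hx _ hq
      rw [sub_sub_sub_cancel_right] at this
      push_cast at this ⊢
      exact this)
    (by
      rintro p rfl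
      exact ⟨nh hξ hU _ hG1, nh (hξ.tr c) hF _ hG2⟩)
  have hg : Cfg n (glue A (mv c F) U) := fun y hy => by
    by_cases hA : A y
    · rw [glue_pos hA]; exact (h3 hc).1 F hF.1 y hy
    · rw [glue_neg hA]; exact hU.1 y hy
  have e1 := hU.2 _ hg
  have e2 := (hE ξ).2
  refine hV ⟨W, ⟨hW1, fun U' hU' => le_trans (by linarith) (hF.2 U' hU')⟩, fun hw => hW ?_⟩
  rw [← hW2 x (hA1 x rfl)]
  exact hw _ hx

lemma E2_block {D : ℕ} (P : Par D) {S : Finset (V D)} (hS : ∀ w ∈ S, w ∈ ball D (P.k0 * P.lam))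
    {x : V D} (hx : x ∈ P.nb P.r S) (hx' : x ∉ P.nb 0 S) :
    ∃ w ∈ ball D P.Lam, w ∉ S ∧ (∃ w₀ ∈ S, w - w₀ ∈ ball D P.lam) ∧
      x - (P.cL w + cv P.RQ) ∈ P.blkL := by
  obtain ⟨w₀, hw₀, h1⟩ := P.mem_nb.1 hx
  have hb := P.blk_bounds (x - cv P.RQ)
  generalize P.blk (x - cv P.RQ) = w at hb
  simp only [Pi.sub_apply, cv_apply] at hb
  have hq := P.r0_pos
  have hl := P.lam_eq
  have hd : w - w₀ ∈ ball D P.lam := mem_ball.2 fun i => by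
    have e1 := h1 i
    have e2 := hb i
    have e3 : (P.lam : ℤ) ≤ P.r0 * P.lam := le_mul_of_one_le_left (by omega) (by omega)
    rw [Pi.sub_apply]
    constructor
    · by_contra h5
      have : (P.r0 : ℤ) * (w i - w₀ i) ≤ P.r0 * (-P.lam - 1) :=
        mul_le_mul_of_nonneg_left (by omega) hq.le
      rw [mul_sub, mul_sub, mul_neg, mul_one] at this
      omega
    · by_contra h5
      have : (P.r0 : ℤ) * (P.lam + 1) ≤ P.r0 * (w i - w₀ i) :=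
        mul_le_mul_of_nonneg_left (by omega) hq.le
      rw [mul_sub, mul_add, mul_one] at this
      omega
  refine ⟨w, mem_ball.2 fun i => ?_, fun hw => hx' (P.mem_nb.2 ⟨w, hw, fun i => ?_⟩),
    ⟨w₀, hw₀, hd⟩, mem_cube.2 fun i => ?_⟩
  · have e1 := mem_ball.1 hd i
    have e2 := mem_ball.1 (hS w₀ hw₀) i
    have e3 : P.Lam = P.k0 * P.lam + P.lam := by rw [P.Lam_eq]; ring
    rw [Pi.sub_apply] at e1
    omega
  · have := hb i; omega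
  · have := hb i
    simp only [Pi.sub_apply, Pi.add_apply, Par.cL, cv_apply]
    omega

lemma E2_core (h1 : StE2) (h2 : StGain) (h3 : StClip) {D : ℕ} {P : Par D} {a b : ℝ}
    (hP : P.Ok a b) {ζ : Dis D} (hζ : TwoV a b ζ) {S : Finset (V D)} (hS1 : S.card ≤ P.k0)
    (hS2 : ∀ w ∈ S, w ∈ ball D (P.k0 * P.lam)) (hS3 : S ⊆ ball D P.Lam) {l h : ℤ} (hl : l ≤ 0)
    (hh : 0 ≤ h) (hQ : ∀ x ∈ inB D P.nQ, ¬GoodAt P.nQ a ζ x P.mg)
    (hL : ∀ w ∈ ball D P.Lam, ∀ x ∈ inB D P.nL,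
      ¬GoodAt P.nL a (tr (P.cL w + cv P.RQ) ζ) x P.mg)
    (hV : ∀ w, w ∉ S → ∀ w₀ ∈ S, w - w₀ ∈ ball D P.lam →
      ¬ViolA P.nL P.blkL l h 0 (tr (P.cL w + cv P.RQ) ζ)) :
    Phi P.nQ (P.nb P.r S) l h 0 ζ - GE P.nQ ζ ≤ P.B0 b := by
  have ha := hP.ha
  have hb0 := hP.b_pos
  have hw : ∀ x o k, 0 ≤ ζ x o k ∧ ζ x o k ≤ b := fun x o k =>
    ⟨ha.le.trans (hζ.le hP.hab.le x o k).1, (hζ.le hP.hab.le x o k).2⟩
  obtain ⟨F, hF⟩ : ∃ F, IsMin P.nQ ζ F := exists_isMinC ha.le hb0.le hζ ⟨_, cfg_flat _⟩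
  obtain ⟨G, hG1, hG2, hG3, hG4⟩ := (h3 hw hl hh hF.1).2 (P.nb 0 S) P.mg (fun x hx => by
    by_contra h5
    exact hQ x (P.nb_sub_inB (by omega) hS3 hx)
      ((((h2 hP.hD ha hP.hab.le hP.hb hζ).1 hF x).2.1 P.mg (by omega)).goodAt ha.le))
  have hwin : WinOn (P.nb P.r S) l h G := fun x hx => by
    by_cases hx' : x ∈ P.nb 0 S
    · exact hG2 x hx'
    rw [hG3 x hx']
    by_contra h5
    obtain ⟨w, hw1, hw2, ⟨w₀, hw3, hw4⟩, hw5⟩ := E2_block P hS2 hx hx'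
    rcases h1 hP.hD ha hP.hab.le hP.hb hζ (P.cubeIn_L hw1) hF (B := P.blkL) hP.one_le_mg
      (fun p hp q hq => P.far_blkL hp hq) hw5 h5 with h6 | h6 | h6
    · exact hV w hw2 w₀ hw3 hw4 h6
    · exact hQ x (P.nb_sub_inB (by omega) hS3 hx) h6
    · exact hL w hw1 _ (hP.blkL_sub_inB hw5) h6
  have e1 : Phi P.nQ (P.nb P.r S) l h 0 ζ ≤ En P.nQ ζ G :=
    GEc_le (fun x o k => (hw x o k).1) ⟨hG1, hwin⟩
  have e2 : GE P.nQ ζ = En P.nQ ζ F := IsMinC.GEc_eq hF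
  have e3 : ((P.nb 0 S).card : ℝ) ≤ P.k0 * P.r0 ^ D := by
    exact_mod_cast (P.card_nb_zero S).trans (Nat.mul_le_mul_right _ hS1)
  have e4 : ((P.nb 0 S).card : ℝ) * (b * (2 + 2 * D * P.mg)) ≤ P.B0 b :=
    mul_le_mul_of_nonneg_right e3 (by positivity)
  linarith

theorem pf_Gp (h1 : StE2) (h2 : StGain) (h3 : StClip) (h4 : StShift) (h5 : StClus1) : StGp := by
  intro D P a b hP η hη hR u hroot hu1 hu2
  obtain ⟨-, c2, c3, c4⟩ := h5 (B := P.BadQ b u η) (lam := P.lam) (k₀ := P.k0) hroot.1 hroot.2.1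
  have k1 := hP.h3
  have k2 := hP.h4
  have key : ∀ c : ℤ, -(P.K : ℤ) ≤ c → c ≤ P.K → ∀ l h : ℤ, l ≤ 0 → 0 ≤ h →
      (∀ w, ViolA P.nL P.blkL l h 0 (shc c (tr (P.cL w + cv P.RQ) η)) → P.BadQ b u η w) →
      Phi P.nQ (P.core b u η) l h 0 (shc c η) - GE P.nQ (shc c η) ≤ P.B0 b := by
    intro c hc1 hc2 l h hl hh hbad
    exact E2_core h1 h2 h3 hP (hη.shc c) (S := P.Kl b u η) c2 (fun w hw => (c3 w hw).2)
      (P.Kl_sub b u η) hl hh (fun x hx hg => hR ⟨c, hc1, hc2, Or.inl ⟨x, hx, hg⟩⟩)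
      (fun w hw x hx hg => hR ⟨c, hc1, hc2, Or.inr ⟨w, hw, x, hx, hg⟩⟩)
      (fun w hw w₀ hw₀ hd hv => hw (c4 w₀ hw₀ w (hbad w hv) hd))
  constructor
  · have := key 0 (by omega) (by omega) (-P.K1) P.K2 (by omega) (by omega) fun w hv =>
      (P.badQ_iff b u η w).2 (Or.inl (by rwa [shc_zero] at hv))
    rwa [shc_zero] at this
  · have := key u (by omega) (by omega) (u - P.K2 - u) (u + P.K1 - u) (by omega) (by omega)
      fun w hv => (P.badQ_iff b u η w).2 (Or.inr (Or.inl ((h4 _ _ _ _ _ _).2.2.2 hv)))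
    obtain ⟨e1, e2, -⟩ := h4 P.nQ (P.core b u η) (u - P.K2) (u + P.K1) u η
    rw [Par.VC, e1, e2]
    exact this

end Pool.Agent.P.MP_67bca4_pr
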