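import Pool.Agent.P.MP_67bca4_pr.AH.S1

namespace Pool.Agent.P.MP_67bca4_pr

open Finset
open scoped Classical

variable {D : ℕ}

theorem Exc_core (hD : 2 ≤ D) {n : ℕ} {ξ : Dis D} (h : ∀ x o k, 0 < ξ x o k) {U : Conf D}
    (hU : IsMin n ξ U) {C : Finset (Ed D)} (hC : Closed (Jst n U) C) {y : V D}
    (hy : y ∈ Fov n U C) (j : ℤ) (T : Col → Col) (P : Col → Prop)
    (hT1 : ∀ S S', dif (T S) (T S') ⊆ dif S S')
    (hT2 : ∀ e ∈ C, ∀ x, (e.1 = x ∨ tip e = x) → ¬Ovh (U x) → T (U x) = U x)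
    (hT3 : ∀ S, ¬P S → bd (T S) ⊆ bd S) (hT4 : ¬P (U y) → ∃ k ∈ bd (U y), k ∉ bd (T (U y)))
    (hP1 : ∀ e ∈ C, ∀ x, (e.1 = x ∨ tip e = x) → P (U x) → Ovh (U x))
    (hP2 : ∀ S S', P S → ¬P S' → j ∈ dif S S') :
    ∃ e ∈ C, j ∈ dif (U e.1) (U (tip e)) := by
  have hcfg : Cfg n U := hU.1
  have hne : ((Fov n U C).filter fun x => P (U x)).Nonempty := by
    by_contra h0
    have hall : ∀ x ∈ Fov n U C, ¬P (U x) := fun x hx hp => h0 ⟨x, mem_filter.2 ⟨hx, hp⟩⟩
    have hcfg' : Cfg n fun x => if x ∈ Fov n U C then T (U x) else U x := by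
      intro x hx
      have h1 : x ∉ Fov n U C := fun h1 => hx (hcfg.ovh_mem (mem_filter.1 h1).2.1)
      simp only [if_neg h1]
      exact hcfg x hx
    refine absurd (hU.2 _ hcfg') (not_le.2 ?_)
    unfold En
    refine add_lt_add_of_lt_of_le (sum_lt_sum (fun x _ => ?_) ⟨y, (mem_filter.1 hy).1, ?_⟩)
      (sum_le_sum fun e _ => ?_)
    · by_cases h1 : x ∈ Fov n U C
      · simp only [if_pos h1]
        exact sum_le_sum_of_subset_of_nonneg (hT3 _ (hall x h1)) fun k _ _ => (h _ _ _).le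
      · simp only [if_neg h1]
        exact le_rfl
    · simp only [if_pos hy]
      obtain ⟨k, hk, hk'⟩ := hT4 (hall y hy)
      exact sum_lt_sum_of_subset (hT3 _ (hall y hy)) hk hk' (h _ _ _) fun k _ _ => (h _ _ _).le
    · by_cases h1 : e.1 ∈ Fov n U C ∨ tip e ∈ Fov n U C
      · have heC : e ∈ C := by
          rcases h1 with h1 | h1
          · exact star_mem hD hcfg hC h1 (Or.inl rfl)
          · exact star_mem hD hcfg hC h1 (Or.inr rfl)
        have key : ∀ x, (e.1 = x ∨ tip e = x) →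
            (if x ∈ Fov n U C then T (U x) else U x) = T (U x) := by
          intro x hx
          by_cases h2 : x ∈ Fov n U C
          · rw [if_pos h2]
          · rw [if_neg h2, hT2 e heC x hx fun h3 => h2 (exc_mem_Fov hcfg h3 heC hx)]
        simp only [key _ (Or.inl rfl), key _ (Or.inr rfl)]
        exact sum_le_sum_of_subset_of_nonneg (hT1 _ _) fun k _ _ => (h _ _ _).le
      · rw [not_or] at h1
        simp only [if_neg h1.1, if_neg h1.2]
        exact le_rfl
  obtain ⟨x, hx, hmax⟩ := exists_max_image _ (fun x : V D => x ⟨0, by omega⟩) hne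
  obtain ⟨hx1, hx2⟩ := mem_filter.1 hx
  have heC : (x, (⟨0, by omega⟩ : Fin D)) ∈ C := star_mem hD hcfg hC hx1 (Or.inl rfl)
  refine ⟨_, heC, hP2 _ _ hx2 fun hp => ?_⟩
  have h3 := hmax _ (mem_filter.2
    ⟨exc_mem_Fov hcfg (hP1 _ heC _ (Or.inr rfl) hp) heC (Or.inr rfl), hp⟩)
  simp only [tip_mk, Pi.add_apply, ee_self] at h3
  omega

/-- If all flat columns touched by `C` are low, a high excursion at an overhang column of `C`
makes `C` heavy. -/
theorem Exc_inner (hD : 2 ≤ D) {n : ℕ} {ξ : Dis D} (h : ∀ x o k, 0 < ξ x o k) {U : Conf D}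
    (hU : IsMin n ξ U) {C : Finset (Ed D)} (hC : Closed (Jst n U) C) {y : V D}
    (hy : y ∈ Fov n U C) {h₀ : ℕ}
    (hfl : ∀ e ∈ C, ∀ x, (e.1 = x ∨ tip e = x) → ¬Ovh (U x) →
      ∃ c : ℤ, U x = flat c ∧ -(h₀ : ℤ) < c ∧ c < h₀)
    (hW : ¬WinCol (-(2 * h₀ : ℤ)) (2 * h₀) (U y)) : h₀ ≤ Wt U C := by
  have hy' : (∃ k, k ≤ -(2 * h₀ : ℤ) ∧ k ∉ (U y).s) ∨ ∃ k ∈ (U y).s, 2 * (h₀ : ℤ) < k := by
    by_contra h2
    refine hW ⟨fun k hk => ?_, fun k hk => ?_⟩
    · by_contra h3
      exact h2 (Or.inl ⟨k, hk, h3⟩)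
    · by_contra h3
      exact h2 (Or.inr ⟨k, hk, not_le.1 h3⟩)
  rcases hy' with ⟨k, hk, hk'⟩ | ⟨k, hk, hk'⟩
  · refine exc_card (α := -(2 * h₀ : ℤ) + 1) fun j hj hj' => ?_
    refine Exc_core hD h hU hC hy j (fun S => S.union (flat j))
      (fun S => j ∉ S.s) (fun S S' i hi => ?_) (fun e he x hex hx => ?_) (fun S hS i hi => ?_)
      (fun hp => ?_) (fun e he x hex hx => ?_) (fun S S' h2 h3 => ?_)
    · simp only [mem_dif, Col.mem_union] at hi ⊢
      tauto
    · obtain ⟨c, hc, h3, h4⟩ := hfl e he x hex hx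
      rw [hc]
      ext i
      simp only [Col.mem_union, mem_flat]
      omega
    · simp only [mem_bd, Col.mem_union, mem_flat] at hi ⊢
      rw [not_not] at hS
      rcases lt_trichotomy i j with h2 | rfl | h2
      · exact absurd ⟨fun _ => Or.inr (by omega), fun _ => Or.inr h2.le⟩ hi
      · have : ¬(i + 1 ≤ i) := by omega
        tauto
      · have h3 : ¬(i ≤ j) := by omega
        have h4 : ¬(i + 1 ≤ j) := by omega
        tauto
    · rw [not_not] at hp
      obtain ⟨i, hi, h2, h3⟩ := exc_change (S := U y) (j := k) (k := j) (by omega) (by tauto)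
      refine ⟨i, hi, ?_⟩
      simp only [mem_bd, Col.mem_union, mem_flat, not_not]
      exact ⟨fun _ => Or.inr (by omega), fun _ => Or.inr h3.le⟩
    · by_contra h2
      obtain ⟨c, hc, h3, h4⟩ := hfl e he x hex h2
      rw [hc, mem_flat] at hx
      omega
    · rw [mem_dif]
      tauto
  · refine exc_card (α := h₀) fun j hj hj' => ?_
    refine Exc_core hD h hU hC hy j (fun S => S.inter (flat j))
      (fun S => j ∈ S.s) (fun S S' i hi => ?_) (fun e he x hex hx => ?_) (fun S hS i hi => ?_)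
      (fun hp => ?_) (fun e he x hex hx => ?_) (fun S S' h2 h3 => ?_)
    · simp only [mem_dif, Col.mem_inter] at hi ⊢
      tauto
    · obtain ⟨c, hc, h3, h4⟩ := hfl e he x hex hx
      rw [hc]
      ext i
      simp only [Col.mem_inter, mem_flat]
      omega
    · simp only [mem_bd, Col.mem_inter, mem_flat] at hi ⊢
      rcases lt_trichotomy i j with h2 | rfl | h2
      · have h3 : i ≤ j := h2.le
        have h4 : i + 1 ≤ j := by omega
        tauto
      · have : ¬(i + 1 ≤ i) := by omega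
        tauto
      · have h3 : ¬(i ≤ j) := by omega
        have h4 : ¬(i + 1 ≤ j) := by omega
        tauto
    · obtain ⟨i, hi, h2, h3⟩ := exc_change (S := U y) (j := j) (k := k) (by omega) (by tauto)
      refine ⟨i, hi, ?_⟩
      simp only [mem_bd, Col.mem_inter, mem_flat, not_not]
      have h4 : ¬(i + 1 ≤ j) := by omega
      refine ⟨fun h5 => ?_, fun h5 => absurd h5.2 h4⟩
      have h6 : i = j := by omega
      exact absurd (h6 ▸ h5.1) hp
    · by_contra h2
      obtain ⟨c, hc, h3, h4⟩ := hfl e he x hex h2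
      rw [hc, mem_flat] at hx
      omega
    · rw [mem_dif]
      tauto

theorem Exc_union {J C C' : Finset (Ed D)} (h : Closed J C) (h' : Closed J C') :
    Closed J (C ∪ C') := by
  refine ⟨union_subset h.1 h'.1, fun e he e' he' hs => ?_⟩
  rcases mem_union.1 he with he | he
  · exact mem_union_left _ (h.2 e he e' he' hs)
  · exact mem_union_right _ (h'.2 e he e' he' hs)

theorem Exc_flat {S : Col} (hS : ¬Ovh S) : ∃ c, S = flat c := by
  by_contra h2
  exact hS fun c hc => h2 ⟨c, hc⟩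

theorem pf_Exc : StExc := by
  intro D n hD ξ h U hU h₀ h1 y hW
  have hcfg : Cfg n U := hU.1
  by_cases hov : Ovh (U y)
  swap
  · obtain ⟨c, hc⟩ := Exc_flat hov
    obtain ⟨C, hC, h2, h3⟩ := surround (n := n) hD hcfg y
    refine ⟨C, hC, le_trans ?_ h2, h3.mono Subset.rfl ?_⟩
    · rw [hc, winCol_flat] at hW
      rw [hc, card_dif_flat]
      omega
    · have : (0 : ℝ) ≤ C.card := by positivity
      linarith
  set C₀ := cl (Jst n U) ((Jst n U).filter fun e => e.1 = y) with hC₀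
  have hC : Closed (Jst n U) C₀ := cl_closed _ _
  have h2 : (y, (⟨0, by omega⟩ : Fin D)) ∈ Jst n U := hcfg.mem_Jst.2 (Or.inr (Or.inl hov))
  have h3 : (y, (⟨0, by omega⟩ : Fin D)) ∈ C₀ := mem_cl (mem_filter.2 ⟨h2, rfl⟩) h2
  have hF : y ∈ Fov n U C₀ := exc_mem_Fov hcfg hov h3 (Or.inl rfl)
  have t0 : Tour l1 y {y} 0 := ⟨[], by simp, le_rfl⟩
  have t1 : Tour l1 y (bases C₀) (4 * C₀.card) :=
    (t0.closure (J := Jst n U) (R := (Jst n U).filter fun e => e.1 = y)
      (fun e he _ => mem_singleton.2 (mem_filter.1 he).2)).mono subset_union_right (by simp [hC₀])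
  by_cases hfl : ∀ e ∈ C₀, ∀ x, (e.1 = x ∨ tip e = x) → ¬Ovh (U x) →
      ∃ c : ℤ, U x = flat c ∧ -(h₀ : ℤ) < c ∧ c < h₀
  · refine ⟨C₀, hC, Exc_inner hD h hU hC hF hfl hW, t1.mono Subset.rfl ?_⟩
    have : (0 : ℝ) ≤ C₀.card := by positivity
    linarith
  push Not at hfl
  obtain ⟨e, he, x, hex, hx, hc⟩ := hfl
  obtain ⟨c, hc'⟩ := Exc_flat hx
  have hc2 := hc c hc'
  obtain ⟨C₁, hC₁, h4, h5⟩ := surround (n := n) hD hcfg x
  refine ⟨C₀ ∪ C₁, Exc_union hC hC₁, le_trans (le_trans ?_ h4) ?_, ?_⟩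
  · rw [hc', card_dif_flat]
    omega
  · exact sum_le_sum_of_subset subset_union_right
  · have h6 : l1 (x - e.1) ≤ 1 := by
      rcases hex with rfl | rfl
      · simp
      · simp [tip]
    have t2 := t1.insert l1_neg (p := x) (q := e.1) (mem_bases.2 ⟨e, he, rfl⟩)
    have t3 := t2.attach (mem_insert_self _ _) h5
    refine t3.mono ?_ ?_
    · unfold bases
      rw [image_union]
      exact union_subset_union (subset_insert _ _) Subset.rfl
    · have a1 : (C₀.card : ℝ) ≤ (C₀ ∪ C₁).card := Nat.cast_le.2 (card_le_card subset_union_left)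
      have a2 : (C₁.card : ℝ) ≤ (C₀ ∪ C₁).card := Nat.cast_le.2 (card_le_card subset_union_right)
      have a3 : (1 : ℝ) ≤ C₀.card := Nat.one_le_cast.2 (card_pos.2 ⟨_, he⟩)
      linarith

end Pool.Agent.P.MP_67bca4_pr
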