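import Pool.Agent.P.MP_67bca4_pr.AH.S1

/-! Exchange of two configurations along a set, and gluing along several separated sets. -/

namespace Pool.Agent.P.MP_67bca4_pr

open Finset
open scoped Classical

theorem pf_Exch : StExch := by
  intro D n ξ A F U h
  unfold En
  rw [add_add_add_comm, add_add_add_comm (∑ x ∈ hatB D n, ∑ k ∈ bd (U x), ξ x none k),
    ← sum_add_distrib, ← sum_add_distrib, ← sum_add_distrib, ← sum_add_distrib]
  congr 1
  · refine sum_congr rfl fun x _ => ?_
    by_cases hx : A x
    · rw [glue_pos hx, glue_pos hx, add_comm]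
    · rw [glue_neg hx, glue_neg hx]
  · refine sum_congr rfl fun e _ => ?_
    by_cases hx : A e.1 <;> by_cases hy : A (tip e)
    · rw [glue_pos hx, glue_pos hx, glue_pos hy, glue_pos hy, add_comm]
    · rw [glue_pos hx, glue_pos hx, glue_neg hy, glue_neg hy, h _ _ hx hy (adj_tip e), add_comm]
    · rw [glue_neg hx, glue_neg hx, glue_pos hy, glue_pos hy, h _ _ hy hx (adj_tip e).symm,
        add_comm]
    · rw [glue_neg hx, glue_neg hx, glue_neg hy, glue_neg hy]

theorem pf_MGlue (h : StExch) : StMGlue := by
  intro D n ξ T A F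
  induction T using Finset.induction_on with
  | empty => exact fun U _ _ => ⟨U, by simp, fun _ _ => rfl, by simp⟩
  | insert z₀ T hz ih =>
    intro U h1 h2
    have ne : ∀ z ∈ T, z ≠ z₀ := fun z hz' e => hz (e ▸ hz')
    have sep : ∀ z ∈ T, ∀ x y, A z x → A z₀ y → x ≠ y ∧ ¬Adj x y := fun z hz' =>
      h2 z (mem_insert_of_mem hz') z₀ (mem_insert_self _ _) (ne z hz')
    obtain ⟨G, g1, g2, g3⟩ := ih (glue (A z₀) (F z₀) U)
      (fun z hz' x y a b c => by
        rw [glue_neg fun d => (sep z hz' x y a d).2 c]
        exact h1 z (mem_insert_of_mem hz') x y a b c)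
      fun z hz' z' hz'' => h2 z (mem_insert_of_mem hz') z' (mem_insert_of_mem hz'')
    refine ⟨G, fun z hz' x a => ?_, fun x a => ?_, ?_⟩
    · rcases mem_insert.1 hz' with rfl | hz'
      · rw [g2 x fun z' hz'' b => (sep z' hz'' x x b a).1 rfl, glue_pos a]
      · exact g1 z hz' x a
    · rw [g2 x fun z hz' => a z (mem_insert_of_mem hz'), glue_neg (a z₀ (mem_insert_self _ _))]
    · have e := h n ξ (h1 z₀ (mem_insert_self _ _))
      have s : ∑ z ∈ T, (En n ξ (F z) - En n ξ (glue (A z) (glue (A z₀) (F z₀) U) (F z))) =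
          ∑ z ∈ T, (En n ξ (F z) - En n ξ (glue (A z) U (F z))) := by
        refine sum_congr rfl fun z hz' => ?_
        have : glue (A z) (glue (A z₀) (F z₀) U) (F z) = glue (A z) U (F z) := by
          funext x
          by_cases a : A z x
          · rw [glue_pos a, glue_pos a, glue_neg fun d => (sep z hz' x x a d).1 rfl]
          · rw [glue_neg a, glue_neg a]
        rw [this]
      rw [g3, s, sum_insert hz]
      linarith

end Pool.Agent.P.MP_67bca4_pr
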