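import Pool.Agent.P.MP_67bca4_pr.AH.S1

/-! Flattening a region that contains a plate does not increase the energy. -/

namespace Pool.Agent.P.MP_67bca4_pr

open Finset
open scoped Classical

theorem Flatten_exists {S : Col} {h : ℤ} (hS : S ≠ flat h) : ∃ k ∈ bd S, k ≠ h := by
  by_contra hc
  push Not at hc
  obtain ⟨k, hk⟩ := bd_nonempty S
  exact hS (eq_flat_of_bd (eq_singleton_iff_unique_mem.2 ⟨hc k hk ▸ hk, hc⟩))

theorem pf_Flatten (h : StIso) : StFlatten := by
  intro D n hD a b ha hab ξ R Pl α ht ℓ hh hPl hl hξ A S hA hS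
  have hb : 0 ≤ b := ha.trans hab
  set A1 := (inB D n).filter fun x => A x ∧ x ∈ Pl ∧ S x = flat ht with hA1
  set EA := (edB D n).filter fun e => A e.1 ∨ A (tip e) with hEA
  have hV : ∀ x ∈ hatB D n, ∑ k ∈ bd (glue A (fun _ => flat 0) S x), ξ x none k ≤
      ∑ k ∈ bd (S x), ξ x none k + if x ∈ A1 then b - a else 0 := by
    intro x _
    by_cases hx : A x
    · have hR := (hA x hx).2.1
      rw [glue_pos hx, bd_flat, sum_singleton, hξ x hR, if_neg (by rintro ⟨-, -, h0⟩; omega)]
      by_cases h1 : x ∈ A1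
      · obtain ⟨-, -, h2, h3⟩ := mem_filter.1 h1
        rw [if_pos h1, h3, bd_flat, sum_singleton, hξ x hR, if_pos ⟨h2, rfl, rfl⟩]
        linarith
      · rw [if_neg h1, add_zero]
        obtain ⟨k, hk, hk'⟩ : ∃ k ∈ bd (S x), ξ x none k = b := by
          by_cases h2 : x ∈ Pl
          · obtain ⟨k, hk, hk'⟩ := Flatten_exists (S := S x) (h := ht) fun h3 =>
              h1 (mem_filter.2 ⟨(hA x hx).1, hx, h2, h3⟩)
            exact ⟨k, hk, by rw [hξ x hR, if_neg fun h4 => hk' h4.2.2]⟩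
          · obtain ⟨k, hk⟩ := bd_nonempty (S x)
            exact ⟨k, hk, by rw [hξ x hR, if_neg fun h4 => h2 h4.1]⟩
        rw [← hk']
        refine single_le_sum (f := fun k => ξ x none k) (fun j _ => ?_) hk
        rw [hξ x hR]
        split_ifs <;> assumption
    · rw [glue_neg hx]
      have : 0 ≤ if x ∈ A1 then b - a else 0 := by split_ifs <;> linarith
      linarith
  have hH : ∀ e ∈ edB D n, (∑ k ∈ dif (glue A (fun _ => flat 0) S e.1)
      (glue A (fun _ => flat 0) S (tip e)), ξ e.1 (some e.2) k) +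
      (if A e.1 ∨ A (tip e) then b * (dif (S e.1) (S (tip e))).card else 0) =
      ∑ k ∈ dif (S e.1) (S (tip e)), ξ e.1 (some e.2) k := by
    intro e _
    by_cases he : A e.1 ∨ A (tip e)
    · have h1 : glue A (fun _ => flat 0) S e.1 = flat 0 := by
        by_cases h0 : A e.1
        · exact glue_pos h0
        · rw [glue_neg h0]; exact hS _ _ (he.resolve_left h0) h0 (adj_tip e).symm
      have h2 : glue A (fun _ => flat 0) S (tip e) = flat 0 := by
        by_cases h0 : A (tip e)
        · exact glue_pos h0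
        · rw [glue_neg h0]; exact hS _ _ (he.resolve_right h0) h0 (adj_tip e)
      have hR : e.1 ∈ R := by
        rcases he with h0 | h0
        · exact (hA _ h0).2.1
        · simpa [tip] using (hA _ h0).2.2 e.2
      rw [h1, h2, dif_self, sum_empty, zero_add, if_pos he,
        sum_congr rfl fun k _ => (hξ e.1 hR (some e.2) k).trans (if_neg (by simp)), sum_const,
        nsmul_eq_mul, mul_comm]
    · rw [if_neg he, add_zero, glue_neg fun h0 => he (Or.inl h0), glue_neg fun h0 => he (Or.inr h0)]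
  have hI : ∀ k ∈ Finset.Icc 1 ht,
      2 * D * A1.card ≤ ℓ * (EA.filter fun e => k ∈ dif (S e.1) (S (tip e))).card := by
    intro k hk
    rw [mem_Icc] at hk
    refine h A1 ((inB D n).filter fun x => A x ∧ k ∈ (S x).s) _ α ℓ (fun x hx => ?_)
      (fun x hx => hPl (mem_filter.1 hx).2.2.1) fun e he => ?_
    · obtain ⟨h1, h2, -, h3⟩ := mem_filter.1 hx
      exact mem_filter.2 ⟨h1, h2, by rw [h3]; exact hk.2⟩
    · have key : ∀ x y, Adj x y → x ∈ (inB D n).filter (fun x => A x ∧ k ∈ (S x).s) →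
          y ∉ (inB D n).filter (fun x => A x ∧ k ∈ (S x).s) → k ∉ (S y).s := by
        intro x y hxy hx hy hk'
        by_cases h0 : A y
        · exact hy (mem_filter.2 ⟨(hA y h0).1, h0, hk'⟩)
        · rw [hS x y (mem_filter.1 hx).2.1 h0 hxy, mem_flat] at hk'
          omega
      by_cases h1 : e.1 ∈ (inB D n).filter (fun x => A x ∧ k ∈ (S x).s)
      · have h2 := fun h2 => he ⟨fun _ => h2, fun _ => h1⟩
        obtain ⟨h3, h4, h5⟩ := mem_filter.1 h1
        exact mem_filter.2 ⟨mem_filter.2 ⟨mem_edB_of_base h3, Or.inl h4⟩,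
          mem_dif.2 fun h6 => key _ _ (adj_tip e) h1 h2 (h6.1 h5)⟩
      · have h2 : tip e ∈ (inB D n).filter (fun x => A x ∧ k ∈ (S x).s) := by
          by_contra h2
          exact he ⟨fun h3 => absurd h3 h1, fun h3 => absurd h3 h2⟩
        obtain ⟨h3, h4, h5⟩ := mem_filter.1 h2
        exact mem_filter.2 ⟨mem_filter.2 ⟨mem_edB_of_tip h3, Or.inr h4⟩,
          mem_dif.2 fun h6 => key _ _ (adj_tip e).symm h2 h1 (h6.2 h5)⟩
  have hW : ∑ k ∈ Finset.Icc 1 ht, (EA.filter fun e => k ∈ dif (S e.1) (S (tip e))).card ≤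
      ∑ e ∈ EA, (dif (S e.1) (S (tip e))).card := by
    simp only [card_filter]
    rw [sum_comm]
    refine sum_le_sum fun e _ => ?_
    rw [← card_filter]
    exact card_le_card fun k hk => (mem_filter.1 hk).2
  have h1 : (ht : ℝ) * (2 * D * A1.card) ≤
      ℓ * ∑ e ∈ EA, ((dif (S e.1) (S (tip e))).card : ℝ) := by
    have h2 := sum_le_sum hI
    rw [sum_const, ← mul_sum, Int.card_Icc, smul_eq_mul] at h2
    have h3 := h2.trans (Nat.mul_le_mul_left ℓ hW)
    have h4 : (((ht + 1 - 1).toNat : ℕ) : ℝ) = ht := by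
      have : (((ht + 1 - 1).toNat : ℕ) : ℤ) = ht := by omega
      exact_mod_cast this
    rw [← h4]
    exact_mod_cast h3
  have hW0 : 0 ≤ ∑ e ∈ EA, ((dif (S e.1) (S (tip e))).card : ℝ) :=
    sum_nonneg fun e _ => Nat.cast_nonneg _
  have h5 : (b - a) * A1.card ≤ b * ∑ e ∈ EA, ((dif (S e.1) (S (tip e))).card : ℝ) := by
    rcases Nat.eq_zero_or_pos ℓ with rfl | hℓ
    · have : A1 = ∅ := eq_empty_of_forall_notMem fun x hx => by
        have := mem_cube.1 (hPl (mem_filter.1 hx).2.2.1) ⟨0, hD⟩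
        omega
      rw [this, card_empty, Nat.cast_zero, mul_zero]
      exact mul_nonneg hb hW0
    · have hℓ' : (0 : ℝ) < ℓ := by exact_mod_cast hℓ
      refine le_of_mul_le_mul_left ?_ hℓ'
      have h6 := mul_le_mul_of_nonneg_right hl (Nat.cast_nonneg (α := ℝ) A1.card)
      have h7 := mul_le_mul_of_nonneg_left h1 hb
      linarith
  have h8 := sum_le_sum hV
  have h9 := sum_congr rfl hH
  rw [sum_add_distrib, ← sum_filter, filter_mem_eq_inter,
    inter_eq_right.2 fun x hx => inB_sub_hatB (mem_filter.1 hx).1, sum_const, nsmul_eq_mul] at h8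
  rw [sum_add_distrib, ← sum_filter, ← mul_sum, ← hEA] at h9
  unfold En
  linarith

end Pool.Agent.P.MP_67bca4_pr
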