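import Pool.Agent.P.MP_67bca4_pr.AH.S1

/-!
Removing a small closed family of contour edges by flipping levels.
-/

namespace Pool.Agent.P.MP_67bca4_pr

open Finset
open scoped Classical

theorem pf_Flip : StFlip := by
  intro D n hD a b ha ξ h U hU K hK hc'
  choose A hA1 hA2 hA3 using exists_flip hD hU hK hc'
  set H : Finset ℤ := K.biUnion fun e => dif (U e.1) (U (tip e)) with hH
  have hAH : ∀ k x, x ∈ A k → k ∈ H := by
    intro k x hx
    have h1 : 0 < (A k).card := card_pos.2 ⟨x, hx⟩
    have h2 : 0 < D * (A k).card := Nat.mul_pos (by omega) h1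
    obtain ⟨e, he⟩ := card_pos.1 (h2.trans_le (hA3 k))
    exact mem_biUnion.2 ⟨e, mem_filter.1 he⟩
  let U' : Conf D := fun x => ⟨{k | ¬(k ∈ (U x).s ↔ x ∈ A k)},
    ((U x).fin.union H.finite_toSet).subset fun k hk => by
      by_cases hx : x ∈ A k
      · exact Or.inr (hAH k x hx)
      · left
        simp only [Set.mem_ofPred_eq, hx] at hk ⊢
        tauto⟩
  have hU' : ∀ x k, k ∈ (U' x).s ↔ ¬(k ∈ (U x).s ↔ x ∈ A k) := fun _ _ => Iff.rfl
  have hcfg : Cfg n U' := by
    intro x hx
    ext k
    have : x ∉ A k := fun h1 => hx (hA1 k h1)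
    rw [hU', hU x hx]
    tauto
  have h0 : ∀ x o k, 0 ≤ ξ x o k := fun x o k => ha.trans (h x o k).1
  have hb0 : 0 ≤ b := (h0 0 none 0).trans (h 0 none 0).2
  -- vertical part
  have hv : ∀ x, ∑ k ∈ bd (U' x), ξ x none k ≤
      ∑ k ∈ bd (U x), ξ x none k + 2 * b * (H.filter fun k => x ∈ A k).card := by
    intro x
    set T := H.filter fun k => x ∈ A k with hT
    have hs : bd (U' x) ⊆ bd (U x) ∪ (T ∪ T.image fun k => k - 1) := by
      intro k hk
      rw [mem_bd, hU', hU'] at hk
      by_cases h1 : x ∈ A k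
      · exact mem_union_right _ (mem_union_left _ (mem_filter.2 ⟨hAH k x h1, h1⟩))
      by_cases h2 : x ∈ A (k + 1)
      · exact mem_union_right _ (mem_union_right _
          (mem_image.2 ⟨k + 1, mem_filter.2 ⟨hAH _ x h2, h2⟩, by ring⟩))
      refine mem_union_left _ (mem_bd.2 ?_)
      tauto
    refine (sum_le_of_sub_union (h0 x none) (fun k => (h x none k).2) hs).trans ?_
    have h3 : (T ∪ T.image fun k => k - 1).card ≤ 2 * T.card :=
      (card_union_le _ _).trans (by have := card_image_le (s := T) (f := fun k => k - 1); omega)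
    have h4 : ((T ∪ T.image fun k => k - 1).card : ℝ) ≤ 2 * T.card := by exact_mod_cast h3
    nlinarith
  have hv2 : ∑ x ∈ hatB D n, (H.filter fun k => x ∈ A k).card ≤ ∑ k ∈ H, (A k).card := by
    simp only [card_filter]
    rw [sum_comm]
    refine sum_le_sum fun k _ => ?_
    rw [← card_filter]
    exact card_le_card fun x hx => (mem_filter.1 hx).2
  -- the new differences
  have hd1 : ∀ e ∈ K, dif (U' e.1) (U' (tip e)) = ∅ := by
    intro e he
    ext k
    have := hA2 k e
    rw [mem_dif] at this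
    rw [mem_dif, hU', hU']
    simp only [notMem_empty]
    tauto
  have hd2 : ∀ e, e ∉ K → dif (U' e.1) (U' (tip e)) = dif (U e.1) (U (tip e)) := by
    intro e he
    ext k
    have := hA2 k e
    rw [mem_dif, mem_dif, hU', hU']
    tauto
  -- horizontal part
  have hh : ∀ e : Ed D, ∑ k ∈ dif (U' e.1) (U' (tip e)), ξ e.1 (some e.2) k +
      a * (if e ∈ K then ((dif (U e.1) (U (tip e))).card : ℝ) else 0) ≤
      ∑ k ∈ dif (U e.1) (U (tip e)), ξ e.1 (some e.2) k := by
    intro e
    by_cases he : e ∈ K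
    · rw [hd1 e he, if_pos he, sum_empty, zero_add]
      have e4 := card_nsmul_le_sum (dif (U e.1) (U (tip e))) (fun k => ξ e.1 (some e.2) k) a
        fun k _ => (h _ _ k).1
      rw [nsmul_eq_mul] at e4
      linarith
    · rw [hd2 e he, if_neg he]
      simp
  have hKe : K ⊆ edB D n := hK.1.trans (filter_subset _ _)
  have hh2 : ∑ e ∈ edB D n, (if e ∈ K then ((dif (U e.1) (U (tip e))).card : ℝ) else 0) =
      ∑ e ∈ K, ((dif (U e.1) (U (tip e))).card : ℝ) := by
    rw [← sum_filter, filter_mem_eq_inter, inter_eq_right.2 hKe]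
  have hh3 : ∑ k ∈ H, (K.filter fun e => k ∈ dif (U e.1) (U (tip e))).card =
      ∑ e ∈ K, (dif (U e.1) (U (tip e))).card := by
    simp only [card_filter]
    rw [sum_comm]
    refine sum_congr rfl fun e he => ?_
    rw [← card_filter, filter_mem_eq_inter, inter_eq_right.2]
    exact subset_biUnion_of_mem (fun e => dif (U e.1) (U (tip e))) he
  have hDA : D * ∑ k ∈ H, (A k).card ≤ ∑ e ∈ K, (dif (U e.1) (U (tip e))).card := by
    rw [← hh3, mul_sum]
    exact sum_le_sum fun k _ => hA3 k
  refine ⟨U', H.biUnion A, ∑ k ∈ H, (A k).card, hcfg, ?_, ?_, card_biUnion_le, hDA, ?_, ?_⟩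
  · ext e
    rw [mem_sdiff, hcfg.mem_JU, hU.mem_JU]
    by_cases he : e ∈ K
    · have := dif_eq_empty.1 (hd1 e he)
      tauto
    · have h1 := hd2 e he
      have h2 := dif_eq_empty (S := U' e.1) (T := U' (tip e))
      have h3 := dif_eq_empty (S := U e.1) (T := U (tip e))
      rw [h1] at h2
      tauto
  · intro x hx
    ext k
    have : x ∉ A k := fun h1 => hx (mem_biUnion.2 ⟨k, hAH k x h1, h1⟩)
    rw [hU']
    tauto
  · unfold En
    have s1 := sum_le_sum (s := hatB D n) fun x _ => hv x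
    have s2 := sum_le_sum (s := edB D n) fun e _ => hh e
    rw [sum_add_distrib, ← mul_sum] at s1 s2
    rw [hh2] at s2
    have c1 : ∑ x ∈ hatB D n, ((H.filter fun k => x ∈ A k).card : ℝ) ≤
        ((∑ k ∈ H, (A k).card : ℕ) : ℝ) := by exact_mod_cast hv2
    have c2 : ∑ e ∈ K, ((dif (U e.1) (U (tip e))).card : ℝ) = (Wt U K : ℝ) := by
      unfold Wt; push_cast; rfl
    rw [c2] at s2
    have c3 := mul_le_mul_of_nonneg_left c1 (by linarith : 0 ≤ 2 * b)
    linarith
  · intro l u hW x
    have key : ∀ k, x ∈ A k → l < k ∧ k ≤ u := by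
      intro k hk
      obtain ⟨e, -, he⟩ := mem_biUnion.1 (hAH k x hk)
      exact WinCol.dif_mem (hW e.1) (hW (tip e)) he
    constructor
    · intro k hk
      have h1 : x ∉ A k := fun h1 => by have := key k h1; omega
      have h2 := (hW x).1 k hk
      rw [hU']
      tauto
    · intro k hk
      by_cases h1 : x ∈ A k
      · exact (key k h1).2
      · rw [hU'] at hk
        exact (hW x).2 k (by tauto)

end Pool.Agent.P.MP_67bca4_pr
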