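import Pool.Agent.P.MP_67bca4_pr.AH.S1

namespace Pool.Agent.P.MP_67bca4_pr

open Finset
open scoped Classical

/-- A closed family of contours with a short tour gives an admissible profitable shift. -/
theorem Gain_core {D n : ℕ} (hD : 100 ≤ D) {a b : ℝ} (ha : 0 < a) (hab : a ≤ b) {ξ : Dis D}
    (h : TwoV a b ξ) {S : Conf D} (hS : Cfg n S) (hbig : Big (JU n S)) {y : V D}
    {C : Finset (Ed D)} (hC : Closed (Jst n S) C) (hT : Tour l1 y (bases C) (25 * C.card)) :
    ∃ s : Fn D, AdmM n {y} 0 s (2 * Xs n S C) ∧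
      GE n (shift s ξ) + a * Xs n S C ≤ En n ξ S := by
  obtain ⟨t, U', c1, c2, c3, c4, c5, -⟩ := lemA (n := n) (by omega) ha.le
    (fun x o k => (h.le hab x o k).1) hS hC
  refine ⟨t, ⟨JU n S ∩ C, c2, c4, c3, sqCl_JU_inter hS hC, hbig.JU_inter hC, ?_, 1, by simp,
    MTour.single ?_⟩, ?_⟩
  · have := (card_JU_inter_le (n := n) (U := S) (C := C)).trans (Wt_le_Xs (n := n))
    omega
  · refine hT.mono (image_subset_image inter_subset_right) ?_
    have h2 : (C.card : ℝ) ≤ 2 * D * Xs n S C := by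
      exact_mod_cast card_le_Xs (by omega) hC.1
    have h3 : (0 : ℝ) ≤ D * Xs n S C := by positivity
    push_cast
    nlinarith
  · have h2 : GE n (shift t ξ) ≤ En n (shift t ξ) U' :=
      GEc_le (fun x o k => ha.le.trans ((h.shift t).le hab x o k).1) c1
    linarith

theorem pf_Gain (h : StExc) : StGain := by
  intro D n hD a b ha hab hb ξ hξ
  have hb' : 2 * b < a * D := by linarith
  refine ⟨fun {F} hF y => ?_, fun {S} hS hbig v y M m₁ hv hH h1 h2 => ?_⟩
  · have hbig : Big (JU n F) := big_of_isMin hD ha hb' (fun x o k => hξ.le hab x o k) hF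
    have key : ∀ (C : Finset (Ed D)) (X₀ : ℕ), Closed (Jst n F) C →
        Tour l1 y (bases C) (25 * C.card) → X₀ ≤ Xs n F C → Gain n a ξ y X₀ := by
      intro C X₀ hC hT hX
      obtain ⟨s, d1, d2⟩ := Gain_core hD ha hab hξ hF.1 hbig hC hT
      have h3 : GE n ξ = En n ξ F := IsMinC.GEc_eq hF
      exact ⟨s, _, hX, d1, h3 ▸ d2⟩
    obtain ⟨C, hC, g1, g2⟩ := surround (n := n) (by omega) hF.1 y
    have g3 : Tour l1 y (bases C) (25 * C.card) := g2.mono subset_rfl (by
      have : (0 : ℝ) ≤ C.card := Nat.cast_nonneg _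
      linarith)
    refine ⟨fun h₀ l h' k1 k2 k3 k4 => ?_, fun X₀ k1 => ?_, fun k1 => ?_, fun M X₀ k1 k2 => ?_⟩
    · obtain ⟨C', e1, e2, e3⟩ := h (n := n) (by omega)
        (fun x o k => ha.trans_le (hξ.le hab x o k).1) hF k1 (y := y)
        (fun hw => k4 (hw.mono k2 k3))
      exact key C' h₀ e1 e3 (e2.trans Wt_le_Xs)
    · exact key C X₀ hC g3 (k1.trans (g1.trans Wt_le_Xs))
    · have h3 : 1 ≤ (dif (F y) (flat 0)).card :=
        card_pos.2 (nonempty_iff_ne_empty.2 fun h => k1 (dif_eq_empty.1 h))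
      exact key C _ hC g3 ((hbig.le_Wt hC (h3.trans g1)).trans Wt_le_Xs)
    · obtain ⟨C', e1, e2, e3⟩ := k1
      have e4 : C'.card ≤ 2 * D * Xs n F C' := card_le_Xs (by omega) e1.1
      exact key C' X₀ e1 e3
        (Nat.le_of_mul_le_mul_left (k2.trans (e2.trans e4)) (by omega))
  · obtain ⟨C, e1, e2, e3⟩ := hH
    obtain ⟨s, d1, d2⟩ := Gain_core hD ha hab hξ hS hbig e1 e3
    have e4 : C.card ≤ 2 * D * Xs n S C := card_le_Xs (by omega) e1.1
    have e5 : D * m₁ ≤ D * (2 * Xs n S C) := by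
      have := h2.trans (e2.trans e4)
      linarith
    refine ⟨s, _, Nat.le_of_mul_le_mul_left e5 (by omega), d1, ?_⟩
    have e6 : (M : ℝ) ≤ 2 * D * Xs n S C := by exact_mod_cast e2.trans e4
    have e7 : (0 : ℝ) < D := by exact_mod_cast (by omega : 0 < D)
    have e8 : (D : ℝ) * (4 * v) ≤ D * (2 * (a * Xs n S C)) := by
      have := mul_le_mul_of_nonneg_left e6 ha.le
      linarith
    have e9 := le_of_mul_le_mul_left e8 e7
    push_cast
    linarith

theorem pf_Pert : StPert := by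
  intro D n N R _ hD a b ha hab hb hN hR ω ω' h1 e₁ e₂ h2 y X₀ hX₀ hG
  have hb' : 2 * b < a * D := by linarith
  obtain ⟨s, X, hX, hs, hg⟩ := hG
  refine ⟨s, 2 * X, by omega, hs, ?_⟩
  have g1 : GE n (shift s (dis a b ω)) ≤ GE n (shift s (dis a b ω')) :=
    GEc_mono ha.le hab ((twoV_dis a b ω).shift s) ((twoV_dis a b ω').shift s)
      (fun x o k => dis_mono hab h1 _ _ _) ⟨_, cfg_flat n⟩
  obtain ⟨U, hU⟩ := exists_isMinC (n := n) ha.le (ha.le.trans hab) (twoV_dis a b ω)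
    ⟨_, cfg_flat n⟩
  have hW := win_of_isMin hD ha hab hb' (twoV_dis a b ω) hU hR
  obtain ⟨S, hS, -, -⟩ := en_linear (n := n) (N := N) (by omega) hW
  have g2 : GE n (dis a b ω') ≤ GE n (dis a b ω) + 2 * (b - a) := by
    have g3 : GE n (dis a b ω') ≤ En n (dis a b ω') U :=
      GEc_le (fun x o k => ha.le.trans ((twoV_dis a b ω').le hab x o k).1) hU.1
    have g4 : GE n (dis a b ω) = En n (dis a b ω) U := hU.GEc_eq
    rw [g4, hS]
    rw [hS] at g3
    exact g3.trans (sum_perturb hab S e₁ e₂ h2)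
  have g5 : (2 : ℝ) * D ≤ X := by
    have : 2 * D ≤ D ^ 3 := by nlinarith [Nat.mul_le_mul hD hD]
    exact_mod_cast this.trans (hX₀.trans hX)
  have g6 : a * (2 * D) ≤ a * X := by gcongr
  push_cast
  linarith

end Pool.Agent.P.MP_67bca4_pr
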