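import Pool.Agent.P.MP_67bca4_pr.AH.S2

/-!
The global probabilistic bound on the number of columns that are not nice.
-/

namespace Pool.Agent.P.MP_67bca4_pr

open Finset
open scoped Classical

lemma Glob_markov {A c X q η : ℝ} (hA : 0 < A) (hc : 0 < c) (h1 : A / c * q ≤ X)
    (h2 : c * X ≤ η * A) : q ≤ η := by
  have h3 : c * (A / c * q) ≤ η * A := (mul_le_mul_of_nonneg_left h1 hc.le).trans h2
  have h4 : c * (A / c * q) = q * A := by field_simp
  rw [h4] at h3
  exact le_of_mul_le_mul_right h3 hA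

lemma Glob_small {A c x : ℝ} (hc : 0 < c) (h : ¬A / (32 * c) ≤ x) : 2 * c * x ≤ A / 16 := by
  have h1 : x < A / (32 * c) := lt_of_not_ge h
  rw [lt_div_iff₀ (by positivity)] at h1
  linarith

theorem pf_Glob (h1 : StDet) (h2 : StBL) (h3 : StPSp) (h4 : StMean0) (h5 : StMean)
    (h6 : StYchain) (h7 : StUnion) : StGlob := by
  intro D P a b hOk p C₁ η hp0 hp1 hη hTM hT1 n N R m₀ _ hNR hNum
  have hD := hOk.hD
  have ha := hOk.ha
  have hb := hOk.b_pos
  have hB1 := hOk.B1_pos
  have hm2000 : 2000 ≤ m₀ :=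
    le_trans (le_trans (by norm_num) (Nat.pow_le_pow_left hD 3)) hNum.n1
  have hm0 : (0 : ℝ) < m₀ := by exact_mod_cast (by omega : 0 < m₀)
  have hA : 0 < a * m₀ := mul_pos ha hm0
  obtain ⟨-, hU2, hU3⟩ := h7 (I := Ix D n N) hp0.le hp1.le
  have hBL : ((P.BL n).card : ℝ) ≤ 2 * D * P.R3 * ((n : ℝ) + 1) ^ (D - 1) := by
    exact_mod_cast h2 P n
  -- the four exceptional events
  have e1 : Pr p (fun ω : Ix D n N → Bool =>
      ∃ s m, m₀ ≤ m ∧ GoodM n a (dis a b ω) (hatB D n) P.mu s m) ≤ η := by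
    have := hTM n N R hNR.1 hNR.2.1 ∅ (hatB D n) P.mu m₀ hNum.n1 (by
      rw [card_hatB]; push_cast; exact hNum.n2)
    simp only [ovr_empty] at this
    exact this.trans hNum.n5
  have e2 : Pr p (fun ω : Ix D n N → Bool =>
      P.YEv a b (P.mY a b p N) n m₀ (dis a b ω)) ≤ η :=
    (h6 hOk hp0.le hp1.le n N m₀ hm2000 hNum.n3 hNum.n4).trans hNum.n5
  have hc3 : 0 < P.B1 b * (2 * P.rs + 1) ^ D := by positivity
  have e3 : Pr p (fun ω : Ix D n N → Bool => a * m₀ / (32 * (P.B1 b * (2 * P.rs + 1) ^ D)) ≤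
      (((hatB D n).filter fun v => P.Sp a b n (dis a b ω) v).card : ℝ)) ≤ η := by
    have := hU2 (hatB D n) (fun v ω => P.Sp a b n (dis a b ω) v) (P.piS p)
      (a * m₀ / (32 * (P.B1 b * (2 * P.rs + 1) ^ D)))
      (fun v _ => h3 hOk hp0.le hp1.le hT1 hNR v)
    refine Glob_markov hA (by positivity) this ?_
    rw [card_hatB]
    push_cast
    have := hNum.n8
    linarith
  have e4 : Pr p (fun ω : Ix D n N → Bool => a * m₀ / (32 * b) ≤
      (((P.BL n).filter fun x => GoodAt n a (dis a b ω) x P.h0).card : ℝ)) ≤ η := by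
    have := hU2 (P.BL n) (fun x ω => GoodAt n a (dis a b ω) x P.h0) (Real.exp (-√(P.h0 : ℝ)))
      (a * m₀ / (32 * b)) (fun x _ => by
        have := hT1 n N R hNR.1 hNR.2.1 ∅ x P.h0 hOk.hh
        simpa only [ovr_empty] using this)
    refine Glob_markov hA (by positivity) this (le_trans ?_ hNum.n9)
    gcongr
  -- the means
  obtain ⟨hm1, hm2⟩ := h4 hOk hp0.le hp1.le N
  have hm3 := h5 hOk hp0.le hp1.le hT1 (Par.NR.mono P hb.le hNR hNum.n0) hNum.n6 hNum.n7
  have hκ : 0 < P.kap b p := by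
    have : 0 < min p (1 - p) := lt_min hp0 (by linarith)
    unfold Par.kap Par.kap0
    positivity
  have hnD : (0 : ℝ) ≤ η * n ^ D := by positivity
  have key := hU3 (inB D n) (fun x ω => ¬P.Nice n (dis a b ω) x)
    (fun ω => ((∃ s m, m₀ ≤ m ∧ GoodM n a (dis a b ω) (hatB D n) P.mu s m) ∨
      P.YEv a b (P.mY a b p N) n m₀ (dis a b ω)) ∨
      (a * m₀ / (32 * (P.B1 b * (2 * P.rs + 1) ^ D)) ≤
        (((hatB D n).filter fun v => P.Sp a b n (dis a b ω) v).card : ℝ) ∨
      a * m₀ / (32 * b) ≤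
        (((P.BL n).filter fun x => GoodAt n a (dis a b ω) x P.h0).card : ℝ)))
    (2 * (η * n ^ D)) (by positivity) (fun ω hω => by
      rw [not_or, not_or, not_or] at hω
      obtain ⟨⟨g1, g2⟩, g3, g4⟩ := hω
      have g5 := Glob_small hc3 g3
      have g6 := Glob_small hb g4
      obtain ⟨Nx, k1, k2, k3⟩ := h1 hOk (twoV_dis a b ω) hκ.le hm1 (fun u => (hm2 u).1) hm3
        (by omega : 1 ≤ m₀) g1 g2 (by
          have g7 : ((hatB D n).filter (P.Sp a b n (dis a b ω))).card =
            ((hatB D n).filter fun v => P.Sp a b n (dis a b ω) v).card := rfl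
          rw [g7]
          linarith)
      have k4 : (((inB D n).filter fun x => ¬P.Nice n (dis a b ω) x).card : ℝ) ≤
          (P.BL n).card + D * m₀ * (2 * P.R4 + 1) ^ D + Nx := by exact_mod_cast k1
      have k5 : (Nx : ℝ) ≤ η * n ^ D := by
        rcases hNum.n11 with h | h
        · have : (Nx : ℝ) ≤ n * m₀ := by exact_mod_cast k2
          exact this.trans h
        · exact le_of_mul_le_mul_left (k3.trans h) hκ
      have k6 := hNum.n10
      have k7 : (((inB D n).filter fun x => ¬P.Nice n (dis a b ω) x).card : ℝ) ≤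
          2 * (η * n ^ D) := by linarith
      convert k7)
  have hG := (Pr_or hp0.le hp1.le _ _).trans (add_le_add
    ((Pr_or hp0.le hp1.le _ _).trans (add_le_add e1 e2))
    ((Pr_or hp0.le hp1.le _ _).trans (add_le_add e3 e4)))
  have hcard : ((inB D n).card : ℝ) ≤ (n : ℝ) ^ D := by
    rw [card_inB]
    exact_mod_cast Nat.pow_le_pow_left (Nat.sub_le n 1) D
  refine key.trans ?_
  have := mul_le_mul hcard hG (Finset.sum_nonneg fun ω _ => by
    split_ifs
    · exact wt_nonneg hp0.le hp1.le ω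
    · exact le_rfl) (by positivity)
  linarith

end Pool.Agent.P.MP_67bca4_pr
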