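import Pool.Agent.P.MP_67bca4_pr.AH.S1

/-!
Independence of functions of disjoint sets of bits, and probabilities of patterns.
-/

namespace Pool.Agent.P.MP_67bca4_pr

open Finset
open scoped Classical

variable {I : Type} [Fintype I] [DecidableEq I]

lemma Indep_two (p : ℝ) (A : I → Prop) (f g : (I → Bool) → ℝ) (hf : Dep A f)
    (hg : Dep (fun i => ¬A i) g) : Ex p (fun ω => f ω * g ω) = Ex p f * Ex p g := by
  have h1 : ∀ η ζ, f (glueB A η ζ) = f (glueB A η fun _ => true) :=
    fun η ζ => hf _ _ fun i hi => by simp [glueB, hi]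
  have h2 : ∀ η ζ, g (glueB A η ζ) = g (glueB A (fun _ => true) ζ) :=
    fun η ζ => hg _ _ fun i hi => by simp [glueB, hi]
  obtain ⟨F, hF⟩ : ∃ F, F = Ex p fun η => f (glueB A η fun _ => true) := ⟨_, rfl⟩
  have e1 : ∀ ζ, Ex p (fun η => f (glueB A η ζ) * g (glueB A η ζ)) =
      g (glueB A (fun _ => true) ζ) * F := fun ζ => by
    rw [hF, ← PL_Ex_const_mul]
    congr 1; funext η; rw [h1, h2, mul_comm]
  have e2 : ∀ ζ, Ex p (fun η => f (glueB A η ζ)) = F := fun ζ => by
    rw [hF]; congr 1; funext η; exact h1 _ _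
  have e3 : ∀ ζ, Ex p (fun η => g (glueB A η ζ)) = g (glueB A (fun _ => true) ζ) := fun ζ => by
    rw [← PL_Ex_const (p := p) (I := {i // A i}) (g _)]; congr 1; funext η; exact h2 _ _
  rw [Ex_glueB A, Ex_glueB A f, Ex_glueB A g]
  simp only [e1, e2, e3]
  rw [← sum_mul, sum_wt, one_mul, mul_sum]
  exact sum_congr rfl fun ζ _ => by ring

lemma Indep_prod (p : ℝ) {ι : Type} (T : Finset ι) (A : ι → I → Prop)
    (f : ι → (I → Bool) → ℝ) (h1 : ∀ z ∈ T, Dep (A z) (f z))
    (h2 : ∀ z ∈ T, ∀ z' ∈ T, z ≠ z' → ∀ i, A z i → ¬A z' i) :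
    Ex p (fun ω => ∏ z ∈ T, f z ω) = ∏ z ∈ T, Ex p (f z) := by
  induction T using Finset.induction_on with
  | empty => simpa using PL_Ex_const (p := p) (I := I) 1
  | insert z T hz ih =>
    simp only [prod_insert hz]
    rw [Indep_two p (A z) (f z) _ (h1 z (mem_insert_self _ _)),
      ih (fun w hw => h1 w (mem_insert_of_mem hw))
        fun w hw w' hw' => h2 w (mem_insert_of_mem hw) w' (mem_insert_of_mem hw')]
    intro ω ω' h
    refine prod_congr rfl fun w hw => h1 w (mem_insert_of_mem hw) _ _ fun i hi => h i ?_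
    exact h2 w (mem_insert_of_mem hw) z (mem_insert_self _ _) (fun e => hz (e ▸ hw)) i hi

theorem pf_Indep : StIndep := by
  intro I _ _ p
  refine ⟨fun T A f => Indep_prod p T A f, fun A E E' h1 h2 => ?_⟩
  rw [PL_Pr_eq_Ex, PL_Pr_eq_Ex, PL_Pr_eq_Ex, ← Indep_two p A]
  · congr 1; funext ω
    by_cases a : E ω <;> by_cases b : E' ω <;> simp [a, b]
  · intro ω ω' h; simp only [h1 ω ω' h]
  · intro ω ω' h; simp only [h2 ω ω' h]

lemma Indep_pat (p : ℝ) (S : Finset I) (σ : I → Bool) :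
    (Pr p fun ω => ∀ i ∈ S, ω i = σ i) = ∏ i ∈ S, if σ i then p else 1 - p := by
  have h := Indep_prod p S (fun i j => j = i) (fun i ω => if ω i = σ i then (1 : ℝ) else 0)
    (fun i _ ω ω' h => by simp only [h i rfl]) fun i _ j _ hij k h1 h2 => hij (h1.symm.trans h2)
  rw [PL_Pr_eq_Ex]
  refine Eq.trans ?_ (h.trans (prod_congr rfl fun i _ => ?_))
  · congr 1; funext ω
    rw [prod_ite_zero, prod_const_one]
    congr
  · rw [Ex_update i]
    cases hσ : σ i <;> simp [PL_Ex_const]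

theorem pf_Pat : StPat := by
  intro I _ _ p h0 h1 S
  refine ⟨fun σ => ?_, ?_⟩
  · rw [Indep_pat, ← prod_const]
    refine prod_le_prod (fun _ _ => le_min h0 (by linarith)) fun i _ => ?_
    split_ifs
    · exact min_le_left _ _
    · exact min_le_right _ _
  · simpa using Indep_pat p S fun _ => true

end Pool.Agent.P.MP_67bca4_pr
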