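import Pool.Agent.P.MP_67bca4_pr.AH.S2

/-!
The global energy inequality.
-/

namespace Pool.Agent.P.MP_67bca4_pr

open Finset
open scoped Classical

variable {D : ℕ}

/-- At most `r0 ^ D` columns lie in one block. -/
lemma Ineq_blk (P : Par D) (A S : Finset (V D)) (h : ∀ x ∈ A, P.blk x ∈ S) :
    A.card ≤ P.r0 ^ D * S.card := by
  refine card_le_mul_card_image_of_maps_to h _ fun z _ => ?_
  have h1 : (A.filter fun x => P.blk x = z) ⊆
      Fintype.piFinset fun i => Finset.Icc (P.r0 * z i) (P.r0 * z i + P.r0 - 1) := by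
    intro x hx
    obtain ⟨-, rfl⟩ := mem_filter.1 hx
    exact Fintype.mem_piFinset.2 fun i => mem_Icc.2 (P.blk_bounds x i)
  refine (card_le_card h1).trans (le_of_eq ?_)
  rw [Fintype.card_piFinset]
  have : ∀ i : Fin D, (Finset.Icc (P.r0 * z i) (P.r0 * z i + P.r0 - 1)).card = P.r0 := fun i => by
    rw [Int.card_Icc]; omega
  simp only [this, prod_const, card_univ, Fintype.card_fin]

/-- The uncovered columns lie in problem blocks or in the boundary layer. -/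
lemma Ineq_unc (h6 : StCover) {P : Par D} {a b : ℝ} (hP : P.Ok a b) {n : ℕ} {ξ : Dis D}
    (hξ : TwoV a b ξ) {U U' : Conf D} {C : Finset (Ed D)} {s : Fn D} (hG : P.GD a n ξ U U' C s)
    (t : V D → ℤ) {F : Conf D} (hF : IsMin n ξ F) :
    (P.Unc a b n ξ C s t F).card ≤
      P.r0 ^ D * ((P.ZQ n).filter (P.Prob a b n ξ C s t)).card +
        ((P.BL n).filter fun x => GoodAt n a ξ x P.h0).card := by
  obtain ⟨c1, c2, -⟩ := h6 hP hξ hG t hF
  rw [← card_filter_add_card_filter_not (s := P.Unc a b n ξ C s t F) fun x => P.blk x ∈ P.ZD n]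
  refine add_le_add (Ineq_blk P _ _ fun x hx => ?_) (card_le_card fun x hx => ?_)
  · obtain ⟨h1, h2⟩ := mem_filter.1 hx
    exact mem_filter.2 ⟨(mem_filter.1 h2).1, c1 x h1 h2⟩
  · obtain ⟨h1, h2⟩ := mem_filter.1 hx
    exact mem_filter.2 (c2 x h1 h2)

/-- The sum of the local costs is bounded by the used roots and the problem blocks. -/
lemma Ineq_sumY (h6 : StCover) (h8 : StGp) (h9 : StPure) {P : Par D} {a b : ℝ} (hP : P.Ok a b)
    {n : ℕ} {ξ : Dis D} (hξ : TwoV a b ξ) {U U' : Conf D} {C : Finset (Ed D)} {s : Fn D}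
    (hG : P.GD a n ξ U U' C s) (t : V D → ℤ) {F : Conf D} (hF : IsMin n ξ F) :
    ∑ z ∈ P.ZQ n, P.Y b (t (P.cB z)) (tr (P.cQ z) ξ) ≤
      ∑ z ∈ P.ZZ a b n ξ C s t, P.VA b (t (P.cB z)) (tr (P.cQ z) ξ) -
        ∑ z ∈ P.ZZ a b n ξ C s t, P.VD b (t (P.cB z)) (tr (P.cQ z) ξ) +
        3 * P.B0 b * ((P.ZQ n).filter (P.Prob a b n ξ C s t)).card := by
  obtain ⟨-, -, c3⟩ := h6 hP hξ hG t hF
  have hsub : P.ZZ a b n ξ C s t ⊆ P.ZQ n := filter_subset _ _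
  rw [← sum_sdiff hsub, add_comm, ← sum_sub_distrib]
  refine add_le_add (sum_le_sum fun z hz => ?_) ?_
  · obtain ⟨hz1, hp, hr, hs⟩ := mem_filter.1 hz
    obtain ⟨-, r1, r2⟩ := h9 hP hG hp
    have hq : ¬P.RareQ a (tr (P.cQ z) ξ) := fun h => hs (Or.inr ⟨hz1, Or.inl h⟩)
    obtain ⟨g1, g2⟩ := h8 hP (hξ.tr _) hq hr r1 r2
    have hI : P.Ind b (t (P.cB z)) (tr (P.cQ z) ξ) := ⟨hr, g1, g2, r1, r2⟩
    unfold Par.Y
    rw [if_pos hI]
    exact sub_le_sub_right (min_le_left _ _) _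
  · have hB := hP.B0_pos
    calc ∑ z ∈ P.ZQ n \ P.ZZ a b n ξ C s t, P.Y b (t (P.cB z)) (tr (P.cQ z) ξ)
        ≤ ∑ z ∈ P.ZQ n \ P.ZZ a b n ξ C s t,
            if P.Prob a b n ξ C s t z then 3 * P.B0 b else 0 := by
          refine sum_le_sum fun z hz => ?_
          obtain ⟨hz1, hz2⟩ := mem_sdiff.1 hz
          split_ifs with hp
          · exact (hP.Y_bounds (hξ.tr _) _).2
          · by_contra hc
            exact hp (c3 z hz1 hz2 fun h0 => hc (le_of_eq h0))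
      _ ≤ ∑ z ∈ P.ZQ n, if P.Prob a b n ξ C s t z then 3 * P.B0 b else 0 := by
          refine sum_le_sum_of_subset_of_nonneg sdiff_subset fun z _ _ => ?_
          split_ifs
          · linarith
          · exact le_rfl
      _ = _ := by rw [← sum_filter, sum_const, nsmul_eq_mul, mul_comm]

/-- The means are at least `κ` off the two central levels. -/
lemma Ineq_mean (P : Par D) {mY : ℤ → ℝ} {κ : ℝ} (h0 : ∀ u, 0 ≤ mY u)
    (hκ : ∀ u : ℤ, -(P.K1 : ℤ) ≤ u → u ≤ P.K2 → u ≠ 0 → u ≠ P.us → κ ≤ mY u) (n : ℕ)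
    (t : V D → ℤ) :
    κ * ((P.ZQ n).filter fun z => -(P.K1 : ℤ) ≤ t (P.cB z) ∧ t (P.cB z) ≤ P.K2 ∧
        t (P.cB z) ≠ 0 ∧ t (P.cB z) ≠ P.us).card ≤ ∑ z ∈ P.ZQ n, mY (t (P.cB z)) := by
  refine le_trans ?_ (sum_le_sum_of_subset_of_nonneg (filter_subset (fun z =>
    -(P.K1 : ℤ) ≤ t (P.cB z) ∧ t (P.cB z) ≤ P.K2 ∧ t (P.cB z) ≠ 0 ∧ t (P.cB z) ≠ P.us) _)
    fun z _ _ => h0 _)
  rw [mul_comm, ← nsmul_eq_mul]
  refine card_nsmul_le_sum _ _ _ fun z hz => ?_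
  obtain ⟨-, h1, h2, h3, h4⟩ := mem_filter.1 hz
  exact hκ _ h1 h2 h3 h4

/-- The tour term. -/
lemma Ineq_tour {P : Par D} {a b : ℝ} (hP : P.Ok a b) {j c m : ℕ} (hj : j * P.M ≤ c)
    (hc : c ≤ D * m) :
    P.B1 b * ((2 * P.K + 1) * P.k0 * (j + 50 * (c : ℝ) / P.mu)) ≤ a * m / 16 := by
  have hD := hP.hD
  have hmu : 0 < P.mu := by have := hP.one_le_mg; have := hP.hmu; omega
  have hmu' : (0 : ℝ) < P.mu := by exact_mod_cast hmu
  have h1 : j * P.mu ≤ m := by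
    have h2 : D * (j * P.mu) ≤ D * m := by
      calc D * (j * P.mu) = j * P.M := by unfold Par.M; ring
        _ ≤ _ := hj.trans hc
    exact Nat.le_of_mul_le_mul_left h2 (by omega)
  have h1' : (j : ℝ) * P.mu ≤ m := by exact_mod_cast h1
  have hc' : (c : ℝ) ≤ D * m := by exact_mod_cast hc
  have h3 : (j : ℝ) + 50 * (c : ℝ) / P.mu ≤ (1 + 50 * D) * m / P.mu := by
    rw [le_div_iff₀ hmu', add_mul, div_mul_cancel₀ _ hmu'.ne']
    linarith
  have hB := hP.B1_pos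
  have h4 := hP.hB1
  have hm : (0 : ℝ) ≤ m := Nat.cast_nonneg _
  calc P.B1 b * ((2 * P.K + 1) * P.k0 * (j + 50 * (c : ℝ) / P.mu))
      ≤ P.B1 b * ((2 * P.K + 1) * P.k0 * ((1 + 50 * D) * m / P.mu)) := by gcongr
    _ = 16 * P.B1 b * ((2 * P.K + 1) * P.k0 * (1 + 50 * D)) * (m / (16 * P.mu)) := by
        field_simp
    _ ≤ a * P.mu * (m / (16 * P.mu)) := by gcongr
    _ = a * m / 16 := by field_simp

theorem pf_Ineq (h1 : StData) (h2 : StChain) (h3 : StYlow) (h4 : StLow) (h5 : StUp)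
    (h6 : StCover) (h7 : StCountP) (h8 : StGp) (h9 : StPure) : StIneq := by
  intro D P a b hP n ξ hξ mY κ hκ0 hm0 hmY hκ m₀ hm₀ hng hYE hsm
  obtain ⟨U, U', C, s, hG, ⟨j, hj, hT⟩, hC, hTV, hAdm⟩ := h1 hP n hξ
  set X := Xs n U C with hX
  set m := max (2 * X) m₀ with hm
  have hXm : 2 * X ≤ m := le_max_left _ _
  have hmm : m₀ ≤ m := le_max_right _ _
  obtain ⟨t, ht0, hLev, hPack, hz⟩ := h2 hP.hD (hAdm m hXm)
  obtain ⟨y1, y2⟩ := h3 hP hm0 hmm hLev hPack hz hYE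
  have hnear : ∀ x, s x ≠ t P.l0 x → ∃ p ∈ bases C, l1 (x - p) ≤ 7 * D * 2 ^ P.l0 := by
    intro x hx
    obtain ⟨p, hp, hl⟩ := y2 x (by rw [ht0]; exact hx)
    exact ⟨p, image_subset_image inter_subset_right hp, hl⟩
  have hlt : GE n ξ < GE n (shift s ξ) + a * m / 4 := by
    by_contra hc
    exact hng ⟨s, m, hmm, ⟨_, hAdm m hXm⟩, not_lt.1 hc⟩
  have ha := hP.ha
  have hb := hP.b_pos
  obtain ⟨F, hF⟩ := exists_isMinC (n := n) ha.le hb.le hξ ⟨_, cfg_flat n⟩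
  have e1 := h4 hP hξ hG (t P.l0)
  have e2 := hG.en
  have e3 := h5 hP hξ hG (t P.l0) hF
  have e4 := Ineq_sumY h6 h8 h9 hP hξ hG (t P.l0) hF
  have e5 := Ineq_mean P hmY hκ n (t P.l0)
  have e6 : ((P.Unc a b n ξ C s (t P.l0) F).card : ℝ) ≤
      (P.r0 : ℝ) ^ D * ((P.ZQ n).filter (P.Prob a b n ξ C s (t P.l0))).card +
        ((P.BL n).filter fun x => GoodAt n a ξ x P.h0).card := by
    exact_mod_cast Ineq_unc h6 hP hξ hG (t P.l0) hF
  have hCe : C ⊆ edB D n := hG.hC.1.trans (filter_subset _ _)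
  have e7 := h7 hP ξ hCe hnear hT
  have hCm : C.card ≤ D * m := hC.trans (by rw [mul_comm 2 D, mul_assoc]; gcongr)
  have e8 := Ineq_tour hP hj hCm
  have e9 : P.Ybar b mY n ξ (t P.l0) = ∑ z ∈ P.ZQ n, P.Y b (t P.l0 (P.cB z)) (tr (P.cQ z) ξ) -
      ∑ z ∈ P.ZQ n, mY (t P.l0 (P.cB z)) := by
    unfold Par.Ybar; rw [sum_sub_distrib]
  have hB := hP.B1_pos
  have e10 := mul_le_mul_of_nonneg_left e7 hB.le
  have e11 := mul_le_mul_of_nonneg_left e6 (by linarith : 0 ≤ 2 * b)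
  have e12 : P.B1 b = 3 * P.B0 b + 2 * b * P.r0 ^ D := rfl
  set NP : ℝ := (((P.ZQ n).filter (P.Prob a b n ξ C s (t P.l0))).card : ℝ)
  set N : ℝ := (((P.ZQ n).filter fun z => -(P.K1 : ℤ) ≤ t P.l0 (P.cB z) ∧
    t P.l0 (P.cB z) ≤ P.K2 ∧ t P.l0 (P.cB z) ≠ 0 ∧ t P.l0 (P.cB z) ≠ P.us).card : ℝ) with hN
  have e13 : P.B1 b * NP = 3 * P.B0 b * NP + 2 * b * (P.r0 ^ D * NP) := by rw [e12]; ring
  have key : a * X + κ * N < 3 * (a * m) / 8 + a * m₀ / 8 := by linarith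
  have hN0 : 0 ≤ κ * N := mul_nonneg hκ0 (Nat.cast_nonneg _)
  have hle : 2 * X ≤ m₀ := by
    by_contra hc
    have h10 : m = 2 * X := max_eq_left (by omega)
    have h11 : (m : ℝ) = 2 * X := by exact_mod_cast h10
    have h12 : (m₀ : ℝ) ≤ 2 * X := by exact_mod_cast (by omega : m₀ ≤ 2 * X)
    have h13 := mul_le_mul_of_nonneg_left h12 ha.le
    rw [h11] at key
    linarith
  have h10 : m = m₀ := max_eq_right hle
  rw [h10] at key hCm
  have h11 : 0 ≤ a * X := by positivity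
  exact ⟨U, U', C, s, t P.l0, hG, hCm, hTV.trans hle, hnear, by linarith⟩

end Pool.Agent.P.MP_67bca4_pr
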