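import Pool.Agent.P.MP_67bca4_pr.AH.S2

/-!
The local goodness probability and the sandwich for the slab problem.
-/

namespace Pool.Agent.P.MP_67bca4_pr

open Finset
open scoped Classical

variable {D : ℕ}

/-- A local preimage of an index, arbitrary when there is none. -/
lemma LG_pre {I I' : Type} {ι : I' → I} (hι : Function.Injective ι) (i₀ : I') (e : I) :
    ∃ e' : I', ∀ i, i ≠ e' → ι i ≠ e := by
  by_cases h : ∃ i, ι i = e
  · obtain ⟨j, hj⟩ := h
    exact ⟨j, fun i hi h' => hi (hι (h'.trans hj.symm))⟩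
  · exact ⟨i₀, fun i _ h' => h ⟨i, h'⟩⟩

lemma LG_exp (hD : 100 ≤ D) : Real.exp (-√((D ^ 3 : ℕ) : ℝ)) ≤ 1 / 32 := by
  have h1 : (31 : ℝ) ≤ √((D ^ 3 : ℕ) : ℝ) := by
    refine Real.le_sqrt_of_sq_le ?_
    have : 100 ^ 3 ≤ D ^ 3 := Nat.pow_le_pow_left hD 3
    have h2 : ((100 ^ 3 : ℕ) : ℝ) ≤ ((D ^ 3 : ℕ) : ℝ) := by exact_mod_cast this
    refine le_trans ?_ h2
    norm_num
  have h2 := Real.add_one_le_exp (√((D ^ 3 : ℕ) : ℝ))
  rw [Real.exp_neg, one_div]
  exact inv_anti₀ (by norm_num) (by linarith)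

theorem pf_LG (h1 : StGain) (h2 : StPert) (h3 : StMarg) : StLG := by
  intro D P a b hP p hp0 hp1 hT N R _ hNR hsm I _ _ ι hι e₁ e₂ l h hl hh x
  have i₀ : Ix D P.nQ N := (⟨0, mem_hatB.2 fun i => by simp⟩, none, 0)
  obtain ⟨f₁, hf₁⟩ := LG_pre hι i₀ e₁
  obtain ⟨f₂, hf₂⟩ := LG_pre hι i₀ e₂
  have key : ∀ ω : I → Bool, ¬P.LG0 l h
      (dis a b (Function.update (Function.update ω e₁ true) e₂ true ∘ ι)) x →
      (∃ y ∈ inB D P.nQ, GoodAt P.nQ a (dis a b (ω ∘ ι)) y P.h0) ∨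
        GoodAt P.nQ a (dis a b (ω ∘ ι)) x (D ^ 3) := by
    intro ω hω
    set ω' : Ix D P.nQ N → Bool := Function.update (Function.update ω e₁ true) e₂ true ∘ ι
      with hω'
    have pert : ∀ {y : V D} {X₀ : ℕ}, D ^ 3 ≤ X₀ → Gain P.nQ a (dis a b ω') y X₀ →
        GoodAt P.nQ a (dis a b (ω ∘ ι)) y X₀ := by
      refine h2 hP.hD hP.ha hP.hab.le hP.hb hNR.1 hNR.2.1 (fun i hi => ?_) f₁ f₂
        fun i hi₁ hi₂ => ?_
      · simp only [hω', Function.comp_apply, Function.update_apply] at hi ⊢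
        split_ifs <;> simp [hi]
      · simp only [hω', Function.comp_apply, Function.update_apply, hf₁ i hi₁, hf₂ i hi₂,
          if_false]
    obtain ⟨F, hF⟩ := exists_isMinC (n := P.nQ) (K := Cfg P.nQ) hP.ha.le hP.b_pos.le
      (twoV_dis a b ω') ⟨_, cfg_flat _⟩
    have hG := (h1 hP.hD hP.ha hP.hab.le hP.hb (twoV_dis a b ω')).1 (F := F) hF
    by_cases hw : Win l h F
    · right
      by_cases hx : F x = flat 0
      · have hH : Heavy P.nQ F x P.M := by
          by_contra hH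
          exact hω ⟨F, hF, hw, hx, hH⟩
        have hM : 2 * D * P.h0 ≤ P.M := by
          have h4 : 2 * P.h0 ≤ P.mu := by have := hP.hmg; have := hP.hmu; omega
          calc 2 * D * P.h0 = D * (2 * P.h0) := by ring
            _ ≤ D * P.mu := Nat.mul_le_mul_left _ h4
        exact (pert hP.hh ((hG x).2.2.2 _ _ hH hM)).mono hP.hh
      · exact pert le_rfl ((hG x).2.2.1 hx)
    · left
      rw [win_iff] at hw
      push Not at hw
      obtain ⟨y, hy⟩ := hw
      refine ⟨y, ?_, pert hP.hh ((hG y).1 _ l h hP.one_le_h0 hl hh hy)⟩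
      by_contra hyB
      apply hy
      rw [hF.1 y hyB]
      exact winCol_flat.2 ⟨by omega, by omega⟩
  have hT' : ∀ (y : V D) (m : ℕ), D ^ 3 ≤ m →
      Pr p (fun ω : Ix D P.nQ N → Bool => GoodAt P.nQ a (dis a b ω) y m) ≤
        Real.exp (-√(m : ℝ)) := fun y m hm => by
    have := hT P.nQ N R hNR.1 hNR.2.1 ∅ y m hm
    simpa only [ovr_empty] using this
  refine (Pr_mono hp0 hp1 key).trans ?_
  rw [(h3 p ι hι).2 fun ω => (∃ y ∈ inB D P.nQ, GoodAt P.nQ a (dis a b ω) y P.h0) ∨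
    GoodAt P.nQ a (dis a b ω) x (D ^ 3)]
  refine (Pr_or hp0 hp1 _ _).trans ?_
  have hA := (Pr_union hp0 hp1 (inB D P.nQ)
    fun y (ω : Ix D P.nQ N → Bool) => GoodAt P.nQ a (dis a b ω) y P.h0).trans
    (sum_le_card_nsmul _ _ _ fun y _ => hT' y _ hP.hh)
  have hB := (hT' x _ le_rfl).trans (LG_exp hP.hD)
  have hc : ((inB D P.nQ).card : ℝ) ≤ (P.nQ : ℝ) ^ D := by
    rw [card_inB]
    exact_mod_cast Nat.pow_le_pow_left (Nat.sub_le _ _) D
  rw [nsmul_eq_mul] at hA
  have hE := (Real.exp_pos (-√(P.h0 : ℝ))).le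
  have := mul_le_mul_of_nonneg_right hc hE
  have h5 : 0 ≤ (P.nQ : ℝ) ^ D * Real.exp (-√(P.h0 : ℝ)) := by positivity
  linarith

/-- A windowed minimiser of the shifted problem, lifted by `c`, minimises among the windowed
configurations with anchor `c`. -/
lemma LG_lift {n : ℕ} {ξ : Dis D} {c l h : ℤ} {U : Conf D}
    (hU : IsMinC n (shc c ξ) (WCl n l h) U) (W : Conf D)
    (hW : ∀ y, y ∉ inB D n → W y = flat c) (hW' : Win (l + c) (h + c) W) :
    En n ξ (fun y => sh (-c) (U y)) ≤ En n ξ W := by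
  have h1 : En n ξ (fun y => sh (-c) (U y)) = En n (shift (fun _ => c) ξ) U := by
    rw [← En_shift_const (n := n) (ξ := ξ) c (fun y => sh (-c) (U y))]
    congr 1
    funext y
    rw [sh_sh]; simp
  have h2 : WCl n l h (fun y => sh c (W y)) := by
    refine ⟨fun y hy => ?_, fun y => ⟨fun k hk => ?_, fun k hk => ?_⟩⟩
    · simp only [hW y hy, sh_flat, sub_self]
    · exact (hW' y).1 _ (by omega)
    · have := (hW' y).2 _ hk
      omega
  rw [h1, ← En_shift_const (n := n) (ξ := ξ) c W]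
  exact hU.2 _ h2

theorem pf_Sand : StSand := by
  intro D n H hH a b ha hab ξ h lo hi hlo hhi U₁ U₂ h₁ h₂ x f₁ f₂
  have hH' : (1 : ℤ) ≤ H := by exact_mod_cast hH
  have hpos : ∀ y o k, 0 ≤ ξ y o k := fun y o k => ha.trans (h.le hab y o k).1
  obtain ⟨S, hS, hSm⟩ := exists_isMinC (n := n) (K := Slab n H) ha (ha.trans hab) h
    ⟨fun _ => flat (((H : ℤ) - 1) / 2), ⟨fun y => ⟨fun k hk => by simp only [mem_flat]; omega,
      fun k hk => by simp only [mem_flat] at hk; omega⟩, fun y _ =>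
      ⟨fun k hk => by simp only [mem_flat]; omega,
        fun k hk => by simp only [mem_flat] at hk; omega⟩⟩⟩
  set Um : Conf D := fun y => sh (-lo) (U₁ y) with hUm
  set Up : Conf D := fun y => sh (-hi) (U₂ y) with hUp
  have Um_off : ∀ y, y ∉ inB D n → Um y = flat lo := fun y hy => by
    simp only [hUm, h₁.1.1 y hy, sh_flat, zero_sub, neg_neg]
  have Up_off : ∀ y, y ∉ inB D n → Up y = flat hi := fun y hy => by
    simp only [hUp, h₂.1.1 y hy, sh_flat, zero_sub, neg_neg]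
  have Um_win : Win 0 ((H : ℤ) - 1) Um := fun y =>
    ⟨fun k hk => (h₁.1.2 y).1 _ (by omega), fun k hk => by
      have := (h₁.1.2 y).2 _ hk; omega⟩
  have Up_win : Win 0 ((H : ℤ) - 1) Up := fun y =>
    ⟨fun k hk => (h₂.1.2 y).1 _ (by omega), fun k hk => by
      have := (h₂.1.2 y).2 _ hk; omega⟩
  set W : Conf D := fun y => (S y).inter (Up y) with hW
  have hWs : Slab n H W := by
    refine ⟨fun y => ⟨fun k hk => ?_, fun k hk => ?_⟩, fun y hy => ⟨fun k hk => ?_, fun k hk => ?_⟩⟩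
    · exact Col.mem_inter.2 ⟨(hS.1 y).1 k hk, (Up_win y).1 k hk⟩
    · exact (hS.1 y).2 k (Col.mem_inter.1 hk).1
    · refine Col.mem_inter.2 ⟨(hS.2 y hy).1 k hk, ?_⟩
      rw [Up_off y hy, mem_flat]; omega
    · exact (hS.2 y hy).2 k (Col.mem_inter.1 hk).1
  have hWe : En n ξ W ≤ En n ξ S := by
    have h3 := En_submod (n := n) hpos S Up
    have h4 : En n ξ Up ≤ En n ξ (fun y => (S y).union (Up y)) := by
      refine LG_lift h₂ _ (fun y hy => ?_) fun y => ⟨fun k hk => ?_, fun k hk => ?_⟩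
      · ext k
        rw [Col.mem_union, Up_off y hy, mem_flat]
        exact ⟨fun hk => hk.elim (fun hk => hhi ▸ (hS.2 y hy).2 k hk) id, Or.inr⟩
      · exact Col.mem_union.2 (Or.inl ((hS.1 y).1 k (by omega)))
      · rcases Col.mem_union.1 hk with hk | hk
        · have := (hS.1 y).2 k hk; omega
        · have := (Up_win y).2 k hk; omega
    linarith
  set W' : Conf D := fun y => (W y).union (Um y) with hW'
  have hW's : Slab n H W' := by
    refine ⟨fun y => ⟨fun k hk => ?_, fun k hk => ?_⟩, fun y hy => ⟨fun k hk => ?_, fun k hk => ?_⟩⟩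
    · exact Col.mem_union.2 (Or.inl ((hWs.1 y).1 k hk))
    · rcases Col.mem_union.1 hk with hk | hk
      · exact (hWs.1 y).2 k hk
      · exact (Um_win y).2 k hk
    · exact Col.mem_union.2 (Or.inl ((hWs.2 y hy).1 k hk))
    · rcases Col.mem_union.1 hk with hk | hk
      · exact (hWs.2 y hy).2 k hk
      · rw [Um_off y hy, mem_flat] at hk; omega
  have hW'e : En n ξ W' ≤ En n ξ W := by
    have h3 := En_submod (n := n) hpos W Um
    have h4 : En n ξ Um ≤ En n ξ (fun y => (W y).inter (Um y)) := by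
      refine LG_lift h₁ _ (fun y hy => ?_) fun y => ⟨fun k hk => ?_, fun k hk => ?_⟩
      · ext k
        rw [Col.mem_inter, Um_off y hy, mem_flat]
        exact ⟨fun hk => hk.2, fun hk => ⟨(hWs.2 y hy).1 k (hlo ▸ hk), hk⟩⟩
      · exact Col.mem_inter.2 ⟨(hWs.1 y).1 k (by omega), (Um_win y).1 k (by omega)⟩
      · have := (Um_win y).2 k (Col.mem_inter.1 hk).2; omega
    linarith
  refine ⟨W', ⟨hW's, fun U' hU' => hW'e.trans (hWe.trans (hSm U' hU'))⟩, ?_⟩
  have low : ∀ k, k ≤ lo → k ∈ (W' x).s := fun k hk => by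
    refine Col.mem_union.2 (Or.inr ?_)
    rcases f₁ with f | f <;> simp only [hUm, f, sh_flat, mem_flat] <;> omega
  have upp : ∀ k ∈ (W' x).s, k ≤ hi := fun k hk => by
    rcases Col.mem_union.1 hk with hk | hk
    · have hk' := (Col.mem_inter.1 hk).2
      rcases f₂ with f | f <;> simp only [hUp, f, sh_flat, mem_flat] at hk' <;> omega
    · rcases f₁ with f | f <;> simp only [hUm, f, sh_flat, mem_flat] at hk <;> omega
  by_cases hx : hi ∈ (W' x).s
  · right
    ext k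
    rw [mem_flat]
    refine ⟨upp k, fun hk => ?_⟩
    by_cases hk' : k = hi
    · exact hk' ▸ hx
    · exact low k (by omega)
  · left
    ext k
    rw [mem_flat]
    refine ⟨fun hk => ?_, low k⟩
    have h5 : k ≠ hi := fun h' => hx (h' ▸ hk)
    have := upp k hk
    omega

end Pool.Agent.P.MP_67bca4_pr
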