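import Pool.Agent.P.MP_67bca4_pr.AH.S1

/-! The layering bound for shifts with several roots. -/

namespace Pool.Agent.P.MP_67bca4_pr

open Finset
open scoped Classical

variable {D : ℕ}

/-- Removing all contours based on `Y`, with the tour extended through them. -/
theorem Lay_core (hD : 100 ≤ D) {n : ℕ} {a b : ℝ} (ha : 0 < a) (hab : a ≤ b)
    (hb : 2 * b < a * D) {ξ : Dis D} (h : TwoV a b ξ) {U : Conf D} (hU : IsMin n ξ U)
    {Ω : Finset (V D)} {j : ℕ} {P Y : Finset (V D)} {L : ℝ} (hT : MTour l1 id Ω j P L) (hY : Y ⊆ P) :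
    ∃ (X : ℕ) (t : Fn D) (U' : Conf D) (J : Finset (Ed D)), Cfg n U' ∧ Supp n t ∧ jumps t ⊆ J ∧
      SqCl J ∧ Big J ∧ J.card ≤ X ∧ TV t ≤ 2 * X ∧
      MTour l1 id Ω j (P ∪ bases J) (L + 8 * D * X) ∧
      En n (shift t ξ) U' + a * X ≤ GE n ξ ∧ (∀ y ∈ Y, ¬Ovh (U' y)) ∧
      (∀ e ∈ jumps t, ¬Ovh (U' (tip e))) ∧ (Y ⊆ inB D n → Lay n U Y ≤ Y.card + X) := by
  set C := cl (Jst n U) ((Jst n U).filter fun e => e.1 ∈ Y) with hCdef
  have hC : Closed (Jst n U) C := cl_closed _ _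
  have hmem : ∀ e ∈ Jst n U, e.1 ∈ Y → e ∈ C := fun e he hy => mem_cl (mem_filter.2 ⟨he, hy⟩) he
  have hbig : Big (JU n U) := big_of_isMin hD ha hb (fun x o k => h.le hab x o k) hU
  obtain ⟨t, U', c1, c2, c3, c4, c5, c6⟩ := lemA (n := n) (by omega) ha.le
    (fun x o k => (h.le hab x o k).1) hU.1 hC
  refine ⟨Xs n U C, t, U', JU n U ∩ C, c1, c2, c3, sqCl_JU_inter hU.1 hC, hbig.JU_inter hC,
    card_JU_inter_le.trans Wt_le_Xs, c4, ?_, ?_, fun y hy => ?_, fun e he => ?_,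
    fun hYB => Lay_le (by omega) hU.1 hYB hC.1 hmem⟩
  · have t1 := hT.closure (J := Jst n U) (R := (Jst n U).filter fun e => e.1 ∈ Y)
      (fun e he _ => hY (mem_filter.1 he).2)
    refine t1.mono (union_subset_union_right (image_subset_image inter_subset_right)) ?_
    have h2 : (C.card : ℝ) ≤ 2 * D * Xs n U C := by
      exact_mod_cast card_le_Xs (by omega) hC.1
    rw [← hCdef]
    linarith
  · have h3 : GE n ξ = En n ξ U := IsMinC.GEc_eq hU
    linarith
  · by_cases hy' : Ovh (U y)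
    · exact c6 y (Or.inr ⟨(y, ⟨0, by omega⟩),
        hmem _ (hU.1.mem_Jst.2 (Or.inr (Or.inl hy'))) hy, Or.inl rfl⟩)
    · exact c6 y (Or.inl hy')
  · exact c6 _ (Or.inr ⟨e, (mem_inter.1 (c3 he)).2, Or.inr rfl⟩)

/-- The layering bound from the absence of larger good shifts. -/
theorem pf_Lay : StLay := by
  intro D hD n a b ρ ha hab hρ hb ξ h Ω μ m q hm hq t Y P hP hmax U hU
  obtain ⟨p1, p2, p3, p4, ⟨j, hj, p5⟩, p11, J, p6, p7, p8, p9, p10⟩ := hP
  have hb0 : 0 ≤ b := ha.le.trans hab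
  have hρ1 : 1 ≤ ρ := by
    by_contra hc
    push Not at hc
    nlinarith
  have hnn : ∀ s : V D → ℤ, ∀ x o k, 0 ≤ shift s ξ x o k :=
    fun s x o k => ha.le.trans ((h.shift s).le hab x o k).1
  have hD' : (100 : ℝ) ≤ D := by exact_mod_cast hD
  have hq' : (1 : ℝ) ≤ q := by exact_mod_cast hq
  have hm' : (1 : ℝ) ≤ m := by exact_mod_cast hm
  have hqq : q * m ≤ q ^ 2 * m := by gcongr; nlinarith
  have hqqq : q ^ 2 * m ≤ q ^ 3 * m := by gcongr; omega
  have hmq : m ≤ q * m := by nlinarith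
  have hqq' : (q : ℝ) * m ≤ q ^ 2 * m := by exact_mod_cast hqq
  have hqqq' : (q : ℝ) ^ 2 * m ≤ q ^ 3 * m := by exact_mod_cast hqqq
  have hmq' : (m : ℝ) ≤ q * m := by exact_mod_cast hmq
  -- first step: the unshifted minimiser
  obtain ⟨U₀, hU₀⟩ := exists_isMinC (n := n) ha.le hb0 h ⟨_, cfg_flat n⟩
  have hY₀ : (((jumps t).image tip).card : ℝ) ≤ q * m := by
    exact_mod_cast card_image_le.trans ((card_jumps_le t).trans p2)
  have T₀ := p5.near (Q := (jumps t).image tip) (δ := 6 * D * q) (by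
    intro y hy
    obtain ⟨e, he, rfl⟩ := mem_image.1 hy
    obtain ⟨p, hp, h1⟩ := p10 e (p6 he)
    refine ⟨p, hp, ?_⟩
    have h2 := l1_sub_le (tip e) e.1 p
    have h3 : l1 (tip e - e.1) = 1 := by simp [tip]
    nlinarith)
  obtain ⟨X₀, t₀, U₀', J₀, a1, a2, a3, a4, a5, a6, a7, a8, a9, a10, a11, -⟩ :=
    Lay_core hD ha hab hb h hU₀ T₀ subset_union_right
  have hX₀ : X₀ < 2 * q ^ 2 * m := by
    by_contra hc
    push Not at hc
    have hc' : (2 : ℝ) * q ^ 2 * m ≤ X₀ := by exact_mod_cast hc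
    refine hmax t₀ (2 * X₀ + 4 * q ^ 2 * m) (by rw [mul_assoc 4]; omega)
      ⟨⟨J₀, a2, by omega, a3, a4, a5, by omega, j, by rw [mul_assoc 4]; omega,
        a8.mono subset_union_right ?_⟩, ?_⟩
    · push_cast
      have h1 : 2 * (6 * (D : ℝ) * q) * ((jumps t).image tip).card ≤ 2 * (6 * D * q) * (q * m) := by
        gcongr
      have h2 : (D : ℝ) * m ≤ D * (q ^ 2 * m) := by gcongr; linarith
      have h3 : (0 : ℝ) ≤ D * X₀ := by positivity
      have h4 : (0 : ℝ) ≤ D * (q ^ 2 * m) := by positivity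
      linarith
    · have h1 : GE n (shift t₀ ξ) ≤ En n (shift t₀ ξ) U₀' := GEc_le (hnn _) a1
      push_cast
      have h2 : a * (2 * q ^ 2 * m) ≤ a * X₀ := by gcongr
      linarith
  -- second step: the shifted ground energy is not much larger
  obtain ⟨U₁, b1, b2⟩ := lemB (n := n) (b := b) (ξ := shift t₀ ξ)
    (fun x o k => ⟨hnn _ x o k, ((h.shift _).le hab x o k).2⟩) a1 (t := t - t₀)
    (fun x hx => by simp [p1 x hx, a2 x hx]) (fun e he => by
      rcases mem_union.1 (jumps_sub _ _ he) with h1 | h1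
      · exact a10 _ (mem_image_of_mem _ h1)
      · exact a11 _ h1)
  have e1 : shift (t - t₀ : Fn D) (shift t₀ ξ) = shift t ξ := by
    rw [shift_shift]; congr 1; funext x; simp
  rw [e1] at b2
  have hG : GE n (shift t ξ) ≤ GE n ξ + 5 * ρ * a * (q ^ 3 * m) := by
    have h1 : GE n (shift t ξ) ≤ En n (shift t ξ) U₁ := GEc_le (hnn _) b1
    have h2 : (TV (t - t₀) : ℝ) ≤ 5 * (q ^ 3 * m) := by
      have := TV_sub_le t t₀
      have h3 : TV (t - t₀) ≤ 5 * (q ^ 3 * m) := by rw [mul_assoc 2] at hX₀; omega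
      exact_mod_cast h3
    have h3 : b * (TV (t - t₀) : ℝ) ≤ ρ * a * (5 * (q ^ 3 * m)) := by gcongr
    have h4 : 0 ≤ a * (X₀ : ℝ) := by positivity
    linarith
  -- third step: the composite shift
  have T₁ := (p5.near (Q := Y) p11).near (Q := bases J) (δ := 5 * D * q) (by
    intro y hy
    obtain ⟨e, he, rfl⟩ := mem_bases.1 hy
    obtain ⟨p, hp, h1⟩ := p10 e he
    exact ⟨p, mem_union_left _ hp, h1⟩)
  obtain ⟨X, t₁, U', J₁, c1, c2, c3, c4, c5, c6, c7, c8, c9, -, -, c12⟩ :=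
    Lay_core hD ha hab hb (h.shift t) hU T₁ (Y := Y)
      (subset_union_right.trans subset_union_left)
  have p4' : (Y.card : ℝ) ≤ 3 * q ^ 2 * m := by exact_mod_cast p4
  have hX : (X : ℝ) < 16 * ρ * q ^ 3 * m := by
    by_contra hc
    push Not at hc
    refine hmax (t₁ + t) (2 * X + 12 * q ^ 3 * m) (by rw [mul_assoc 12]; omega)
      ⟨⟨J₁ ∪ J, fun x hx => by simp [p1 x hx, c2 x hx], ?_,
        (jumps_add _ _).trans (union_subset_union c3 p6), c4.union p7, c5.union p8, ?_,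
        j, by rw [mul_assoc 12]; omega, c8.mono ?_ ?_⟩, ?_⟩
    · have := TV_add_le t₁ t; rw [mul_assoc 12]; omega
    · have := card_union_le J₁ J; rw [mul_assoc 12]; omega
    · intro y hy
      obtain ⟨e, he, rfl⟩ := mem_bases.1 hy
      rcases mem_union.1 he with h1 | h1
      · exact mem_union_right _ (mem_bases.2 ⟨e, h1, rfl⟩)
      · exact mem_union_left _ (mem_union_right _ (mem_bases.2 ⟨e, h1, rfl⟩))
    · push_cast
      have h0 : ((bases J).card : ℝ) ≤ q * m := by exact_mod_cast card_image_le.trans p9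
      have h1 : 2 * (7 * (D : ℝ) * q) * Y.card ≤ 2 * (7 * D * q) * (3 * q ^ 2 * m) := by gcongr
      have h1' : 2 * (5 * (D : ℝ) * q) * (bases J).card ≤ 2 * (5 * D * q) * (q * m) := by gcongr
      have h2 : (D : ℝ) * m ≤ D * (q ^ 3 * m) := by gcongr; linarith
      have h2' : (D : ℝ) * (q ^ 2 * m) ≤ D * (q ^ 3 * m) := by gcongr
      have h3 : (0 : ℝ) ≤ D * X := by positivity
      have h4 : (0 : ℝ) ≤ D * (q ^ 3 * m) := by positivity
      linarith
    · have e2 : shift t₁ (shift t ξ) = shift (t₁ + t : Fn D) ξ := by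
        rw [shift_shift]; congr 1
      rw [e2] at c9
      have h1 : GE n (shift (t₁ + t : Fn D) ξ) ≤ En n (shift (t₁ + t : Fn D) ξ) U' :=
        GEc_le (hnn _) c1
      rw [Nat.cast_add]
      simp only [Nat.cast_mul, Nat.cast_pow, Nat.cast_ofNat]
      have h2 : a * (16 * ρ * q ^ 3 * m) ≤ a * X := by gcongr
      have h3 : a * (q ^ 3 * m) ≤ ρ * a * (q ^ 3 * m) := by
        have : 0 ≤ a * ((q : ℝ) ^ 3 * m) := by positivity
        nlinarith
      linarith
  have h5 : (Lay n U Y : ℝ) ≤ Y.card + X := by exact_mod_cast c12 p3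
  have h6 : (q : ℝ) ^ 3 * m ≤ ρ * (q ^ 3 * m) := by
    have : 0 ≤ (q : ℝ) ^ 3 * m := by positivity
    nlinarith
  linarith

end Pool.Agent.P.MP_67bca4_pr
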