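import Pool.Agent.P.MP_67bca4_pr.AH.S1

/-!
Attaching a non-flat column to a component of contour edges, and linking a long chain of such
columns to a heavy family.
-/

namespace Pool.Agent.P.MP_67bca4_pr

open Finset
open scoped Classical

variable {D : ℕ}

theorem pf_Attach : StAttach := by
  intro D n hD U hU y hy
  let i0 : Fin D := ⟨0, by omega⟩
  let i1 : Fin D := ⟨1, by omega⟩
  have hi : i0 ≠ i1 := by simp [i0, i1, Fin.ext_iff]
  obtain ⟨k, hk⟩ : (dif (U y) (flat 0)).Nonempty := by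
    rw [nonempty_iff_ne_empty]
    exact fun h => hy (dif_eq_empty.1 h)
  let g : V D → ℤ := fun x => (if k ∈ (U x).s then 1 else 0) - (if k ≤ 0 then 1 else 0)
  have hg : Supp n g := fun x hx => by simp [g, hU x hx]
  have hgJ : ∀ e, grad g e ≠ 0 → e ∈ Jst n U := by
    intro e he
    refine hU.mem_Jst.2 (Or.inl fun h => he ?_)
    simp only [grad, g, h]
    ring
  have hy' : g y ≠ 0 := by
    rw [mem_dif, mem_flat] at hk
    simp only [g]
    by_cases a : k ∈ (U y).s <;> by_cases b : k ≤ 0 <;> simp [a, b] at hk ⊢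
  obtain ⟨t, h1, h2⟩ := sur_key hD g hg hgJ y hy' i0 i1 hi
  refine ⟨_, hgJ _ h1, le_trans (le_of_eq ?_) (Nat.cast_le.2 h2)⟩
  rw [l1_sub_comm]
  simp only [add_sub_cancel_left]
  unfold l1
  rw [sum_eq_single i0] <;> simp +contextual [ee_apply]

/-- Splitting a path at the last point with a given property. -/
lemma Link_split {α : Type} {R : α → α → Prop} {P : α → Prop} {y q : α}
    (h : Relation.ReflTransGen R y q) (hy : P y) :
    ∃ w, P w ∧ (w = q ∨ ∃ w', R w w' ∧ ¬P w' ∧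
      Relation.ReflTransGen (fun v u => R v u ∧ ¬P u) w' q) := by
  induction h with
  | refl => exact ⟨y, hy, Or.inl rfl⟩
  | @tail b c _ hbc ih =>
    by_cases hc : P c
    · exact ⟨c, hc, Or.inl rfl⟩
    obtain ⟨w, h1, rfl | ⟨w', h2, h3, h4⟩⟩ := ih
    · exact ⟨w, h1, Or.inr ⟨c, hbc, hc, .refl⟩⟩
    · exact ⟨w, h1, Or.inr ⟨w', h2, h3, h4.tail ⟨hbc, hc⟩⟩⟩

lemma Link_mono {α : Type} {R S : α → α → Prop} {y q : α} (h : Relation.ReflTransGen R y q)
    (hRS : ∀ v u, R v u → S v u) : Relation.ReflTransGen S y q := by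
  induction h with
  | refl => exact .refl
  | tail _ h2 ih => exact ih.tail (hRS _ _ h2)

lemma Link_pre {a r : V D} {P : Finset (V D)} {L : ℝ} (h : Tour l1 a P L) :
    Tour l1 r P (l1 (a - r) + L) := by
  obtain ⟨w, h1, h2⟩ := h
  refine ⟨a :: w, fun p hp => List.mem_cons_of_mem _ (h1 p hp), ?_⟩
  simp only [wcost]
  linarith

lemma Link_self (a : V D) : Tour l1 a {a} 0 :=
  ⟨[], fun p hp => by simp [mem_singleton.1 hp], by simp [wcost]⟩

/-- `x` is close to a component of `J` that contains an edge of `A`. -/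
def Link_near (J A : Finset (Ed D)) (x : V D) : Prop :=
  ∃ e ∈ A, l1 (x - e.1) ≤ (cl J {e}).card

lemma Link_step {J : Finset (Ed D)} {e : Ed D} (he : e ∈ J) {y w w' : V D}
    (hy : l1 (y - e.1) ≤ (cl J {e}).card) (hw : Link_near J (cl J {e}) w)
    (hw' : l1 (w' - w) ≤ 1) {P : Finset (V D)} {L : ℝ} (h : Tour l1 w' P L) :
    Tour l1 y (P ∪ bases (cl J {e})) (L + 11 * (cl J {e}).card) := by
  obtain ⟨e', he', hw⟩ := hw
  have heK : e ∈ cl J {e} := mem_cl (mem_singleton_self e) he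
  have h1 : (1 : ℝ) ≤ (cl J {e}).card := by
    exact_mod_cast card_pos.2 ⟨e, heK⟩
  have h2 : ((cl J {e'}).card : ℝ) ≤ (cl J {e}).card := by
    exact_mod_cast card_le_card
      (cl_sub (cl_closed J {e}) fun f hf _ => by rwa [mem_singleton.1 hf])
  have h3 : l1 (e'.1 - e.1) ≤ 0 + 4 * (cl J {e}).card := by
    refine ((Link_self e.1).closure (J := J) (R := {e}) fun f hf _ => ?_).dist_le
      (mem_union_right _ (mem_bases.2 ⟨e', he', rfl⟩))
    rw [mem_singleton.1 hf]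
    exact mem_singleton_self _
  have h4 := ((Link_pre (r := e.1) h).insert_root.closure (J := J) (R := {e}) fun f hf _ => by
    rw [mem_singleton.1 hf]
    exact mem_insert_self _ _)
  refine (Link_pre (r := y) h4).mono (union_subset_union (subset_insert _ _) Subset.rfl) ?_
  have h5 := l1_sub_le w' w e.1
  have h6 := l1_sub_le w e'.1 e.1
  rw [l1_sub_comm] at hy
  linarith

/-- The conclusion of the chain argument. -/
def Link_con (J₁ J₂ A₁ A₂ : Finset (Ed D)) (k : ℕ) (y q : V D) : Prop :=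
  ∃ C₁ C₂, Closed J₁ C₁ ∧ C₁ ⊆ A₁ ∧ Closed J₂ C₂ ∧ C₂ ⊆ A₂ ∧
    Tour l1 y (bases C₁ ∪ bases C₂ ∪ {q}) (11 * (C₁.card + C₂.card) + k)

lemma Link_empty (J : Finset (Ed D)) : Closed J ∅ := ⟨empty_subset _, fun _ h => by simp at h⟩

lemma Link_union {J C C' : Finset (Ed D)} (h : Closed J C) (h' : Closed J C') :
    Closed J (C ∪ C') := by
  refine ⟨union_subset h.1 h'.1, fun e he e' he' hs => ?_⟩
  rcases mem_union.1 he with he | he
  · exact mem_union_left _ (h.2 e he e' he' hs)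
  · exact mem_union_right _ (h'.2 e he e' he' hs)

lemma Link_con_self (J₁ J₂ A₁ A₂ : Finset (Ed D)) (k : ℕ) (q : V D) :
    Link_con J₁ J₂ A₁ A₂ k q q :=
  ⟨∅, ∅, Link_empty _, empty_subset _, Link_empty _, empty_subset _,
    (Link_self q).mono (by simp [bases]) (by positivity)⟩

lemma Link_con_symm {J₁ J₂ A₁ A₂ : Finset (Ed D)} {k : ℕ} {y q : V D}
    (h : Link_con J₁ J₂ A₁ A₂ k y q) : Link_con J₂ J₁ A₂ A₁ k y q := by
  obtain ⟨C₁, C₂, h1, h2, h3, h4, h5⟩ := h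
  refine ⟨C₂, C₁, h3, h4, h1, h2, h5.mono ?_ (le_of_eq (by ring))⟩
  rw [union_comm (bases C₂)]

/-- The labels allowed by `A₁`, `A₂` and `E`. -/
def Link_lab (J₁ J₂ A₁ A₂ : Finset (Ed D)) (E : Finset (V D)) (x : V D) : Prop :=
  Link_near J₁ A₁ x ∨ Link_near J₂ A₂ x ∨ x ∈ E

/-- The chain statement for given allowed labels. -/
def Link_St (J₁ J₂ A₁ A₂ : Finset (Ed D)) (E : Finset (V D)) : Prop :=
  ∀ y q : V D, Link_lab J₁ J₂ A₁ A₂ E y →
    Relation.ReflTransGen (fun v w => Adj v w ∧ Link_lab J₁ J₂ A₁ A₂ E w) y q →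
    Link_con J₁ J₂ A₁ A₂ E.card y q

lemma Link_cont {J₁ J₂ A₁ A₂ : Finset (Ed D)} {E : Finset (V D)} (ih : Link_St J₁ J₂ A₁ A₂ E)
    {Z P : V D → Prop} (hZ : ∀ x, Z x → ¬P x → Link_lab J₁ J₂ A₁ A₂ E x) {y q : V D}
    (h : Relation.ReflTransGen (fun v w => Adj v w ∧ Z w) y q) (hy : P y) :
    ∃ w w', P w ∧ l1 (w' - w) ≤ 1 ∧ Link_con J₁ J₂ A₁ A₂ E.card w' q := by
  obtain ⟨w, h1, rfl | ⟨w', h2, h3, h4⟩⟩ := Link_split h hy
  · exact ⟨w, w, h1, by simp, Link_con_self _ _ _ _ _ _⟩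
  · exact ⟨w, w', h1, h2.1.l1_eq.le, ih w' q (hZ _ h2.2 h3)
      (Link_mono h4 fun v u hh => ⟨hh.1.1, hZ _ hh.1.2 hh.2⟩)⟩

lemma Link_side {J₁ J₂ A₁ A₂ : Finset (Ed D)} {E : Finset (V D)} (hA : Closed J₁ A₁)
    {e : Ed D} (he : e ∈ A₁) (ih : Link_St J₁ J₂ (A₁ \ cl J₁ {e}) A₂ E) {y q : V D}
    (hy : l1 (y - e.1) ≤ (cl J₁ {e}).card)
    (h : Relation.ReflTransGen (fun v w => Adj v w ∧ Link_lab J₁ J₂ A₁ A₂ E w) y q) :
    Link_con J₁ J₂ A₁ A₂ E.card y q := by
  have heJ := hA.1 he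
  have hK : cl J₁ {e} ⊆ A₁ := cl_sub hA fun f hf _ => by rwa [mem_singleton.1 hf]
  obtain ⟨w, w', h1, h2, C₁, C₂, h3, h4, h5, h6, h7⟩ :=
    Link_cont (P := Link_near J₁ (cl J₁ {e})) ih (fun x hx hx' => by
      rcases hx with ⟨f, hf, hf'⟩ | hx
      · exact Or.inl ⟨f, mem_sdiff.2 ⟨hf, fun hh => hx' ⟨f, hh, hf'⟩⟩, hf'⟩
      · exact Or.inr hx) h ⟨e, mem_cl (mem_singleton_self e) heJ, hy⟩
  have hd : Disjoint C₁ (cl J₁ {e}) := disjoint_left.2 fun f hf => (mem_sdiff.1 (h4 hf)).2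
  refine ⟨C₁ ∪ cl J₁ {e}, C₂, Link_union h3 (cl_closed _ _),
    union_subset (h4.trans sdiff_subset) hK, h5, h6, (Link_step heJ hy h1 h2 h7).mono ?_ ?_⟩
  · intro x hx
    simp only [bases, image_union, mem_union] at hx ⊢
    tauto
  · rw [card_union_of_disjoint hd]
    push_cast
    linarith

lemma Link_St_symm {J₁ J₂ A₁ A₂ : Finset (Ed D)} {E : Finset (V D)}
    (h : Link_St J₁ J₂ A₁ A₂ E) : Link_St J₂ J₁ A₂ A₁ E := by
  have key : ∀ x, Link_lab J₂ J₁ A₂ A₁ E x → Link_lab J₁ J₂ A₁ A₂ E x := by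
    intro x hx
    unfold Link_lab at hx ⊢
    tauto
  exact fun y q hy hp =>
    Link_con_symm (h y q (key y hy) (Link_mono hp fun v w hh => ⟨hh.1, key w hh.2⟩))

lemma Link_main (J₁ J₂ : Finset (Ed D)) (N : ℕ) : ∀ (A₁ A₂ : Finset (Ed D)) (E : Finset (V D)),
    Closed J₁ A₁ → Closed J₂ A₂ → A₁.card + A₂.card + E.card < N → Link_St J₁ J₂ A₁ A₂ E := by
  induction N with
  | zero => intro A₁ A₂ E _ _ h; omega
  | succ N ih =>
    intro A₁ A₂ E h1 h2 hN y q hy hp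
    have hlt : ∀ {J A : Finset (Ed D)} {e : Ed D}, Closed J A → e ∈ A →
        (A \ cl J {e}).card < A.card := fun {J A e} hA he =>
      card_lt_card ⟨sdiff_subset, fun h =>
        (mem_sdiff.1 (h he)).2 (mem_cl (mem_singleton_self e) (hA.1 he))⟩
    rcases hy with ⟨e, he, hy⟩ | ⟨e, he, hy⟩ | hy
    · have := hlt h1 he
      exact Link_side h1 he (ih _ _ _ (h1.sdiff (cl_closed _ _)) h2 (by omega)) hy hp
    · have := hlt h2 he
      refine Link_con_symm (Link_side h2 he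
        (Link_St_symm (ih _ _ _ h1 (h2.sdiff (cl_closed _ _)) (by omega))) hy
        (Link_mono hp fun v w hh => ⟨hh.1, ?_⟩))
      have h3 := hh.2
      unfold Link_lab at h3 ⊢
      tauto
    · have hc := card_erase_add_one hy
      obtain ⟨w, w', rfl, h3, C₁, C₂, h4, h5, h6, h7, h8⟩ :=
        Link_cont (P := fun x => x = y) (ih A₁ A₂ (E.erase y) h1 h2 (by omega))
          (fun x hx hx' => by
            rcases hx with hx | hx | hx
            · exact Or.inl hx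
            · exact Or.inr (Or.inl hx)
            · exact Or.inr (Or.inr (mem_erase.2 ⟨hx', hx⟩))) hp rfl
      refine ⟨C₁, C₂, h4, h5, h6, h7, (Link_pre h8).mono Subset.rfl ?_⟩
      rw [← hc]
      push_cast
      linarith

lemma Link_fin {n : ℕ} {U : Conf D} {C : Finset (Ed D)} (hC : Closed (Jst n U) C) {p q : V D}
    {M : ℕ} (hM : 1 ≤ M) {P : Finset (V D)} (hq : q ∈ P) (hP : bases C ⊆ P)
    (h : Tour l1 p P (22 * C.card + M + 1)) (hd : 25 * (M : ℝ) ≤ l1 (q - p)) :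
    Heavy n U p M := by
  have h1 := h.dist_le hq
  have h2 : (1 : ℝ) ≤ M := by exact_mod_cast hM
  have h3 : (M : ℝ) ≤ C.card := by linarith
  exact ⟨C, hC, by exact_mod_cast h3, h.mono hP (by linarith)⟩

theorem pf_Link (h : StAttach) : StLink := by
  intro D n hD U U' hU hU' E Z hZ p q hp M hM hE hd
  have hM' : (1 : ℝ) ≤ M := by exact_mod_cast hM
  have hE' : (E.card : ℝ) ≤ M := by exact_mod_cast hE
  have key : ∀ x, Z x → Link_lab (Jst n U) (Jst n U') (Jst n U) (Jst n U') E x := by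
    intro x hx
    rcases hZ x hx with hx | hx | hx
    · exact Or.inl (h hD hU hx)
    · exact Or.inr (Or.inl (h hD hU' hx))
    · exact Or.inr (Or.inr hx)
  rcases hp.cases_head with rfl | ⟨y, ⟨h1, h2⟩, h3⟩
  · simp only [sub_self, l1_zero] at hd
    linarith
  obtain ⟨C₁, C₂, h4, -, h5, -, h6⟩ := Link_main (Jst n U) (Jst n U') _ _ _ E
    ⟨Subset.rfl, fun _ _ _ hh _ => hh⟩ ⟨Subset.rfl, fun _ _ _ hh _ => hh⟩ (Nat.lt_succ_self _)
    y q (key y h2) (Link_mono h3 fun v w hh => ⟨hh.1, key w hh.2⟩)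
  have h7 := Link_pre (r := p) h6
  rw [h1.l1_eq] at h7
  have hq : q ∈ bases C₁ ∪ bases C₂ ∪ {q} := mem_union_right _ (mem_singleton_self q)
  rcases le_total (C₂.card : ℝ) C₁.card with hc | hc
  · exact Or.inl (Link_fin h4 hM hq (subset_union_left.trans subset_union_left)
      (h7.mono Subset.rfl (by linarith)) hd)
  · exact Or.inr (Link_fin h5 hM hq (subset_union_right.trans subset_union_left)
      (h7.mono Subset.rfl (by linarith)) hd)

end Pool.Agent.P.MP_67bca4_pr
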