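import Pool.Agent.P.MP_67bca4_pr.AH.S2

/-!
The lower bound: local free minimisers are glued into the shifted configuration around every
used cluster, and each of them gains at least the local window cost.
-/

namespace Pool.Agent.P.MP_67bca4_pr

open Finset
open scoped Classical

/-- The local replacement around one used root. -/
theorem Low_local (h1 : StPure) (h3 : StSep) (h5 : StGain) (h6 : StShift) {D : ℕ} {P : Par D}
    {a b : ℝ} (hP : P.Ok a b) {n : ℕ} {ξ : Dis D} (hξ : TwoV a b ξ) {U U' : Conf D}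
    {C : Finset (Ed D)} {s : Fn D} (hG : P.GD a n ξ U U' C s) (t : V D → ℤ) (z : V D)
    (hz : z ∈ P.ZZ a b n ξ C s t) :
    ∃ (A : V D → Prop) (F : Conf D),
      (∀ x, A x → x - P.cQ z ∈ P.nb (2 * P.r) (P.Kl b (t (P.cB z)) (tr (P.cQ z) ξ))) ∧
      (∀ x y, A x → ¬A y → Adj x y → U' y = F y) ∧
      En n (shift s ξ) F - En n (shift s ξ) (glue A U' F) ≤
        -P.VA b (t (P.cB z)) (tr (P.cQ z) ξ) := by
  obtain ⟨hzQ, hpure, -, hsp⟩ := mem_filter.1 hz
  obtain ⟨hloc, hu1, hu2⟩ := h1 hP hG hpure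
  have hcube : CubeIn (P.cQ z) P.nQ n := P.mem_ZQ.1 hzQ
  set c := P.cQ z with hc
  set u := t (P.cB z) with hud
  have hη : TwoV a b (shc u (tr c ξ)) := (hξ.tr c).shc u
  have hη0 : ∀ x o k, 0 ≤ shc u (tr c ξ) x o k := fun x o k =>
    hP.ha.le.trans (hη.le hP.hab.le x o k).1
  obtain ⟨F, hF⟩ := exists_isMinC (n := P.nQ) (K := Cfg P.nQ) hP.ha.le hP.b_pos.le hη
    ⟨_, cfg_flat _⟩
  have hnb : ∀ x, x - c ∈ P.nb (2 * P.r) (P.Kl b u (tr c ξ)) → x - c ∈ inB D P.nQ :=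
    fun x hx => P.nb_sub_inB le_rfl (P.Kl_sub b u _) hx
  have hfar : ∀ p q : V D, p - c ∈ P.core b u (tr c ξ) →
      ¬(q - c ∈ P.nb (2 * P.r) (P.Kl b u (tr c ξ))) → 25 * (P.M : ℝ) ≤ l1 (q - p) := by
    intro p q hp hq
    rw [two_mul] at hq
    have e1 := P.far_nb hp hq
    rw [sub_sub_sub_cancel_right] at e1
    have e2 : P.r = 25 * P.M := rfl
    rw [e2] at e1
    exact_mod_cast e1
  have hlight : ∀ p : V D, p - c ∈ P.core b u (tr c ξ) →
      ¬Heavy n U' p P.M ∧ ¬Heavy P.nQ F (p - c) P.M := by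
    intro p hp
    have hp' := P.core_sub b u _ hp
    refine ⟨hG.light p (mem_hatB.2 fun i => ?_), fun hh => hsp (Or.inr ⟨hzQ, Or.inl ?_⟩)⟩
    · have e1 := mem_inB.1 hp' i
      have e2 := hcube i
      rw [Pi.sub_apply] at e1
      omega
    · have e1 : 2 * D * P.mg ≤ P.M := by
        have e2 : P.M = D * P.mu := rfl
        rw [e2, mul_comm 2 D, mul_assoc]
        exact Nat.mul_le_mul_left _ hP.hmu
      have e3 := ((h5 hP.hD hP.ha hP.hab.le hP.hb hη).1 hF (p - c)).2.2.2 P.M P.mg hh e1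
      have e4 := hP.h3
      have e5 := hP.h4
      exact ⟨u, by omega, by omega, Or.inl ⟨p - c, hp', e3.goodAt hP.ha.le⟩⟩
  obtain ⟨A, W, hA1, hA2, hA3, hW, hW1, -, hE⟩ := h3 (E := ∅) (M := P.M)
    (P := fun p => p - c ∈ P.core b u (tr c ξ))
    (Nb := fun q => q - c ∈ P.nb (2 * P.r) (P.Kl b u (tr c ξ))) (by have := hP.hD; omega) hcube
    hG.cfg hF.1 hF.1 (fun _ _ => rfl) hP.one_le_M (by simp) hnb hfar hlight
  refine ⟨A, mv c F, hA2, hA3, ?_⟩
  have hag : Agree P.nQ (tr c (shift s ξ)) (shc u (tr c ξ)) := by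
    intro x hx
    funext o k
    have e1 := (hloc (x + c) (by rwa [add_sub_cancel_right])).1
    simp only [tr, shc, shift, e1]
  have hwin : WinOn (P.core b u (tr c ξ)) (-P.K1 - u) (P.K2 - u) W := by
    intro x hx
    have hx' : x + c - c ∈ P.core b u (tr c ξ) := by rwa [add_sub_cancel_right]
    have e1 := hW1 (x + c) (hA1 _ hx')
    rw [add_sub_cancel_right] at e1
    have e2 := (hloc (x + c) (inB_sub_hatB (P.core_sub b u _ hx'))).1
    have e3 := hG.win (x + c)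
    rw [e2] at e3
    rw [e1]
    exact e3
  obtain ⟨s1, s2, -⟩ := h6 P.nQ (P.core b u (tr c ξ)) (-P.K1) P.K2 u (tr c ξ)
  have hPhi : Phi P.nQ (P.core b u (tr c ξ)) (-P.K1 - u) (P.K2 - u) 0 (shc u (tr c ξ)) ≤
      En P.nQ (shc u (tr c ξ)) W := GEc_le hη0 ⟨hW, hwin⟩
  have hGE : GE P.nQ (shc u (tr c ξ)) = En P.nQ (shc u (tr c ξ)) F := hF.GEc_eq
  rw [(hE (shift s ξ)).1, hag.En, Par.VA, s1, s2, hGE]
  linarith

theorem pf_Low (h1 : StPure) (h2 : StSepZ) (h3 : StSep) (h4 : StMGlue) (h5 : StGain)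
    (h6 : StShift) (h7 : StMv) : StLow := by
  intro D P a b hP n ξ hξ U U' C s hG t
  have _ := @h7
  have _ : Nonempty Col := ⟨flat 0⟩
  have _ : Nonempty (Conf D) := ⟨U⟩
  choose! A F hA1 hA2 hA3 using Low_local h1 h3 h5 h6 hP hξ hG t
  obtain ⟨G, -, hG2, hGE⟩ := h4 n (shift s ξ) (P.ZZ a b n ξ C s t) A F U' hA2
    fun z hz z' hz' hne x y hx hy => h2 hP hG z hz z' hz' hne x y (hA1 z hz x hx) (hA1 z' hz' y hy)
  have hcfg : Cfg n G := by
    intro x hx
    rw [hG2 x fun z hz hA => hx ?_]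
    · exact hG.cfg x hx
    · have hcube : CubeIn (P.cQ z) P.nQ n := P.mem_ZQ.1 (mem_filter.1 hz).1
      have e0 := P.nb_sub_inB le_rfl (P.Kl_sub b _ _) (hA1 z hz x hA)
      refine mem_inB.2 fun i => ?_
      have e1 := mem_inB.1 e0 i
      have e2 := hcube i
      rw [Pi.sub_apply] at e1
      omega
  have hle : GE n (shift s ξ) ≤ En n (shift s ξ) G :=
    GEc_le (fun x o k => hP.ha.le.trans ((hξ.shift s).le hP.hab.le x o k).1) hcfg
  have hsum := sum_le_sum hA3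
  rw [sum_neg_distrib] at hsum
  linarith

end Pool.Agent.P.MP_67bca4_pr
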