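import Pool.Agent.P.MP_67bca4_pr.AH.S2

/-!
The variance bound for small heights and for the box of side one.
-/

namespace Pool.Agent.P.MP_67bca4_pr

open Finset
open scoped Classical

variable {D n N : ℕ} {a b p : ℝ}

/-- A vertical edge used by a minimiser is essential. -/
theorem LowH_drop [NeZero N] {H : ℕ} (hN : H < N) (ha : 0 ≤ a) (hab : a ≤ b)
    {ω : Ix D n N → Bool} {U : Conf D} (hU : IsMinC n (dis a b ω) (Slab n H) U) {x : V D}
    (hx : x ∈ hatB D n) {c : ℤ} (hc : c ∈ bd (U x))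
    (he : ω (⟨x, hx⟩, none, (c : ZMod N)) = true) :
    b - a ≤ GEc n (dis a b ω) (Slab n H) -
      GEc n (dis a b (Function.update ω (⟨x, hx⟩, none, (c : ZMod N)) false)) (Slab n H) := by
  obtain ⟨S, hS, -, hS'⟩ := en_linear (n := n) (N := N) (by omega) hU.1.1
  have hm := hS' x hx c hc
  have g1 := GEc_le (n := n) (fun y o k => ha.trans ((twoV_dis a b
    (Function.update ω (⟨x, hx⟩, none, (c : ZMod N)) false)).le hab y o k).1) hU.1
  rw [hU.GEc_eq, hS]
  rw [hS, ← add_sum_erase _ _ hm] at g1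
  rw [← add_sum_erase _ _ hm, he]
  rw [Function.update_self, sum_congr rfl (g := fun i => if ω i then b else a)
    (fun i hi => by rw [Function.update_of_ne (mem_erase.1 hi).1])] at g1
  simp only [Bool.false_eq_true, if_false, if_true] at g1 ⊢
  linarith

/-- Prescribed bits are all true with probability at least the corresponding power of `p`. -/
theorem LowH_all {I ι : Type} [Fintype I] [DecidableEq I] (h0 : 0 ≤ p) (h1 : p ≤ 1)
    (g : ι → I) (S : Finset ι) :
    p ^ S.card ≤ Pr p fun ω : I → Bool => ∀ k ∈ S, ω (g k) = true := by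
  induction S using Finset.induction_on with
  | empty =>
    have : Pr p (fun ω : I → Bool => ∀ k ∈ (∅ : Finset ι), ω (g k) = true) = 1 := by
      rw [PL_Pr_eq_Ex]
      simp only [notMem_empty, false_imp_iff, imp_true_iff, if_true]
      exact PL_Ex_const 1
    rw [this]; simp
  | insert k S hk ih =>
    rw [card_insert_of_notMem hk, pow_succ, mul_comm]
    refine (mul_le_mul_of_nonneg_left ih h0).trans ?_
    rw [PL_Pr_eq_Ex, PL_Pr_eq_Ex]
    refine le_trans ?_ (Ex_update_le h0 h1 (g k) fun ω => by split_ifs <;> norm_num)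
    refine mul_le_mul_of_nonneg_left (Ex_mono h0 h1 fun ω => ?_) h0
    by_cases h : ∀ j ∈ S, ω (g j) = true
    · rw [if_pos h, if_pos]
      intro j hj
      by_cases e : g j = g k
      · rw [e, Function.update_self]
      · rw [Function.update_of_ne e]
        rcases mem_insert.1 hj with rfl | hj
        · exact absurd rfl e
        · exact h j hj
    · rw [if_neg h]
      split_ifs <;> norm_num

/-- The level-one bound over one index in each column of `T`. -/
theorem LowH_bessel [NeZero N] (h0 : 0 ≤ p) (h1 : p ≤ 1) (T : Finset (V D))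
    (f : (Ix D n N → Bool) → ℝ) {δ : ℝ} (hδ : 0 ≤ δ)
    (h : ∀ x ∈ T, ∃ e : Ix D n N, e.1.1 = x ∧
      δ ≤ Ex p fun ω => f (Function.update ω e true) - f (Function.update ω e false)) :
    p * (1 - p) * δ ^ 2 * T.card ≤ Vr p f := by
  choose g g1 g2 using fun x : {x // x ∈ T} => h x.1 x.2
  have ginj : Function.Injective g := fun x y h => Subtype.ext (by rw [← g1, ← g1, h])
  refine le_trans ?_ (bessel h0 h1 f (univ.image g))
  rw [sum_image fun x _ y _ h => ginj h]
  refine le_trans ?_ (card_nsmul_le_sum univ _ (p * (1 - p) * δ ^ 2) fun x _ => ?_)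
  · rw [card_univ, Fintype.card_coe, nsmul_eq_mul, mul_comm]
  · have h3 : 0 ≤ p * (1 - p) := mul_nonneg h0 (sub_nonneg.2 h1)
    gcongr
    exact g2 x

theorem LowH_mono [NeZero N] {H : ℕ} (hH : 1 ≤ H) (ha : 0 ≤ a) (hab : a ≤ b)
    (ω : Ix D n N → Bool) (e : Ix D n N) :
    GEc n (dis a b (Function.update ω e false)) (Slab n H) ≤
      GEc n (dis a b (Function.update ω e true)) (Slab n H) :=
  GEc_mono ha hab (twoV_dis _ _ _) (twoV_dis _ _ _) (dis_mono hab fun i => by
    by_cases hi : i = e <;> simp [hi]) (slab_nonempty hH)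

theorem pf_LowH : StLowH := by
  intro D n N H _ hn hH hN a b p ha hab h0 h1
  have hH0 : (0 : ℝ) < H := by exact_mod_cast hH
  have hδ : 0 ≤ (b - a) * p ^ H / H := by
    have := sub_pos.2 hab
    positivity
  have hc : ((n : ℝ) - 1) ^ D = ((inB D n).card : ℝ) := by
    rw [card_inB, Nat.cast_pow, Nat.cast_sub hn, Nat.cast_one]
  rw [hc]
  refine LowH_bessel h0 h1 (inB D n) _ hδ fun x hx => ?_
  have hx' := inB_sub_hatB hx
  set f : (Ix D n N → Bool) → ℝ := fun ω => GEc n (dis a b ω) (Slab n H) with hf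
  set g : ℕ → Ix D n N := fun k => (⟨x, hx'⟩, none, ((k : ℤ) : ZMod N)) with hg
  set d : ℕ → (Ix D n N → Bool) → ℝ := fun k ω =>
    f (Function.update ω (g k) true) - f (Function.update ω (g k) false) with hd
  have d0 : ∀ k ω, 0 ≤ d k ω := fun k ω => sub_nonneg.2 (LowH_mono hH ha.le hab.le ω _)
  have k1 : (b - a) * Pr p (fun ω : Ix D n N → Bool => ∀ k ∈ range H, ω (g k) = true) ≤
      Ex p fun ω => ∑ k ∈ range H, d k ω := by
    refine Pr_le_Ex h0 h1 (fun ω => sum_nonneg fun k _ => d0 k ω) fun ω hω => ?_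
    obtain ⟨U, hU⟩ := exists_isMinC (n := n) ha.le (ha.trans hab).le (twoV_dis a b ω)
      (slab_nonempty (D := D) (n := n) hH)
    obtain ⟨c, hcU⟩ := bd_nonempty (U x)
    have hb := WinCol.bd_mem (win_iff.1 hU.1.1 x) hcU
    obtain ⟨k, rfl⟩ := Int.eq_ofNat_of_zero_le hb.1
    have hk : k ∈ range H := mem_range.2 (by omega)
    refine le_trans ?_ (single_le_sum (fun j _ => d0 j ω) hk)
    have e1 : Function.update ω (g k) true = ω := by
      rw [← hω k hk]; exact Function.update_eq_self _ _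
    simp only [hd, e1]
    exact LowH_drop hN ha.le hab.le hU hx' hcU (hω k hk)
  have k2 := LowH_all h0 h1 g (range H)
  rw [card_range] at k2
  rw [PL_Ex_sum] at k1
  have k3 : ∑ _k ∈ range H, (b - a) * p ^ H / H ≤ ∑ k ∈ range H, Ex p (d k) := by
    rw [sum_const, card_range, nsmul_eq_mul, mul_div_cancel₀ _ hH0.ne']
    exact (mul_le_mul_of_nonneg_left k2 (sub_pos.2 hab).le).trans k1
  obtain ⟨k, -, hk⟩ := exists_le_of_sum_le ⟨0, mem_range.2 hH⟩ k3
  exact ⟨g k, rfl, hk⟩

theorem pf_One : StOne := by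
  intro D N H _ hD hH hN a b p ha hab h0 h1
  have hδ : 0 ≤ p * (b - a) / 4 := by
    have := sub_pos.2 hab
    positivity
  have hx' : (0 : V D) ∈ hatB D 1 := mem_hatB.2 fun i => by simp
  have hx : (0 : V D) ∉ inB D 1 := fun h => by
    have := (mem_inB.1 h ⟨0, hD⟩).1
    simp at this
  have key := LowH_bessel h0 h1 ({0} : Finset (V D))
    (fun ω : Ix D 1 N → Bool => GEc 1 (dis a b ω) (Slab 1 H)) hδ fun x hx0 => ?_
  · simpa using key
  rw [mem_singleton] at hx0
  subst hx0
  set lo : ℤ := ((H : ℤ) - 1) / 2 with hlo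
  set hi : ℤ := (H : ℤ) / 2 with hhi
  set e₁ : Ix D 1 N := (⟨0, hx'⟩, none, (lo : ZMod N)) with he₁
  set e₂ : Ix D 1 N := (⟨0, hx'⟩, none, (hi : ZMod N)) with he₂
  obtain ⟨e, he, h2⟩ := two_edges h0 h1
    (fun ω : Ix D 1 N → Bool => GEc 1 (dis a b ω) (Slab 1 H))
    (fun ω e => LowH_mono hH ha.le hab.le ω e) e₁ e₂ (sub_pos.2 hab).le (fun _ => False)
    (by simp [Pr]) (by
    intro ω _
    set ω' := Function.update (Function.update ω e₁ true) e₂ true with hω'
    obtain ⟨U, hU⟩ := exists_isMinC (n := 1) ha.le (ha.trans hab).le (twoV_dis a b ω')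
      (slab_nonempty (D := D) (n := 1) hH)
    have u1 := (hU.1.2 0 hx).1
    have u2 := (hU.1.2 0 hx).2
    by_cases hh : hi ∈ (U 0).s
    · refine ⟨e₂, Or.inr rfl, drop_of_flat hN ha.le hab.le hU hx' (c := hi) ?_ ?_⟩
      · ext k
        rw [mem_flat]
        refine ⟨u2 k, fun hk => ?_⟩
        by_cases hk' : k = hi
        · exact hk' ▸ hh
        · exact u1 k (by omega)
      · change ω' e₂ = true
        simp [hω']
    · refine ⟨e₁, Or.inl rfl, drop_of_flat hN ha.le hab.le hU hx' (c := lo) ?_ ?_⟩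
      · ext k
        rw [mem_flat]
        refine ⟨fun hk => ?_, u1 k⟩
        have h3 : k ≠ hi := fun h' => hh (h' ▸ hk)
        have := u2 k hk
        omega
      · change ω' e₁ = true
        by_cases h2 : e₁ = e₂ <;> simp [hω', h2])
  refine ⟨e, ?_, h2⟩
  rcases he with rfl | rfl <;> rfl

end Pool.Agent.P.MP_67bca4_pr
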