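import Pool.Agent.P.MP_67bca4_pr.AH.S1

/-!
Marginals of the product measure, the law of local functionals, and union bounds.
-/

namespace Pool.Agent.P.MP_67bca4_pr

open Finset
open scoped Classical

lemma Marg_equiv {I I' : Type} [Fintype I] [DecidableEq I] [Fintype I'] [DecidableEq I'] (p : ℝ)
    (e : I' ≃ I) (f : (I' → Bool) → ℝ) : Ex p (fun ω : I → Bool => f (ω ∘ e)) = Ex p f := by
  unfold Ex
  refine Fintype.sum_equiv (Equiv.arrowCongr e.symm (Equiv.refl Bool)) _ _ fun ω => ?_
  have h1 : (Equiv.arrowCongr e.symm (Equiv.refl Bool)) ω = ω ∘ e := by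
    funext i; simp [Equiv.arrowCongr]
  rw [h1]
  congr 1
  unfold wt
  exact (Equiv.prod_comp e (fun i => if ω i then p else 1 - p)).symm

lemma Marg_inst {I : Type} (p : ℝ) (i j : Fintype I) (k l : DecidableEq I)
    (f : (I → Bool) → ℝ) : @Ex I i k p f = @Ex I j l p f := by
  rw [Subsingleton.elim i j, Subsingleton.elim k l]

theorem pf_Marg : StMarg := by
  intro I I' _ _ _ _ p ι hι
  have key : ∀ f : (I' → Bool) → ℝ, Ex p (fun ω : I → Bool => f (ω ∘ ι)) = Ex p f := by
    intro f
    rw [Ex_glueB (fun i => i ∈ Set.range ι)]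
    have h : ∀ ζ : {i // ¬ i ∈ Set.range ι} → Bool,
        Ex p (fun η : {i // i ∈ Set.range ι} → Bool =>
          f (glueB (fun i => i ∈ Set.range ι) η ζ ∘ ι)) = Ex p f := by
      intro ζ
      rw [← Marg_equiv (I := {i // i ∈ Set.range ι}) p (Equiv.ofInjective ι hι) f]
      congr 1
      funext η
      congr 1
      funext i'
      have h2 : ι i' ∈ Set.range ι := ⟨i', rfl⟩
      simp only [Function.comp_apply, glueB, h2, dif_pos]
      rfl
    refine (sum_congr rfl fun ζ _ => (?_ : _ = wt p ζ * Ex p f)).trans ?_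
    · congr 1
      exact (Marg_inst p _ _ _ _ _).trans (h ζ)
    · rw [← sum_mul, sum_wt, one_mul]
  refine ⟨key, fun A => ?_⟩
  rw [PL_Pr_eq_Ex, PL_Pr_eq_Ex]
  exact key (fun ω => if A ω then 1 else 0)

theorem pf_Local (h : StMarg) : StLocal := by
  intro D n n' N _ c hc a b p
  obtain ⟨h1, h2⟩ := h (I := Ix D n N) (I' := Ix D n' N) p (locI hc) (locI_inj hc)
  refine ⟨fun f hf => ?_, fun E hE => ?_⟩
  · rw [← h1 (fun ω => f (dis a b ω))]
    congr 1
    funext ω
    exact hf _ _ (agree_locI hc a b ω)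
  · rw [← h2 (fun ω => E (dis a b ω))]
    congr 1
    funext ω
    exact propext (hE _ _ (agree_locI hc a b ω))

lemma Marg_count {I : Type} [Fintype I] [DecidableEq I] (p : ℝ) {ι : Type} (T : Finset ι)
    (E : ι → (I → Bool) → Prop) :
    Ex p (fun ω => ((T.filter fun z => E z ω).card : ℝ)) = ∑ z ∈ T, Pr p (E z) := by
  have h : (fun ω => ((T.filter fun z => E z ω).card : ℝ)) =
      fun ω => ∑ z ∈ T, if E z ω then (1 : ℝ) else 0 := by
    funext ω
    rw [card_filter]
    push_cast
    rfl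
  rw [h, PL_Ex_sum]
  exact sum_congr rfl fun z _ => (PL_Pr_eq_Ex (E z)).symm

theorem pf_Union : StUnion := by
  intro I _ _ p h0 h1
  refine ⟨fun A c hc => ?_, fun T E r t hr => ?_, fun T E G t ht hG => ?_⟩
  · let m : (I → Bool) → ℕ := fun ω => if h : ∃ m, A m ω then h.choose else 0
    refine le_trans (Pr_mono h0 h1 (B := fun ω => ∃ i ∈ univ.image m, A i ω) fun ω h => ?_)
      ((Pr_union h0 h1 _ A).trans (hc _))
    refine ⟨m ω, mem_image_of_mem _ (mem_univ ω), ?_⟩
    simp only [m, h, dif_pos]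
    exact h.choose_spec
  · refine (Pr_le_Ex h0 h1 (f := fun ω => ((T.filter fun z => E z ω).card : ℝ))
      (fun ω => Nat.cast_nonneg _) fun ω h => h).trans ?_
    rw [Marg_count]
    refine (sum_le_sum hr).trans (le_of_eq ?_)
    rw [sum_const, nsmul_eq_mul]
  · rw [← Marg_count]
    refine (Ex_mono h0 h1 (g := fun ω => (T.card : ℝ) * (if G ω then 1 else 0) + t)
      fun ω => ?_).trans (le_of_eq ?_)
    · by_cases h : G ω
      · have : ((T.filter fun z => E z ω).card : ℝ) ≤ T.card := by
          exact_mod_cast card_filter_le _ _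
        simp only [h, if_true]
        linarith
      · have := hG ω h
        simp only [h, if_false]
        linarith
    · rw [Ex_add, PL_Ex_const, PL_Ex_const_mul, ← PL_Pr_eq_Ex]

end Pool.Agent.P.MP_67bca4_pr
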