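import Pool.Agent.P.MP_67bca4_pr.AH.S1

/-!
Maximal heavy families, nets along tours, and the size of the support.
-/

namespace Pool.Agent.P.MP_67bca4_pr

open Finset
open scoped Classical

variable {D : ℕ}

theorem pf_MaxFam : StMaxFam := by
  intro D J Ω M hM
  obtain ⟨C, hC, hmax⟩ := exists_max_image (J.powerset.filter fun C => Closed J C ∧
    ∃ j : ℕ, j * M ≤ C.card ∧ MTour l1 id Ω j (bases C) (50 * C.card)) card
    ⟨∅, mem_filter.2 ⟨empty_mem_powerset _, ⟨empty_subset _, by simp⟩, 0, by simp,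
      MTour.empty.mono (by simp [bases]) (by simp)⟩⟩
  obtain ⟨-, h1, j, h2, h3⟩ := mem_filter.1 hC
  refine ⟨C, h1, ⟨j, h2, h3⟩, fun y hy C' h4 h5 h6 h7 => ?_⟩
  have e : (C ∪ C').card = C.card + C'.card := card_union_of_disjoint h5.symm
  have hs : C ∪ C' ⊆ J := union_subset h1.1 h4.1
  have := hmax (C ∪ C') (mem_filter.2 ⟨mem_powerset.2 hs, ⟨hs, fun e he e' he' h => ?_⟩, j + 1,
    by rw [e, add_mul]; omega, (h3.add hy h7).mono (by rw [bases, image_union]; rfl) ?_⟩)
  · omega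
  · rcases mem_union.1 he with he | he
    · exact mem_union_left _ (h1.2 e he e' he' h)
    · exact mem_union_right _ (h4.2 e he e' he' h)
  · rw [e]
    push_cast
    linarith

lemma MaxFam_walk (P : Finset (V D)) {ρ : ℝ} (hρ : 0 ≤ ρ) (w : List (V D)) : ∀ x v : V D, ∃ N ⊆ P,
    (N.card : ℝ) * ρ ≤ l1 (x - v) + wcost l1 x w ∧
      ∀ p ∈ P, p ∈ w → l1 (p - v) ≤ ρ ∨ ∃ u ∈ N, l1 (p - u) ≤ ρ := by
  induction w with
  | nil => exact fun x v => ⟨∅, empty_subset _, by simpa [wcost] using l1_nonneg _, by simp⟩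
  | cons a w ih =>
    intro x v
    have t := l1_sub_le a x v
    by_cases h : a ∈ P ∧ ρ < l1 (a - v)
    · obtain ⟨N, h1, h2, h3⟩ := ih a a
      refine ⟨insert a N, insert_subset h.1 h1, ?_, fun p hp hw => Or.inr ?_⟩
      · have c1 : ((insert a N).card : ℝ) ≤ N.card + 1 := by exact_mod_cast card_insert_le a N
        have := mul_le_mul_of_nonneg_right c1 hρ
        rw [sub_self, l1_zero] at h2
        simp only [wcost]
        linarith [h.2]
      · rcases List.mem_cons.1 hw with rfl | hw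
        · exact ⟨p, mem_insert_self _ _, by simpa using hρ⟩
        · rcases h3 p hp hw with h4 | ⟨u, hu, h4⟩
          · exact ⟨a, mem_insert_self _ _, h4⟩
          · exact ⟨u, mem_insert_of_mem hu, h4⟩
    · obtain ⟨N, h1, h2, h3⟩ := ih a v
      refine ⟨N, h1, ?_, fun p hp hw => ?_⟩
      · simp only [wcost]
        linarith
      · rcases List.mem_cons.1 hw with rfl | hw
        · exact Or.inl (not_lt.1 fun h4 => h ⟨hp, h4⟩)
        · exact h3 p hp hw

lemma MaxFam_one (P : Finset (V D)) {ρ : ℝ} (hρ : 0 ≤ ρ) (w : List (V D)) : ∀ r : V D, ∃ N ⊆ P,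
    (N.card : ℝ) * ρ ≤ ρ + wcost l1 r w ∧ ∀ p ∈ P, p ∈ r :: w → ∃ u ∈ N, l1 (p - u) ≤ ρ := by
  have key : ∀ (w : List (V D)) (r : V D), r ∈ P → ∃ N ⊆ P, (N.card : ℝ) * ρ ≤ ρ + wcost l1 r w ∧
      ∀ p ∈ P, p ∈ r :: w → ∃ u ∈ N, l1 (p - u) ≤ ρ := fun w r hr => by
    obtain ⟨N, h1, h2, h3⟩ := MaxFam_walk P hρ w r r
    refine ⟨insert r N, insert_subset hr h1, ?_, fun p hp hw => ?_⟩
    · have c1 : ((insert r N).card : ℝ) ≤ N.card + 1 := by exact_mod_cast card_insert_le r N
      have := mul_le_mul_of_nonneg_right c1 hρ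
      rw [sub_self, l1_zero] at h2
      linarith
    · rcases List.mem_cons.1 hw with rfl | hw
      · exact ⟨p, mem_insert_self _ _, by simpa using hρ⟩
      · rcases h3 p hp hw with h4 | ⟨u, hu, h4⟩
        · exact ⟨r, mem_insert_self _ _, h4⟩
        · exact ⟨u, mem_insert_of_mem hu, h4⟩
  induction w with
  | nil =>
    intro r
    by_cases hr : r ∈ P
    · exact key [] r hr
    · refine ⟨∅, empty_subset _, by simpa [wcost] using hρ, fun p hp hw => ?_⟩
      obtain rfl : p = r := by simpa using hw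
      exact absurd hp hr
  | cons a w ih =>
    intro r
    by_cases hr : r ∈ P
    · exact key _ r hr
    · obtain ⟨N, h1, h2, h3⟩ := ih a
      refine ⟨N, h1, ?_, fun p hp hw => ?_⟩
      · simp only [wcost]
        linarith [l1_nonneg (a - r)]
      · rcases List.mem_cons.1 hw with rfl | hw
        · exact absurd hp hr
        · exact h3 p hp hw

theorem pf_Net : StNet := by
  intro D Ω P j L ρ hρ h
  obtain ⟨R, Q, ℓ, -, h2, h3, h4, h5⟩ := h
  have one : ∀ r ∈ R, ∃ N ⊆ P, (N.card : ℝ) * ρ ≤ ρ + ℓ r ∧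
      ∀ p ∈ P, p ∈ Q r → ∃ u ∈ N, l1 (p - u) ≤ ρ := fun r hr => by
    obtain ⟨w, h6, h7⟩ := h3 r hr
    obtain ⟨N, h8, h9, h10⟩ := MaxFam_one P hρ.le w (id r)
    exact ⟨N, h8, by linarith, fun p hp hq => h10 p hp (h6 p hq)⟩
  choose! N h6 h7 h8 using one
  refine ⟨R.biUnion N, biUnion_subset.2 h6, ?_, fun p hp => ?_⟩
  · have c1 : ((R.biUnion N).card : ℝ) ≤ ∑ r ∈ R, ((N r).card : ℝ) := by
      exact_mod_cast card_biUnion_le
    have c2 := sum_le_sum h7
    rw [← sum_mul, sum_add_distrib, sum_const, nsmul_eq_mul] at c2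
    have c3 : (R.card : ℝ) ≤ j := by exact_mod_cast h2
    have c4 := mul_le_mul_of_nonneg_right c3 hρ.le
    have c5 := mul_le_mul_of_nonneg_right c1 hρ.le
    rw [← sub_le_iff_le_add', le_div_iff₀ hρ]
    linarith
  · obtain ⟨r, hr, hq⟩ := h5 p hp
    obtain ⟨u, hu, h9⟩ := h8 r hr p hp hq
    exact ⟨u, mem_biUnion.2 ⟨r, hr, hu⟩, h9⟩

theorem pf_Supp : StSupp := by
  intro D n hD s hs
  let i : Fin D := ⟨0, hD⟩
  have one : ∀ x ∈ s.support, ∃ t : ℕ, t < n ∧ grad s (x + (t : ℤ) • ee i, i) ≠ 0 := by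
    intro x hx
    have hx' := Finsupp.mem_support_iff.1 hx
    have hb : x ∈ inB D n := by
      by_contra h
      exact hx' (hs x h)
    have h1 := mem_inB.1 hb i
    by_contra h
    push Not at h
    apply hx'
    rw [← sur_const s x i ((n : ℤ) - x i).toNat fun j hj => h j (by omega)]
    apply hs
    intro hm
    have := (mem_inB.1 hm i).2
    simp only [Pi.add_apply, Pi.smul_apply, ee_self, smul_eq_mul, mul_one] at this
    omega
  choose! t h1 h2 using one
  have := card_le_card_of_injOn (s := s.support) (t := range n ×ˢ jumps s)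
    (fun x => (t x, (x + (t x : ℤ) • ee i, i)))
    (fun x hx => mem_coe.2 (mem_product.2 ⟨mem_range.2 (h1 x hx), mem_jumps.2 (h2 x hx)⟩))
    fun x _ y _ e => by
      simp only [Prod.mk.injEq, and_true] at e
      rw [e.1] at e
      exact add_right_cancel e.2
  rw [card_product, card_range] at this
  exact this.trans (Nat.mul_le_mul_left _ (card_jumps_le s))

end Pool.Agent.P.MP_67bca4_pr
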