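import Pool.Agent.P.MP_67bca4_pr.AH.S2

/-!
The mean of the local cost is nonnegative, and bounded below away from the central levels.
-/

namespace Pool.Agent.P.MP_67bca4_pr

open Finset
open scoped Classical

lemma Mean_mir {D n N : ℕ} [NeZero N] (a b p : ℝ) (v : ℤ) (f : Dis D → ℝ) :
    Ex p (fun ω : Ix D n N → Bool => f (mirD v (dis a b ω))) =
      Ex p fun ω : Ix D n N → Bool => f (dis a b ω) := by
  simp only [mirD_dis]
  exact Ex_perm (mperm v) fun ω => f (dis a b ω)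

lemma Mean_two {D : ℕ} (P : Par D) (a b p : ℝ) (N : ℕ) [NeZero N] (u : ℤ) :
    Ex p (fun ω : Ix D P.nQ N → Bool => P.Y b u (dis a b ω) + P.Y b u (mirD u (dis a b ω))) =
      2 * P.mY a b p N u := by
  rw [Ex_add, Mean_mir a b p u (P.Y b u), Par.mY, two_mul]

theorem pf_Mean0 (h1 : StYsym) : StMean0 := by
  intro D P a b hP p h0 hp N _
  refine ⟨by simp [Par.mY, hP.Y_zero, Ex], fun u => ⟨?_, ?_⟩⟩
  · have h := Pr_le_Ex (I := Ix D P.nQ N) h0 hp (A := fun _ => False) (c := 0)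
      (f := fun ω => P.Y b u (dis a b ω) + P.Y b u (mirD u (dis a b ω)))
      (fun ω => (h1 hP (twoV_dis a b ω) u).1) fun _ h => h.elim
    rw [Mean_two] at h
    linarith
  · have h := Mean_mir (n := P.nQ) (N := N) a b p 0 (P.swap.Y b (-u))
    unfold Par.mY
    refine Eq.trans ?_ h
    congr 1
    funext ω
    exact (h1 hP (twoV_dis a b ω) u).2.2

lemma Mean_ovw {D : ℕ} (P : Par D) (a b : ℝ) {N : ℕ} (ω : Ix D P.nQ N → Bool) :
    P.Ovw b (dis a b ω) (dis a b (ovr P.Rpl ω)) := by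
  refine ⟨fun x hx o k => ?_, fun x hx => ?_⟩
  · have h := inB_sub_hatB (P.Rpl_sub hx)
    simp [dis, ovr, h, hx]
  · funext o k
    by_cases h : x ∈ hatB D P.nQ <;> simp [dis, ovr, h, hx]

lemma Mean_bad {D : ℕ} {P : Par D} {a b : ℝ} (hP : P.Ok a b) {η : Dis D} (h : P.Planted a b η)
    {u : ℤ} (hu : 1 ≤ u) (hu' : u ≤ P.K2) : P.BadQ b u η 0 := by
  rw [P.badQ_iff]
  refine Or.inr (Or.inr fun k hk hk' => ?_)
  have h3 := P.r00_eq
  have h4 := hP.h4
  have hx : (cv (P.g + P.rc - 1) + (P.cL 0 + cv P.RQ) : V D) ∈ P.Rpl := mem_cube.2 fun i => by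
    simp only [Pi.add_apply, cv_apply, Par.cL, Pi.zero_apply, mul_zero]
    omega
  have hx' : (cv (P.g + P.rc - 1) + (P.cL 0 + cv P.RQ) : V D) ∉ P.Pl a b := fun hh => by
    have := mem_cube.1 hh ⟨0, by have := hP.hD; omega⟩
    simp only [Pi.add_apply, cv_apply, Par.cL, Pi.zero_apply, mul_zero] at this
    omega
  constructor
  · exact (h _ hx none k (by omega) (by omega)).trans (if_neg fun hh => hx' hh.1)
  · exact (h _ hx none (u - k) (by omega) (by omega)).trans (if_neg fun hh => hx' hh.1)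

theorem pf_Mean1 (h1 : StYsym) (h2 : StPlant) (h3 : StGp) (h4 : StPPlant) (h5 : StPRare)
    (h6 : StClus4) : StMean1 := by
  intro D P a b hP p h0 hp hT N R _ hN hρ hπ u hu hus hu'
  have e1 := h4 hP h0 hp hT hN hρ u
  have e2 := h5 hP h0 hp hT hN (c := 0) fun i => by simp
  simp only [tr_zero] at e2
  set A : (Ix D P.nQ N → Bool) → Prop := fun ω =>
    P.Planted a b (dis a b ω) ∧ (∀ w ∈ ball D P.Lam, w ≠ 0 → ¬P.BadQ b u (dis a b ω) w) ∧
      P.DGood a (dis a b (ovr P.Rpl ω)) with hA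
  have e3 : Pr p A ≤ Pr p (fun ω => A ω ∧ ¬P.RareQ a (dis a b ω)) +
      Pr p (fun ω : Ix D P.nQ N → Bool => P.RareQ a (dis a b ω)) :=
    (Pr_mono h0 hp fun ω h => by tauto).trans (Pr_or h0 hp _ _)
  have e4 := Pr_le_Ex (I := Ix D P.nQ N) h0 hp (A := fun ω => A ω ∧ ¬P.RareQ a (dis a b ω))
    (c := b) (f := fun ω => P.Y b u (dis a b ω) + P.Y b u (mirD u (dis a b ω)))
    (fun ω => (h1 hP (twoV_dis a b ω) u).1) (by
      rintro ω ⟨⟨p1, p2, p3⟩, p4⟩
      obtain ⟨q1, q2⟩ := (h6 (lam := P.lam)).1 hP.one_le_k0 (Mean_bad hP p1 hu hu') p2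
      obtain ⟨q3, q4⟩ := h3 hP (twoV_dis a b ω) p4 (u := u) q1 (by omega) hu'
      exact (h1 hP (twoV_dis a b ω) u).2.1 ⟨q1, q3, q4, by omega, hu'⟩
        (h2 hP (twoV_dis a b ω) (twoV_dis a b _) (Mean_ovw P a b ω) p1 p3 hu hus q2))
  rw [Mean_two] at e4
  have e5 : b * (P.kap0 p / 4) ≤ b * Pr p (fun ω => A ω ∧ ¬P.RareQ a (dis a b ω)) :=
    mul_le_mul_of_nonneg_left (by linarith) hP.b_pos.le
  unfold Par.kap
  linarith

theorem pf_Mean (h1 : StMean0) (h2 : StMean1) : StMean := by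
  intro D P a b hP p h0 hp hT N R _ hN hρ hπ u hu hu' hu0 hus
  have h5 := hP.h5
  have h6 := hP.h6
  have hs : P.us = (P.K2 : ℤ) - P.K1 := rfl
  rcases lt_or_gt_of_ne hu0 with h | h
  · rw [((h1 hP h0 hp N).2 u).2]
    exact h2 (P := P.swap) hP.swap h0 hp hT hN hρ hπ (by omega) (by rw [P.swap_us]; omega)
      (by change -u ≤ (P.K1 : ℤ); omega)
  · exact h2 hP h0 hp hT hN hρ hπ (by omega) (by omega) hu'

end Pool.Agent.P.MP_67bca4_pr
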