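import Pool.Agent.P.MP_67bca4_pr.AH.S2

/-!
The variance bound from the localisation of most columns.
-/

namespace Pool.Agent.P.MP_67bca4_pr

open Finset
open scoped Classical

variable {D n N : ℕ} {a b p : ℝ}

theorem Mid_nonneg {I : Type} [Fintype I] [DecidableEq I] (h0 : 0 ≤ p) (h1 : p ≤ 1)
    (A : (I → Bool) → Prop) : 0 ≤ Pr p A :=
  sum_nonneg fun ω _ => by
    split_ifs
    · exact wt_nonneg h0 h1 ω
    · exact le_rfl

theorem Mid_update {I : Type} [Fintype I] [DecidableEq I] (h0 : 0 ≤ p) (h1 : p ≤ 1) (e : I)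
    (A : (I → Bool) → Prop) : p * Pr p (fun ω => A (Function.update ω e true)) ≤ Pr p A := by
  rw [PL_Pr_eq_Ex, PL_Pr_eq_Ex]
  exact Ex_update_le h0 h1 e (f := fun ω => if A ω then 1 else 0) fun ω => by
    split_ifs <;> norm_num

theorem Mid_update2 {I : Type} [Fintype I] [DecidableEq I] (h0 : 0 ≤ p) (h1 : p ≤ 1) (e₁ e₂ : I)
    (A : (I → Bool) → Prop) :
    p ^ 2 * Pr p (fun ω => A (Function.update (Function.update ω e₁ true) e₂ true)) ≤ Pr p A := by
  have k1 := Mid_update h0 h1 e₁ fun ω => A (Function.update ω e₂ true)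
  have k2 := Mid_update h0 h1 e₂ A
  have k3 := mul_le_mul_of_nonneg_left k1 h0
  nlinarith

/-- The level-one bound over one index in each column of `T`. -/
theorem Mid_bessel [NeZero N] (h0 : 0 ≤ p) (h1 : p ≤ 1) (T : Finset (V D))
    (f : (Ix D n N → Bool) → ℝ) {δ : ℝ} (hδ : 0 ≤ δ)
    (h : ∀ x ∈ T, ∃ e : Ix D n N, e.1.1 = x ∧
      δ ≤ Ex p fun ω => f (Function.update ω e true) - f (Function.update ω e false)) :
    p * (1 - p) * δ ^ 2 * T.card ≤ Vr p f := by
  choose g g1 g2 using fun x : {x // x ∈ T} => h x.1 x.2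
  have ginj : Function.Injective g := fun x y h => Subtype.ext (by rw [← g1, ← g1, h])
  refine le_trans ?_ (bessel h0 h1 f (univ.image g))
  rw [sum_image fun x _ y _ h => ginj h]
  refine le_trans ?_ (card_nsmul_le_sum univ _ (p * (1 - p) * δ ^ 2) fun x _ => ?_)
  · rw [card_univ, Fintype.card_coe, nsmul_eq_mul, mul_comm]
  · have h3 : 0 ≤ p * (1 - p) := mul_nonneg h0 (sub_nonneg.2 h1)
    gcongr
    exact g2 x

/-- One of the two shifted window problems is localised with good probability. -/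
theorem Mid_side (h1 : StLG) {P : Par D} (hP : P.Ok a b) (p0 : 0 ≤ p) (p1 : p ≤ 1)
    (hT : Tail1 D a b p) {R : ℕ} [NeZero N] (hNR : P.NR a b n N R)
    (hnum : 2 * P.nQ ^ D * Real.exp (-√(P.h0 : ℝ)) ≤ 1 / 32) (c₀ : ℤ) (e₁ e₂ : Ix D n N)
    {x : V D} (hz : P.blk x ∈ P.ZQ n) :
    p ^ 2 * Pr p (fun ω : Ix D n N → Bool => ¬∃ G, IsMinC n
      (shc c₀ (dis a b (Function.update (Function.update ω e₁ true) e₂ true)))
        (WCl n (-P.K1) P.K2) G ∧ (G x = flat 0 ∨ G x = flat P.us)) ≤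
      p ^ 2 / 8 + Pr p fun ω : Ix D n N → Bool => ¬P.Nice n (dis a b ω) x := by
  have hc := P.mem_ZQ.1 hz
  have hn : P.nQ ≤ n := by
    have := hc ⟨0, by have := hP.hD; omega⟩
    omega
  have hNR' := Par.NR.mono P hP.b_pos.le hNR hn
  set T : (Ix D n N → Bool) → Ix D n N → Bool :=
    fun ω => Function.update (Function.update ω e₁ true) e₂ true with hTd
  set ι : ℤ → Ix D P.nQ N → Ix D n N :=
    fun u => (sperm fun _ => c₀) ∘ locI hc ∘ (sperm fun _ => u) with hι
  have inj : ∀ u, Function.Injective (ι u) := fun u =>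
    (sperm _).injective.comp ((locI_inj hc).comp (sperm _).injective)
  set E : ℤ → (Ix D n N → Bool) → Prop := fun u ω =>
    ¬P.LG0 (-P.K1 - u) (P.K2 - u) (dis a b (T ω ∘ ι u)) (x - P.cQ (P.blk x)) with hE
  have k1 := hP.h1
  have k2 := hP.h2
  have q1 : Pr p (E 0) ≤ 1 / 16 :=
    h1 hP p0 p1 hT hNR' hnum (ι 0) (inj 0) e₁ e₂ (by omega) (by omega) _
  have q2 : Pr p (E P.us) ≤ 1 / 16 :=
    h1 hP p0 p1 hT hNR' hnum (ι P.us) (inj _) e₁ e₂ (by unfold Par.us; omega)
      (by unfold Par.us; omega) _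
  have q3 := Mid_update2 p0 p1 e₁ e₂ fun ω : Ix D n N → Bool =>
    ¬P.Nice n (dis a b (ω ∘ sperm fun _ => c₀)) x
  rw [Pr_perm (sperm fun _ => c₀) fun ω : Ix D n N → Bool => ¬P.Nice n (dis a b ω) x] at q3
  have q4 : Pr p (fun ω : Ix D n N → Bool => ¬∃ G, IsMinC n (shc c₀ (dis a b (T ω)))
        (WCl n (-P.K1) P.K2) G ∧ (G x = flat 0 ∨ G x = flat P.us)) ≤
      Pr p fun ω => (E 0 ω ∨ E P.us ω) ∨ ¬P.Nice n (dis a b (T ω ∘ sperm fun _ => c₀)) x := by
    refine Pr_mono p0 p1 fun ω hω => ?_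
    by_contra hcon
    simp only [not_or, not_not] at hcon
    apply hω
    rw [shc_dis]
    refine hcon.2.2 fun u hu => ?_
    have hu' : ¬E u ω := by
      rcases hu with rfl | rfl
      · exact hcon.1.1
      · exact hcon.1.2
    have ag := (agree_locI hc a b (T ω ∘ sperm fun _ => c₀)).shc u
    rw [shc_dis a b u] at ag
    exact (P.LG0_congr ag _ _ _).2 (not_not.1 hu')
  have q5 := q4.trans ((Pr_or p0 p1 _ _).trans (add_le_add_left (Pr_or p0 p1 _ _) _))
  have q6 := mul_le_mul_of_nonneg_left q5 (sq_nonneg p)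
  have q7 := mul_le_mul_of_nonneg_left q1 (sq_nonneg p)
  have q8 := mul_le_mul_of_nonneg_left q2 (sq_nonneg p)
  linarith

theorem pf_Mid (h1 : StLG) (h2 : StSand) : StMid := by
  intro D P a b hP p p0 p1 hT n N R H _ hNR hn hN hK1 hK2 hnum s1 s2
  have ha := hP.ha
  have hab := hP.hab
  have hH : 1 ≤ H := by have := hP.h2; omega
  have hp2 : 0 < p ^ 2 := by positivity
  have hδ : 0 ≤ p * (b - a) / 4 := by
    have := sub_pos.2 hab
    positivity
  have hc : ((n : ℝ) - 1) ^ D = ((inB D n).card : ℝ) := by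
    rw [card_inB, Nat.cast_pow, Nat.cast_sub hn, Nat.cast_one]
  set w : V D → ℝ := fun x => Pr p (fun ω : Ix D n N → Bool => ¬P.Nice n (dis a b ω) x) +
    Pr p fun ω : Ix D n N → Bool => ¬P.swap.Nice n (dis a b ω) x with hw
  have w0 : ∀ x, 0 ≤ w x := fun x =>
    add_nonneg (Mid_nonneg p0.le p1.le _) (Mid_nonneg p0.le p1.le _)
  set G : Finset (V D) := (inB D n).filter fun x => w x ≤ p ^ 2 / 4 with hG
  have hcard : ((n : ℝ) - 1) ^ D / 2 ≤ G.card := by
    have m1 : ∑ x ∈ inB D n, w x ≤ p ^ 2 / 8 * ((n : ℝ) - 1) ^ D := by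
      rw [hw, sum_add_distrib]; linarith
    have m2 : (((inB D n).filter fun x => ¬w x ≤ p ^ 2 / 4).card : ℝ) * (p ^ 2 / 4) ≤
        ∑ x ∈ inB D n, w x := by
      rw [← nsmul_eq_mul]
      exact (card_nsmul_le_sum _ _ _ fun x hx => (not_le.1 (mem_filter.1 hx).2).le).trans
        (sum_le_sum_of_subset_of_nonneg (filter_subset _ _) fun x _ _ => w0 x)
    have m3 : (G.card : ℝ) + ((inB D n).filter fun x => ¬w x ≤ p ^ 2 / 4).card =
        (inB D n).card := by
      rw [hG, ← Nat.cast_add, card_filter_add_card_filter_not]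
    rw [hc] at m1 ⊢
    have m4 : (((inB D n).filter fun x => ¬w x ≤ p ^ 2 / 4).card : ℝ) ≤ (inB D n).card / 2 := by
      refine le_of_mul_le_mul_right ?_ (by positivity : 0 < p ^ 2 / 4)
      linarith
    linarith
  refine le_trans (mul_le_mul_of_nonneg_left hcard
    (mul_nonneg (mul_nonneg p0.le (sub_nonneg.2 p1.le)) (sq_nonneg _)))
    (Mid_bessel p0.le p1.le G _ hδ fun x hx => ?_)
  obtain ⟨hx, hwx⟩ := mem_filter.1 hx
  have hx' := inB_sub_hatB hx
  have hz : P.blk x ∈ P.ZQ n := by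
    by_contra hz
    have e1 : Pr p (fun ω : Ix D n N → Bool => ¬P.Nice n (dis a b ω) x) = 1 := by
      rw [Pr_not]
      have : Pr p (fun ω : Ix D n N → Bool => P.Nice n (dis a b ω) x) = 0 :=
        sum_eq_zero fun ω _ => if_neg fun h => hz h.1
      rw [this, sub_zero]
    have e2 := Mid_nonneg p0.le p1.le fun ω : Ix D n N → Bool => ¬P.swap.Nice n (dis a b ω) x
    simp only [hw, e1] at hwx
    nlinarith
  set e₁ : Ix D n N := (⟨x, hx'⟩, none, ((P.K1 : ℤ) : ZMod N)) with he₁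
  set e₂ : Ix D n N := (⟨x, hx'⟩, none, ((P.K2 : ℤ) : ZMod N)) with he₂
  have r1 := Mid_side h1 hP p0.le p1.le hT hNR hnum P.K1 e₁ e₂ hz
  have r2 := Mid_side h1 hP.swap p0.le p1.le hT hNR.swap hnum P.K2 e₁ e₂ (x := x) hz
  obtain ⟨e, he, h3⟩ := two_edges p0.le p1.le
    (fun ω : Ix D n N → Bool => GEc n (dis a b ω) (Slab n H))
    (fun ω e => GEc_mono ha.le hab.le (twoV_dis _ _ _) (twoV_dis _ _ _)
      (dis_mono hab.le fun i => by by_cases hi : i = e <;> simp [hi]) (slab_nonempty hH))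
    e₁ e₂ (sub_pos.2 hab).le _ ((Pr_or p0.le p1.le
      (fun ω : Ix D n N → Bool => ¬∃ G, IsMinC n
        (shc P.K1 (dis a b (Function.update (Function.update ω e₁ true) e₂ true)))
          (WCl n (-P.K1) P.K2) G ∧ (G x = flat 0 ∨ G x = flat P.us))
      (fun ω : Ix D n N → Bool => ¬∃ G, IsMinC n
        (shc P.K2 (dis a b (Function.update (Function.update ω e₁ true) e₂ true)))
          (WCl n (-P.swap.K1) P.swap.K2) G ∧ (G x = flat 0 ∨ G x = flat P.swap.us))).trans (by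
      refine le_of_mul_le_mul_left ?_ hp2
      simp only [hw] at hwx
      rw [mul_add]
      linarith)) (by
    intro ω hω
    simp only [not_or, not_not] at hω
    obtain ⟨⟨G₁, u1, u2⟩, G₂, v1, v2⟩ := hω
    set ω' := Function.update (Function.update ω e₁ true) e₂ true with hω'
    obtain ⟨U, hU, hx2⟩ := h2 hH ha.le hab.le (twoV_dis a b ω') (lo := P.K1) (hi := P.K2)
      (by omega) (by omega) u1 v1 u2 v2
    rcases hx2 with hx2 | hx2
    · refine ⟨e₁, Or.inl rfl, drop_of_flat hN ha.le hab.le hU hx' hx2 ?_⟩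
      change ω' e₁ = true
      by_cases h2 : e₁ = e₂ <;> simp [hω', h2]
    · refine ⟨e₂, Or.inr rfl, drop_of_flat hN ha.le hab.le hU hx' hx2 ?_⟩
      change ω' e₂ = true
      simp [hω'])
  refine ⟨e, ?_, h3⟩
  rcases he with rfl | rfl <;> rfl

end Pool.Agent.P.MP_67bca4_pr
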