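import Pool.Agent.P.MP_67bca4_pr.AH.S1

/-!
Moving a configuration into a larger box.
-/

namespace Pool.Agent.P.MP_67bca4_pr

open Finset
open scoped Classical

variable {D n n' : ℕ} {c : V D}

lemma Mv_cfg (hc : CubeIn c n' n) {F : Conf D} (h : Cfg n' F) : Cfg n (mv c F) := by
  intro x hx
  refine h _ fun h1 => hx (mem_inB.2 fun i => ?_)
  have := mem_inB.1 h1 i
  have := hc i
  simp only [Pi.sub_apply] at *
  omega

lemma Mv_hat (hc : CubeIn c n' n) {x : V D} (h : x ∈ hatB D n') : x + c ∈ hatB D n :=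
  mem_hatB.2 fun i => by
    have := mem_hatB.1 h i; have := hc i; simp only [Pi.add_apply]; omega

lemma Mv_tip (e : Ed D) (c : V D) : tip (e.1 - c, e.2) = tip e - c := by
  simp only [tip]; abel

lemma Mv_tip' (e : Ed D) (c : V D) : tip (e.1 + c, e.2) = tip e + c := by
  simp only [tip]; abel

lemma Mv_en (hc : CubeIn c n' n) (ξ : Dis D) {F : Conf D} (h : Cfg n' F) :
    En n ξ (mv c F) = En n' (tr c ξ) F +
      ∑ x ∈ (hatB D n).filter (fun x => x - c ∉ hatB D n'), ξ x none 0 := by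
  have h1 : ∑ x ∈ hatB D n, ∑ k ∈ bd (mv c F x), ξ x none k =
      ∑ x ∈ hatB D n', ∑ k ∈ bd (F x), tr c ξ x none k +
        ∑ x ∈ (hatB D n).filter (fun x => x - c ∉ hatB D n'), ξ x none 0 := by
    rw [← sum_filter_add_sum_filter_not (hatB D n) fun x => x - c ∈ hatB D n']
    congr 1
    · refine sum_bij' (fun x _ => x - c) (fun x _ => x + c) (fun x hx => (mem_filter.1 hx).2)
        (fun x hx => mem_filter.2 ⟨Mv_hat hc hx, by simpa using hx⟩) (by simp) (by simp)
        fun x _ => ?_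
      simp [mv, tr]
    · refine sum_congr rfl fun x hx => ?_
      have : mv c F x = flat 0 := h _ fun h1 => (mem_filter.1 hx).2 (inB_sub_hatB h1)
      rw [this, bd_flat, sum_singleton]
  have h2 : ∑ e ∈ edB D n, ∑ k ∈ dif (mv c F e.1) (mv c F (tip e)), ξ e.1 (some e.2) k =
      ∑ e ∈ edB D n', ∑ k ∈ dif (F e.1) (F (tip e)), tr c ξ e.1 (some e.2) k := by
    rw [← sum_filter_add_sum_filter_not (edB D n) fun e => (e.1 - c, e.2) ∈ edB D n',
      sum_eq_zero (s := (edB D n).filter fun e => (e.1 - c, e.2) ∉ edB D n'), add_zero]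
    · refine sum_bij' (fun e _ => (e.1 - c, e.2)) (fun e _ => (e.1 + c, e.2))
        (fun e he => (mem_filter.1 he).2)
        (fun e he => mem_filter.2 ⟨mem_edB.2 ⟨Mv_hat hc (mem_edB.1 he).1, ?_⟩, by simpa using he⟩)
        (by simp) (by simp) fun e _ => ?_
      · rw [Mv_tip']; exact Mv_hat hc (mem_edB.1 he).2
      · rw [Mv_tip]; simp [mv, tr]
    · intro e he
      have h0 := (mem_filter.1 he).2
      have a1 : mv c F e.1 = flat 0 := h _ fun h1 => h0 (mem_edB_of_base h1)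
      have a2 : mv c F (tip e) = flat 0 := h _ fun h1 => h0 (mem_edB_of_tip (by rwa [Mv_tip]))
      rw [a1, a2]
      exact sum_eq_zero fun k hk => absurd Iff.rfl (mem_dif.1 hk)
  unfold En
  rw [h1, h2]
  ring

lemma Mv_jst (hc : CubeIn c n' n) {F : Conf D} (h : Cfg n' F) {e : Ed D} :
    e ∈ Jst n (mv c F) ↔ (e.1 - c, e.2) ∈ Jst n' F := by
  rw [(Mv_cfg hc h).mem_Jst, h.mem_Jst, Mv_tip]
  rfl

lemma Mv_inSq {z : V D} {i j : Fin D} {e : Ed D} (h : InSq z i j e) (c : V D) :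
    InSq (z + c) i j (e.1 + c, e.2) := by
  rcases h with rfl | rfl | rfl | rfl
  · exact Or.inl rfl
  · exact Or.inr (Or.inl (by rw [add_right_comm]))
  · exact Or.inr (Or.inr (Or.inl rfl))
  · exact Or.inr (Or.inr (Or.inr (by rw [add_right_comm])))

lemma Mv_wcost (f : V D → ℝ) (c : V D) (w : List (V D)) :
    ∀ r, wcost f (r - c) (w.map (· - c)) = wcost f r w := by
  induction w with
  | nil => intro r; rfl
  | cons x w ih =>
    intro r
    simp only [List.map_cons, wcost, ih, sub_sub_sub_cancel_right]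

lemma Mv_heavy (hc : CubeIn c n' n) {F : Conf D} (h : Cfg n' F) {x : V D} {M : ℕ}
    (H : Heavy n (mv c F) x M) : Heavy n' F (x - c) M := by
  obtain ⟨C, h1, h2, w, h3, h4⟩ := H
  have inj : Function.Injective fun e : Ed D => (e.1 - c, e.2) := by
    rintro ⟨a, i⟩ ⟨b, j⟩ e
    simpa using e
  have hcard : (C.image fun e : Ed D => (e.1 - c, e.2)).card = C.card :=
    card_image_of_injective _ inj
  refine ⟨C.image fun e : Ed D => (e.1 - c, e.2), ⟨fun e he => ?_, fun e he e' he' hs => ?_⟩,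
    by rwa [hcard], w.map (· - c), fun p hp => ?_, by rwa [hcard, Mv_wcost]⟩
  · obtain ⟨f, hf, rfl⟩ := mem_image.1 he
    exact (Mv_jst hc h).1 (h1.1 hf)
  · obtain ⟨f, hf, rfl⟩ := mem_image.1 he
    obtain ⟨z, i, j, hij, s1, s2⟩ := hs
    have s3 := Mv_inSq s1 c
    simp only [sub_add_cancel] at s3
    refine mem_image.2 ⟨(e'.1 + c, e'.2), h1.2 f hf _ ((Mv_jst hc h).2 (by simpa using he'))
      ⟨z + c, i, j, hij, s3, Mv_inSq s2 c⟩, by simp⟩
  · obtain ⟨e, he, rfl⟩ := mem_bases.1 hp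
    obtain ⟨f, hf, rfl⟩ := mem_image.1 he
    have := h3 f.1 (mem_bases.2 ⟨f, hf, rfl⟩)
    exact List.mem_map_of_mem (f := (· - c)) this

theorem pf_Mv : StMv := by
  intro D n n' c hc
  refine ⟨fun F h => Mv_cfg hc h, fun ξ F F' h h' => ?_, fun F x M h H => Mv_heavy hc h H⟩
  rw [Mv_en hc ξ h, Mv_en hc ξ h']
  ring

end Pool.Agent.P.MP_67bca4_pr
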