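import Pool.Agent.P.MP_67bca4_pr.AH.S2

/-!
Pure blocks at a central level are nice: a good local minimiser is glued into the slab minimiser.
-/

namespace Pool.Agent.P.MP_67bca4_pr

open Finset
open scoped Classical

theorem pf_NiceP (h1 : StPure) (h2 : StSep) (h3 : StExch) : StNiceP := by
  intro D P a b hP n ξ _ U U' C s hG t x hpure hu
  refine ⟨hpure.1, fun hLG => ?_⟩
  obtain ⟨hloc, -, -⟩ := h1 hP hG hpure
  have hcube : CubeIn (P.cQ (P.blk x)) P.nQ n := P.mem_ZQ.1 hpure.1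
  obtain ⟨F, hF, hFw, hFx, hFh⟩ := hLG _ hu
  set c := P.cQ (P.blk x) with hc
  set u := t (P.cB (P.blk x)) with hud
  have hxc : ∀ i, (P.RQ : ℤ) ≤ x i - c i ∧ x i - c i ≤ P.RQ + P.r0 - 1 := fun i => by
    have := P.blk_bounds x i
    simp only [hc, Par.cQ]
    omega
  have hnQ := P.nQ_eq
  have hxh : x ∈ hatB D n := mem_hatB.2 fun i => by
    have := hxc i
    have := hcube i
    omega
  have hfar : ∀ p q : V D, p = x → ¬(q - c ∈ inB D P.nQ) → 25 * (P.M : ℝ) ≤ l1 (q - p) := by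
    rintro p q rfl hq
    rw [mem_inB] at hq
    push Not at hq
    obtain ⟨i, hi⟩ := hq
    refine le_trans ?_ (abs_le_l1 _ i)
    have e1 := hxc i
    have e2 := P.RQ_eq
    have e3 : P.r = 25 * P.M := rfl
    have e4 : ((25 * P.M : ℕ) : ℤ) ≤ |(q - p) i| := by
      rw [Pi.sub_apply, le_abs]
      rw [Pi.sub_apply] at hi
      omega
    exact_mod_cast e4
  obtain ⟨A, W, hA1, hA2, hA3, hW, -, -, hE⟩ := h2 (E := ∅) (M := P.M) (P := fun p => p = x)
    (Nb := fun q => q - c ∈ inB D P.nQ) (by have := hP.hD; omega) hcube hG.cfg hF.1 hF.1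
    (fun _ _ => rfl) hP.one_le_M (by simp) (fun _ h => h) hfar
    (by rintro p rfl; exact ⟨hG.light _ hxh, hFh⟩)
  have hAx : A x := hA1 x rfl
  let Uh : Conf D := fun y => sh u (U y)
  have hUh : ∀ y, y - c ∈ hatB D P.nQ → U' y = Uh y := by
    intro y hy
    obtain ⟨e1, e2⟩ := hloc y hy
    rw [e2, e1]
  have hbd : ∀ y y', A y → ¬A y' → Adj y y' → Uh y' = mv c F y' := by
    intro y y' hy hy' hadj
    rw [← hA3 y y' hy hy' hadj]
    refine (hUh y' (mem_hatB.2 fun i => ?_)).symm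
    have e1 := mem_inB.1 (hA2 y hy) i
    have e2 := hadj.abs_le i
    rw [Pi.sub_apply] at e1 ⊢
    omega
  have hgl : glue A Uh (mv c F) = glue A U' (mv c F) := by
    funext y
    by_cases hy : A y
    · rw [glue_pos hy, glue_pos hy, hUh y (inB_sub_hatB (hA2 y hy))]
    · rw [glue_neg hy, glue_neg hy]
  have hex := h3 n (shc u ξ) hbd
  rw [hgl] at hex
  have hE1 := (hE (shc u ξ)).1
  have hmin : En P.nQ (tr c (shc u ξ)) F ≤ En P.nQ (tr c (shc u ξ)) W := hF.2 W hW
  have hsh : En n (shc u ξ) Uh = En n ξ U := En_shift_const u U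
  let G : Conf D := fun y => sh (-u) (glue A (mv c F) Uh y)
  have hG1 : ∀ y, A y → G y = sh (-u) (F (y - c)) := fun y hy => by
    simp only [G, glue_pos hy, mv_apply]
  have hG2 : ∀ y, ¬A y → G y = U y := fun y hy => by
    simp only [G, glue_neg hy, Uh, sh_sh, neg_add_cancel, sh_zero]
  have hGE : En n ξ G = En n (shc u ξ) (glue A (mv c F) Uh) := by
    rw [← En_shift_const (n := n) (ξ := ξ) u G]
    congr 1
    funext y
    simp only [G, sh_sh, add_neg_cancel, sh_zero]
  refine ⟨G, ⟨⟨fun y hy => ?_, fun y => ?_⟩, fun G' hG' => ?_⟩, ?_⟩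
  · have hy' : ¬A y := fun h => hy (mem_inB.2 fun i => by
      have e1 := mem_inB.1 (hA2 y h) i
      have e2 := hcube i
      rw [Pi.sub_apply] at e1
      omega)
    rw [hG2 y hy']
    exact hG.hU.1.1 y hy
  · by_cases hy : A y
    · rw [hG1 y hy]
      have e1 := (winCol_sh (t := -u)).2 (win_iff.1 hFw (y - c))
      exact e1.mono (by omega) (by omega)
    · rw [hG2 y hy]
      exact hG.hU.1.2 y
  · have := hG.hU.2 G' hG'
    linarith
  · have e1 : G x = flat u := by rw [hG1 x hAx, hFx, sh_flat]; simp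
    rcases hu with h | h
    · left; rw [e1, h]
    · right; rw [e1, h]

end Pool.Agent.P.MP_67bca4_pr
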