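import Pool.Agent.P.MP_67bca4_pr.AH.S2

/-!
The probability of the planted pattern.
-/

namespace Pool.Agent.P.MP_67bca4_pr

open Finset
open scoped Classical

variable {D : ℕ}

lemma PPlant_nonneg {I : Type} [Fintype I] [DecidableEq I] {p : ℝ} (h0 : 0 ≤ p) (h1 : p ≤ 1)
    (A : (I → Bool) → Prop) : 0 ≤ Pr p A := by
  have := Pr_mono h0 h1 (A := fun _ => False) (B := A) fun _ h => h.elim
  simpa [Pr] using this

/-- The indices of the pattern. -/
noncomputable def PPlant_S (P : Par D) (N : ℕ) [NeZero N] : Finset (Ix D P.nQ N) :=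
  univ.filter fun i => i.1.1 ∈ P.Rpl ∧
    i.2.2 ∈ (Finset.Icc (-(2 * P.K + 2 : ℤ)) (2 * P.K + 2)).image fun k : ℤ => (k : ZMod N)

lemma PPlant_card (P : Par D) (N : ℕ) [NeZero N] : (PPlant_S P N).card ≤ P.nP := by
  have := card_le_card_of_injOn (s := PPlant_S P N) (t := (P.Rpl ×ˢ (univ : Finset (Option (Fin D))))
      ×ˢ (Finset.Icc (-(2 * P.K + 2 : ℤ)) (2 * P.K + 2)).image fun k : ℤ => (k : ZMod N))
    (fun i => ((i.1.1, i.2.1), i.2.2))
    (fun i hi => mem_coe.2 (mem_product.2 ⟨mem_product.2 ⟨(mem_filter.1 hi).2.1, mem_univ _⟩,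
      (mem_filter.1 hi).2.2⟩))
    fun i _ j _ e => by
      simp only [Prod.mk.injEq] at e
      exact Prod.ext (Subtype.ext e.1.1) (Prod.ext e.1.2 e.2)
  rw [card_product, card_product, P.card_Rpl, card_univ, Fintype.card_option,
    Fintype.card_fin] at this
  refine this.trans (Nat.mul_le_mul_left _ (card_image_le.trans ?_))
  rw [Int.card_Icc]
  omega

lemma PPlant_planted {P : Par D} {a b : ℝ} (h : P.Ok a b) {N : ℕ} [NeZero N]
    (hN : 4 * P.K + 5 ≤ N) {ω : Ix D P.nQ N → Bool} (hω : ∀ i ∈ PPlant_S P N, ω i =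
      !decide (i.1.1 ∈ P.Pl a b ∧ i.2.1 = none ∧ i.2.2 = ((P.K2 + 1 : ℤ) : ZMod N))) :
    P.Planted a b (dis a b ω) := by
  intro x hx o k h1 h2
  have hx' : x ∈ hatB D P.nQ := inB_sub_hatB (P.Rpl_sub hx)
  have e := hω (⟨x, hx'⟩, o, (k : ZMod N)) (mem_filter.2 ⟨mem_univ _, hx,
    mem_image_of_mem _ (Finset.mem_Icc.2 ⟨h1, h2⟩)⟩)
  have e2 : ((k : ZMod N) = ((P.K2 + 1 : ℤ) : ZMod N)) ↔ k = P.K2 + 1 := by
    refine ⟨fun e3 => ?_, fun e3 => by rw [e3]⟩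
    have h3 := h.h4
    have := Int.eq_zero_of_abs_lt_dvd ((ZMod.intCast_eq_intCast_iff_dvd_sub _ _ _).1 e3)
      (by rw [abs_lt]; omega)
    omega
  simp only [e2] at e
  rw [dis, dif_pos hx', e]
  by_cases h4 : x ∈ P.Pl a b ∧ o = none ∧ k = P.K2 + 1
  · rw [if_pos h4, decide_eq_true h4]
    rfl
  · rw [if_neg h4, decide_eq_false h4]
    rfl

theorem pf_PPlant (h1 : StPBad) (h2 : StPat) (h3 : StIndep) : StPPlant := by
  intro D P a b h p p0 p1 hT N R _ hNR hnum u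
  set E : (Ix D P.nQ N → Bool) → Prop := fun ω => ∀ i ∈ PPlant_S P N, ω i =
    !decide (i.1.1 ∈ P.Pl a b ∧ i.2.1 = none ∧ i.2.2 = ((P.K2 + 1 : ℤ) : ZMod N)) with hE
  set E' : (Ix D P.nQ N → Bool) → Prop := fun ω =>
    (∀ w ∈ ball D P.Lam, w ≠ 0 → ¬P.BadQ b u (dis a b ω) w) ∧
      P.DGood a (dis a b (ovr P.Rpl ω)) with hE'
  have d1 : Dep (fun i : Ix D P.nQ N => i.1.1 ∈ P.Rpl) E := fun ω ω' hh =>
    propext (forall₂_congr fun i hi => by rw [hh i (mem_filter.1 hi).2.1])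
  have d2 : Dep (fun i : Ix D P.nQ N => ¬i.1.1 ∈ P.Rpl) E' := fun ω ω' hh => by
    have e1 : ovr P.Rpl ω = ovr P.Rpl ω' := by
      funext i
      by_cases hi : i.1.1 ∈ P.Rpl
      · simp [ovr, hi]
      · simp [ovr, hh i hi]
    simp only [hE', e1]
    refine congrArg (· ∧ _) (propext (forall₂_congr fun w _ => forall_congr' fun hw => ?_))
    rw [P.badQ_iff, P.badQ_iff]
    exact not_congr (iff_of_eq (dep_tr (n' := P.nL) (P.cL w + cv P.RQ) a b (f := P.badL b u)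
      (fun ξ ξ' hξ => propext (P.badL_congr hξ b u)) ω ω' fun i hi => hh i (P.L_avoid hw hi)))
  have a1 : P.kap0 p ≤ Pr p E :=
    (pow_le_pow_of_le_one (le_min p0 (by linarith)) ((min_le_left _ _).trans p1)
      (PPlant_card P N)).trans ((h2 p0 p1 _).1 _)
  have a2 : Pr p (fun ω : Ix D P.nQ N → Bool => ∃ w ∈ ball D P.Lam, P.BadQ b u (dis a b ω) w) ≤
      (2 * P.Lam + 1) ^ D * P.rhoB p := by
    refine (Pr_union p0 p1 _ _).trans ((sum_le_card_nsmul _ _ (P.rhoB p) fun w hw => ?_).trans_eq ?_)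
    · simp only [P.badQ_iff]
      exact h1 h p0 p1 hT hNR (P.cubeIn_L hw) u
    · rw [card_ball, nsmul_eq_mul]
      push_cast
      rfl
  have a3 : ∀ c : ℤ, Pr p (fun ω : Ix D P.nQ N → Bool => ∃ y ∈ inB D P.nQ,
      GoodAt P.nQ a (shc c (dis a b (ovr P.Rpl ω))) y P.h0) ≤
      P.nQ ^ D * Real.exp (-√(P.h0 : ℝ)) := fun c => by
    refine (Pr_union p0 p1 _ _).trans ((sum_le_card_nsmul _ _ (Real.exp (-√(P.h0 : ℝ)))
      fun y _ => ?_).trans ?_)
    · simp only [shc_dis, ← ovr_sperm]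
      rw [Pr_perm (sperm fun _ => c) fun ω => GoodAt P.nQ a (dis a b (ovr P.Rpl ω)) y P.h0]
      exact hT _ N R hNR.1 hNR.2.1 _ y _ h.hh
    · rw [card_inB, nsmul_eq_mul]
      refine mul_le_mul_of_nonneg_right ?_ (Real.exp_pos _).le
      exact_mod_cast Nat.pow_le_pow_left (Nat.sub_le _ _) D
  have a4 : Pr p (fun ω => ¬E' ω) ≤ 1 / 32 := by
    refine (Pr_mono p0 p1 fun ω hω => ?_).trans ((Pr_or p0 p1 _ _).trans
      ((add_le_add a2 ((Pr_or p0 p1 _ _).trans (add_le_add (a3 0) (a3 1)))).trans (by linarith)))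
    by_contra hc
    rw [not_or, not_or] at hc
    refine hω ⟨fun w hw _ hb => hc.1 ⟨w, hw, hb⟩, fun c hc' y hy hg => ?_⟩
    rcases hc' with rfl | rfl
    · exact hc.2.1 ⟨y, hy, hg⟩
    · exact hc.2.2 ⟨y, hy, hg⟩
  rw [Pr_not] at a4
  have a5 := (h3 p).2 _ E E' d1 d2
  have a6 := PPlant_nonneg p0 p1 E
  refine le_trans ?_ (Pr_mono p0 p1 (A := fun ω => E ω ∧ E' ω) fun ω hω =>
    ⟨PPlant_planted h hNR.2.2 hω.1, hω.2⟩)
  rw [a5]
  nlinarith

end Pool.Agent.P.MP_67bca4_pr
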