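import Pool.Agent.P.MP_67bca4_pr.AH.S2

/-!
The probability that a block is spoilt.
-/

namespace Pool.Agent.P.MP_67bca4_pr

open Finset
open scoped Classical

variable {D : ℕ}

lemma PSp_rho_nonneg (P : Par D) {p : ℝ} (h0 : 0 ≤ p) : 0 ≤ P.rhoB p := by
  unfold Par.rhoB; positivity

lemma PSp_piR_nonneg (P : Par D) : 0 ≤ P.piR := by
  unfold Par.piR; positivity

lemma PSp_inst {α β : Type} (i j : DecidableEq β) (f : α → β) (T : Finset α) :
    (@image _ _ i f T).card = (@image _ _ j f T).card := by rw [Subsingleton.elim i j]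

lemma PSp_card_col (T : Finset (V D)) :
    (T.image fun z : V D => (fun i => z i % 2 : V D)).card ≤ 2 ^ D := by
  have h : (T.image fun z : V D => (fun i => z i % 2 : V D)) ⊆ cube D 0 (0 + (2 : ℕ) - 1) := by
    intro y hy
    obtain ⟨z, -, rfl⟩ := mem_image.1 hy
    refine mem_cube.2 fun i => ?_
    push_cast
    omega
  exact (card_le_card h).trans (card_cube 0 2).le

lemma PSp_disj (P : Par D) {z z' : V D} (hne : z ≠ z')
    (hc : (fun i => z i % 2 : V D) = fun i => z' i % 2) {x : V D}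
    (h : x - P.cL z ∈ hatB D P.nL) : x - P.cL z' ∉ hatB D P.nL := by
  intro h'
  obtain ⟨i, hi⟩ := Function.ne_iff.1 hne
  have h1 := mem_hatB.1 h i
  have h2 := mem_hatB.1 h' i
  have h3 : z i % 2 = z' i % 2 := congrFun hc i
  have h4 := P.r0_pos
  have h5 := P.nL_eq
  have h6 := P.r0_eq
  have h7 := P.rc_eq
  simp only [Pi.sub_apply, Par.cL] at h1 h2
  rcases lt_or_gt_of_ne hi with h8 | h8
  · have h9 : (P.r0 : ℤ) * (z i + 2) ≤ P.r0 * z' i :=
      mul_le_mul_of_nonneg_left (by omega) h4.le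
    rw [mul_add] at h9
    omega
  · have h9 : (P.r0 : ℤ) * (z' i + 2) ≤ P.r0 * z i :=
      mul_le_mul_of_nonneg_left (by omega) h4.le
    rw [mul_add] at h9
    omega

lemma PSp_card_T (P : Par D) (n : ℕ) (v : V D) :
    ((P.ZL n).filter fun z => z - v ∈ ball D P.rs).card ≤ (2 * P.rs + 1) ^ D := by
  rw [← card_ball]
  refine card_le_card_of_injOn (fun z => z - v) (fun z hz => ?_) fun z _ z' _ h => ?_
  · exact (mem_filter.1 (mem_coe.1 hz)).2
  · exact sub_left_injective h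

lemma PSp_level (h1 : StPBad) (h3 : StDense) {P : Par D} {a b : ℝ} (hP : P.Ok a b) {p : ℝ}
    (hp0 : 0 ≤ p) (hp1 : p ≤ 1) (hT : Tail1 D a b p) {n N R : ℕ} [NeZero N]
    (hN : P.NR a b n N R) (v : V D) (u : ℤ) :
    Pr p (fun ω : Ix D n N → Bool => P.k0 <
      ((P.ZL n).filter fun z => z - v ∈ ball D P.rs ∧ P.Bad b u (dis a b ω) z).card) ≤
      ((2 * P.rs + 1) ^ D * P.rhoB p) ^ P.k1 := by
  have hr := PSp_rho_nonneg P hp0
  have key := h3 (I := Ix D n N) hp0 hp1 ((P.ZL n).filter fun z => z - v ∈ ball D P.rs)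
    (fun z : V D => (fun i => z i % 2 : V D))
    (fun z (i : Ix D n N) => i.1.1 - P.cL z ∈ hatB D P.nL)
    (fun z ω => P.badL b u (tr (P.cL z) (dis a b ω))) (χ := 2 ^ D) (k := P.k1) (r := P.rhoB p)
    ((PSp_inst _ _ _ _).trans_le (PSp_card_col _)) hr
    (fun z _ => dep_tr (P.cL z) a b (f := P.badL b u) fun ξ ξ' h => propext (P.badL_congr h b u))
    (fun z _ z' _ hne hc i hi => PSp_disj P hne hc hi)
    (fun z hz => h1 hP hp0 hp1 hT hN (P.cubeIn_of_ZL (mem_filter.1 hz).1) u)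
  refine le_trans (Pr_mono hp0 hp1 fun ω hω => ?_) (key.trans ?_)
  · refine lt_of_lt_of_le hω (card_le_card fun z hz => ?_)
    obtain ⟨hz1, hz2, hz3⟩ := mem_filter.1 hz
    simp only [mem_filter]
    exact ⟨⟨hz1, hz2⟩, hz3⟩
  · refine pow_le_pow_left₀ (by positivity) (mul_le_mul_of_nonneg_right ?_ hr) _
    exact_mod_cast PSp_card_T P n v

lemma PSp_dense (h1 : StPBad) (h3 : StDense) {P : Par D} {a b : ℝ} (hP : P.Ok a b) {p : ℝ}
    (hp0 : 0 ≤ p) (hp1 : p ≤ 1) (hT : Tail1 D a b p) {n N R : ℕ} [NeZero N]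
    (hN : P.NR a b n N R) (v : V D) :
    Pr p (fun ω : Ix D n N → Bool => P.DenseS b n (dis a b ω) v) ≤
      (2 * P.K + 1) * ((2 * P.rs + 1) ^ D * P.rhoB p) ^ P.k1 := by
  have hU := Pr_union hp0 hp1 (Finset.Icc (-(P.K : ℤ)) P.K)
    (fun (u : ℤ) (ω : Ix D n N → Bool) => P.k0 <
      ((P.ZL n).filter fun z => z - v ∈ ball D P.rs ∧ P.Bad b u (dis a b ω) z).card)
  refine le_trans (Pr_mono hp0 hp1 fun ω hω => ?_) (hU.trans ?_)
  · obtain ⟨u, hu1, hu2, hu3⟩ := hω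
    exact ⟨u, mem_Icc.2 ⟨hu1, hu2⟩, hu3⟩
  · refine (sum_le_card_nsmul _ _ _ fun u _ => PSp_level h1 h3 hP hp0 hp1 hT hN v u).trans ?_
    have hc : (Finset.Icc (-(P.K : ℤ)) P.K).card = 2 * P.K + 1 := by
      rw [Int.card_Icc]; omega
    rw [hc, nsmul_eq_mul]
    push_cast
    exact le_rfl

lemma PSp_good {P : Par D} {a b : ℝ} (hP : P.Ok a b) {p : ℝ}
    (hp0 : 0 ≤ p) (hp1 : p ≤ 1) (hT : Tail1 D a b p) {n N R : ℕ} [NeZero N]
    (hN : P.NR a b n N R) (c : V D) :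
    Pr p (fun ω : Ix D n N → Bool =>
      ∃ x, x - c ∈ hatB D P.nQ ∧ GoodAt n a (dis a b ω) x P.mg) ≤
      (P.nQ + 1) ^ D * Real.exp (-√(P.mg : ℝ)) := by
  have hU := Pr_union hp0 hp1 (hatB D P.nQ)
    (fun (y : V D) (ω : Ix D n N → Bool) => GoodAt n a (dis a b ω) (y + c) P.mg)
  refine le_trans (Pr_mono hp0 hp1 fun ω hω => ?_) (hU.trans ?_)
  · obtain ⟨x, hx1, hx2⟩ := hω
    exact ⟨x - c, hx1, by rwa [sub_add_cancel]⟩
  · refine (sum_le_card_nsmul _ _ (Real.exp (-√(P.mg : ℝ))) fun y _ => ?_).trans ?_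
    · have := hT n N R hN.1 hN.2.1 ∅ (y + c) P.mg hP.cube_le_mg
      simpa only [ovr_empty] using this
    · rw [card_hatB, nsmul_eq_mul]
      push_cast
      exact le_rfl

theorem pf_PSp (h1 : StPBad) (h2 : StPRare) (h3 : StDense) : StPSp := by
  intro D P a b hP p hp0 hp1 hT n N R _ hN v
  have hA := PSp_dense h1 h3 hP hp0 hp1 hT hN v
  have hC := PSp_good hP hp0 hp1 hT hN (P.cQ v)
  unfold Par.piS
  by_cases hv : v ∈ P.ZQ n
  · have hB := h2 hP hp0 hp1 hT hN (P.mem_ZQ.1 hv)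
    have hO := Pr_or hp0 hp1 (fun ω : Ix D n N → Bool => P.RareQ a (tr (P.cQ v) (dis a b ω)))
      (fun ω : Ix D n N → Bool =>
        ∃ x, x - P.cQ v ∈ hatB D P.nQ ∧ GoodAt n a (dis a b ω) x P.mg)
    have hO' := Pr_or hp0 hp1 (fun ω : Ix D n N → Bool => P.DenseS b n (dis a b ω) v)
      (fun ω : Ix D n N → Bool => P.RareQ a (tr (P.cQ v) (dis a b ω)) ∨
        ∃ x, x - P.cQ v ∈ hatB D P.nQ ∧ GoodAt n a (dis a b ω) x P.mg)
    refine le_trans (Pr_mono hp0 hp1 fun ω hω => ?_) (hO'.trans (by linarith))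
    exact hω.imp_right fun h => h.2
  · have hB := PSp_piR_nonneg P
    have hE : (0 : ℝ) ≤ (P.nQ + 1) ^ D * Real.exp (-√(P.mg : ℝ)) := by positivity
    refine le_trans (Pr_mono hp0 hp1 fun ω hω => ?_) (hA.trans (by linarith))
    exact hω.resolve_right fun h => hv h.1

end Pool.Agent.P.MP_67bca4_pr
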