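import Pool.Agent.P.MP_67bca4_pr.AH.S2

/-!
The choice of the scales as functions of the height.
-/

namespace Pool.Agent.P.MP_67bca4_pr

open Filter Topology

noncomputable section

namespace PK

/-- Polynomially bounded sequences. -/
def PB (f : ℕ → ℝ) : Prop := ∃ e : ℕ, ∀ᶠ K : ℕ in atTop, |f K| ≤ (K : ℝ) ^ e

/-- Polynomially bounded sequences of natural numbers. -/
def PN (f : ℕ → ℕ) : Prop := PB fun K => (f K : ℝ)

/-- Sequences that decay faster than every power. -/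
def Sm (g : ℕ → ℝ) : Prop := ∀ e : ℕ, Tendsto (fun K : ℕ => (K : ℝ) ^ e * g K) atTop (𝓝 0)

lemma ev_ge (c : ℝ) : ∀ᶠ K : ℕ in atTop, c ≤ (K : ℝ) :=
  tendsto_natCast_atTop_atTop.eventually_ge_atTop c

lemma PB.of_le {f g : ℕ → ℝ} (hg : PB g) (h : ∀ K, |f K| ≤ g K) : PB f := by
  obtain ⟨e, he⟩ := hg
  exact ⟨e, he.mono fun K hK => (h K).trans ((le_abs_self _).trans hK)⟩

lemma PB.const (c : ℝ) : PB fun _ => c :=
  ⟨1, (ev_ge |c|).mono fun K hK => by simpa using hK⟩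

lemma PB.mul {f g : ℕ → ℝ} (hf : PB f) (hg : PB g) : PB fun K => f K * g K := by
  obtain ⟨e, he⟩ := hf
  obtain ⟨e', he'⟩ := hg
  refine ⟨e + e', (he.and he').mono fun K hK => ?_⟩
  rw [abs_mul, pow_add]
  exact mul_le_mul hK.1 hK.2 (abs_nonneg _) (by positivity)

lemma PB.add {f g : ℕ → ℝ} (hf : PB f) (hg : PB g) : PB fun K => f K + g K := by
  obtain ⟨e, he⟩ := hf
  obtain ⟨e', he'⟩ := hg
  refine ⟨e + e' + 1, (he.and (he'.and (ev_ge 2))).mono fun K hK => ?_⟩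
  obtain ⟨h1, h2, h3⟩ := hK
  have h4 : (K : ℝ) ^ e ≤ K ^ (e + e') := pow_le_pow_right₀ (by linarith) (by omega)
  have h5 : (K : ℝ) ^ e' ≤ K ^ (e + e') := pow_le_pow_right₀ (by linarith) (by omega)
  have h6 : (0 : ℝ) ≤ K ^ (e + e') := by positivity
  have h7 := abs_add_le (f K) (g K)
  rw [pow_succ]
  nlinarith

lemma PB.pow {f : ℕ → ℝ} (hf : PB f) (n : ℕ) : PB fun K => f K ^ n := by
  obtain ⟨e, he⟩ := hf
  refine ⟨e * n, he.mono fun K hK => ?_⟩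
  rw [abs_pow, pow_mul]
  exact pow_le_pow_left₀ (abs_nonneg _) hK n

lemma PB.div {f : ℕ → ℝ} (hf : PB f) (c : ℝ) : PB fun K => f K / c := by
  simpa only [div_eq_mul_inv] using hf.mul (PB.const c⁻¹)

lemma PB.abs {f : ℕ → ℝ} (hf : PB f) : PB fun K => |f K| := by
  obtain ⟨e, he⟩ := hf
  exact ⟨e, he.mono fun K hK => by rwa [abs_abs]⟩

lemma PB.ceil {f : ℕ → ℝ} (hf : PB f) : PN fun K => ⌈f K⌉₊ := by
  refine (hf.abs.add (PB.const 1)).of_le fun K => ?_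
  rw [Nat.abs_cast]
  exact (Nat.cast_le.2 (Nat.ceil_mono (le_abs_self _))).trans
    (Nat.ceil_lt_add_one (abs_nonneg _)).le

lemma PN.id : PN fun K => K := ⟨1, Eventually.of_forall fun K => by simp⟩
lemma PN.c (c : ℕ) : PN fun _ => c := PB.const _
lemma PN.add {f g : ℕ → ℕ} (hf : PN f) (hg : PN g) : PN fun K => f K + g K := by
  simpa only [PN, Nat.cast_add] using PB.add hf hg
lemma PN.mul {f g : ℕ → ℕ} (hf : PN f) (hg : PN g) : PN fun K => f K * g K := by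
  simpa only [PN, Nat.cast_mul] using PB.mul hf hg
lemma PN.pow {f : ℕ → ℕ} (hf : PN f) (n : ℕ) : PN fun K => f K ^ n := by
  simpa only [PN, Nat.cast_pow] using PB.pow hf n
lemma PN.of_le {f g : ℕ → ℕ} (hg : PN g) (h : ∀ K, f K ≤ g K) : PN f :=
  PB.of_le hg fun K => by rw [Nat.abs_cast]; exact_mod_cast h K
lemma PN.pb {f : ℕ → ℕ} (hf : PN f) : PB fun K => (f K : ℝ) := hf
/-- The sequence `2 f + 1`. -/
lemma PN.odd {f : ℕ → ℕ} (hf : PN f) : PB fun K => 2 * (f K : ℝ) + 1 :=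
  ((PB.const 2).mul hf.pb).add (PB.const 1)

lemma Sm.mul {f g : ℕ → ℝ} (hf : PB f) (hg : Sm g) : Sm fun K => f K * g K := by
  obtain ⟨e', he⟩ := hf
  intro e
  refine squeeze_zero_norm' (he.mono fun K hK => ?_) (by simpa using (hg (e + e')).norm)
  simp only [Real.norm_eq_abs, abs_mul, abs_pow, Nat.abs_cast, pow_add, mul_assoc]
  gcongr

lemma Sm.add {f g : ℕ → ℝ} (hf : Sm f) (hg : Sm g) : Sm fun K => f K + g K := fun e => by
  simpa only [mul_add, add_zero] using (hf e).add (hg e)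

lemma Sm.ev {g : ℕ → ℝ} (hg : Sm g) {ε : ℝ} (hε : 0 < ε) : ∀ᶠ K : ℕ in atTop, g K ≤ ε := by
  have := (hg 0).eventually (ge_mem_nhds hε)
  simpa using this

lemma sm_pow {r : ℝ} (h0 : 0 ≤ r) (h1 : r < 1) : Sm fun K => r ^ K := fun e =>
  tendsto_pow_const_mul_const_pow_of_abs_lt_one e (by rwa [abs_of_nonneg h0])

lemma sm_root : Sm fun K => Real.exp (-√(((K - 2) / 2 : ℕ) : ℝ)) := by
  intro e
  have h1 : Tendsto (fun K : ℕ => (K - 2) / 2) atTop atTop :=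
    tendsto_atTop.2 fun m => (eventually_ge_atTop (2 * m + 2)).mono fun K hK => by omega
  have h2 : Tendsto (fun K : ℕ => √(((K - 2) / 2 : ℕ) : ℝ)) atTop atTop :=
    Real.tendsto_sqrt_atTop.comp (tendsto_natCast_atTop_atTop.comp h1)
  have h3 := ((Real.tendsto_pow_mul_exp_neg_atTop_nhds_zero (2 * e)).comp h2).const_mul
    ((5 : ℝ) ^ e)
  rw [mul_zero] at h3
  refine squeeze_zero' (Eventually.of_forall fun K => by positivity)
    ((eventually_ge_atTop 4).mono fun K hK => ?_) h3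
  simp only [Function.comp]
  rw [pow_mul, Real.sq_sqrt (Nat.cast_nonneg _), ← mul_assoc, ← mul_pow]
  gcongr
  exact_mod_cast (by omega : K ≤ 5 * ((K - 2) / 2))

lemma aux {f E k t R η a b : ℝ} (hf : 0 ≤ f) (hE : E ≤ k * t) (hk : 0 ≤ k) (hR : 0 < R)
    (ha : 0 < a) (h : f * R * t ≤ η * b / (32 * a)) : f * E ≤ η / 4 * (b * k / 8 / (a * R)) := by
  calc f * E ≤ f * (k * t) := by gcongr
    _ = k * (f * R * t) / R := by field_simp
    _ ≤ k * (η * b / (32 * a)) / R := by gcongr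
    _ = _ := by field_simp; ring

variable {D : ℕ}

section Fam
variable {Q : ℕ → Par D} (h1 : PN fun K => (Q K).lb) (h2 : PN fun K => (Q K).MP)
include h1 h2

lemma p_r00 : PN fun K => (Q K).r00 := (h1.add ((PN.c 25).mul h2)).add (PN.c 3)

variable (h3 : PN fun K => (Q K).mg) (h4 : PN fun K => (Q K).k1)
include h3 h4

lemma p_low (b : ℝ) : (PN fun K => (Q K).g) ∧ (PN fun K => (Q K).r0) ∧ (PN fun K => (Q K).nL) ∧
    (PN fun K => (Q K).k0) ∧ (PB fun K => (Q K).B0 b) ∧ PB fun K => (Q K).B1 b := by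
  have g : PN fun K => (Q K).g := (PN.c 25).mul ((PN.c D).mul h3)
  have r0 : PN fun K => (Q K).r0 := (PN.c 2).mul ((g.add (p_r00 h1 h2)).add (PN.c 1))
  have k0 : PN fun K => (Q K).k0 := (PN.c (2 ^ D)).mul h4
  have B0 : PB fun K => (Q K).B0 b := (k0.pb.mul (r0.pb.pow D)).mul
    ((PB.const b).mul ((PB.const 2).add ((PB.const (2 * D)).mul h3.pb)))
  exact ⟨g, r0, r0.add ((PN.c 2).mul g), k0, B0,
    ((PB.const 3).mul B0).add ((PB.const (2 * b)).mul (r0.pb.pow D))⟩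

variable (h5 : PN fun K => (Q K).mu)
include h5

lemma p_mid (a b : ℝ) : (PN fun K => (Q K).Lam) ∧ (PN fun K => (Q K).nQ) ∧
    (PN fun K => (Q K).R3) ∧ PB fun K => (Q K).Gam a b := by
  obtain ⟨g, r0, -, k0, B0, -⟩ := p_low h1 h2 h3 h4 b
  have r : PN fun K => (Q K).r := (PN.c 25).mul ((PN.c D).mul h5)
  have Lam : PN fun K => (Q K).Lam := (k0.add (PN.c 1)).mul (((PN.c 4).mul r).add (PN.c 1))
  have RQ : PN fun K => (Q K).RQ := (((Lam.mul r0).add ((PN.c 2).mul r)).add g).add (PN.c 1)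
  have nQ : PN fun K => (Q K).nQ := ((PN.c 2).mul RQ).add r0
  exact ⟨Lam, nQ, RQ.add ((Lam.add (PN.c 2)).mul r0),
    (((PB.const 786432).mul (((nQ.pb.add (PB.const 1)).pow D).pow 2)).mul (B0.pow 2)).div _⟩

variable (h6 : PN fun K => 2 ^ (Q K).l0)
include h6

lemma p_top : (PN fun K => (Q K).R4) ∧ PN fun K => (Q K).rs := by
  obtain ⟨-, r0, -, -, -, -⟩ := p_low h1 h2 h3 h4 0
  obtain ⟨Lam, nQ, -, -⟩ := p_mid h1 h2 h3 h4 h5 0 0
  have R1 : PN fun K => (Q K).R1 :=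
    ((PN.c D).mul (nQ.add (PN.c 1))).add ((PN.c (7 * D)).mul h6)
  exact ⟨R1.add r0, ((Lam.add R1).add h5).add (PN.c 1)⟩

lemma p_size : ∃ e : ℕ, ∀ᶠ K : ℕ in atTop,
    (Q K).nQ + (Q K).R3 + (2 * (Q K).R4 + 1) ^ D ≤ K ^ e := by
  obtain ⟨-, nQ, R3, -⟩ := p_mid h1 h2 h3 h4 h5 0 0
  obtain ⟨R4, -⟩ := p_top h1 h2 h3 h4 h5 h6
  obtain ⟨e, he⟩ := (nQ.add R3).add ((((PN.c 2).mul R4).add (PN.c 1)).pow D)
  refine ⟨e, he.mono fun K hK => ?_⟩
  rw [Nat.abs_cast] at hK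
  exact_mod_cast hK

lemma numK {a b p C₁ η : ℝ} (ha : 0 < a) (hb : 0 < b) (p0 : 0 < p) (p1 : p < 1) (hC : 1 ≤ C₁)
    (hη : 0 < η) (hK : ∀ K, (Q K).K = K) (hh : ∀ K, (Q K).h0 = (K - 2) / 2)
    (hmg : ∀ K, (Q K).mg = (Q K).k1 ^ 2)
    (hE : ∀ K, Real.exp (-((Q K).k1 : ℝ)) ≤ (Q K).kap0 p * (1 / 2) ^ K)
    (hmu : ∀ K, C₁ * (Q K).k1 ≤ √((Q K).mu : ℝ)) (hl : ∀ K, (Q K).k1 ≤ 2 ^ (Q K).l0)
    (hG : ∀ K, 240 * D ^ 2 * (Q K).Gam a b ≤ 2 ^ (Q K).l0) :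
    ∀ᶠ K : ℕ in atTop, (Q K).NumK a b p C₁ η := by
  obtain ⟨g, r0, nL, k0, B0, B1⟩ := p_low h1 h2 h3 h4 b
  obtain ⟨Lam, nQ, R3, -⟩ := p_mid h1 h2 h3 h4 h5 a b
  obtain ⟨R4, rs⟩ := p_top h1 h2 h3 h4 h5 h6
  have pK : PN fun K => (Q K).K := by simpa only [hK] using PN.id
  have s1 : Sm fun K => Real.exp (-√((Q K).h0 : ℝ)) := by simpa only [hh] using sm_root
  have s2 : Sm fun K => (1 / 2 : ℝ) ^ K := sm_pow (by norm_num) (by norm_num)
  have s3 : Sm fun K => (Q K).rhoB p := by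
    refine (Sm.mul ((PB.const 2).mul (r0.pb.pow D)) s1).add ?_
    simpa only [hK] using sm_pow p0.le p1
  have rD := r0.pb.pow D
  have ε : 0 < η * b / (32 * a) := by positivity
  have F1 := pK.odd.mul ((nQ.pb.pow D).add ((Lam.odd.pow D).mul (nL.pb.pow D)))
  have F2 := (pK.odd.add F1).add ((nQ.pb.add (PB.const 1)).pow D)
  have F3 := ((((PB.const 32).mul B1).mul (rs.odd.pow D)).mul
    ((PB.const (2 ^ D)).mul F2)).div (η * a)
  filter_upwards [(Sm.mul ((PB.const (C₁ * 2 ^ D)).mul rD) s2).ev ε,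
    (Sm.mul ((PB.const (2 ^ D)).mul rD) s2).ev ε,
    ((Sm.mul (Lam.odd.pow D) s3).add (Sm.mul ((PB.const 2).mul (nQ.pb.pow D)) s1)).ev
      (by norm_num : (0 : ℝ) < 1 / 32),
    (Sm.mul F1 s2).ev (by norm_num : (0 : ℝ) < 1 / 4),
    (Sm.mul (rs.odd.pow D) s3).ev (Real.exp_pos (-1)),
    (Sm.mul (F3.mul rD) s2).ev ε,
    (Sm.mul ((PB.const (32 * b)).mul (((PB.const (2 * D)).mul R3.pb).mul (PB.const (2 ^ D))))
      s1).ev (by positivity : 0 < η * (a * (η / 4))),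
    (Sm.mul (((PB.const D).mul (R4.odd.pow D)).mul (PB.const (b / 8 / a))) s2).ev one_pos]
    with K e2 e4 e6 e7 e8 e8' e9 e10
  set P := Q K with hP
  have hE' := hE K
  have hmu' := hmu K
  have hl' : ((P.k1 : ℕ) : ℝ) ≤ 2 ^ P.l0 := by exact_mod_cast hl K
  rw [← hP] at hE' hmu'
  have hm : 0 < min p (1 - p) := lt_min p0 (by linarith)
  have k0p : 0 < P.kap0 p := pow_pos hm _
  have hr0 : (1 : ℝ) ≤ P.r0 := by have := P.r0_ge; exact_mod_cast (by omega : 1 ≤ P.r0)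
  have hR : (1 : ℝ) ≤ (P.r0 : ℝ) ^ D := one_le_pow₀ hr0
  have hs : √(P.mg : ℝ) = P.k1 := by
    rw [hP, hmg K, Nat.cast_pow, Real.sqrt_sq (Nat.cast_nonneg _)]
  have hB1 : 0 ≤ P.B1 b := by unfold Par.B1 Par.B0; positivity
  have hrho : 0 ≤ P.rhoB p := by unfold Par.rhoB; positivity
  refine ⟨?_, hG K, ?_, e6, ?_, ?_, ?_, ?_⟩
  · refine aux (by positivity) (le_trans (Real.exp_le_exp.2 ?_) hE') k0p.le (by positivity) ha e2
    rw [neg_le_neg_iff, le_div_iff₀ (by linarith)]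
    linarith
  · exact aux (by positivity) (le_trans (Real.exp_le_exp.2 (neg_le_neg hl')) hE') k0p.le
      (by positivity) ha e4
  · rw [Par.piR, hs]
    refine (mul_le_mul_of_nonneg_left hE' (by positivity)).trans ?_
    rw [mul_left_comm, div_eq_mul_one_div (P.kap0 p)]
    exact mul_le_mul_of_nonneg_left e7 k0p.le
  · have i1 : ((2 * (P.rs : ℝ) + 1) ^ D * P.rhoB p) ^ P.k1 ≤ Real.exp (-(P.k1 : ℝ)) := by
      refine (pow_le_pow_left₀ (by positivity) e8 _).trans_eq ?_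
      rw [← Real.exp_nat_mul]; congr 1; ring
    have i2 := aux (by positivity) hE' k0p.le (by positivity) ha e8'
    rw [div_mul_eq_mul_div, div_le_iff₀ (by positivity)] at i2
    refine le_trans ?_ (i2.trans_eq (by rw [Par.kap]; ring))
    rw [mul_assoc (_ * _ * _), mul_assoc (2 ^ D : ℝ)]
    gcongr
    have i3 := mul_le_mul_of_nonneg_left i1 (by positivity : (0 : ℝ) ≤ 2 * P.K + 1)
    rw [Par.piS, Par.piR, hs]
    linarith
  · simpa only [mul_assoc] using e9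
  · have i1 : P.kap0 p ≤ (1 / 2) ^ K := by
      refine (pow_le_pow_left₀ hm.le (?_ : _ ≤ (1 / 2 : ℝ)) _).trans
        (pow_le_pow_of_le_one (by norm_num) (by norm_num) ?_)
      · rcases le_total p (1 / 2) with h | h
        · exact (min_le_left _ _).trans h
        · exact (min_le_right _ _).trans (by linarith)
      · have : 1 ≤ (2 * P.r00 + 1) ^ D * (D + 1) := Nat.mul_pos (by positivity) (by omega)
        have h' := hK K
        rw [← hP] at h'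
        rw [Par.nP, h']
        nlinarith
    refine le_trans ?_ e10
    rw [mul_assoc (_ * _) (b / 8 / a), Par.kap]
    gcongr
    rw [div_le_iff₀ (by positivity)]
    calc b * P.kap0 p / 8 ≤ b * (1 / 2) ^ K / 8 * 1 := by rw [mul_one]; gcongr
      _ ≤ b * (1 / 2) ^ K / 8 * (P.r0 : ℝ) ^ D := by gcongr
      _ = _ := by field_simp

end Fam

variable (D) (a b p C₁ : ℝ)

def lbF (K : ℕ) : ℕ := ⌈2 * D * b * (K + 1) / (b - a)⌉₊
def Q0 (K : ℕ) : Par D :=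
  ⟨0, 0, K, (K - 2) / 2, lbF D a b K,
    ⌈4 * D * ((b - a) * (lbF D a b K : ℝ) ^ D) / a⌉₊ + 2 * D * ((K - 2) / 2), 0, 0, 0, 0⟩
def Lk (K : ℕ) : ℕ := ⌈-Real.log (min p (1 - p))⌉₊ * (Q0 D a b K).nP + K
def Q1 (K : ℕ) : Par D := { Q0 D a b K with mg := Lk D a b p K ^ 2, k1 := Lk D a b p K }
def muF (K : ℕ) : ℕ :=
  ⌈16 * (Q1 D a b p K).B1 b * ((2 * K + 1) * (Q1 D a b p K).k0 * (1 + 50 * D)) / a⌉₊ +
    ⌈4 * (Q1 D a b p K).B0 b / a⌉₊ + 2 * Lk D a b p K ^ 2 + ⌈C₁ * Lk D a b p K⌉₊ ^ 2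
def Q2 (K : ℕ) : Par D := { Q1 D a b p K with mu := muF D a b p C₁ K }
def XF (K : ℕ) : ℕ := ⌈240 * D ^ 2 * (Q2 D a b p C₁ K).Gam a b⌉₊ + Lk D a b p K + 1
def Q3 (K : ℕ) : Par D := { Q2 D a b p C₁ K with l0 := Nat.log 2 (XF D a b p C₁ K) + 1 }

lemma q_lb : PN (lbF D a b) :=
  (((PB.const (2 * D * b)).mul (PN.id.pb.add (PB.const 1))).div _).ceil
lemma q_MP : PN fun K => (Q0 D a b K).MP :=
  (((PB.const (4 * D)).mul ((PB.const (b - a)).mul ((q_lb D a b).pb.pow D))).div _).ceil.add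
    ((PN.c (2 * D)).mul (PN.id.of_le fun K => by omega))
lemma q_Lk : PN (Lk D a b p) := by
  have h := p_r00 (Q := Q0 D a b) (q_lb D a b) (q_MP D a b)
  exact ((PN.c _).mul ((((((PN.c 2).mul h).add (PN.c 1)).pow D).mul (PN.c (D + 1))).mul
    (((PN.c 4).mul PN.id).add (PN.c 5)))).add PN.id
lemma q_mu : PN (muF D a b p C₁) := by
  have hL := q_Lk D a b p
  obtain ⟨-, -, -, k0, B0, B1⟩ :=
    p_low (Q := Q1 D a b p) (q_lb D a b) (q_MP D a b) (hL.pow 2) hL b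
  exact ((((((PB.const 16).mul B1).mul ((PN.id.odd.mul k0.pb).mul (PB.const _))).div a).ceil.add
    (((PB.const 4).mul B0).div a).ceil).add ((PN.c 2).mul (hL.pow 2))).add
    (((PB.const C₁).mul hL.pb).ceil.pow 2)
lemma q_X : PN (XF D a b p C₁) := by
  have hL := q_Lk D a b p
  obtain ⟨-, -, -, G⟩ :=
    p_mid (Q := Q2 D a b p C₁) (q_lb D a b) (q_MP D a b) (hL.pow 2) hL (q_mu D a b p C₁) a b
  exact (((PB.const (240 * D ^ 2)).mul G).ceil.add hL).add (PN.c 1)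
lemma q_l0 : PN fun K => 2 ^ (Q3 D a b p C₁ K).l0 := by
  refine ((PN.c 2).mul (q_X D a b p C₁)).of_le fun K => ?_
  have := Nat.pow_log_le_self 2 (x := XF D a b p C₁ K) (Nat.succ_ne_zero _)
  show 2 ^ (Nat.log 2 (XF D a b p C₁ K) + 1) ≤ _
  rw [pow_succ]; omega
lemma X_lt (K : ℕ) : XF D a b p C₁ K < 2 ^ (Q3 D a b p C₁ K).l0 :=
  Nat.lt_pow_succ_log_self (by norm_num) _

lemma exp_Lk (p0 : 0 < p) (p1 : p < 1) (K : ℕ) :
    Real.exp (-(Lk D a b p K : ℝ)) ≤ min p (1 - p) ^ (Q0 D a b K).nP * (1 / 2) ^ K := by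
  have hm : 0 < min p (1 - p) := lt_min p0 (by linarith)
  rw [Lk, Nat.cast_add, neg_add, Real.exp_add, Nat.cast_mul]
  gcongr
  · rw [← neg_mul, mul_comm, Real.exp_nat_mul]
    gcongr
    refine le_trans (Real.exp_le_exp.2 ?_) (Real.exp_log hm).le
    have := Nat.le_ceil (-Real.log (min p (1 - p)))
    linarith
  · rw [← mul_neg_one, Real.exp_nat_mul]
    gcongr
    rw [Real.exp_neg, one_div]
    have := Real.add_one_le_exp (1 : ℝ)
    gcongr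
    linarith

end PK

open PK in
theorem pf_ParK : StParK := by
  intro D hD a b p C₁ η ha hab hb p0 p1 hC hη _
  have hL := q_Lk D a b p
  have hba : 0 < b - a := sub_pos.2 hab
  obtain ⟨e, he⟩ := p_size (Q := Q3 D a b p C₁) (q_lb D a b) (q_MP D a b) (hL.pow 2) hL
    (q_mu D a b p C₁) (q_l0 D a b p C₁)
  have hN := numK (Q := Q3 D a b p C₁) (q_lb D a b) (q_MP D a b) (hL.pow 2) hL
    (q_mu D a b p C₁) (q_l0 D a b p C₁) ha (ha.trans hab) p0 p1 hC hη (fun _ => rfl)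
    (fun _ => rfl) (fun _ => rfl) (exp_Lk D a b p p0 p1) (fun K => ?_) (fun K => ?_) (fun K => ?_)
  · obtain ⟨K₀, hK₀⟩ := eventually_atTop.1 (he.and (hN.and (eventually_ge_atTop (2 * D ^ 3 + 4))))
    refine ⟨e, K₀, fun K hK K1 K2 i1 i2 i3 i4 => ?_⟩
    obtain ⟨j1, j2, j3⟩ := hK₀ K hK
    have hKL : K ≤ Lk D a b p K := Nat.le_add_left _ _
    refine ⟨{ Q3 D a b p C₁ K with K1 := K1, K2 := K2 }, rfl, rfl, rfl, ?_,
      ⟨j2.k2, j2.k3, j2.k4, j2.k6, j2.k7, j2.k8, j2.k9, j2.k10⟩, j1⟩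
    refine ⟨hD, ha, hab, hb, (?_ : 2 * ((K - 2) / 2) + 1 ≤ K1), (?_ : 2 * ((K - 2) / 2) + 1 ≤ K2),
      i1, i2, (?_ : K1 ≤ K2 + 1), (?_ : K2 ≤ K1 + 1), (?_ : D ^ 3 ≤ (K - 2) / 2),
      (?_ : (K - 2) / 2 ≤ Lk D a b p K ^ 2), (?_ : 2 * Lk D a b p K ^ 2 ≤ muF D a b p C₁ K),
      (?_ : 1 ≤ Lk D a b p K), Nat.le_add_left _ _,
      (?_ : 2 * D * b * ((K : ℝ) + 1) ≤ lbF D a b K * (b - a)),
      (?_ : 4 * D * ((b - a) * (lbF D a b K : ℝ) ^ D) ≤ a * (Q0 D a b K).MP),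
      Nat.le_add_left _ _, (?_ : 4 * (Q1 D a b p K).B0 b ≤ a * muF D a b p C₁ K),
      (?_ : 16 * (Q1 D a b p K).B1 b * ((2 * (K : ℝ) + 1) * (Q1 D a b p K).k0 * (1 + 50 * D)) ≤
        a * muF D a b p C₁ K)⟩
    any_goals omega
    · nlinarith [Nat.div_le_self (K - 2) 2, Nat.sub_le K 2]
    · unfold muF; omega
    · rw [← div_le_iff₀ hba]; exact Nat.le_ceil _
    · rw [mul_comm a, ← div_le_iff₀ ha]
      exact (Nat.le_ceil _).trans (Nat.cast_le.2 (Nat.le_add_right _ _))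
    · rw [mul_comm a, ← div_le_iff₀ ha]
      exact (Nat.le_ceil _).trans (Nat.cast_le.2 (by unfold muF; omega))
    · rw [mul_comm a, ← div_le_iff₀ ha]
      exact (Nat.le_ceil _).trans (Nat.cast_le.2 (by unfold muF; omega))
  · refine Real.le_sqrt_of_sq_le ?_
    show (C₁ * (Lk D a b p K : ℝ)) ^ 2 ≤ (muF D a b p C₁ K : ℝ)
    refine (pow_le_pow_left₀ (by positivity) (Nat.le_ceil _) 2).trans ?_
    exact_mod_cast Nat.le_add_left _ _
  · have := X_lt D a b p C₁ K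
    show Lk D a b p K ≤ _
    unfold XF at this; omega
  · have h := X_lt D a b p C₁ K
    refine (Nat.le_ceil (240 * D ^ 2 * (Q2 D a b p C₁ K).Gam a b)).trans ?_
    unfold XF at h
    exact_mod_cast (by omega : ⌈240 * D ^ 2 * (Q2 D a b p C₁ K).Gam a b⌉₊ ≤
      2 ^ (Q3 D a b p C₁ K).l0)

end

end Pool.Agent.P.MP_67bca4_pr
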