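import Pool.Agent.P.MP_67bca4_pr.AH.S2

/-!
Raising the window by one level does not lower the least energy with anchor zero when the plate
is planted in a good environment.
-/

namespace Pool.Agent.P.MP_67bca4_pr

open Finset
open scoped Classical

variable {D : ℕ}

/-- A free minimiser of a good environment stays in the window. -/
lemma Plant0_win (h3 : StGain) {P : Par D} {a b : ℝ} (h : P.Ok a b) {η' : Dis D}
    (hη' : TwoV a b η') (hG : P.DGood a η') {F : Conf D} (hF : IsMin P.nQ η' F) (y : V D) :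
    WinCol (-P.K1) P.K2 (F y) := by
  by_cases hy : y ∈ inB D P.nQ
  · by_contra hn
    have h1 := h.h1
    have h2 := h.h2
    have hg := (((h3 h.hD h.ha h.hab.le h.hb hη').1 hF y).1 P.h0 (-P.K1) P.K2 h.one_le_h0
      (by omega) (by omega) hn).goodAt h.ha.le
    exact hG 0 (Or.inl rfl) y hy (by rwa [shc_zero])
  · rw [hF.1 y hy]
    exact winCol_flat.2 ⟨by omega, by omega⟩

/-- The plate is far from the complement of the shrunk planted region. -/
lemma Plant0_far {P : Par D} {a b : ℝ} (h : P.Ok a b) {p q : V D} (hp : p ∈ P.Pl a b)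
    (hq : q ∉ cube D (P.RQ + P.rc - P.r00 + 1) (P.RQ + P.rc + P.r00)) :
    25 * (P.MP : ℝ) ≤ l1 (q - p) := by
  rw [mem_cube] at hq
  push Not at hq
  obtain ⟨i, hi⟩ := hq
  refine le_trans ?_ (abs_le_l1 _ i)
  have h2 := mem_cube.1 hp i
  have h4 := P.r00_eq
  have h5 := h.ell_le
  have h3 : ((25 * P.MP : ℕ) : ℤ) ≤ |(q - p) i| := by
    rw [Pi.sub_apply, le_abs]
    omega
  exact_mod_cast h3

/-- A configuration of low energy in the environment with the plate costs at least the ground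
energy of the environment without the plate. -/
lemma Plant0_low (h2 : StSep) (h3 : StGain) (h4 : StDebig) (h5 : StFlatten) {P : Par D}
    {a b : ℝ} (h : P.Ok a b) {η η' : Dis D} (hη' : TwoV a b η') (hO : P.Ovw b η η')
    (hG : P.DGood a η') (hPR : P.Pl a b ⊆ P.Rpl)
    (hE2 : ∀ U : Conf D, (∀ x ∈ P.Pl a b, (P.K2 + 1 : ℤ) ∉ bd (U x)) →
      En P.nQ (P.envP a b η') U = En P.nQ η' U)
    {S : Conf D} (hS : Cfg P.nQ S)
    (hv : En P.nQ η' S ≤ GE P.nQ η' + (b - a) * P.ell a b ^ D) :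
    GE P.nQ η' ≤ En P.nQ (P.envP a b η') S := by
  have hD := h.hD
  have hle := hη'.le h.hab.le
  have h0 : ∀ x o k, 0 ≤ η' x o k := fun x o k => h.ha.le.trans (hle x o k).1
  obtain ⟨S', E, hS', hB, hEq, hEn⟩ := h4 hD h.ha h.hb hle hS
  have hGE : GE P.nQ η' ≤ En P.nQ η' S' := GEc_le h0 hS'
  have hba : 0 < b - a := sub_pos.2 h.hab
  have hDR : (100 : ℝ) ≤ D := by exact_mod_cast hD
  have hvl : 4 * D * ((b - a) * P.ell a b ^ D) ≤ a * P.MP := by
    refine le_trans ?_ h.hMP1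
    have : (P.ell a b : ℝ) ≤ P.lb := by exact_mod_cast h.ell_le
    gcongr
  have hEc : (0 : ℝ) ≤ E.card := by positivity
  have hE : E.card ≤ P.MP := by
    have e1 : a * D / 2 * E.card ≤ (b - a) * P.ell a b ^ D := by linarith
    have e2 : 4 * D * (a * D / 2 * E.card) ≤ a * P.MP :=
      le_trans (mul_le_mul_of_nonneg_left e1 (by positivity)) hvl
    have e3 : a * (2 * D * D * E.card) ≤ a * P.MP := by linarith
    have e4 := le_of_mul_le_mul_left e3 h.ha
    have e5 : (1 : ℝ) ≤ 2 * D * D := by nlinarith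
    have e6 : (E.card : ℝ) ≤ P.MP := (le_mul_of_one_le_left hEc e5).trans e4
    exact_mod_cast e6
  have hS'v : En P.nQ η' S' ≤ GE P.nQ η' + (b - a) * P.ell a b ^ D := by
    have : 0 ≤ a * D / 2 * E.card := by have := h.ha; positivity
    linarith
  have hnH : ∀ p, p ∈ P.Pl a b → ¬Heavy P.nQ S' p P.MP := fun p hp hH => by
    have hMP := h.hMP2
    have hg := (h3 hD h.ha h.hab.le h.hb hη').2 hS' hB _ p P.MP P.h0 hS'v hH hvl
      (by rw [mul_assoc] at hMP; omega)
    exact hG 0 (Or.inl rfl) p (P.Rpl_sub (hPR hp)) (by rwa [shc_zero])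
  have hsub : ∀ x : V D, x ∈ cube D (P.RQ + P.rc - P.r00 + 1) (P.RQ + P.rc + P.r00) →
      x ∈ P.Rpl ∧ ∀ i, x - ee i ∈ P.Rpl := fun x hx => by
    refine ⟨mem_cube.2 fun j => ?_, fun i => mem_cube.2 fun j => ?_⟩
    · have := mem_cube.1 hx j
      omega
    · have := mem_cube.1 hx j
      simp only [Pi.sub_apply, ee_apply]
      split_ifs <;> omega
  obtain ⟨A, W, hA1, hA2, hA3, -⟩ := h2 (D := D) (n := P.nQ) (n' := P.nQ) (by omega) (c := 0)
    (fun i => by simp) (cfg_flat _) hS hS' hEq h.one_le_MP hE (P := fun x => x ∈ P.Pl a b)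
    (Nb := fun x => x ∈ cube D (P.RQ + P.rc - P.r00 + 1) (P.RQ + P.rc + P.r00))
    (fun x hx => by rw [sub_zero]; exact P.Rpl_sub (hsub x hx).1)
    (fun p q hp hq => Plant0_far h hp hq)
    (fun p hp => ⟨not_heavy_flat h.one_le_MP, by rw [sub_zero]; exact hnH p hp⟩)
  have hF := h5 (D := D) (n := P.nQ) (by omega) h.ha.le h.hab.le (ξ := P.envP a b η')
    (R := P.Rpl) (Pl := P.Pl a b) (α := P.RQ + P.rc) (h := P.K2 + 1) (ℓ := P.ell a b)
    (by omega) Subset.rfl (by push_cast; exact h.ell_spec.1)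
    (fun x hx o k => by simp only [Par.envP, hO.1 x hx]) (A := A) (S := S)
    (fun x hx => ⟨P.Rpl_sub (hsub x (hA2 x hx)).1, hsub x (hA2 x hx)⟩)
    (fun x y hx hy hxy => by simpa using (hA3 x y hx hy hxy).symm)
  have hc : Cfg P.nQ (glue A (fun _ => flat 0) S) := fun x hx => by
    by_cases hA : A x
    · exact glue_pos hA
    · rw [glue_neg hA]; exact hS x hx
  rw [hE2 _ fun x hx => by
    rw [glue_pos (hA1 x hx), bd_flat, mem_singleton]; omega] at hF
  exact (GEc_le h0 hc).trans hF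

theorem pf_Plant0 (h1 : StPlantE) (h2 : StSep) (h3 : StGain) (h4 : StDebig) (h5 : StFlatten) :
    StPlant0 := by
  intro D P a b h η η' hη hη' hO hP hG
  obtain ⟨hPR, -, -, hE1, hE2, hE3⟩ := h1 h hO hP
  have hN : P.nb P.r {0} ⊆ inB D P.nQ :=
    P.nb_sub_inB (by omega) (singleton_subset_iff.2 (zero_mem_ball _))
  have h0 : ∀ x o k, 0 ≤ η x o k := fun x o k => h.ha.le.trans (hη.le h.hab.le x o k).1
  have k3 := h.h3
  have k4 := h.h4
  obtain ⟨F, hF⟩ := exists_isMinC (n := P.nQ) h.ha.le h.b_pos.le hη' ⟨_, cfg_flat P.nQ⟩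
  have hW := Plant0_win h3 h hη' hG hF
  have e1 : Phi P.nQ (P.nb P.r {0}) (-P.K1) P.K2 0 η ≤ GE P.nQ η' := by
    have w : WinOn (P.nb P.r {0}) (-P.K1) P.K2 F := fun x _ => hW x
    refine (GEc_le h0 (K := fun U => CfgA P.nQ 0 U ∧ WinOn (P.nb P.r {0}) (-P.K1) P.K2 U)
      ⟨hF.1, w⟩).trans (le_of_eq ?_)
    rw [hE1 F _ _ (by omega) (by omega) w, hE2 F fun x _ hx => by
      have := ((hW x).bd_mem hx).2; omega]
    exact hF.GEc_eq.symm
  obtain ⟨S, hS⟩ := exists_isMinC (n := P.nQ) h.ha.le h.b_pos.le hη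
    (phi_class_nonempty hN (l := -P.K1) (h := P.K2 + 1) (by omega) 0)
  have e2 : Phi P.nQ (P.nb P.r {0}) (-P.K1) (P.K2 + 1) 0 η = En P.nQ (P.envP a b η') S := by
    rw [Phi, hS.GEc_eq, hE1 S _ _ (by omega) (by omega) hS.1.2]
  by_contra hlt
  have hv : En P.nQ η' S ≤ GE P.nQ η' + (b - a) * P.ell a b ^ D := by
    have := hE3 S
    linarith [not_le.1 hlt]
  have := Plant0_low h2 h3 h4 h5 h hη' hO hG hPR hE2 hS.1.1 hv
  linarith [not_le.1 hlt]

end Pool.Agent.P.MP_67bca4_pr
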