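import Pool.Agent.P.MP_67bca4_pr.AH.S2

namespace Pool.Agent.P.MP_67bca4_pr

open Finset
open scoped Classical

/-- The numerical gain of the plate. -/
lemma Plant1_num {D : ℕ} {P : Par D} {a b : ℝ} (h : P.Ok a b) :
    b + b * (((P.K2 + 1 : ℤ) : ℝ) - ((1 : ℤ) : ℝ)) * (2 * D * (P.ell a b : ℝ) ^ (D - 1)) ≤
      (b - a) * (P.ell a b : ℝ) ^ D := by
  have h1 := h.ell_spec.2
  have hb := h.b_pos
  have ha := h.ha
  have hab := h.hab
  have hD : (100 : ℝ) ≤ D := by exact_mod_cast h.hD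
  have hK : (0 : ℝ) ≤ P.K2 := Nat.cast_nonneg _
  have h2 : b ≤ (b - a) * P.ell a b - 2 * D * b * P.K2 := by nlinarith
  have h3 : 1 ≤ P.ell a b := by
    by_contra h4
    have h5 : P.ell a b = 0 := by omega
    rw [h5] at h2
    have : (0 : ℝ) ≤ 2 * D * b * P.K2 := by positivity
    simp only [Nat.cast_zero, mul_zero] at h2
    linarith
  have h4 : (1 : ℝ) ≤ (P.ell a b : ℝ) ^ (D - 1) := one_le_pow₀ (by exact_mod_cast h3)
  have h5 : (P.ell a b : ℝ) ^ D = (P.ell a b : ℝ) ^ (D - 1) * P.ell a b := by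
    rw [← pow_succ]
    congr 1
    have := h.hD
    omega
  rw [h5]
  push_cast
  have h6 := mul_le_mul_of_nonneg_left h2 (le_trans zero_le_one h4)
  have h7 : b ≤ (P.ell a b : ℝ) ^ (D - 1) * b := le_mul_of_one_le_left hb.le h4
  nlinarith

/-- A configuration with anchor one, of least energy, flat around the plate. -/
lemma Plant1_flat (h2 : StSep) (h3 : StGain) (h4 : StFlatten) (h6 : StShift) {D : ℕ} {P : Par D}
    {a b : ℝ} (h : P.Ok a b) {η η' : Dis D} (hη' : TwoV a b η') (ho : P.Ovw b η η')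
    (hg : P.DGood a η') :
    ∃ F : Conf D, CfgA P.nQ 1 F ∧ (∀ x, WinCol (-P.K1) P.K2 (F x)) ∧
      (∀ x ∈ cube D ((P.RQ : ℤ) + P.rc - 1) ((P.RQ : ℤ) + P.rc + P.ell a b), F x = flat 1) ∧
      En P.nQ η' F ≤ GA P.nQ 1 η' := by
  have hξ : TwoV a b (shc 1 η') := hη'.shc 1
  obtain ⟨F, hF⟩ : ∃ F, IsMin P.nQ (shc 1 η') F :=
    exists_isMinC h.ha.le h.b_pos.le hξ ⟨_, cfg_flat P.nQ⟩
  have hG := (h3 (n := P.nQ) h.hD h.ha h.hab.le h.hb hξ).1 hF
  have hno : ∀ y ∈ inB D P.nQ, ¬Gain P.nQ a (shc 1 η') y P.h0 := fun y hy H =>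
    hg 1 (Or.inr rfl) y hy (H.goodAt h.ha.le)
  have hK1 := h.h1
  have hK2 := h.h2
  have hwin : ∀ y, WinCol (-P.K1 - 1) (P.K2 - 1) (F y) := by
    intro y
    by_cases hy : y ∈ inB D P.nQ
    · by_contra H
      exact hno y hy ((hG y).1 P.h0 _ _ h.one_le_h0 (by omega) (by omega) H)
    · rw [hF.1 y hy]
      exact winCol_flat.2 ⟨by omega, by omega⟩
  have hl := h.ell_le
  have e1 := P.r00_eq
  have hNb : ∀ x : V D, x ∈ cube D ((P.RQ : ℤ) + P.rc - P.r00 + 1) ((P.RQ : ℤ) + P.rc + P.r00) →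
      x ∈ P.Rpl ∧ ∀ i, x - ee i ∈ P.Rpl := by
    intro x hx
    have hx' := mem_cube.1 hx
    refine ⟨mem_cube.2 fun i => by have := hx' i; omega, fun j => mem_cube.2 fun i => ?_⟩
    have := hx' i
    simp only [Pi.sub_apply, ee_apply]
    split_ifs <;> omega
  have hc : CubeIn (0 : V D) P.nQ P.nQ := fun i => by simp
  obtain ⟨A, W, hA1, hA2, hA3, -⟩ := h2 (n := P.nQ) (n' := P.nQ) (by have := h.hD; omega) hc
    (cfg_flat P.nQ) hF.1 hF.1 (E := ∅) (fun _ _ => rfl) h.one_le_MP (by simp)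
    (P := fun x => x ∈ cube D ((P.RQ : ℤ) + P.rc - 1) ((P.RQ : ℤ) + P.rc + P.ell a b))
    (Nb := fun x => x ∈ cube D ((P.RQ : ℤ) + P.rc - P.r00 + 1) ((P.RQ : ℤ) + P.rc + P.r00))
    (fun x hx => by rw [sub_zero]; exact P.Rpl_sub (hNb x hx).1)
    (fun p q hp hq => by
      rw [mem_cube] at hq
      push Not at hq
      obtain ⟨i, hi⟩ := hq
      refine le_trans ?_ (abs_le_l1 _ i)
      have h7 := mem_cube.1 hp i
      have h8 : ((25 * P.MP : ℕ) : ℤ) ≤ |(q - p) i| := by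
        rw [Pi.sub_apply, le_abs]
        omega
      exact_mod_cast h8)
    (fun p hp => by
      refine ⟨not_heavy_flat h.one_le_MP, fun H => ?_⟩
      rw [sub_zero] at H
      have hp' : p ∈ P.Rpl := mem_cube.2 fun i => by have := mem_cube.1 hp i; omega
      exact hno p (P.Rpl_sub hp') ((hG p).2.2.2 _ _ H h.hMP2))
  have hfl := h4 (n := P.nQ) (by have := h.hD; omega) h.ha.le h.hab.le (ξ := shc 1 η')
    (R := P.Rpl) (Pl := ∅) (α := 0) (h := 1) (ℓ := 0) le_rfl (empty_subset _)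
    (by have := h.b_pos; simp only [Nat.cast_zero, zero_mul]; positivity)
    (fun x hx o k => by
      rw [if_neg (fun H => notMem_empty _ H.1)]
      exact ho.1 x hx o _)
    (A := A) (S := F)
    (fun x hx => ⟨P.Rpl_sub (hNb x (hA2 x hx)).1, hNb x (hA2 x hx)⟩)
    (fun x y hx hy hxy => by
      have := hA3 x y hx hy hxy
      rw [mv_zero] at this
      exact this.symm)
  refine ⟨fun x => sh (-1) (glue A (fun _ => flat 0) F x), fun x hx => ?_, fun x => ?_,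
    fun x hx => ?_, ?_⟩
  · have hA : ¬A x := fun H => hx (P.Rpl_sub (hNb x (hA2 x H)).1)
    simp only [glue_neg hA, hF.1 x hx, sh_flat]
    norm_num
  · have h7 : WinCol (-P.K1 - 1) (P.K2 - 1) (glue A (fun _ => flat 0) F x) := by
      by_cases hA : A x
      · rw [glue_pos hA]
        exact winCol_flat.2 ⟨by omega, by omega⟩
      · rw [glue_neg hA]
        exact hwin x
    exact ((winCol_sh (t := -1)).2 h7).mono (by omega) (by omega)
  · simp only [glue_pos (hA1 x hx), sh_flat]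
    norm_num
  · rw [(h6 P.nQ ∅ 0 0 1 η').2.1, GE, hF.GEc_eq,
      ← En_shift_const (ξ := η') 1 fun x => sh (-1) (glue A (fun _ => flat 0) F x)]
    simp only [sh_sh, add_neg_cancel, sh_zero]
    exact hfl

theorem pf_Plant1 (h1 : StPlantE) (h2 : StSep) (h3 : StGain) (h4 : StFlatten) (h5 : StBump)
    (h6 : StShift) : StPlant1 := by
  intro D P a b h η η' hη hη' ho hp hg
  obtain ⟨e1, e2, -, e4, e5, -⟩ := h1 h ho hp
  obtain ⟨F, hF1, hF2, hF3, hF4⟩ := Plant1_flat h2 h3 h4 h6 h hη' ho hg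
  have hK3 := h.h3
  have hK4 := h.h4
  have h0 : ∀ x o k, 0 ≤ η x o k := fun x o k => h.ha.le.trans (hη.le h.hab.le x o k).1
  have h0' : ∀ x o k, 0 ≤ η' x o k ∧ η' x o k ≤ b := fun x o k =>
    ⟨h.ha.le.trans (hη'.le h.hab.le x o k).1, (hη'.le h.hab.le x o k).2⟩
  have hPl : P.Pl a b ⊆ inB D P.nQ := e1.trans P.Rpl_sub
  have hB := h5 (n := P.nQ) (a := a) (b := b) (ξ := η') (ξ' := P.envP a b η')
    (α := (P.RQ : ℤ) + P.rc) (c := 1) (h := P.K2 + 1) (ℓ := P.ell a b) (by omega) hPl h0'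
    (fun x hx => ho.1 x (e1 hx) _ _) (fun _ _ _ => rfl) hF3
  have hnum := Plant1_num h
  set F3 := glue (fun x => x ∈ cube D ((P.RQ : ℤ) + P.rc) ((P.RQ : ℤ) + P.rc + P.ell a b - 1))
    (fun _ => flat ((P.K2 : ℤ) + 1)) F with hF3def
  have c1 : CfgA P.nQ 1 F3 := fun x hx => by
    rw [hF3def, glue_neg (A := fun x => x ∈ cube D ((P.RQ : ℤ) + P.rc)
      ((P.RQ : ℤ) + P.rc + P.ell a b - 1)) fun H => hx (hPl H)]
    exact hF1 x hx
  have c2 : WinOn (P.nb P.r {0}) (-P.K1) (P.K2 + 1) F3 := fun x _ => by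
    by_cases H : x ∈ P.Pl a b
    · rw [hF3def, glue_pos (A := fun x => x ∈ cube D ((P.RQ : ℤ) + P.rc)
        ((P.RQ : ℤ) + P.rc + P.ell a b - 1)) H]
      exact winCol_flat.2 ⟨by omega, le_rfl⟩
    · rw [hF3def, glue_neg (A := fun x => x ∈ cube D ((P.RQ : ℤ) + P.rc)
        ((P.RQ : ℤ) + P.rc + P.ell a b - 1)) H]
      exact (hF2 x).mono le_rfl (by omega)
  have u1 : Phi P.nQ (P.nb P.r {0}) (-P.K1) (P.K2 + 1) 1 η ≤ En P.nQ η F3 :=
    GEc_le h0 (K := fun U => CfgA P.nQ 1 U ∧ WinOn (P.nb P.r {0}) (-P.K1) (P.K2 + 1) U) ⟨c1, c2⟩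
  rw [e4 F3 _ _ (by omega) (by omega) c2] at u1
  have hnb : P.nb P.r {0} ⊆ inB D P.nQ :=
    P.nb_sub_inB (by omega) (singleton_subset_iff.2 (zero_mem_ball _))
  obtain ⟨S, hS⟩ := exists_isMinC (n := P.nQ) h.ha.le h.b_pos.le hη
    (phi_class_nonempty hnb (l := -P.K1) (h := P.K2) (by omega) 1)
  have l1 : Phi P.nQ (P.nb P.r {0}) (-P.K1) P.K2 1 η = En P.nQ η' S := by
    rw [Phi, hS.GEc_eq, e4 S _ _ (by omega) (by omega) hS.1.2]
    refine e5 S fun x hx H => ?_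
    have := (hS.1.2 x (e2 (e1 hx))).bd_mem H
    omega
  have l2 : GA P.nQ 1 η' ≤ En P.nQ η' S := GEc_le (fun x o k => (h0' x o k).1) hS.1.1
  rw [l1]
  linarith

end Pool.Agent.P.MP_67bca4_pr
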