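import Pool.Agent.P.MP_67bca4_pr.AH.S2

/-!
Energy identities for the planted environment.
-/

namespace Pool.Agent.P.MP_67bca4_pr

open Finset
open scoped Classical

variable {D : ℕ} {P : Par D} {a b : ℝ}

lemma PlantE_sub (h : P.Ok a b) : P.Pl a b ⊆ P.Rpl := fun x hx => mem_cube.2 fun i => by
  have h1 := mem_cube.1 hx i
  have h2 := h.ell_le
  have h3 := P.r00_eq
  omega

lemma PlantE_nb {x : V D} (hx : ∀ i, (P.RQ + P.rc - P.r00 : ℤ) ≤ x i ∧
    x i ≤ P.RQ + P.rc + P.r00 + 1) (h : P.Ok a b) : x ∈ P.nb P.r {0} := by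
  refine P.mem_nb.2 ⟨0, mem_singleton_self _, fun i => ?_⟩
  have h1 := hx i
  have h2 := h.one_le_g
  have h3 := P.rc_eq
  have h4 := P.r0_eq
  simp only [Pi.zero_apply, mul_zero]
  omega

lemma PlantE_base (h : P.Ok a b) : P.Rpl ⊆ P.nb P.r {0} := fun x hx =>
  PlantE_nb (fun i => by have := mem_cube.1 hx i; omega) h

lemma PlantE_tip (h : P.Ok a b) {e : Ed D} (he : e.1 ∈ P.Rpl) : tip e ∈ P.nb P.r {0} :=
  PlantE_nb (fun i => by
    have h1 := mem_cube.1 he i
    have h2 := (adj_tip e).abs_le i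
    simp only [tip, Pi.add_apply, ee_apply] at h2 ⊢
    split_ifs <;> omega) h

lemma PlantE_in {η η' : Dis D} (hO : P.Ovw b η η') (hP : P.Planted a b η) {x : V D}
    (hx : x ∈ P.Rpl) (o : Option (Fin D)) {k : ℤ} (h1 : -(2 * P.K + 2 : ℤ) ≤ k)
    (h2 : k ≤ 2 * P.K + 2) : η x o k = P.envP a b η' x o k := by
  rw [hP x hx o k h1 h2, Par.envP, hO.1 x hx]

lemma PlantE_out (h : P.Ok a b) {η η' : Dis D} (hO : P.Ovw b η η') {x : V D}
    (hx : x ∉ P.Rpl) (o : Option (Fin D)) (k : ℤ) : η x o k = P.envP a b η' x o k := by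
  rw [Par.envP, if_neg fun H => hx (PlantE_sub h H.1), hO.2 x hx]

lemma PlantE_hor (η' : Dis D) (x : V D) (i : Fin D) (k : ℤ) :
    P.envP a b η' x (some i) k = η' x (some i) k := by
  rw [Par.envP, if_neg fun H => Option.some_ne_none i H.2.1]

lemma PlantE_col (h : P.Ok a b) {η η' : Dis D} (hO : P.Ovw b η η') (x : V D) (T : Finset ℤ) :
    ∑ k ∈ T, η' x none k ≤
      ∑ k ∈ T, P.envP a b η' x none k + if x ∈ P.Pl a b then b - a else 0 := by
  have hab := sub_pos.2 h.hab
  by_cases hx : x ∈ P.Pl a b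
  · rw [if_pos hx]
    have h1 : ∀ k ∈ T, η' x none k =
        P.envP a b η' x none k + if k = (P.K2 + 1 : ℤ) then b - a else 0 := fun k _ => by
      by_cases hk : k = (P.K2 + 1 : ℤ)
      · rw [Par.envP, if_pos ⟨hx, rfl, hk⟩, if_pos hk, hO.1 x (PlantE_sub h hx)]; ring
      · rw [Par.envP, if_neg fun H => hk H.2.2, if_neg hk, add_zero]
    rw [sum_congr rfl h1, sum_add_distrib, sum_ite_eq']
    split_ifs <;> linarith
  · rw [if_neg hx, add_zero]
    exact le_of_eq (sum_congr rfl fun k _ => by rw [Par.envP, if_neg fun H => hx H.1])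

theorem pf_PlantE : StPlantE := by
  intro D P a b h η η' hO hP
  have hc : (P.Pl a b).card = P.ell a b ^ D := card_cube _ _
  refine ⟨PlantE_sub h, PlantE_base h, hc, fun U l u hl hu hW => ?_, fun U hU => ?_, fun U => ?_⟩
  · unfold En
    congr 1
    · refine sum_congr rfl fun x _ => sum_congr rfl fun k hk => ?_
      by_cases hx : x ∈ P.Rpl
      · have := (hW x (PlantE_base h hx)).bd_mem hk
        exact PlantE_in hO hP hx _ (by omega) (by omega)
      · exact PlantE_out h hO hx _ _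
    · refine sum_congr rfl fun e _ => sum_congr rfl fun k hk => ?_
      by_cases hx : e.1 ∈ P.Rpl
      · have := (hW _ (PlantE_base h hx)).dif_mem (hW _ (PlantE_tip h hx)) hk
        exact PlantE_in hO hP hx _ (by omega) (by omega)
      · exact PlantE_out h hO hx _ _
  · unfold En
    congr 1
    · refine sum_congr rfl fun x _ => sum_congr rfl fun k hk => ?_
      rw [Par.envP, if_neg]
      rintro ⟨H1, -, H2⟩
      exact hU x H1 (H2 ▸ hk)
    · exact sum_congr rfl fun e _ => sum_congr rfl fun k _ => PlantE_hor _ _ _ _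
  · unfold En
    have h1 : ∑ e ∈ edB D P.nQ, ∑ k ∈ dif (U e.1) (U (tip e)), P.envP a b η' e.1 (some e.2) k =
        ∑ e ∈ edB D P.nQ, ∑ k ∈ dif (U e.1) (U (tip e)), η' e.1 (some e.2) k :=
      sum_congr rfl fun e _ => sum_congr rfl fun k _ => PlantE_hor _ _ _ _
    have h2 := sum_le_sum fun x (_ : x ∈ hatB D P.nQ) => PlantE_col h hO x (bd (U x))
    have h3 : hatB D P.nQ ∩ P.Pl a b = P.Pl a b :=
      inter_eq_right.2 fun x hx => inB_sub_hatB (P.Rpl_sub (PlantE_sub h hx))
    rw [sum_add_distrib, sum_ite_mem, h3, sum_const, hc, nsmul_eq_mul] at h2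
    push_cast at h2
    rw [h1]
    linarith

end Pool.Agent.P.MP_67bca4_pr
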