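import Pool.Agent.P.MP_67bca4_pr.AH.S2

/-!
Pure blocks: the shift is constant on the large cube, and the used clusters are separated.
-/

namespace Pool.Agent.P.MP_67bca4_pr

open Finset
open scoped Classical

variable {D : ℕ}

lemma Pure_const {P : Par D} {a : ℝ} {n : ℕ} {ξ : Dis D} {U U' : Conf D} {C : Finset (Ed D)}
    {s : Fn D} (hG : P.GD a n ξ U U' C s) {t : V D → ℤ} {z : V D} (hP : P.Pure n C s t z)
    (x : V D) (hx : x - P.cQ z ∈ hatB D P.nQ) :
    s x = t (P.cB z) ∧ U' x = sh (s x) (U x) := by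
  have hx' : ∀ i, P.cQ z i ≤ x i ∧ x i ≤ P.cQ z i + P.nQ := fun i => by
    have := mem_hatB.1 hx i
    simp only [Pi.sub_apply] at this
    omega
  constructor
  · rw [← hP.2.2]
    by_contra hne
    obtain ⟨e, he, h1⟩ := coarse_jump s (P.cQ z) (fun i => P.cQ z i + P.nQ) x (P.cB z) hx'
      (fun i => by
        have := P.nQ_eq
        simp only [Par.cQ, Par.cB]
        omega) hne
    exact hP.2.1 e (hG.jmp he) fun i => by have := h1 i; omega
  · refine hG.same x fun e he => ⟨fun h => hP.2.1 e he fun i => ?_, fun h => hP.2.1 e he fun i => ?_⟩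
    · have := hx' i
      rw [h]
      omega
    · have h1 := hx' i
      have h2 := (adj_tip e).abs_le i
      have h3 : e.1 i ≤ tip e i := by
        simp only [tip, Pi.add_apply, ee_apply]
        split_ifs <;> omega
      rw [h] at h2 h3
      omega

lemma Pure_exit {A : V D → Prop} {x₀ : V D} (h0 : A x₀) (i : Fin D) (m : ℤ)
    (hb : ∀ x, A x → x i ≤ m) : ∃ x, A x ∧ ¬A (x + ee i) := by
  by_contra hc
  push Not at hc
  have key : ∀ k : ℕ, ∃ x, A x ∧ x i = x₀ i + k := by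
    intro k
    induction k with
    | zero => exact ⟨x₀, h0, by simp⟩
    | succ k ih =>
      obtain ⟨x, h1, h2⟩ := ih
      refine ⟨x + ee i, hc x h1, ?_⟩
      simp only [Pi.add_apply, ee_self, h2]
      push_cast
      ring
  obtain ⟨x, h1, h2⟩ := key (m - x₀ i + 1).toNat
  have := hb x h1
  omega

theorem pf_Pure (h1 : StSep) : StPure := by
  intro D P a b hO n ξ U U' C s hG t z hP
  refine ⟨Pure_const hG hP, ?_⟩
  have hc : CubeIn (P.cQ z) P.nQ n := P.mem_ZQ.1 hP.1
  have hD := hO.hD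
  have hz : P.cB z ∈ hatB D n := mem_hatB.2 fun i => by
    have := hc i
    have := P.nQ_eq
    simp only [Par.cQ, Par.cB] at *
    omega
  obtain ⟨A, W, hA1, hA2, hA3, -⟩ := h1 (D := D) (n := n) (n' := P.nQ) (by omega) hc hG.cfg
    (cfg_flat _) (cfg_flat _) (E := ∅) (fun _ _ => rfl) hO.one_le_M (by simp)
    (P := fun p => p = P.cB z) (Nb := fun q => q - P.cQ z ∈ inB D P.nQ) (fun _ h => h)
    (by
      rintro p q rfl hq
      rw [mem_inB] at hq
      push Not at hq
      obtain ⟨i, hi⟩ := hq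
      refine le_trans ?_ (abs_le_l1 _ i)
      have h2 := P.nQ_eq
      have h3 := P.RQ_eq
      have h4 : P.r = 25 * P.M := rfl
      have h5 : (25 * P.M : ℤ) ≤ |(q - P.cB z) i| := by
        rw [Pi.sub_apply, le_abs]
        simp only [Pi.sub_apply, Par.cQ, Par.cB] at *
        omega
      exact_mod_cast h5)
    (by
      rintro p rfl
      exact ⟨hG.light _ hz, not_heavy_flat hO.one_le_M⟩)
  let i₀ : Fin D := ⟨0, by omega⟩
  obtain ⟨x, hx1, hx2⟩ := Pure_exit (hA1 _ rfl) i₀ (P.cQ z i₀ + P.nQ) fun x hx => by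
    have := mem_inB.1 (hA2 x hx) i₀
    simp only [Pi.sub_apply] at this
    omega
  have hadj : Adj x (x + ee i₀) := ⟨i₀, Or.inl rfl⟩
  have hy : x + ee i₀ - P.cQ z ∈ hatB D P.nQ := mem_hatB.2 fun i => by
    have h2 := mem_inB.1 (hA2 x hx1) i
    have h3 := hadj.abs_le i
    simp only [Pi.sub_apply] at h2 ⊢
    omega
  have h4 : U' (x + ee i₀) = flat 0 := hA3 _ _ hx1 hx2 hadj
  have h5 := hG.win (x + ee i₀)
  rw [h4, winCol_flat, (Pure_const hG hP _ hy).1] at h5
  omega

theorem pf_SepZ (h1 : StPure) (h2 : StClus2) : StSepZ := by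
  intro D P a b hO n ξ U U' C s hG t z hz z' hz' hne x y hx hy
  obtain ⟨hP, hR, -⟩ := (mem_filter.1 hz).2
  obtain ⟨hP', hR', -⟩ := (mem_filter.1 hz').2
  have key : ¬∀ i, x i - 1 ≤ y i ∧ y i ≤ x i + 1 := by
    intro hxy
    have hx1 := P.nb_sub_inB le_rfl (P.Kl_sub _ _ _) hx
    have hy1 := P.nb_sub_inB le_rfl (P.Kl_sub _ _ _) hy
    have e1 := ((h1 hO hG hP).1 y (mem_hatB.2 fun i => by
      have h3 := mem_inB.1 hx1 i
      have h4 := hxy i
      simp only [Pi.sub_apply] at h3 ⊢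
      omega)).1
    have e2 := ((h1 hO hG hP').1 y (mem_hatB.2 fun i => by
      have h3 := mem_inB.1 hy1 i
      omega)).1
    have e3 : t (P.cB z') = t (P.cB z) := e2.symm.trans e1
    rw [e3] at hR' hy
    obtain ⟨w, hw, hw1⟩ := P.mem_nb.1 hx
    obtain ⟨w', hw', hw2⟩ := P.mem_nb.1 hy
    unfold Par.Root at hR hR'
    unfold Par.Kl at hw hw'
    rw [P.badQ_tr_eq, P.Lam_eq] at hR hR' hw hw'
    have h3 := h2 (B := P.Bad b (t (P.cB z)) ξ) hne hR hR' w hw w' hw'
    rw [mem_ball] at h3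
    push Not at h3
    obtain ⟨i, hi⟩ := h3
    have h4 := hw1 i
    have h5 := hw2 i
    have h6 := hxy i
    have h7 := P.lam_eq
    have h8 : (8 : ℤ) ≤ P.r0 := by exact_mod_cast P.r0_ge
    simp only [Pi.sub_apply, Pi.add_apply, Par.cQ] at h4 h5 hi
    push_cast at h4 h5
    have h9 : (P.r0 : ℤ) * (z' i + w' i - (z i + w i)) =
        P.r0 * z' i + P.r0 * w' i - P.r0 * z i - P.r0 * w i := by ring
    have h10 : (P.r0 : ℤ) * (4 * P.r + 2) = P.r0 * (4 * P.r + 1) + P.r0 := by ring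
    have h11 : (8 : ℤ) * (4 * P.r + 1) ≤ P.r0 * (4 * P.r + 1) :=
      mul_le_mul_of_nonneg_right h8 (by positivity)
    by_cases hc : -(P.lam : ℤ) ≤ z' i + w' i - (z i + w i)
    · have h12 : (P.r0 : ℤ) * (4 * P.r + 2) ≤ P.r0 * (z' i + w' i - (z i + w i)) :=
        mul_le_mul_of_nonneg_left (by have := hi hc; omega) (by omega)
      omega
    · have h12 : (P.r0 : ℤ) * (z' i + w' i - (z i + w i)) ≤ P.r0 * (-(4 * P.r + 2)) :=
        mul_le_mul_of_nonneg_left (by omega) (by omega)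
      rw [mul_neg] at h12
      omega
  refine ⟨fun h => key fun i => ?_, fun h => key h.abs_le⟩
  rw [h]
  omega

end Pool.Agent.P.MP_67bca4_pr
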