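import Pool.Agent.P.MP_67bca4_pr.AH.S1

/-!
Separation: the disagreement region grown from `P` stays in `Nb`.
-/

namespace Pool.Agent.P.MP_67bca4_pr

open Finset
open scoped Classical

theorem pf_Sep (h1 : StLink) (h2 : StExch) (h3 : StMv) : StSep := by
  intro D n n' hD c hc U F F' hU hF hF' E hE M hM hEM P Nb hNb hfar hH
  obtain ⟨m1, m2, m3⟩ := h3 hc
  have hA : ∀ x, Reach P (fun x => U x ≠ mv c F x) x → Nb x := by
    rintro x ⟨p, hp, hpath⟩
    by_contra hx
    have hZ : ∀ x, U x ≠ mv c F x →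
        U x ≠ flat 0 ∨ mv c F' x ≠ flat 0 ∨ x ∈ E.image (fun y => y + c) := by
      intro y hy
      by_cases hyE : y - c ∈ E
      · exact Or.inr (Or.inr (mem_image.2 ⟨y - c, hyE, sub_add_cancel y c⟩))
      · by_cases hUy : U y = flat 0
        · refine Or.inr (Or.inl fun h => hy ?_)
          rw [mv_apply, ← hE _ hyE, hUy]
          exact h.symm
        · exact Or.inl hUy
    rcases h1 hD hU (m1 F' hF') hZ hpath hM (card_image_le.trans hEM) (hfar p x hp hx) with h | h
    · exact (hH p hp).1 h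
    · exact (hH p hp).2 (m3 F' p M hF' h)
  have hcl : ∀ x y, Reach P (fun x => U x ≠ mv c F x) x →
      ¬Reach P (fun x => U x ≠ mv c F x) y → Adj x y → U y = mv c F y := by
    intro x y hx hy hxy
    by_contra h
    exact hy (hx.step hxy h)
  have hmv : mv c (mv (-c) (glue (Reach P fun x => U x ≠ mv c F x) U (mv c F))) =
      glue (Reach P fun x => U x ≠ mv c F x) U (mv c F) := by
    rw [mv_mv, add_neg_cancel, mv_zero]
  have hW : Cfg n' (mv (-c) (glue (Reach P fun x => U x ≠ mv c F x) U (mv c F))) := by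
    intro x hx
    have hn : ¬Reach P (fun x => U x ≠ mv c F x) (x - -c) := fun h => hx (by
      simpa using hNb _ (hA _ h))
    rw [mv_apply, glue_neg hn, mv_apply]
    simpa using hF x hx
  refine ⟨Reach P fun x => U x ≠ mv c F x,
    mv (-c) (glue (Reach P fun x => U x ≠ mv c F x) U (mv c F)), fun p hp => Reach.base hp, hA,
    hcl, hW, fun x hx => ?_, fun x hx => ?_, fun ξ => ?_⟩
  · exact (congrFun hmv x).trans (glue_pos hx)
  · exact (congrFun hmv x).trans (glue_neg hx)
  · have e1 := m2 ξ F _ hF hW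
    rw [hmv] at e1
    have e2 := h2 n ξ hcl
    exact ⟨e1, by linarith⟩

end Pool.Agent.P.MP_67bca4_pr
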