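import Pool.Agent.P.MP_67bca4_pr.AH.S1

/-! The tail of one step of the chain with overridden columns, and a numerical bound. -/

namespace Pool.Agent.P.MP_67bca4_pr

open Finset
open scoped Classical

lemma Step_grad {D n N R : ℕ} [NeZero N] (hN : 4 * R < N) {a b : ℝ} (ha : 0 < a) (hab : a < b)
    (O : Finset (V D)) {Y : Finset (V D)} {β : ℝ} (hY : (Y.card : ℝ) ≤ β)
    (ω : Ix D n N → Bool) :
    ∃ g : Ix D n N → ℝ,
      ∑ i ∈ univ.filter (fun i : Ix D n N => i.1.1 ∈ Y), g i ^ 2 ≤ β * (b - a) ^ 2 ∧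
      ∀ ω' : Ix D n N → Bool,
        (∀ i, i ∉ univ.filter (fun i : Ix D n N => i.1.1 ∈ Y) → ω' i = ω i) →
        GT n R Y β (dis a b (ovr O ω')) ≤ GT n R Y β (dis a b (ovr O ω)) +
          ∑ i ∈ univ.filter (fun i : Ix D n N => i.1.1 ∈ Y), g i * (bit (ω' i) - bit (ω i)) := by
  obtain ⟨g, hg1, hg2⟩ := step_grad (n := n) hN ha hab hY (ovr O ω)
  refine ⟨fun i => if i.1.1 ∈ O then 0 else g i, le_trans (sum_le_sum fun i _ => ?_) hg1,
    fun ω' hω => ?_⟩
  · beta_reduce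
    split_ifs
    · simpa using sq_nonneg (g i)
    · exact le_rfl
  · refine (hg2 (ovr O ω') fun i hi => by simp only [ovr, hω i hi]).trans (le_of_eq ?_)
    congr 1
    refine sum_congr rfl fun i _ => ?_
    by_cases h : i.1.1 ∈ O <;> simp [ovr, h]

theorem pf_Step : StStep := by
  intro D n N R _ hN a b ha hab p h0 h1 O t t' β hβ hY lam hlam
  have hB : 0 < β * (b - a) ^ 2 := mul_pos hβ (pow_pos (sub_pos.2 hab) 2)
  have hπ : ∀ i : Ix D n N, i ∉ univ.filter (fun i : Ix D n N => i.1.1 ∈ (t' - t).support) →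
      sperm (t' - t : Fn D) i = i := by
    intro i hi
    have h2 : (t' - t : Fn D) i.1.1 = 0 := by
      by_contra h2
      exact hi (mem_filter.2 ⟨mem_univ _, Finsupp.mem_support_iff.2 h2⟩)
    simp only [sperm, Equiv.coe_fn_mk, h2, Int.cast_zero, add_zero]
  have key := perm_tail h0 h1
    (fun ω : Ix D n N → Bool => GT n R (t' - t).support β (dis a b (ovr O ω)))
    (univ.filter fun i : Ix D n N => i.1.1 ∈ (t' - t).support) hB
    (Step_grad hN ha hab O hY) (sperm (t' - t : Fn D)) hπ hlam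
  rw [← Pr_perm (sperm t)] at key
  refine le_trans (le_of_eq ?_) key
  congr 1
  funext ω
  rw [shift_dis, shift_dis, ← ovr_sperm, ← ovr_sperm, comp_sperm t t' ω]

lemma Step_exp {c y z : ℝ} (hc : 0 < c) (hz : z ≤ y) :
    y * Real.exp (-(y / c)) ≤ 2 * c * Real.exp (-(z / (2 * c))) := by
  have h1 : y / (2 * c) ≤ Real.exp (y / (2 * c)) := by
    have := Real.add_one_le_exp (y / (2 * c))
    linarith
  have h2 : y ≤ 2 * c * Real.exp (y / (2 * c)) := by
    rw [div_le_iff₀ (by positivity)] at h1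
    linarith
  calc y * Real.exp (-(y / c))
      ≤ 2 * c * Real.exp (y / (2 * c)) * Real.exp (-(y / c)) :=
        mul_le_mul_of_nonneg_right h2 (Real.exp_pos _).le
    _ = 2 * c * Real.exp (-(y / (2 * c))) := by
        rw [mul_assoc (2 * c), ← Real.exp_add]
        congr 2
        field_simp
        ring
    _ ≤ _ := by gcongr

theorem pf_NumRoot : StNumRoot := by
  intro D hD c hc μ l
  have hc0 : 0 < c := by linarith
  have hy : (0 : ℝ) < 32 ^ l := by positivity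
  have hs := Real.sqrt_nonneg (μ : ℝ)
  obtain ⟨w, hw1, hw2, hw3⟩ : ∃ w : ℝ, 32 ^ l ≤ w ∧ √(μ : ℝ) ≤ w ∧
      w * 32 ^ l ≤ ((max μ (2 ^ (l * (D - 2))) : ℕ) : ℝ) := by
    rcases le_total ((32 : ℝ) ^ l) √(μ : ℝ) with h | h
    · refine ⟨√(μ : ℝ), h, le_rfl, ?_⟩
      calc √(μ : ℝ) * 32 ^ l ≤ √(μ : ℝ) * √(μ : ℝ) := by gcongr
        _ = μ := Real.mul_self_sqrt (Nat.cast_nonneg μ)
        _ ≤ _ := by exact_mod_cast le_max_left _ _
    · refine ⟨32 ^ l, le_rfl, h, ?_⟩
      have h1 : 32 ^ l * 32 ^ l ≤ 2 ^ (l * (D - 2)) := by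
        calc 32 ^ l * 32 ^ l = 2 ^ (l * 10) := by
              rw [← mul_pow, mul_comm l 10, pow_mul]; norm_num
          _ ≤ 2 ^ (l * (D - 2)) :=
              Nat.pow_le_pow_right (by norm_num) (Nat.mul_le_mul_left l (by omega))
      exact_mod_cast h1.trans (le_max_right _ _)
  refine le_trans ?_ (Step_exp hc0 hw2)
  have h2 : w / c ≤ ((max μ (2 ^ (l * (D - 2))) : ℕ) : ℝ) / (32 ^ l * c) := by
    rw [div_le_div_iff₀ hc0 (by positivity)]
    nlinarith
  have h3 : 0 ≤ w := hs.trans hw2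
  gcongr

end Pool.Agent.P.MP_67bca4_pr
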