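import Pool.Agent.P.MP_67bca4_pr.AH.S1

/-!
Constant shifts, reflections and the four-point inequality for the windowed least energy.
-/

namespace Pool.Agent.P.MP_67bca4_pr

open Finset
open scoped Classical

variable {D : ℕ}

/-- Transport of the least energy along a bijection of configurations. -/
lemma Trans_GEc {n : ℕ} {ξ ξ' : Dis D} {K K' : Conf D → Prop} (e : Conf D → Conf D)
    (he : Function.Surjective e) (hE : ∀ U, En n ξ' (e U) = En n ξ U)
    (hK : ∀ U, K' (e U) ↔ K U) : GEc n ξ K = GEc n ξ' K' := by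
  unfold GEc
  congr 1
  ext E
  constructor
  · rintro ⟨U, hU, rfl⟩
    exact ⟨e U, (hK U).2 hU, (hE U).symm⟩
  · rintro ⟨U', hU', rfl⟩
    obtain ⟨U, rfl⟩ := he U'
    exact ⟨U, (hK U).1 hU', hE U⟩

lemma Trans_isMin {n : ℕ} {ξ ξ' : Dis D} {K K' : Conf D → Prop} (e : Conf D → Conf D)
    (he : Function.Surjective e) (hE : ∀ U, En n ξ' (e U) = En n ξ U)
    (hK : ∀ U, K' (e U) ↔ K U) (U : Conf D) : IsMinC n ξ' K' (e U) ↔ IsMinC n ξ K U := by
  constructor
  · rintro ⟨h1, h2⟩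
    refine ⟨(hK U).1 h1, fun W hW => ?_⟩
    have := h2 (e W) ((hK W).2 hW)
    rwa [hE, hE] at this
  · rintro ⟨h1, h2⟩
    refine ⟨(hK U).2 h1, fun W' hW' => ?_⟩
    obtain ⟨W, rfl⟩ := he W'
    rw [hE, hE]
    exact h2 W ((hK W).1 hW')

lemma Trans_viol {n : ℕ} {ξ ξ' : Dis D} {K K' P P' : Conf D → Prop} (e : Conf D → Conf D)
    (he : Function.Surjective e) (hE : ∀ U, En n ξ' (e U) = En n ξ U)
    (hK : ∀ U, K' (e U) ↔ K U) (hP : ∀ U, P' (e U) ↔ P U) :
    (∃ U, IsMinC n ξ K U ∧ ¬P U) ↔ ∃ U, IsMinC n ξ' K' U ∧ ¬P' U := by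
  constructor
  · rintro ⟨U, h1, h2⟩
    exact ⟨e U, (Trans_isMin e he hE hK U).2 h1, fun h => h2 ((hP U).1 h)⟩
  · rintro ⟨U', h1, h2⟩
    obtain ⟨U, rfl⟩ := he U'
    exact ⟨U, (Trans_isMin e he hE hK U).1 h1, fun h => h2 ((hP U).2 h)⟩

/-! ### Shifts -/

lemma Trans_sh_surj (c : ℤ) :
    Function.Surjective (fun (U : Conf D) => (fun x => sh c (U x) : Conf D)) := fun U =>
  ⟨fun x => sh (-c) (U x), by funext x; simp [sh_sh]⟩

lemma Trans_sh_flat {c : ℤ} {S : Col} : sh c S = flat 0 ↔ S = flat c := by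
  constructor
  · intro h
    have : sh (-c) (sh c S) = sh (-c) (flat 0) := by rw [h]
    simpa [sh_sh] using this
  · rintro rfl; simp

lemma Trans_sh_cfg (n : ℕ) (c : ℤ) (U : Conf D) :
    CfgA n 0 (fun x => sh c (U x)) ↔ CfgA n c U :=
  forall_congr' fun _ => forall_congr' fun _ => Trans_sh_flat

lemma Trans_sh_win (A : Finset (V D)) (l h c : ℤ) (U : Conf D) :
    WinOn A (l - c) (h - c) (fun x => sh c (U x)) ↔ WinOn A l h U :=
  forall_congr' fun _ => forall_congr' fun _ => winCol_sh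

theorem pf_Shift : StShift := by
  intro D n A l h c ξ
  have hE : ∀ U : Conf D, En n (shc c ξ) (fun x => sh c (U x)) = En n ξ U :=
    fun U => En_shift_const c U
  refine ⟨?_, ?_, ?_⟩
  · exact Trans_GEc _ (Trans_sh_surj c) hE fun U =>
      and_congr (Trans_sh_cfg n c U) (Trans_sh_win A l h c U)
  · exact Trans_GEc _ (Trans_sh_surj c) hE (Trans_sh_cfg n c)
  · exact Trans_viol _ (Trans_sh_surj c) hE (Trans_sh_cfg n c) (Trans_sh_win A l h c)

/-! ### Reflections -/

lemma Trans_mir_mir (v : ℤ) (S : Col) : mir v (mir v S) = S := by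
  ext k
  simp

lemma Trans_mir_surj (v : ℤ) :
    Function.Surjective (fun (U : Conf D) => (fun x => mir v (U x) : Conf D)) := fun U =>
  ⟨fun x => mir v (U x), by funext x; exact Trans_mir_mir v (U x)⟩

lemma Trans_mir_flat' (v c : ℤ) : mir v (flat c) = flat (v - c) := by
  ext k
  simp only [mem_mir, mem_flat]
  omega

lemma Trans_mir_flat {v c : ℤ} {S : Col} : mir v S = flat (v - c) ↔ S = flat c := by
  constructor
  · intro h
    rw [← Trans_mir_mir v S, h, Trans_mir_flat']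
    congr 1
    omega
  · rintro rfl; exact Trans_mir_flat' v c

lemma Trans_mir_winCol {v l h : ℤ} {S : Col} :
    WinCol (v - h) (v - l) (mir v S) ↔ WinCol l h S := by
  constructor
  · rintro ⟨h1, h2⟩
    refine ⟨fun k hk => ?_, fun k hk => ?_⟩
    · by_contra hk'
      have := h2 (v + 1 - k) (by simpa using hk')
      omega
    · by_contra hk'
      have := h1 (v + 1 - k) (by omega)
      exact mem_mir.1 this (by simpa using hk)
  · rintro ⟨h1, h2⟩
    refine ⟨fun k hk => mem_mir.2 fun hk' => ?_, fun k hk => ?_⟩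
    · have := h2 _ hk'
      omega
    · by_contra hk'
      exact mem_mir.1 hk (h1 _ (by omega))

lemma Trans_mem_bd {v k : ℤ} {S : Col} : v - k ∈ bd (mir v S) ↔ k ∈ bd S := by
  simp only [mem_bd, mem_mir]
  rw [show v + 1 - (v - k) = k + 1 by ring, show v + 1 - (v - k + 1) = k by ring]
  tauto

lemma Trans_mem_dif {v k : ℤ} {S T : Col} :
    v + 1 - k ∈ dif (mir v S) (mir v T) ↔ k ∈ dif S T := by
  simp only [mem_dif, mem_mir]
  rw [show v + 1 - (v + 1 - k) = k by ring]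
  tauto

lemma Trans_sum_refl (w : ℤ → ℝ) (u : ℤ) {P Q : Finset ℤ} (h : ∀ k, u - k ∈ Q ↔ k ∈ P) :
    ∑ k ∈ Q, w k = ∑ k ∈ P, w (u - k) := by
  refine sum_bij' (fun k _ => u - k) (fun k _ => u - k) (fun k hk => ?_) (fun k hk => ?_)
    (fun k _ => by simp) (fun k _ => by simp) (fun k _ => by simp)
  · exact (h _).1 (by simpa using hk)
  · exact (h _).2 hk

lemma Trans_En_mir (n : ℕ) (v : ℤ) (ξ : Dis D) (U : Conf D) :
    En n ξ (fun x => mir v (U x)) = En n (mirD v ξ) U := by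
  unfold En
  congr 1
  · refine sum_congr rfl fun x _ => ?_
    rw [Trans_sum_refl (ξ x none) v fun k => Trans_mem_bd]
    simp [mirD]
  · refine sum_congr rfl fun e _ => ?_
    rw [Trans_sum_refl (ξ e.1 (some e.2)) (v + 1) fun k => Trans_mem_dif]
    simp [mirD]

lemma Trans_mir_cfg (n : ℕ) (v c : ℤ) (U : Conf D) :
    CfgA n (v - c) (fun x => mir v (U x)) ↔ CfgA n c U :=
  forall_congr' fun _ => forall_congr' fun _ => Trans_mir_flat

lemma Trans_mir_win (A : Finset (V D)) (l h v : ℤ) (U : Conf D) :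
    WinOn A (v - h) (v - l) (fun x => mir v (U x)) ↔ WinOn A l h U :=
  forall_congr' fun _ => forall_congr' fun _ => Trans_mir_winCol

theorem pf_Mir : StMir := by
  intro D n A l h c v ξ
  have hE := Trans_En_mir n v ξ
  refine ⟨?_, ?_, ?_⟩
  · exact Trans_GEc _ (Trans_mir_surj v) hE fun U =>
      and_congr (Trans_mir_cfg n v c U) (Trans_mir_win A l h v U)
  · exact Trans_GEc _ (Trans_mir_surj v) hE (Trans_mir_cfg n v c)
  · exact Trans_viol _ (Trans_mir_surj v) hE (Trans_mir_cfg n v c) (Trans_mir_win A l h v)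

/-! ### The four-point inequality -/

theorem pf_Four : StFour := by
  intro D n a b ha hab ξ hξ A hA l h l' h' c c' hlh hlh' hl hh hc
  have h0 : ∀ x o k, 0 ≤ ξ x o k := fun x o k => ha.trans (hξ.le hab x o k).1
  obtain ⟨U, hU⟩ := exists_isMinC (n := n) ha (ha.trans hab) hξ (phi_class_nonempty hA hlh c')
  obtain ⟨W, hW⟩ := exists_isMinC (n := n) ha (ha.trans hab) hξ (phi_class_nonempty hA hlh' c)
  have e1 : Phi n A l h c' ξ = En n ξ U := hU.GEc_eq
  have e2 : Phi n A l' h' c ξ = En n ξ W := hW.GEc_eq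
  have i1 : Phi n A l h c ξ ≤ En n ξ (fun x => (U x).inter (W x)) := by
    refine GEc_le h0 ⟨fun x hx => ?_, fun x hx => ?_⟩
    · show (U x).inter (W x) = flat c
      rw [hU.1.1 x hx, hW.1.1 x hx]
      ext k
      simp only [Col.mem_inter, mem_flat]
      omega
    · obtain ⟨p1, p2⟩ := hU.1.2 x hx
      obtain ⟨q1, -⟩ := hW.1.2 x hx
      exact ⟨fun k hk => ⟨p1 k hk, q1 k (hk.trans hl)⟩, fun k hk => p2 k hk.1⟩
  have i2 : Phi n A l' h' c' ξ ≤ En n ξ (fun x => (U x).union (W x)) := by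
    refine GEc_le h0 ⟨fun x hx => ?_, fun x hx => ?_⟩
    · show (U x).union (W x) = flat c'
      rw [hU.1.1 x hx, hW.1.1 x hx]
      ext k
      simp only [Col.mem_union, mem_flat]
      omega
    · obtain ⟨-, p2⟩ := hU.1.2 x hx
      obtain ⟨q1, q2⟩ := hW.1.2 x hx
      refine ⟨fun k hk => Or.inr (q1 k hk), fun k hk => ?_⟩
      rcases hk with hk | hk
      · exact (p2 k hk).trans hh
      · exact q2 k hk
  have := En_submod (n := n) h0 U W
  linarith

end Pool.Agent.P.MP_67bca4_pr
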