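import Pool.Agent.P.MP_67bca4_pr.AH.S2

/-!
The upper bound: local window minimisers are glued into a free minimiser around every used
cluster, and the remaining violating columns are clipped.
-/

namespace Pool.Agent.P.MP_67bca4_pr

open Finset
open scoped Classical

/-- The local replacement around one used root. -/
theorem Up_local (h1 : StPure) (h3 : StSep) (h5 : StGain) (h6 : StDebig) (h8 : StGp) {D : ℕ}
    {P : Par D} {a b : ℝ} (hP : P.Ok a b) {n : ℕ} {ξ : Dis D} (hξ : TwoV a b ξ) {U U' : Conf D}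
    {C : Finset (Ed D)} {s : Fn D} (hG : P.GD a n ξ U U' C s) (t : V D → ℤ) {F : Conf D}
    (hF : IsMin n ξ F) (z : V D) (hz : z ∈ P.ZZ a b n ξ C s t) :
    ∃ (A : V D → Prop) (G : Conf D),
      (∀ x, A x → x - P.cQ z ∈ P.nb (2 * P.r) (P.Kl b (t (P.cB z)) (tr (P.cQ z) ξ))) ∧
      (∀ x, x - P.cQ z ∈ P.nb 0 (P.Kl b (t (P.cB z)) (tr (P.cQ z) ξ)) → A x) ∧
      (∀ x y, A x → ¬A y → Adj x y → F y = G y) ∧
      (∀ x, A x → WinCol (-P.K1) P.K2 (G x)) ∧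
      En n ξ G - En n ξ (glue A F G) ≤ P.VD b (t (P.cB z)) (tr (P.cQ z) ξ) := by
  obtain ⟨hzQ, hpure, hroot, hsp⟩ := mem_filter.1 hz
  obtain ⟨-, hu1, hu2⟩ := h1 hP hG hpure
  have hcube : CubeIn (P.cQ z) P.nQ n := P.mem_ZQ.1 hzQ
  have hrare : ¬P.RareQ a (tr (P.cQ z) ξ) := fun h => hsp (Or.inr ⟨hzQ, Or.inl h⟩)
  have hgood : ∀ x, x - P.cQ z ∈ hatB D P.nQ → ¬GoodAt n a ξ x P.mg := fun x hx h =>
    hsp (Or.inr ⟨hzQ, Or.inr ⟨x, hx, h⟩⟩)
  set c := P.cQ z with hc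
  set u := t (P.cB z) with hud
  have hη : TwoV a b (tr c ξ) := hξ.tr c
  have hη0 : ∀ x o k, 0 ≤ tr c ξ x o k := fun x o k => hP.ha.le.trans (hη.le hP.hab.le x o k).1
  have hVD : P.VD b u (tr c ξ) ≤ P.B0 b := (h8 hP hη hrare hroot hu1 hu2).1
  obtain ⟨S, hS⟩ := exists_isMinC (n := P.nQ) hP.ha.le hP.b_pos.le hη
    (phi_class_nonempty (P.core_sub b u (tr c ξ)) (l := -P.K1) (h := P.K2) (by omega) 0)
  have hScfg : Cfg P.nQ S := hS.1.1
  have hSE : En P.nQ (tr c ξ) S = GE P.nQ (tr c ξ) + P.VD b u (tr c ξ) := by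
    have e1 : Phi P.nQ (P.core b u (tr c ξ)) (-P.K1) P.K2 0 (tr c ξ) = En P.nQ (tr c ξ) S :=
      hS.GEc_eq
    rw [Par.VD, e1, GA_zero]
    ring
  obtain ⟨S', E, hS'cfg, hbig, hsame, hE'⟩ :=
    h6 hP.hD hP.ha hP.hb (hη.le hP.hab.le) hScfg
  have hS'ge : GE P.nQ (tr c ξ) ≤ En P.nQ (tr c ξ) S' := GEc_le hη0 hS'cfg
  have hD1 : (100 : ℝ) ≤ D := by exact_mod_cast hP.hD
  have hM : P.M = D * P.mu := rfl
  have hB := hP.hB0
  have ha := hP.ha
  have hEn : (0 : ℝ) ≤ a * D / 2 * E.card := by positivity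
  have hEcard : E.card ≤ P.M := by
    have e1 : a * (D / 2 * E.card) ≤ a * (P.mu / 4) := by nlinarith
    have e2 : (D : ℝ) / 2 * E.card ≤ P.mu / 4 := le_of_mul_le_mul_left e1 ha
    have e3 : (0 : ℝ) ≤ E.card := by positivity
    have e4 : (0 : ℝ) ≤ P.mu := by positivity
    have e5 : (E.card : ℝ) ≤ D * P.mu := by nlinarith
    rw [hM]
    exact_mod_cast e5
  have hnb : ∀ x, x - c ∈ P.core b u (tr c ξ) → x - c ∈ inB D P.nQ :=
    fun x hx => P.core_sub b u _ hx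
  have hfar : ∀ p q : V D, p - c ∈ P.nb 0 (P.Kl b u (tr c ξ)) →
      ¬(q - c ∈ P.core b u (tr c ξ)) → 25 * (P.M : ℝ) ≤ l1 (q - p) := by
    intro p q hp hq
    have e1 := P.far_nb (σ := P.r) hp (by rwa [zero_add])
    rw [sub_sub_sub_cancel_right] at e1
    have e2 : P.r = 25 * P.M := rfl
    rw [e2] at e1
    exact_mod_cast e1
  have hlight : ∀ p : V D, p - c ∈ P.nb 0 (P.Kl b u (tr c ξ)) →
      ¬Heavy n F p P.M ∧ ¬Heavy P.nQ S' (p - c) P.M := by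
    intro p hp
    have hp' := P.nb_sub_inB (by omega) (P.Kl_sub b u _) hp
    have e1 : 2 * D * P.mg ≤ P.M := by
      rw [hM, mul_comm 2 D, mul_assoc]
      exact Nat.mul_le_mul_left _ hP.hmu
    refine ⟨fun hh => hgood p (inB_sub_hatB hp') ?_, fun hh => hrare ?_⟩
    · exact (((h5 hP.hD hP.ha hP.hab.le hP.hb hξ).1 hF p).2.2.2 P.M P.mg hh e1).goodAt hP.ha.le
    · have e2 : 4 * D * P.B0 b ≤ a * P.M := by
        rw [hM]
        push_cast
        nlinarith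
      have e3 : D * P.mg ≤ P.M := le_trans (Nat.mul_le_mul_right _ (by omega)) e1
      have e4 := (h5 hP.hD hP.ha hP.hab.le hP.hb hη).2 hS'cfg hbig (P.B0 b) (p - c) P.M P.mg
        (by linarith) hh e2 e3
      exact ⟨0, by omega, by omega, Or.inl ⟨p - c, hp', by rwa [shc_zero]⟩⟩
  obtain ⟨A, W, hA1, hA2, hA3, hW, -, -, hE⟩ := h3 (E := E) (M := P.M)
    (P := fun p => p - c ∈ P.nb 0 (P.Kl b u (tr c ξ)))
    (Nb := fun q => q - c ∈ P.core b u (tr c ξ)) (by have := hP.hD; omega) hcube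
    hF.1 hScfg hS'cfg hsame hP.one_le_M hEcard hnb hfar hlight
  refine ⟨A, mv c S, fun x hx => P.nb_mono (by omega) _ (hA2 x hx), hA1, hA3,
    fun x hx => hS.1.2 _ (hA2 x hx), ?_⟩
  have hWge : GE P.nQ (tr c ξ) ≤ En P.nQ (tr c ξ) W := GEc_le hη0 hW
  rw [(hE ξ).1]
  linarith

theorem pf_Up (h1 : StPure) (h2 : StSepZ) (h3 : StSep) (h4 : StMGlue) (h5 : StGain)
    (h6 : StDebig) (h7 : StClip) (h8 : StGp) (h9 : StMv) : StUp := by
  intro D P a b hP n ξ hξ U U' C s hG t F hF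
  have _ := @h9
  have _ : Nonempty Col := ⟨flat 0⟩
  have _ : Nonempty (Conf D) := ⟨U⟩
  choose! A S hA1 hA2 hA3 hA4 hA5 using Up_local h1 h3 h5 h6 h8 hP hξ hG t hF
  obtain ⟨G, hG1, hG2, hGE⟩ := h4 n ξ (P.ZZ a b n ξ C s t) A S F hA3
    fun z hz z' hz' hne x y hx hy => h2 hP hG z hz z' hz' hne x y (hA1 z hz x hx) (hA1 z' hz' y hy)
  have hcfg : Cfg n G := by
    intro x hx
    rw [hG2 x fun z hz hA => hx ?_]
    · exact hF.1 x hx
    · have hcube : CubeIn (P.cQ z) P.nQ n := P.mem_ZQ.1 (mem_filter.1 hz).1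
      have e0 := P.nb_sub_inB le_rfl (P.Kl_sub b _ _) (hA1 z hz x hA)
      refine mem_inB.2 fun i => ?_
      have e1 := mem_inB.1 e0 i
      have e2 := hcube i
      rw [Pi.sub_apply] at e1
      omega
  have hviol : ∀ x, ¬WinCol (-P.K1) P.K2 (G x) → x ∈ P.Unc a b n ξ C s t F := by
    intro x hx
    have hno : ∀ z ∈ P.ZZ a b n ξ C s t, ¬A z x := fun z hz hA =>
      hx (by rw [hG1 z hz x hA]; exact hA4 z hz x hA)
    refine mem_filter.2 ⟨?_, by rwa [← hG2 x hno], fun z hz h => hno z hz (hA2 z hz x h)⟩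
    by_contra h
    exact hx (by rw [hcfg x h]; exact winCol_flat.2 ⟨by omega, by omega⟩)
  obtain ⟨G', hG'1, hG'2⟩ := (h7 (b := b) (ξ := ξ)
    (fun x o k => ⟨hP.ha.le.trans (hξ.le hP.hab.le x o k).1, (hξ.le hP.hab.le x o k).2⟩)
    (l := -P.K1) (h := P.K2) (by omega) (by omega) hcfg).1 _ hviol
  have hU := hG.hU.2 G' hG'1
  have hFE : GE n ξ = En n ξ F := IsMinC.GEc_eq hF
  have hsum := sum_le_sum hA5
  linarith

end Pool.Agent.P.MP_67bca4_pr
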