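import Pool.Agent.P.MP_67bca4_pr.AH.S2

namespace Pool.Agent.P.MP_67bca4_pr

open Finset
open scoped Classical

theorem Ychain_finite {D : ℕ} (hc : StCountLev) (hD : 100 ≤ D) (n : ℕ) (Ω : Finset (V D))
    (μ m l : ℕ) : {t : Fn D | LevM n Ω μ m l t}.Finite := by
  by_contra h
  obtain ⟨B, hB⟩ : ∃ B : ℝ, ∀ S : Finset (Fn D), (∀ t ∈ S, LevM n Ω μ m l t) → (S.card : ℝ) ≤ B :=
    ⟨_, hc hD n Ω μ m l 0 le_rfl⟩
  obtain ⟨S, h1, h2⟩ := Set.Infinite.exists_subset_card_eq h (⌈B⌉₊ + 1)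
  have h3 := hB S fun t ht => h1 ht
  rw [h2] at h3
  have := Nat.le_ceil B
  push_cast at h3
  linarith

theorem Ychain_gam {D : ℕ} {P : Par D} {a b : ℝ} (h : P.Ok a b) : 1 ≤ P.Gam a b := by
  have ha := h.ha
  have h1 : a ≤ P.B0 b := h.hab.le.trans h.b_le_B0
  have h2 : (1 : ℝ) ≤ ((P.nQ : ℝ) + 1) ^ D :=
    one_le_pow₀ (by have : (0 : ℝ) ≤ P.nQ := by positivity
                    linarith)
  have h3 : (1 : ℝ) ≤ (((P.nQ : ℝ) + 1) ^ D) ^ 2 := one_le_pow₀ h2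
  have h4 : a ^ 2 ≤ P.B0 b ^ 2 := by gcongr
  unfold Par.Gam
  rw [le_div_iff₀ (by positivity)]
  have h5 : 0 ≤ P.B0 b ^ 2 := by positivity
  nlinarith

theorem pf_Ychain (h1 : StCountLev) (h2 : StYtail) (h3 : StNumY) (h4 : StUnion) : StYchain := by
  intro D P a b hP p h0 hp1 n N m₀ _ hm₀ hG hW
  have hD := hP.hD
  have ha := hP.ha
  have hB := hP.B0_pos
  have hΓ := Ychain_gam hP
  set Ls := fun m => (range m).filter fun l => P.l0 ≤ l ∧ 2 ^ (l * (D - 2)) ≤ m with hLs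
  set T := fun m l => (Ychain_finite h1 hD n (hatB D n) P.mu m l).toFinset with hT
  set A : ℕ → ℕ → Fn D × Fn D → (Ix D n N → Bool) → Prop := fun m l tt ω =>
    ((tt.2 - tt.1).support.card : ℝ) ≤ 3 * (2 ^ l) ^ 2 * m ∧
    a * m / 2 ^ (l + 5) ≤ P.Ybar b (P.mY a b p N) n (dis a b ω) tt.2 -
      P.Ybar b (P.mY a b p N) n (dis a b ω) tt.1 with hA
  set E : ℕ → (Ix D n N → Bool) → Prop := fun m ω =>
    m₀ ≤ m ∧ ∃ l ∈ Ls m, ∃ tt ∈ T m l ×ˢ T m (l + 1), A m l tt ω with hE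
  have hlt : ∀ l, l < 2 ^ (l * (D - 2)) := fun l =>
    Nat.lt_two_pow_self.trans_le (Nat.pow_le_pow_right (by norm_num)
      (Nat.le_mul_of_pos_right _ (by omega)))
  have step1 : ∀ ω : Ix D n N → Bool, P.YEv a b (P.mY a b p N) n m₀ (dis a b ω) → ∃ m, E m ω := by
    rintro ω ⟨m, l, t, t', e1, e2, e3, e4, e5, e6, e7⟩
    refine ⟨m, e1, l, mem_filter.2 ⟨mem_range.2 ((hlt l).trans_le e3), e2, e3⟩, (t, t'),
      mem_product.2 ⟨(Set.Finite.mem_toFinset _).2 e4, (Set.Finite.mem_toFinset _).2 e5⟩, ?_, e7⟩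
    exact_mod_cast e6
  have step2 : ∀ m, m₀ ≤ m → ∀ l, ∀ tt, Pr p (A m l tt) ≤
      Real.exp (-(m / (16 ^ l * P.Gam a b))) := by
    intro m hm l tt
    have hm0 : (0 : ℝ) < m := by exact_mod_cast (by omega : 0 < m)
    by_cases hc : ((tt.2 - tt.1).support.card : ℝ) ≤ 3 * (2 ^ l) ^ 2 * m
    · refine ((Pr_mono h0 hp1 fun ω hω => hω.2).trans
        (h2 hP h0 hp1 n N tt.1 tt.2 (by positivity) hc (by positivity))).trans (le_of_eq ?_)
      congr 2
      have h16 : (16 : ℝ) ^ l = (2 ^ l) ^ 4 := by rw [← pow_mul, mul_comm, pow_mul]; norm_num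
      unfold Par.Gam
      rw [h16]
      field_simp
      ring
    · refine le_trans (Pr_mono h0 hp1 (B := fun _ => False) fun ω hω => hc hω.1) ?_
      simp [Pr, Real.exp_nonneg]
  have step3 : ∀ m, m₀ ≤ m → ∀ l ∈ Ls m,
      Pr p (fun ω => ∃ tt ∈ T m l ×ˢ T m (l + 1), A m l tt ω) ≤ Real.exp (-(2 * √(m : ℝ))) := by
    intro m hm l hl
    obtain ⟨-, hl0, hl2⟩ := mem_filter.1 hl
    refine (Pr_union h0 hp1 _ _).trans
      ((sum_le_card_nsmul _ _ _ fun tt _ => step2 m hm l tt).trans ?_)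
    rw [card_product, nsmul_eq_mul, Nat.cast_mul]
    have hθ : (0 : ℝ) ≤ 2 ^ (l * (D - 2)) / (8 * 16 ^ l * P.Gam a b) := by positivity
    have c1 := h1 hD n (hatB D n) P.mu m l _ hθ (T m l) fun t ht =>
      (Ychain_finite h1 hD n (hatB D n) P.mu m l).mem_toFinset.1 ht
    have c2 := h1 hD n (hatB D n) P.mu m (l + 1) _ hθ (T m (l + 1)) fun t ht =>
      (Ychain_finite h1 hD n (hatB D n) P.mu m (l + 1)).mem_toFinset.1 ht
    have hν : (2 : ℝ) ^ (l * (D - 2)) ≤ ((max P.mu (2 ^ (l * (D - 2))) : ℕ) : ℝ) := by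
      exact_mod_cast le_max_right _ _
    have hν' : (2 : ℝ) ^ (l * (D - 2)) ≤ ((max P.mu (2 ^ ((l + 1) * (D - 2))) : ℕ) : ℝ) := by
      exact_mod_cast le_max_of_le_right
        (Nat.pow_le_pow_right (by norm_num) (Nat.mul_le_mul_right _ (by omega)))
    have hpow : (2 : ℝ) ^ P.l0 ≤ 2 ^ l := pow_le_pow_right₀ (by norm_num) hl0
    have hW' : ((n : ℝ) + 1) ^ D * Real.exp (-(2 ^ l)) ≤ m := by
      refine le_trans ?_ (hW.trans (by exact_mod_cast hm))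
      gcongr
    have c3 := h3 hD hΓ (hP.hl0.trans hl0) (hG.trans hpow) hl2 (by positivity) hW' hν hν'
    rw [card_hatB] at c1 c2
    push_cast at c1 c2 c3
    refine (mul_le_mul (mul_le_mul c1 c2 (by positivity) (by positivity)) le_rfl (by positivity)
      (by positivity)).trans ?_
    rw [← Real.exp_add, ← Real.exp_add, Real.exp_le_exp]
    linarith
  have step4 : ∀ m, Pr p (E m) ≤
      if m₀ ≤ m then (m : ℝ) * Real.exp (-(2 * √(m : ℝ))) else 0 := by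
    intro m
    split_ifs with hm
    · refine (Pr_mono h0 hp1 fun ω hω => hω.2).trans ((Pr_union h0 hp1 _ _).trans
        ((sum_le_card_nsmul _ _ _ (step3 m hm)).trans ?_))
      rw [nsmul_eq_mul]
      gcongr
      exact (card_filter_le _ _).trans (card_range m).le
    · refine le_trans (Pr_mono h0 hp1 (B := fun _ => False) fun ω hω => hm hω.1) ?_
      simp [Pr]
  refine (Pr_mono h0 hp1 step1).trans ((h4 h0 hp1).1 E _ fun S => ?_)
  refine (sum_le_sum fun m _ => step4 m).trans ?_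
  rw [← sum_filter]
  exact num_sum hm₀ _ fun m hm => (mem_filter.1 hm).2

end Pool.Agent.P.MP_67bca4_pr
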