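import Pool.Agent.P.MP_67bca4_pr.AH.S2

namespace Pool.Agent.P.MP_67bca4_pr

open Finset
open scoped Classical

variable {D : ℕ}

theorem Ysym_mark (P : Par D) (b : ℝ) (u : ℤ) (η : Dis D) :
    P.Mark b u (mirD u η) ↔ P.Mark b u η := by
  unfold Par.Mark
  refine forall_congr' fun k => forall_congr' fun _ => forall_congr' fun _ => ?_
  simp only [mirD, if_true, sub_sub_cancel]
  exact and_comm

theorem Ysym_mark' (P : Par D) (b : ℝ) (u : ℤ) (η : Dis D) :
    P.swap.Mark b (-u) (mirD 0 η) ↔ P.Mark b u η := by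
  have e : P.swap.Mark b (-u) (mirD 0 η) ↔ ∀ k : ℤ, -(P.K : ℤ) ≤ k → k ≤ P.K →
      η (cv (P.g + P.rc - 1)) none (0 - k) = b ∧
        η (cv (P.g + P.rc - 1)) none (0 - (-u - k)) = b := Iff.rfl
  rw [e]
  constructor
  · intro h k h1 h2
    have := h (-k) (by omega) (by omega)
    rwa [show (0 : ℤ) - -k = k by ring, show (0 : ℤ) - (-u - -k) = u - k by ring] at this
  · intro h k h1 h2
    have := h (-k) (by omega) (by omega)
    rwa [show (0 : ℤ) - k = -k by ring, show (0 : ℤ) - (-u - k) = u - -k by ring]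

theorem Ysym_bad (h1 : StMir) (P : Par D) (b : ℝ) (u : ℤ) (η : Dis D) :
    P.badL b u (mirD u η) ↔ P.badL b u η := by
  unfold Par.badL
  rw [(h1 _ _ _ _ _ u η).2.2, (h1 _ _ _ _ _ u η).2.2, Ysym_mark,
    show u - -(P.K1 : ℤ) = u + P.K1 by ring, sub_zero,
    show u - (u + P.K1) = -(P.K1 : ℤ) by ring, sub_sub_cancel, sub_self]
  exact or_left_comm

theorem Ysym_bad' (h1 : StMir) (P : Par D) (b : ℝ) (u : ℤ) (η : Dis D) :
    P.swap.badL b (-u) (mirD 0 η) ↔ P.badL b u η := by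
  have e : P.swap.badL b (-u) (mirD 0 η) ↔
      (ViolA P.nL P.blkL (-P.K2) P.K1 0 (mirD 0 η) ∨
        ViolA P.nL P.blkL (-u - P.K1) (-u + P.K2) (-u) (mirD 0 η) ∨
        P.swap.Mark b (-u) (mirD 0 η)) := Iff.rfl
  rw [e, (h1 _ _ _ _ _ 0 η).2.2, (h1 _ _ _ _ _ 0 η).2.2, Ysym_mark',
    show (0 : ℤ) - (P.K1 : ℤ) = -(P.K1 : ℤ) by ring, show (0 : ℤ) - -(P.K2 : ℤ) = P.K2 by ring,
    sub_self, show (0 : ℤ) - (-u + P.K2) = u - P.K2 by ring,
    show (0 : ℤ) - (-u - P.K1) = u + P.K1 by ring, show (0 : ℤ) - -u = u by ring]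
  rfl

theorem Ysym_badQ (h1 : StMir) (P : Par D) (b : ℝ) (u : ℤ) (η : Dis D) :
    P.BadQ b u (mirD u η) = P.BadQ b u η := by
  funext w
  rw [Par.badQ_iff, Par.badQ_iff, tr_mirD, Ysym_bad h1]

theorem Ysym_badQ' (h1 : StMir) (P : Par D) (b : ℝ) (u : ℤ) (η : Dis D) :
    P.swap.BadQ b (-u) (mirD 0 η) = P.BadQ b u η := by
  funext w
  rw [Par.badQ_iff, Par.badQ_iff, tr_mirD]
  exact propext (Ysym_bad' h1 P b u _)

theorem Ysym_four (h2 : StFour) {P : Par D} {a b : ℝ} (h : P.Ok a b) {η : Dis D}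
    (hη : TwoV a b η) (u : ℤ) :
    P.VC b u η + P.VD b u η ≤ P.VA b u η + P.VB b u η := by
  have h5 := h.h5
  have h6 := h.h6
  unfold Par.VA Par.VB Par.VC Par.VD
  by_cases hu : 0 ≤ u ∧ (P.K2 : ℤ) - P.K1 ≤ u
  · have := h2 h.ha.le h.hab.le hη (P.core_sub b u η) (l := -P.K1) (h := P.K2) (l' := u - P.K2)
      (h' := u + P.K1) (c := 0) (c' := u) (by omega) (by omega) (by omega) (by omega) hu.1
    linarith
  · have := h2 h.ha.le h.hab.le hη (P.core_sub b u η) (l := u - P.K2) (h := u + P.K1)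
      (l' := -P.K1) (h' := P.K2) (c := u) (c' := 0) (by omega) (by omega) (by omega) (by omega)
      (by omega)
    linarith

theorem pf_Ysym (h1 : StMir) (h2 : StFour) : StYsym := by
  intro D P a b h η hη u
  have hK : P.Kl b u (mirD u η) = P.Kl b u η := by unfold Par.Kl; rw [Ysym_badQ h1]
  have hc : P.core b u (mirD u η) = P.core b u η := by unfold Par.core; rw [hK]
  have hR : P.Root b u (mirD u η) ↔ P.Root b u η := by unfold Par.Root; rw [Ysym_badQ h1]
  have hA : P.VA b u (mirD u η) = P.VB b u η := by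
    unfold Par.VA Par.VB
    rw [hc, (h1 _ _ _ _ _ u η).1, (h1 P.nQ ∅ 0 0 u u η).2.1, sub_self,
      show u - -(P.K1 : ℤ) = u + P.K1 by ring]
  have hC : P.VC b u (mirD u η) = P.VD b u η := by
    unfold Par.VC Par.VD
    rw [hc, (h1 _ _ _ _ _ u η).1, (h1 P.nQ ∅ 0 0 u u η).2.1, sub_self,
      show u - (u + P.K1) = -(P.K1 : ℤ) by ring, sub_sub_cancel]
  have hD : P.VD b u (mirD u η) = P.VC b u η := by
    unfold Par.VC Par.VD
    rw [hc, (h1 _ _ _ _ _ u η).1, (h1 P.nQ ∅ 0 0 0 u η).2.1, sub_zero,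
      show u - -(P.K1 : ℤ) = u + P.K1 by ring]
  have hI : P.Ind b u (mirD u η) ↔ P.Ind b u η := by
    unfold Par.Ind
    rw [hR, hC, hD]
    exact and_congr_right fun _ => and_left_comm
  have h4 := Ysym_four h2 h hη u
  obtain ⟨n1, n2, n3, n4⟩ := h.V_nonneg hη u
  have hb := h.b_le_B0
  have hb0 := h.b_pos
  have key : P.Ind b u η → min (P.VA b u η + P.VB b u η - P.VC b u η - P.VD b u η) b ≤
      P.Y b u η + P.Y b u (mirD u η) := by
    intro hi
    unfold Par.Y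
    rw [if_pos hi, if_pos (hI.2 hi), hA, hD]
    have i1 := hi.2.1
    have i2 := hi.2.2.1
    rcases le_total (P.VA b u η) (3 * P.B0 b) with c1 | c1 <;>
      rcases le_total (P.VB b u η) (3 * P.B0 b) with c2 | c2
    · rw [min_eq_left c1, min_eq_left c2]
      exact (min_le_left _ _).trans (by linarith)
    · rw [min_eq_left c1, min_eq_right c2]
      exact (min_le_right _ _).trans (by linarith)
    · rw [min_eq_right c1, min_eq_left c2]
      exact (min_le_right _ _).trans (by linarith)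
    · rw [min_eq_right c1, min_eq_right c2]
      exact (min_le_right _ _).trans (by linarith)
  refine ⟨?_, fun hi hb' => le_trans (le_min hb' le_rfl) (key hi), ?_⟩
  · by_cases hi : P.Ind b u η
    · exact le_trans (le_min (by linarith) hb0.le) (key hi)
    · unfold Par.Y
      rw [if_neg hi, if_neg fun h' => hi (hI.1 h'), add_zero]
  · have gK : P.swap.Kl b (-u) (mirD 0 η) = P.Kl b u η := by
      unfold Par.Kl; rw [Ysym_badQ' h1]; rfl
    have gc : P.swap.core b (-u) (mirD 0 η) = P.core b u η := by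
      unfold Par.core; rw [gK]; rfl
    have gR : P.swap.Root b (-u) (mirD 0 η) ↔ P.Root b u η := by
      unfold Par.Root; rw [Ysym_badQ' h1]; rfl
    have gA : P.swap.VA b (-u) (mirD 0 η) = P.VA b u η := by
      have e : P.swap.VA b (-u) (mirD 0 η) =
          Phi P.nQ (P.swap.core b (-u) (mirD 0 η)) (-P.K2) P.K1 (-u) (mirD 0 η) -
            GA P.nQ (-u) (mirD 0 η) := rfl
      rw [e, gc, (h1 _ _ _ _ _ 0 η).1, (h1 P.nQ ∅ 0 0 (-u) 0 η).2.1,
        show (0 : ℤ) - (P.K1 : ℤ) = -(P.K1 : ℤ) by ring, show (0 : ℤ) - -(P.K2 : ℤ) = P.K2 by ring,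
        show (0 : ℤ) - -u = u by ring]
      rfl
    have gC : P.swap.VC b (-u) (mirD 0 η) = P.VC b u η := by
      have e : P.swap.VC b (-u) (mirD 0 η) =
          Phi P.nQ (P.swap.core b (-u) (mirD 0 η)) (-u - P.K1) (-u + P.K2) (-u) (mirD 0 η) -
            GA P.nQ (-u) (mirD 0 η) := rfl
      rw [e, gc, (h1 _ _ _ _ _ 0 η).1, (h1 P.nQ ∅ 0 0 (-u) 0 η).2.1,
        show (0 : ℤ) - (-u + P.K2) = u - P.K2 by ring,
        show (0 : ℤ) - (-u - P.K1) = u + P.K1 by ring, show (0 : ℤ) - -u = u by ring]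
      rfl
    have gD : P.swap.VD b (-u) (mirD 0 η) = P.VD b u η := by
      have e : P.swap.VD b (-u) (mirD 0 η) =
          Phi P.nQ (P.swap.core b (-u) (mirD 0 η)) (-P.K2) P.K1 0 (mirD 0 η) -
            GA P.nQ 0 (mirD 0 η) := rfl
      rw [e, gc, (h1 _ _ _ _ _ 0 η).1, (h1 P.nQ ∅ 0 0 0 0 η).2.1,
        show (0 : ℤ) - (P.K1 : ℤ) = -(P.K1 : ℤ) by ring, show (0 : ℤ) - -(P.K2 : ℤ) = P.K2 by ring,
        sub_self]
      rfl
    have gI : P.swap.Ind b (-u) (mirD 0 η) ↔ P.Ind b u η := by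
      have e : P.swap.Ind b (-u) (mirD 0 η) ↔ (P.swap.Root b (-u) (mirD 0 η) ∧
          P.swap.VD b (-u) (mirD 0 η) ≤ P.B0 b ∧ P.swap.VC b (-u) (mirD 0 η) ≤ P.B0 b ∧
          -(P.K2 : ℤ) ≤ -u ∧ -u ≤ P.K1) := Iff.rfl
      rw [e, gR, gC, gD]
      unfold Par.Ind
      refine and_congr_right fun _ => and_congr_right fun _ => and_congr_right fun _ => ?_
      omega
    have e : P.swap.Y b (-u) (mirD 0 η) = if P.swap.Ind b (-u) (mirD 0 η) then
        min (P.swap.VA b (-u) (mirD 0 η)) (3 * P.B0 b) - P.swap.VD b (-u) (mirD 0 η) else 0 := rfl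
    rw [e, gA, gD]
    unfold Par.Y
    exact (if_congr gI rfl rfl).symm

theorem pf_Plant (h1 : StPlant0) (h2 : StPlant1) (h3 : StFour) : StPlant := by
  intro D P a b h η η' hη hη' ho hp hg u hu1 hu2 hK
  have hc : P.core b u η = P.nb P.r {0} := by unfold Par.core; rw [hK]
  have hs : P.nb P.r {0} ⊆ inB D P.nQ := hc ▸ P.core_sub b u η
  have hus : P.us = (P.K2 : ℤ) - P.K1 := rfl
  have f1 := h3 h.ha.le h.hab.le hη hs (l := -P.K1) (h := P.K2) (l' := u - P.K2)
    (h' := u + P.K1) (c := 1) (c' := u) (by omega) (by omega) (by omega) (by omega) hu1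
  have f2 := h3 h.ha.le h.hab.le hη hs (l := -P.K1) (h := P.K2 + 1) (l' := u - P.K2)
    (h' := u + P.K1) (c := 0) (c' := 1) (by omega) (by omega) (by omega) (by omega) zero_le_one
  have f3 := h1 h hη hη' ho hp hg
  have f4 := h2 h hη hη' ho hp hg
  unfold Par.VA Par.VB Par.VC Par.VD
  rw [hc]
  linarith

end Pool.Agent.P.MP_67bca4_pr
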