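import Pool.Agent.P.MP_67bca4_pr.AH.S2

/-!
The tail bound for one step of the centred sum of the local costs, and the numerical inequality
used in the union bound along chains.
-/

namespace Pool.Agent.P.MP_67bca4_pr

open Finset
open scoped Classical

lemma Ytail_Ex_const {I : Type} [Fintype I] [DecidableEq I] (p c : ℝ) :
    Ex p (fun _ : I → Bool => c) = c := by
  unfold Ex
  rw [← sum_mul, sum_wt, one_mul]

lemma Ytail_Ex_sub {I : Type} [Fintype I] [DecidableEq I] (p : ℝ) (f g : (I → Bool) → ℝ) :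
    Ex p (fun ω => f ω - g ω) = Ex p f - Ex p g := by
  unfold Ex
  rw [← sum_sub_distrib]
  exact sum_congr rfl fun ω _ => by ring

lemma Ytail_mY_bounds {D : ℕ} {P : Par D} {a b : ℝ} (hP : P.Ok a b) {p : ℝ} (h0 : 0 ≤ p)
    (h1 : p ≤ 1) (N : ℕ) [NeZero N] (u : ℤ) :
    -P.B0 b ≤ P.mY a b p N u ∧ P.mY a b p N u ≤ 3 * P.B0 b := by
  unfold Par.mY
  constructor
  · rw [← Ytail_Ex_const (I := Ix D P.nQ N) p (-P.B0 b)]
    exact Ex_mono h0 h1 fun ω => (hP.Y_bounds (twoV_dis a b ω) u).1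
  · rw [← Ytail_Ex_const (I := Ix D P.nQ N) p (3 * P.B0 b)]
    exact Ex_mono h0 h1 fun ω => (hP.Y_bounds (twoV_dis a b ω) u).2

lemma Ytail_inst {α β : Type} (i j : DecidableEq β) (f : α → β) (T : Finset α) :
    (@image _ _ i f T).card = (@image _ _ j f T).card := by rw [Subsingleton.elim i j]

theorem pf_Ytail (h1 : StColour) (h2 : StLocal) : StYtail := by
  intro D P a b hP p hp0 hp1 n N _ t t' Nn lam hNn hcard hlam
  set T : Finset (V D) := (P.ZQ n).filter fun z => t' (P.cB z) ≠ t (P.cB z) with hT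
  set f : V D → (Ix D n N → Bool) → ℝ := fun z ω =>
    (P.Y b (t' (P.cB z)) (tr (P.cQ z) (dis a b ω)) - P.mY a b p N (t' (P.cB z))) -
      (P.Y b (t (P.cB z)) (tr (P.cQ z) (dis a b ω)) - P.mY a b p N (t (P.cB z))) with hf
  have hB := hP.B0_pos
  have hq : (0 : ℤ) < (P.nQ : ℤ) + 1 := by omega
  have hcol : (T.image fun (z : V D) (i : Fin D) => z i % ((P.nQ : ℤ) + 1)).card ≤
      (P.nQ + 1) ^ D := by
    rw [← card_cube (D := D) 0 (P.nQ + 1)]
    refine card_le_card fun x hx => ?_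
    obtain ⟨z, -, rfl⟩ := mem_image.1 hx
    refine mem_cube.2 fun i => ⟨Int.emod_nonneg _ hq.ne', ?_⟩
    have := Int.emod_lt_of_pos (z i) hq
    push_cast
    omega
  have hTc : (T.card : ℝ) ≤ Nn := by
    refine le_trans ?_ hcard
    have : T.card ≤ (t' - t).support.card := by
      refine card_le_card_of_injOn P.cB (fun z hz => ?_) P.cB_injective.injOn
      have := (mem_filter.1 (mem_coe.1 hz)).2
      rw [mem_coe, Finsupp.mem_support_iff, Finsupp.sub_apply]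
      exact sub_ne_zero.2 this
    exact_mod_cast this
  have hmean : ∀ z ∈ P.ZQ n, ∀ u : ℤ,
      Ex p (fun ω : Ix D n N → Bool => P.Y b u (tr (P.cQ z) (dis a b ω)) - P.mY a b p N u) = 0 := by
    intro z hz u
    rw [Ytail_Ex_sub, Ytail_Ex_const,
      (h2 (P.mem_ZQ.1 hz) a b p).1 (P.Y b u) fun _ _ h => P.Y_congr h b u]
    exact sub_self _
  have key := h1 (I := Ix D n N) hp0 hp1 T (fun (z : V D) (i : Fin D) => z i % ((P.nQ : ℤ) + 1))
    (fun z (i : Ix D n N) => i.1.1 - P.cQ z ∈ hatB D P.nQ) f (χ := (P.nQ + 1) ^ D)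
    (B := 8 * P.B0 b) (Nn := Nn) (lam := lam) (Nat.one_le_pow _ _ (by omega))
    ((Ytail_inst _ _ _ _).trans_le hcol)
    (by positivity) hNn hTc hlam
    (fun z _ => dep_tr (n := n) (N := N) (P.cQ z) a b
      (f := fun ξ => (P.Y b (t' (P.cB z)) ξ - P.mY a b p N (t' (P.cB z))) -
        (P.Y b (t (P.cB z)) ξ - P.mY a b p N (t (P.cB z))))
      fun _ _ h => by rw [P.Y_congr h, P.Y_congr h])
    (fun z _ z' _ hne hc i hi hi' => by
      apply hne
      funext j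
      have e1 := mem_hatB.1 hi j
      have e2 := mem_hatB.1 hi' j
      have e3 : z j % ((P.nQ : ℤ) + 1) = z' j % ((P.nQ : ℤ) + 1) := congrFun hc j
      obtain ⟨k, hk⟩ : ((P.nQ : ℤ) + 1) ∣ z' j - z j := Int.ModEq.dvd e3
      have hr := P.r0_pos
      simp only [Pi.sub_apply, Par.cQ] at e1 e2
      have e4 : (P.r0 : ℤ) * z' j = P.r0 * z j + P.r0 * ((P.nQ + 1) * k) := by
        rw [← hk]; ring
      rcases lt_trichotomy k 0 with h | h | h
      · have : ((P.nQ : ℤ) + 1) * k ≤ -(P.nQ + 1) := by nlinarith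
        have : (P.r0 : ℤ) * ((P.nQ + 1) * k) ≤ -(P.nQ + 1) := by nlinarith
        omega
      · rw [h] at hk; omega
      · have : ((P.nQ : ℤ) + 1) ≤ (P.nQ + 1) * k := by nlinarith
        have : ((P.nQ : ℤ) + 1) ≤ (P.r0 : ℤ) * ((P.nQ + 1) * k) := by nlinarith
        omega)
    (fun z _ ω => by
      have e1 := hP.Y_bounds ((twoV_dis a b ω).tr (P.cQ z)) (t' (P.cB z))
      have e2 := hP.Y_bounds ((twoV_dis a b ω).tr (P.cQ z)) (t (P.cB z))
      have e3 := Ytail_mY_bounds hP hp0 hp1 N (t' (P.cB z))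
      have e4 := Ytail_mY_bounds hP hp0 hp1 N (t (P.cB z))
      rw [abs_le]
      simp only [hf]
      constructor <;> linarith [e1.1, e1.2, e2.1, e2.2, e3.1, e3.2, e4.1, e4.2])
    (fun z hz => by
      have hz' := (mem_filter.1 hz).1
      simp only [hf]
      rw [Ytail_Ex_sub, hmean z hz', hmean z hz', sub_self])
  push_cast at key
  refine le_trans (Pr_mono hp0 hp1 fun ω hω => ?_) key
  refine hω.trans (le_of_eq ?_)
  unfold Par.Ybar
  rw [← sum_sub_distrib, hT, sum_filter]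
  refine sum_congr rfl fun z _ => ?_
  split_ifs with h
  · rfl
  · rw [not_not.1 h, sub_self]

theorem pf_NumY : StNumY := by
  intro D hD Γ W ν ν' m l hΓ hl hy hm hW hWm hν hν'
  set y : ℝ := 2 ^ l with hydef
  have hD' : (100 : ℝ) ≤ D := by exact_mod_cast hD
  have hD2 : (10000 : ℝ) ≤ (D : ℝ) ^ 2 := by nlinarith
  have hΓy : 2400000 * Γ ≤ y := by nlinarith
  have hy1 : 1 ≤ y := by linarith
  have hy0 : 0 < y := by linarith
  have hΓ0 : 0 < Γ := by linarith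
  have h16 : (16 : ℝ) ^ l = y ^ 4 := by
    rw [hydef, ← pow_mul, mul_comm, pow_mul]; norm_num
  have hQ : (2 : ℝ) ^ (l * (D - 2)) = y ^ (D - 2) := by rw [hydef, pow_mul]
  have hm' : y ^ (D - 2) ≤ (m : ℝ) := by rw [← hQ]; exact_mod_cast hm
  have hly : (l : ℝ) ≤ y := by
    have : l ≤ 2 ^ l := (Nat.lt_two_pow_self).le
    rw [hydef]; exact_mod_cast this
  have hQ' : y ^ (D - 2) ≤ (2 : ℝ) ^ ((l + 1) * (D - 2)) := by
    rw [← hQ]
    exact pow_le_pow_right₀ (by norm_num) (Nat.mul_le_mul_right _ (by omega))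
  rw [ent, ent, if_neg (by omega), if_neg (by omega), h16, hQ]
  rw [hQ] at hν hν'
  have h10 : y ^ 10 ≤ y ^ (D - 2) := pow_le_pow_right₀ hy1 (by omega)
  have h6 : y ^ 6 ≤ y ^ (D - 2) := pow_le_pow_right₀ hy1 (by omega)
  set Q : ℝ := y ^ (D - 2) with hQdef
  have hQ0 : 0 < Q := by positivity
  have hm0 : (0 : ℝ) < m := hQ0.trans_le hm'
  have hA : 0 < y ^ 4 * Γ := by positivity
  have e0 : ∀ μ : ℝ, Q ≤ μ → Q / (8 * y ^ 4 * Γ) * m / μ ≤ m / (y ^ 4 * Γ) / 8 := fun μ hμ => by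
    calc Q / (8 * y ^ 4 * Γ) * m / μ ≤ Q / (8 * y ^ 4 * Γ) * m / Q := by gcongr
      _ = m / (y ^ 4 * Γ) / 8 := by field_simp
  have e1 : 5 * m * (D : ℝ) ^ 2 * l / Q ≤ 5 * m * (D : ℝ) ^ 2 * y / Q := by gcongr
  have e2 : 5 * m * (D : ℝ) ^ 2 * ((l + 1 : ℕ) : ℝ) / 2 ^ ((l + 1) * (D - 2)) ≤
      5 * m * (D : ℝ) ^ 2 * (2 * y) / Q := by
    have : ((l + 1 : ℕ) : ℝ) ≤ 2 * y := by push_cast; linarith
    gcongr
  have e3 : 5 * m * (D : ℝ) ^ 2 * y / Q + 5 * m * (D : ℝ) ^ 2 * (2 * y) / Q ≤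
      m / (y ^ 4 * Γ) / 8 := by
    rw [← add_div, div_div, div_le_div_iff₀ hQ0 (by positivity)]
    have : 120 * (D : ℝ) ^ 2 * Γ * y ^ 5 ≤ Q := by
      refine le_trans ?_ h6
      have : 120 * (D : ℝ) ^ 2 * Γ ≤ y := by nlinarith
      calc 120 * (D : ℝ) ^ 2 * Γ * y ^ 5 ≤ y * y ^ 5 := by gcongr
        _ = y ^ 6 := by ring
    calc (5 * m * (D : ℝ) ^ 2 * y + 5 * m * (D : ℝ) ^ 2 * (2 * y)) * (y ^ 4 * Γ * 8)
        = m * (120 * (D : ℝ) ^ 2 * Γ * y ^ 5) := by ring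
      _ ≤ m * Q := by gcongr
  have e4 : 4 + 2 * √(m : ℝ) ≤ m / (y ^ 4 * Γ) / 8 := by
    have s1 : y ^ 5 ≤ √(m : ℝ) := by
      refine Real.le_sqrt_of_sq_le ?_
      rw [← pow_mul]
      exact h10.trans hm'
    have s2 : 1 ≤ √(m : ℝ) := (one_le_pow₀ hy1).trans s1
    have s3 : √(m : ℝ) * √(m : ℝ) = m := Real.mul_self_sqrt hm0.le
    have s4 : 48 * (y ^ 4 * Γ) ≤ √(m : ℝ) := by
      refine le_trans ?_ s1
      calc 48 * (y ^ 4 * Γ) = 48 * Γ * y ^ 4 := by ring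
        _ ≤ y * y ^ 4 := by gcongr; linarith
        _ = y ^ 5 := by ring
    rw [div_div, le_div_iff₀ (by positivity)]
    calc (4 + 2 * √(m : ℝ)) * (y ^ 4 * Γ * 8) ≤ (6 * √(m : ℝ)) * (y ^ 4 * Γ * 8) := by
          gcongr; linarith
      _ = √(m : ℝ) * (48 * (y ^ 4 * Γ)) := by ring
      _ ≤ √(m : ℝ) * √(m : ℝ) := by gcongr
      _ = m := s3
  have e5 : 12 * W * Real.exp (-(Q / (8 * y ^ 4 * Γ))) ≤ m / (y ^ 4 * Γ) / 8 := by
    have s1 : 6 * y ≤ Q / (8 * y ^ 4 * Γ) := by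
      rw [le_div_iff₀ (by positivity)]
      refine le_trans ?_ h6
      calc 6 * y * (8 * y ^ 4 * Γ) = 48 * Γ * y ^ 5 := by ring
        _ ≤ y * y ^ 5 := by gcongr; linarith
        _ = y ^ 6 := by ring
    have s2 : y ≤ Real.exp y := by linarith [Real.add_one_le_exp y]
    have s3 : y ^ 5 * Real.exp (-(5 * y)) ≤ 1 := by
      have : y ^ 5 ≤ Real.exp (5 * y) := by
        rw [show (5 : ℝ) * y = (5 : ℕ) * y by norm_num, Real.exp_nat_mul]
        gcongr
      rw [Real.exp_neg, ← div_eq_mul_inv, div_le_one (Real.exp_pos _)]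
      exact this
    have s4 : Real.exp (-(Q / (8 * y ^ 4 * Γ))) ≤ Real.exp (-y) * Real.exp (-(5 * y)) := by
      rw [← Real.exp_add]
      exact Real.exp_le_exp.2 (by linarith)
    rw [div_div, le_div_iff₀ (by positivity)]
    calc 12 * W * Real.exp (-(Q / (8 * y ^ 4 * Γ))) * (y ^ 4 * Γ * 8)
        ≤ 12 * W * (Real.exp (-y) * Real.exp (-(5 * y))) * (y ^ 4 * Γ * 8) := by gcongr
      _ = W * Real.exp (-y) * (96 * Γ * y ^ 4 * Real.exp (-(5 * y))) := by ring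
      _ ≤ m * (y * y ^ 4 * Real.exp (-(5 * y))) := by gcongr; linarith
      _ = m * (y ^ 5 * Real.exp (-(5 * y))) := by ring
      _ ≤ m * 1 := by gcongr
      _ = m := mul_one _
  have e6 := e0 ν hν
  have e7 := e0 ν' hν'
  have e8 : 0 ≤ m / (y ^ 4 * Γ) := by positivity
  linarith

end Pool.Agent.P.MP_67bca4_pr
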