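import Pool.Agent.P.MP_67bca4_pr.AH.S2

/-! Counting the problem blocks. -/

namespace Pool.Agent.P.MP_67bca4_pr

open Finset
open scoped Classical

theorem pf_Imp : StImp := by
  intro D P n C s t h z hz hp
  have hR : (P.R1 : ℝ) = D * (P.nQ + 1) + 7 * D * 2 ^ P.l0 := by
    unfold Par.R1; push_cast; ring
  by_cases h1 : s (P.cB z) = t (P.cB z)
  · have h2 : ∃ e ∈ C, ∀ i, P.cQ z i - 1 ≤ e.1 i ∧ e.1 i ≤ P.cQ z i + P.nQ := by
      by_contra h3
      exact hp ⟨hz, fun e he h4 => h3 ⟨e, he, h4⟩, h1⟩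
    obtain ⟨e, he, h3⟩ := h2
    refine ⟨e.1, mem_bases.2 ⟨e, he, rfl⟩, ?_⟩
    have h4 : l1 (P.cB z - e.1) ≤ D * ((P.nQ : ℝ) + 1) := by
      refine l1_le_of_sup fun i => ?_
      have h5 := h3 i
      have h6 := P.nQ_eq
      have h7 : |(P.cB z - e.1) i| ≤ (P.nQ : ℤ) + 1 := by
        simp only [Par.cQ] at h5
        rw [Pi.sub_apply, abs_le]
        simp only [Par.cB]
        omega
      exact_mod_cast h7
    have h5 : (0 : ℝ) ≤ 7 * D * 2 ^ P.l0 := by positivity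
    linarith
  · obtain ⟨p, hp1, hp2⟩ := h _ h1
    refine ⟨p, hp1, ?_⟩
    have h5 : (0 : ℝ) ≤ D * (P.nQ + 1) := by positivity
    linarith

lemma CountP_abs {D : ℕ} {v : V D} {R : ℕ} (h : l1 v ≤ R) (i : Fin D) :
    -(R : ℤ) ≤ v i ∧ v i ≤ R := by
  have h1 : |v i| ≤ (R : ℤ) := by exact_mod_cast (abs_le_l1 v i).trans h
  exact abs_le.1 h1

lemma CountP_near {D : ℕ} (P : Par D) {z v p y : V D} (hv : v ∈ ball D P.Lam)
    (h1 : l1 (P.cB (z + v) - p) ≤ P.R1) (h2 : l1 (p - y) ≤ P.mu) :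
    z - P.blk y ∈ ball D P.rs := by
  refine mem_ball.2 fun i => ?_
  have a1 := CountP_abs h1 i
  have a2 := CountP_abs h2 i
  have a3 := P.blk_bounds y i
  have a4 := P.mul_ball hv i
  have a5 := P.r0_pos
  have a6 : (P.rs : ℤ) = P.Lam + P.R1 + P.mu + 1 := by unfold Par.rs; push_cast; ring
  simp only [Pi.sub_apply, Pi.add_apply, Par.cB, mul_add] at a1 a2 ⊢
  push_cast at a4
  have b1 : (P.R1 : ℤ) ≤ P.r0 * P.R1 := le_mul_of_one_le_left (by positivity) (by omega)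
  have b2 : (P.mu : ℤ) ≤ P.r0 * P.mu := le_mul_of_one_le_left (by positivity) (by omega)
  rw [a6]
  constructor
  · refine le_of_mul_le_mul_left ?_ a5
    nlinarith
  · refine le_of_mul_le_mul_left ?_ a5
    nlinarith

theorem pf_CountP (h1 : StImp) (h2 : StNet) : StCountP := by
  intro D P a b hO n ξ C hC s t h Ω j L hT
  have hmu : (0 : ℝ) < P.mu := by
    have := hO.one_le_mg; have := hO.hmu
    exact_mod_cast (by omega : 0 < P.mu)
  obtain ⟨N, hN, hc, hnet⟩ := h2 hmu hT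
  set S := (hatB D n).filter (P.Sp a b n ξ) with hS
  set A₁ : Finset (V D) := S.biUnion fun w => (ball D P.rs).image (· + w) with hA₁
  set A₂ : Finset (V D) := (N.filter fun y => ¬P.DenseS b n ξ (P.blk y)).biUnion fun y =>
    (Finset.Icc (-(P.K : ℤ)) P.K).biUnion fun u =>
      (P.ZL n).filter fun z => z - P.blk y ∈ ball D P.rs ∧ P.Bad b u ξ z with hA₂
  have m₁ : ∀ z w, w ∈ hatB D n → P.Sp a b n ξ w → z - w ∈ ball D P.rs → z ∈ A₁ :=
    fun z w g1 g2 g3 => mem_biUnion.2 ⟨w, mem_filter.2 ⟨g1, g2⟩,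
      mem_image.2 ⟨z - w, g3, sub_add_cancel z w⟩⟩
  have hsub : (P.ZQ n).filter (P.Prob a b n ξ C s t) ⊆ A₁ ∪ A₂ := by
    intro z hz
    obtain ⟨hz, hp⟩ := mem_filter.1 hz
    rcases hp with ⟨v, hv, hsp⟩ | ⟨⟨u, hu1, hu2, hbad⟩, v, hv, hzv, hnp⟩
    · refine mem_union_left _ (m₁ z (z + v) (P.ZL_sub n (P.add_mem_ZL hz hv)) hsp ?_)
      refine mem_ball.2 fun i => ?_
      have g1 := mem_ball.1 hv i
      have g2 := P.Lam_le_rs
      simp only [Pi.sub_apply, Pi.add_apply]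
      omega
    · obtain ⟨p, hp1, hp2⟩ := h1 P h _ hzv hnp
      obtain ⟨y, hy1, hy2⟩ := hnet p hp1
      have g1 := CountP_near P hv hp2 hy2
      by_cases hd : P.DenseS b n ξ (P.blk y)
      · obtain ⟨e, he, rfl⟩ := mem_bases.1 (hN hy1)
        exact mem_union_left _
          (m₁ z _ (P.blk_mem_hatB (mem_edB.1 (hC he)).1) (Or.inl hd) g1)
      · refine mem_union_right _ (mem_biUnion.2 ⟨y, mem_filter.2 ⟨hy1, hd⟩,
          mem_biUnion.2 ⟨u, mem_Icc.2 ⟨hu1, hu2⟩, mem_filter.2 ⟨?_, g1, hbad⟩⟩⟩)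
        simpa using P.add_mem_ZL hz (zero_mem_ball P.Lam)
  have c₁ : A₁.card ≤ S.card * (2 * P.rs + 1) ^ D :=
    card_biUnion_le_card_mul _ _ _ fun w _ => card_image_le.trans (card_ball _).le
  have c₂ : A₂.card ≤ N.card * ((2 * P.K + 1) * P.k0) := by
    refine (card_biUnion_le_card_mul _ _ ((2 * P.K + 1) * P.k0) fun y hy => ?_).trans
      (Nat.mul_le_mul_right _ (card_filter_le _ _))
    refine (card_biUnion_le_card_mul _ _ P.k0 fun u hu => ?_).trans (le_of_eq ?_)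
    · by_contra g
      exact (mem_filter.1 hy).2 ⟨u, (mem_Icc.1 hu).1, (mem_Icc.1 hu).2, not_le.1 g⟩
    · rw [Int.card_Icc]
      congr 1
      omega
  have c₃ : (((P.ZQ n).filter (P.Prob a b n ξ C s t)).card : ℝ) ≤
      S.card * (2 * P.rs + 1) ^ D + N.card * ((2 * P.K + 1) * P.k0) := by
    exact_mod_cast ((card_le_card hsub).trans (card_union_le _ _)).trans (add_le_add c₁ c₂)
  have c₄ : (N.card : ℝ) * ((2 * P.K + 1) * P.k0) ≤ (j + L / P.mu) * ((2 * P.K + 1) * P.k0) :=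
    mul_le_mul_of_nonneg_right hc (by positivity)
  have c₅ : (0 : ℝ) ≤ S.card * (2 * P.rs + 1) ^ D := by positivity
  linarith

end Pool.Agent.P.MP_67bca4_pr
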