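import Pool.Agent.P.MP_67bca4_pr.AH.S1

/-!
The isoperimetric bound for subsets of a cube and the energy of a raised plate.
-/

namespace Pool.Agent.P.MP_67bca4_pr

open Finset
open scoped Classical

lemma Iso_upd_add {D : ℕ} (u : V D) (i : Fin D) :
    Function.update (u + ee i) i 0 = Function.update u i 0 := by
  funext j
  by_cases h : j = i
  · subst h; simp
  · simp [Function.update_of_ne h, ee_ne h]

lemma Iso_line {D : ℕ} (T : Finset (V D)) {x : V D} (hx : x ∈ T) (i : Fin D) :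
    ∃ u v : V D, Function.update u i 0 = Function.update x i 0 ∧
      Function.update v i 0 = Function.update x i 0 ∧ u ∈ T ∧ u + ee i ∉ T ∧ v ∉ T ∧
      v + ee i ∈ T := by
  set S := T.filter fun y => Function.update y i 0 = Function.update x i 0 with hS
  have hne : S.Nonempty := ⟨x, mem_filter.2 ⟨hx, rfl⟩⟩
  obtain ⟨u, hu, hu'⟩ := exists_max_image S (fun y => y i) hne
  obtain ⟨w, hw, hw'⟩ := exists_min_image S (fun y => y i) hne
  have hv : Function.update (w - ee i) i 0 = Function.update x i 0 := by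
    rw [← Iso_upd_add (w - ee i) i, sub_add_cancel]; exact (mem_filter.1 hw).2
  refine ⟨u, w - ee i, (mem_filter.1 hu).2, hv, (mem_filter.1 hu).1, fun h => ?_, fun h => ?_,
    by rw [sub_add_cancel]; exact (mem_filter.1 hw).1⟩
  · have := hu' (u + ee i) (mem_filter.2 ⟨h, by rw [Iso_upd_add]; exact (mem_filter.1 hu).2⟩)
    simp only [Pi.add_apply, ee_self] at this
    omega
  · have := hw' (w - ee i) (mem_filter.2 ⟨h, hv⟩)
    simp only [Pi.sub_apply, ee_self] at this
    omega

lemma Iso_dir {D : ℕ} (A T : Finset (V D)) (B : Finset (Ed D)) (α : ℤ) (ℓ : ℕ) (hAT : A ⊆ T)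
    (hA : A ⊆ cube D α (α + ℓ - 1)) (hB : ∀ e : Ed D, ¬(e.1 ∈ T ↔ tip e ∈ T) → e ∈ B)
    (i : Fin D) : 2 * A.card ≤ ℓ * (B.filter fun e => e.2 = i).card := by
  set L := A.image fun x => Function.update x i 0 with hL
  have h1 : A.card ≤ ℓ * L.card := by
    refine card_le_mul_card_image A ℓ fun y _ => ?_
    have hc : (Finset.Icc α (α + ℓ - 1)).card = ℓ := by simp
    rw [← hc]
    refine card_le_card_of_injOn (fun x => x i) (fun x hx => ?_) fun x hx x' hx' h => ?_
    · have := mem_cube.1 (hA (mem_filter.1 hx).1) i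
      simpa using this
    · have e1 := (mem_filter.1 hx).2
      have e2 := (mem_filter.1 hx').2
      funext j
      by_cases hj : j = i
      · subst hj; exact h
      · have := congrFun (e1.trans e2.symm) j
        simpa [Function.update_of_ne hj] using this
  have h2 : 2 * L.card ≤ ((B.filter fun e => e.2 = i).filter
      fun e => Function.update e.1 i 0 ∈ L).card := by
    refine mul_card_image_le_card_of_maps_to (f := fun e : Ed D => Function.update e.1 i 0)
      (fun e he => (mem_filter.1 he).2) 2 fun y hy => ?_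
    obtain ⟨x, hx, rfl⟩ := mem_image.1 hy
    obtain ⟨u, v, hu, hv, h3, h4, h5, h6⟩ := Iso_line T (hAT hx) i
    have hne : ((u, i) : Ed D) ≠ (v, i) := fun h => h5 ((Prod.mk.inj h).1 ▸ h3)
    rw [← card_pair hne]
    refine card_le_card fun e he => ?_
    simp only [mem_insert, mem_singleton] at he
    rcases he with rfl | rfl
    · refine mem_filter.2 ⟨mem_filter.2 ⟨mem_filter.2 ⟨hB _ ?_, rfl⟩, ?_⟩, hu⟩
      · simp only [tip_mk]; tauto
      · simp only [hu]; exact hy
    · refine mem_filter.2 ⟨mem_filter.2 ⟨mem_filter.2 ⟨hB _ ?_, rfl⟩, ?_⟩, hv⟩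
      · simp only [tip_mk]; tauto
      · simp only [hv]; exact hy
  have h3 := h2.trans (card_filter_le _ _)
  calc 2 * A.card ≤ 2 * (ℓ * L.card) := by omega
    _ = ℓ * (2 * L.card) := by ring
    _ ≤ _ := Nat.mul_le_mul_left _ h3

theorem pf_Iso : StIso := by
  intro D A T B α ℓ hAT hA hB
  have h1 : B.card = ∑ i : Fin D, (B.filter fun e => e.2 = i).card :=
    card_eq_sum_card_fiberwise fun e _ => mem_univ e.2
  rw [h1, mul_sum]
  calc 2 * D * A.card = ∑ _i : Fin D, 2 * A.card := by simp; ring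
    _ ≤ _ := sum_le_sum fun i _ => Iso_dir A T B α ℓ hAT hA hB i

/-- A face of the cube. -/
noncomputable def Iso_face {D : ℕ} (α : ℤ) (ℓ : ℕ) (i : Fin D) (t : ℤ) : Finset (V D) :=
  Fintype.piFinset fun j => if j = i then {t} else Finset.Icc α (α + ℓ - 1)

lemma Iso_card_face {D : ℕ} (α : ℤ) (ℓ : ℕ) (i : Fin D) (t : ℤ) :
    (Iso_face α ℓ i t).card = ℓ ^ (D - 1) := by
  rw [Iso_face, Fintype.card_piFinset, ← mul_prod_erase univ _ (mem_univ i)]
  rw [prod_congr rfl (g := fun _ => ℓ) fun j hj => by simp [ne_of_mem_erase hj]]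
  simp [card_erase_of_mem]

lemma Iso_mem_face {D : ℕ} {α : ℤ} {ℓ : ℕ} {i : Fin D} {t : ℤ} {x : V D} (h1 : x i = t)
    (h2 : ∀ j, j ≠ i → α ≤ x j ∧ x j ≤ α + ℓ - 1) : x ∈ Iso_face α ℓ i t := by
  refine Fintype.mem_piFinset.2 fun j => ?_
  by_cases hj : j = i
  · subst hj; simp [h1]
  · simpa [hj] using h2 j hj

lemma Iso_card_bd {D : ℕ} (α : ℤ) (ℓ : ℕ) (E : Finset (Ed D)) :
    (E.filter fun e => ¬(e.1 ∈ cube D α (α + ℓ - 1) ↔ tip e ∈ cube D α (α + ℓ - 1))).card ≤
      2 * D * ℓ ^ (D - 1) := by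
  have hsub : (E.filter fun e => ¬(e.1 ∈ cube D α (α + ℓ - 1) ↔ tip e ∈ cube D α (α + ℓ - 1))) ⊆
      univ.biUnion fun i : Fin D =>
        (Iso_face α ℓ i (α + ℓ - 1) ∪ Iso_face α ℓ i (α - 1)).image fun x => (x, i) := by
    rintro ⟨x, i⟩ he
    have h := (mem_filter.1 he).2
    simp only [tip_mk, mem_cube, Pi.add_apply] at h
    refine mem_biUnion.2 ⟨i, mem_univ _, mem_image.2 ⟨x, mem_union.2 ?_, rfl⟩⟩
    by_cases h1 : ∀ j, α ≤ x j ∧ x j ≤ α + ℓ - 1
    · left
      refine Iso_mem_face ?_ fun j _ => h1 j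
      by_contra h2
      refine h ⟨fun _ j => ?_, fun _ => h1⟩
      have := h1 j
      rw [ee_apply]
      split_ifs with hj
      · subst hj; omega
      · omega
    · right
      have h3 : ∀ j, α ≤ x j + ee i j ∧ x j + ee i j ≤ α + ℓ - 1 := by
        by_contra h4
        exact h ⟨fun h5 => absurd h5 h1, fun h5 => absurd h5 h4⟩
      refine Iso_mem_face ?_ fun j hj => by simpa [ee_ne hj] using h3 j
      by_contra h2
      refine h1 fun j => ?_
      have := h3 j
      rw [ee_apply] at this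
      split_ifs at this with hj
      · subst hj; omega
      · omega
  refine (card_le_card hsub).trans (card_biUnion_le.trans ?_)
  calc _ ≤ ∑ _i : Fin D, 2 * ℓ ^ (D - 1) := sum_le_sum fun i _ => by
        refine card_image_le.trans ((card_union_le _ _).trans ?_)
        rw [Iso_card_face, Iso_card_face]; omega
    _ = _ := by simp; ring

theorem pf_Bump : StBump := by
  intro D n a b ξ ξ' α c h ℓ hch hQ hξ hb hξ' F hF
  set Q := cube D α (α + ℓ - 1) with hQd
  set G := glue (fun x => x ∈ Q) (fun _ => flat h) F with hG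
  have hb0 : 0 ≤ b := (hξ 0 none 0).1.trans (hξ 0 none 0).2
  have hhc : (0 : ℝ) ≤ (h : ℝ) - c := by
    have : (c : ℝ) ≤ h := by exact_mod_cast hch
    linarith
  have hGin : ∀ x, x ∈ Q → G x = flat h := fun x hx => glue_pos hx
  have hGout : ∀ x, x ∉ Q → G x = F x := fun x hx => glue_neg hx
  have hnear : ∀ x y, x ∈ Q → Adj x y → F y = flat c := fun x y hx hxy =>
    hF y (mem_cube.2 fun i => by
      have := mem_cube.1 hx i; have := hxy.abs_le i; omega)
  have hFin : ∀ x, x ∈ Q → F x = flat c := fun x hx =>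
    hF x (mem_cube.2 fun i => by have := mem_cube.1 hx i; omega)
  have hv : ∑ x ∈ hatB D n, ∑ k ∈ bd (G x), ξ' x none k + (b - a) * ℓ ^ D =
      ∑ x ∈ hatB D n, ∑ k ∈ bd (F x), ξ x none k := by
    have h1 : (b - a) * ℓ ^ D = ∑ x ∈ hatB D n, if x ∈ Q then b - a else 0 := by
      rw [← sum_filter, filter_mem_eq_inter,
        inter_eq_right.2 fun x hx => inB_sub_hatB (hQ hx), sum_const, hQd, card_cube]
      simp [mul_comm]
    rw [h1, ← sum_add_distrib]
    refine sum_congr rfl fun x _ => ?_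
    by_cases hx : x ∈ Q
    · rw [hGin x hx, hFin x hx, bd_flat, bd_flat, sum_singleton, sum_singleton, hξ', hb x hx,
        if_pos ⟨hx, rfl, rfl⟩, if_pos hx]
      ring
    · rw [hGout x hx, if_neg hx, add_zero]
      exact sum_congr rfl fun k _ => by rw [hξ', if_neg fun h1 => hx h1.1]
  have hcost : ∀ (e : Ed D) (s t : ℤ), (s - t).natAbs = (h - c).natAbs →
      ∑ k ∈ dif (flat s) (flat t), ξ e.1 (some e.2) k ≤ b * (h - c) := by
    intro e s t hst
    refine (sum_le_card_nsmul _ _ b fun k _ => (hξ _ _ k).2).trans ?_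
    rw [card_dif_flat, hst, nsmul_eq_mul, mul_comm]
    have : (((h - c).natAbs : ℤ) : ℝ) = (h : ℝ) - c := by
      rw [Int.natAbs_of_nonneg (by omega)]; push_cast; rfl
    rw [← this, Int.cast_natCast]
  have he : ∑ e ∈ edB D n, ∑ k ∈ dif (G e.1) (G (tip e)), ξ' e.1 (some e.2) k ≤
      ∑ e ∈ edB D n, ∑ k ∈ dif (F e.1) (F (tip e)), ξ e.1 (some e.2) k +
        b * (h - c) * (2 * D * ℓ ^ (D - 1)) := by
    have h1 : ∑ e ∈ edB D n, (if ¬(e.1 ∈ Q ↔ tip e ∈ Q) then b * (h - c) else 0) ≤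
        b * (h - c) * (2 * D * ℓ ^ (D - 1)) := by
      rw [← sum_filter, sum_const, nsmul_eq_mul, mul_comm]
      refine mul_le_mul_of_nonneg_left ?_ (mul_nonneg hb0 hhc)
      exact_mod_cast Iso_card_bd α ℓ (edB D n)
    refine le_trans ?_ (add_le_add_right h1 _)
    rw [← sum_add_distrib]
    refine sum_le_sum fun e _ => ?_
    have h2 : ∀ S T : Col, ∑ k ∈ dif S T, ξ' e.1 (some e.2) k =
        ∑ k ∈ dif S T, ξ e.1 (some e.2) k := fun S T =>
      sum_congr rfl fun k _ => by rw [hξ', if_neg fun h1 => by simpa using h1.2.1]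
    have h3 : 0 ≤ ∑ k ∈ dif (F e.1) (F (tip e)), ξ e.1 (some e.2) k :=
      sum_nonneg fun k _ => (hξ _ _ k).1
    rw [h2]
    by_cases p : e.1 ∈ Q <;> by_cases q : tip e ∈ Q
    · rw [hGin _ p, hGin _ q, dif_self, sum_empty, if_neg (by tauto)]; linarith
    · rw [hGin _ p, hGout _ q, hnear _ _ p (adj_tip e), if_pos (by tauto)]
      have := hcost e h c rfl
      rw [hnear _ _ p (adj_tip e)] at h3
      linarith
    · rw [hGout _ p, hGin _ q, hnear _ _ q (adj_tip e).symm, if_pos (by tauto)]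
      have := hcost e c h (by omega)
      rw [hnear _ _ q (adj_tip e).symm] at h3
      linarith
    · rw [hGout _ p, hGout _ q, if_neg (by tauto), add_zero]
  unfold En
  linarith

end Pool.Agent.P.MP_67bca4_pr
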