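import Pool.Agent.P.MP_67bca4_pr.AH.S1

namespace Pool.Agent.P.MP_67bca4_pr

open Finset
open scoped Classical

/-- A sum of weights that are at least `a` dominates one term plus `a` for each other term. -/
lemma LemA_one {a : ℝ} {w : ℤ → ℝ} (h : ∀ k, a ≤ w k) {B : Finset ℤ} {c : ℤ}
    (hc : c ∈ B) : w c + a * ((B.card - 1 : ℕ) : ℝ) ≤ ∑ k ∈ B, w k := by
  rw [← add_sum_erase B w hc, ← card_erase_of_mem hc]
  have := card_nsmul_le_sum (B.erase c) w a fun k _ => h k
  rw [nsmul_eq_mul] at this
  linarith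

lemma LemA_all {a : ℝ} {w : ℤ → ℝ} (h : ∀ k, a ≤ w k) (B : Finset ℤ) :
    a * (B.card : ℝ) ≤ ∑ k ∈ B, w k := by
  have := card_nsmul_le_sum B w a fun k _ => h k
  rw [nsmul_eq_mul] at this
  linarith

lemma LemA_inj {t : ℤ} {S T : Col} : sh t S = sh t T ↔ S = T := by
  refine ⟨fun h => ?_, fun h => h ▸ rfl⟩
  have := congrArg (sh (-t)) h
  simpa [sh_sh] using this

lemma LemA_ovh {t : ℤ} {S : Col} : Ovh (sh t S) ↔ Ovh S := by
  constructor
  · intro h c hc
    exact h (c - t) (by rw [hc, sh_flat])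
  · intro h c hc
    have := congrArg (sh (-t)) hc
    rw [sh_sh, sh_flat] at this
    exact h (c - -t) (by simpa using this)

/-- Removing a closed set of contours by a shift, with control of the remaining contours. -/
theorem pf_LemA : StLemA := by
  intro D n hD a ξ h U hU C hC
  obtain ⟨g, hg, hsum⟩ := exists_sel C (fun e => U e.1) (fun e => U (tip e))
  have gflat : ∀ c, g (flat c) = c := fun c => by
    have := hg (flat c); simp only [mem_flat] at this; omega
  have hG : Supp n (fun x => g (U x)) := fun x hx => by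
    show g (U x) = 0
    rw [hU x hx, gflat]
  have hne : ∀ e, grad (fun x => g (U x)) e ≠ 0 → U e.1 ≠ U (tip e) := fun e he h1 => by
    apply he; simp only [grad, h1, sub_self]
  obtain ⟨t, ht, hgr⟩ := exists_prim hD (fun x => g (U x)) hG (J := Jst n U) (C := C)
    (fun e he => hU.mem_Jst.2 (Or.inl (hne e he))) hC
  set U' : Conf D := fun x =>
    if x ∈ Fov n U C then flat (g (U x) - t x) else sh (t x) (U x) with hU'
  have hin : ∀ x, x ∈ Fov n U C → U' x = flat (g (U x) - t x) := fun x hx => by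
    simp only [hU', hx, if_true]
  have hout : ∀ x, x ∉ Fov n U C → U' x = sh (t x) (U x) := fun x hx => by
    simp only [hU', hx, if_false]
  have hfl : ∀ x, (¬Ovh (U x) ∨ ∃ e ∈ C, e.1 = x ∨ tip e = x) →
      U' x = flat (g (U x) - t x) := fun x hx => by
    by_cases ho : Ovh (U x)
    · exact hin x (mem_filter.2 ⟨inB_sub_hatB (hU.ovh_mem ho), ho, hx.resolve_left (not_not.2 ho)⟩)
    · have hx' : x ∉ Fov n U C := fun h1 => ho (mem_filter.1 h1).2.1
      obtain ⟨c, hc⟩ : ∃ c, U x = flat c := by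
        by_contra h1; exact ho fun c hc => h1 ⟨c, hc⟩
      rw [hout x hx', hc, gflat, sh_flat]
  have hj : jumps t ⊆ JU n U ∩ C := fun e he => by
    rw [mem_jumps, hgr] at he
    by_cases heC : e ∈ C
    · rw [if_pos heC] at he
      exact mem_inter.2 ⟨hU.mem_JU.2 (hne e he), heC⟩
    · rw [if_neg heC] at he; exact absurd rfl he
  have hcfg : Cfg n U' := fun x hx => by
    have hx' : x ∉ Fov n U C := fun h1 => hx (hU.ovh_mem (mem_filter.1 h1).2.1)
    rw [hout x hx', ht x hx, sh_zero, hU x hx]
  have hJ : Jst n U' = Jst n U \ C := by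
    ext e
    rw [mem_sdiff, hcfg.mem_Jst, hU.mem_Jst]
    by_cases he : e ∈ C
    · have h1 := hgr e
      rw [if_pos he] at h1
      simp only [grad] at h1
      have h2 : g (U (tip e)) - t (tip e) = g (U e.1) - t e.1 := by omega
      rw [hfl e.1 (Or.inr ⟨e, he, Or.inl rfl⟩), hfl (tip e) (Or.inr ⟨e, he, Or.inr rfl⟩), h2]
      constructor
      · rintro (h3 | h3 | h3)
        · exact absurd rfl h3
        · exact absurd rfl (h3 _)
        · exact absurd rfl (h3 _)
      · exact fun h3 => absurd he h3.2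
    · have h1 := hgr e
      rw [if_neg he] at h1
      simp only [grad] at h1
      have h2 : t (tip e) = t e.1 := by omega
      rw [hout e.1 fun hx => he (star_mem hD hU hC hx (Or.inl rfl)),
        hout (tip e) fun hx => he (star_mem hD hU hC hx (Or.inr rfl)), h2, LemA_ovh, LemA_ovh,
        Ne, LemA_inj]
      exact ⟨fun h3 => ⟨h3, he⟩, fun h3 => h3.1⟩
  have hW : ∀ x l h, WinCol l h (U x) → WinCol (l - t x) (h - t x) (U' x) := by
    intro x l u hw
    by_cases hx : x ∈ Fov n U C
    · have hb : g (U x) ∈ bd (U x) := by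
        rw [mem_bd]; have := hg (U x); tauto
      have := hw.bd_mem hb
      rw [hin x hx, winCol_flat]
      omega
    · rw [hout x hx]
      exact winCol_sh.2 hw
  have hO : ∀ x, (∀ e ∈ C, e.1 ≠ x ∧ tip e ≠ x) → U' x = sh (t x) (U x) := fun x hx =>
    hout x fun h1 => by
      obtain ⟨e, he, h2⟩ := (mem_filter.1 h1).2.2
      exact h2.elim (hx e he).1 (hx e he).2
  refine ⟨t, U', hcfg, ht, hj, ?_, ?_, hJ, hW, hO⟩
  · rw [TV_eq_sum (hj.trans inter_subset_right)]
    have h1 : ∑ e ∈ C, (grad t e).natAbs = ∑ e ∈ C, (g (U (tip e)) - g (U e.1)).natAbs :=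
      sum_congr rfl fun e he => by rw [hgr, if_pos he]; rfl
    have h2 : Wt U C ≤ Xs n U C := Wt_le_Xs
    have h3 : ∑ e ∈ C, (g (U (tip e)) - g (U e.1)).natAbs ≤ 2 * Wt U C := hsum
    omega
  · have hV : ∀ x ∈ hatB D n, ∑ k ∈ bd (U' x), shift t ξ x none k +
        a * (if x ∈ Fov n U C then (((bd (U x)).card - 1 : ℕ) : ℝ) else 0) ≤
        ∑ k ∈ bd (U x), ξ x none k := fun x _ => by
      by_cases hx : x ∈ Fov n U C
      · rw [hin x hx, if_pos hx, bd_flat, sum_singleton]
        have hb : g (U x) ∈ bd (U x) := by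
          rw [mem_bd]; have := hg (U x); tauto
        have := LemA_one (h x none) hb
        simpa [shift] using this
      · rw [hout x hx, if_neg hx, mul_zero, add_zero]
        exact (sum_bd_sh (ξ x none) (t x) (U x)).le
    have hH : ∀ e ∈ edB D n, ∑ k ∈ dif (U' e.1) (U' (tip e)), shift t ξ e.1 (some e.2) k +
        a * (if e ∈ C then ((dif (U e.1) (U (tip e))).card : ℝ) else 0) ≤
        ∑ k ∈ dif (U e.1) (U (tip e)), ξ e.1 (some e.2) k := fun e _ => by
      by_cases he : e ∈ C
      · have h1 := hgr e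
        rw [if_pos he] at h1
        simp only [grad] at h1
        have h2 : g (U (tip e)) - t (tip e) = g (U e.1) - t e.1 := by omega
        rw [hfl e.1 (Or.inr ⟨e, he, Or.inl rfl⟩), hfl (tip e) (Or.inr ⟨e, he, Or.inr rfl⟩), h2,
          dif_self, sum_empty, if_pos he, zero_add]
        exact LemA_all (h e.1 (some e.2)) _
      · have h1 := hgr e
        rw [if_neg he] at h1
        simp only [grad] at h1
        have h2 : t (tip e) = t e.1 := by omega
        rw [hout e.1 fun hx => he (star_mem hD hU hC hx (Or.inl rfl)),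
          hout (tip e) fun hx => he (star_mem hD hU hC hx (Or.inr rfl)), h2, if_neg he, mul_zero,
          add_zero]
        exact (sum_dif_sh (ξ e.1 (some e.2)) (t e.1) _ _).le
    have s1 := sum_le_sum hV
    have s2 := sum_le_sum hH
    rw [sum_add_distrib, ← mul_sum, sum_ite_mem,
      inter_eq_right.2 (show Fov n U C ⊆ hatB D n from filter_subset _ _)] at s1
    rw [sum_add_distrib, ← mul_sum, sum_ite_mem,
      inter_eq_right.2 (show C ⊆ edB D n from hC.1.trans (filter_subset _ _))] at s2
    have hX : (Xs n U C : ℝ) = ∑ e ∈ C, ((dif (U e.1) (U (tip e))).card : ℝ) +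
        ∑ x ∈ Fov n U C, (((bd (U x)).card - 1 : ℕ) : ℝ) := by
      simp only [Xs, Wt, Nat.cast_add, Nat.cast_sum]
    unfold En
    rw [hX, mul_add]
    linarith

end Pool.Agent.P.MP_67bca4_pr
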