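import Pool.Agent.P.MP_67bca4_pr.AH.S2

/-!
Probabilities of bad blocks and of rare events.
-/

namespace Pool.Agent.P.MP_67bca4_pr

open Finset
open scoped Classical

lemma PBad_good {D : ℕ} {a b p : ℝ} (h0 : 0 ≤ p) (h1 : p ≤ 1) (hT : Tail1 D a b p)
    {n N R : ℕ} [NeZero N] (hN : 4 * R < N) (hR : b * ((n : ℝ) + 1) ^ D < a * R)
    (S : Finset (V D)) (c : ℤ) {m : ℕ} (hm : D ^ 3 ≤ m) :
    Pr p (fun ω : Ix D n N → Bool => ∃ x ∈ S, GoodAt n a (shc c (dis a b ω)) x m) ≤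
      S.card * Real.exp (-√(m : ℝ)) := by
  refine (Pr_union h0 h1 S fun x (ω : Ix D n N → Bool) =>
    GoodAt n a (shc c (dis a b ω)) x m).trans ?_
  rw [← nsmul_eq_mul]
  refine sum_le_card_nsmul _ _ _ fun x _ => ?_
  have h := hT n N R hN hR ∅ x m hm
  simp only [ovr_empty] at h
  simp only [shc_dis]
  rw [Pr_perm (sperm fun _ => c) fun ω : Ix D n N → Bool => GoodAt n a (dis a b ω) x m]
  exact h

lemma PBad_viol (h2 : StGain) {D : ℕ} {P : Par D} {a b : ℝ} (hP : P.Ok a b) {n : ℕ} {ξ : Dis D}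
    (hξ : TwoV a b ξ) {A : Finset (V D)} {l h : ℤ} (hl : l ≤ -(2 * P.h0 : ℤ))
    (hh : (2 * P.h0 : ℤ) ≤ h) (hV : ViolA n A l h 0 ξ) : ∃ x ∈ A, GoodAt n a ξ x P.h0 := by
  obtain ⟨U, hU, hW⟩ := hV
  unfold WinOn at hW
  push Not at hW
  obtain ⟨x, hx, hW⟩ := hW
  have hU' : IsMin n ξ U := hU
  exact ⟨x, hx, (((h2 hP.hD hP.ha hP.hab.le hP.hb hξ).1 hU' x).1 P.h0 l h hP.one_le_h0 hl hh
    hW).goodAt hP.ha.le⟩

lemma PBad_mark (h3 : StPat) {D : ℕ} {P : Par D} {a b : ℝ} (hab : a < b) {p : ℝ} (h0 : 0 ≤ p)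
    (h1 : p ≤ 1) {N : ℕ} [NeZero N] (hN : 4 * P.K + 5 ≤ N) (u : ℤ) :
    Pr p (fun ω : Ix D P.nL N → Bool => P.Mark b u (dis a b ω)) ≤ p ^ P.K := by
  let f : ℕ → Ix D P.nL N := fun k => (⟨_, P.mark_mem⟩, none, (k : ZMod N))
  have hc : ((range P.K).image f).card = P.K := by
    rw [card_image_of_injOn, card_range]
    intro k hk k' hk' e
    have e2 : (k : ZMod N) = (k' : ZMod N) := congrArg (fun i : Ix D P.nL N => i.2.2) e
    have hk1 : k < P.K := mem_range.1 (mem_coe.1 hk)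
    have hk2 : k' < P.K := mem_range.1 (mem_coe.1 hk')
    exact ((ZMod.natCast_eq_natCast_iff k k' N).1 e2).eq_of_lt_of_lt (by omega) (by omega)
  have h := (h3 h0 h1 ((range P.K).image f)).2
  rw [hc] at h
  rw [← h]
  refine Pr_mono h0 h1 fun ω hω i hi => ?_
  obtain ⟨k, hk, rfl⟩ := mem_image.1 hi
  have hk1 : k < P.K := mem_range.1 hk
  have h4 := (hω (k : ℤ) (by omega) (by omega)).1
  simp only [dis, P.mark_mem, dif_pos, Int.cast_natCast] at h4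
  by_contra h5
  rw [if_neg h5] at h4
  exact hab.ne h4

theorem pf_PBad (h1 : StShift) (h2 : StGain) (h3 : StPat) (h4 : StLocal) : StPBad := by
  intro D P a b hP p p0 p1 hT n N R _ hNR c hc u
  rw [(h4 hc a b p).2 (P.badL b u) fun ξ ξ' h => P.badL_congr h b u]
  have hn : P.nL ≤ n := by
    have := hc ⟨0, by have := hP.hD; omega⟩
    omega
  have hL := Par.NR.mono P hP.b_pos.le hNR hn
  have e1 := PBad_good p0 p1 hT hL.1 hL.2.1 P.blkL 0 hP.hh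
  have e2 := PBad_good p0 p1 hT hL.1 hL.2.1 P.blkL u hP.hh
  have e3 := PBad_mark h3 (P := P) hP.hab p0 p1 hL.2.2 u
  rw [P.card_blkL, Nat.cast_pow] at e1 e2
  have k1 := hP.h1
  have k2 := hP.h2
  have m : Pr p (fun ω : Ix D P.nL N → Bool => P.badL b u (dis a b ω)) ≤
      Pr p fun ω : Ix D P.nL N → Bool =>
        (∃ x ∈ P.blkL, GoodAt P.nL a (shc 0 (dis a b ω)) x P.h0) ∨
        ((∃ x ∈ P.blkL, GoodAt P.nL a (shc u (dis a b ω)) x P.h0) ∨ P.Mark b u (dis a b ω)) := by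
    refine Pr_mono p0 p1 fun ω hω => ?_
    rcases hω with h | h | h
    · left
      rw [shc_zero]
      exact PBad_viol h2 hP (twoV_dis a b ω) (by omega) (by omega) h
    · right; left
      rw [(h1 P.nL P.blkL _ _ u _).2.2] at h
      exact PBad_viol h2 hP ((twoV_dis a b ω).shc u) (by omega) (by omega) h
    · exact Or.inr (Or.inr h)
  have o1 := Pr_or p0 p1
    (fun ω : Ix D P.nL N → Bool => ∃ x ∈ P.blkL, GoodAt P.nL a (shc 0 (dis a b ω)) x P.h0)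
    fun ω => (∃ x ∈ P.blkL, GoodAt P.nL a (shc u (dis a b ω)) x P.h0) ∨ P.Mark b u (dis a b ω)
  have o2 := Pr_or p0 p1
    (fun ω : Ix D P.nL N → Bool => ∃ x ∈ P.blkL, GoodAt P.nL a (shc u (dis a b ω)) x P.h0)
    fun ω => P.Mark b u (dis a b ω)
  unfold Par.rhoB
  linarith

theorem pf_PRare (h1 : StLocal) : StPRare := by
  intro D P a b hP p p0 p1 hT n N R _ hNR c hc
  rw [(h1 hc a b p).2 (P.RareQ a) fun ξ ξ' h => P.RareQ_congr h a]
  have hn : P.nQ ≤ n := by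
    have := hc ⟨0, by have := hP.hD; omega⟩
    omega
  have hQ := Par.NR.mono P hP.b_pos.le hNR hn
  have hL := Par.NR.mono P hP.b_pos.le hQ P.nL_le_nQ
  set ε := Real.exp (-√(P.mg : ℝ)) with hε
  have ε0 : 0 ≤ ε := (Real.exp_pos _).le
  have hin : ∀ k : ℕ, ((inB D k).card : ℝ) ≤ (k : ℝ) ^ D := fun k => by
    rw [card_inB]
    exact_mod_cast Nat.pow_le_pow_left (Nat.sub_le k 1) D
  have key : ∀ t : ℤ, Pr p (fun ω : Ix D P.nQ N → Bool =>
      (∃ x ∈ inB D P.nQ, GoodAt P.nQ a (shc t (dis a b ω)) x P.mg) ∨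
      ∃ w ∈ ball D P.Lam, ∃ x ∈ inB D P.nL,
        GoodAt P.nL a (shc t (tr (P.cL w + cv P.RQ) (dis a b ω))) x P.mg) ≤
      (P.nQ ^ D + (2 * P.Lam + 1) ^ D * P.nL ^ D) * ε := by
    intro t
    refine (Pr_or p0 p1 _ _).trans ?_
    have e1 := PBad_good p0 p1 hT hQ.1 hQ.2.1 (inB D P.nQ) t hP.cube_le_mg
    have e2 := PBad_good p0 p1 hT hL.1 hL.2.1 (inB D P.nL) t hP.cube_le_mg
    have e3 := Pr_union p0 p1 (ball D P.Lam) fun w (ω : Ix D P.nQ N → Bool) =>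
      ∃ x ∈ inB D P.nL, GoodAt P.nL a (shc t (tr (P.cL w + cv P.RQ) (dis a b ω))) x P.mg
    have e4 : ∑ w ∈ ball D P.Lam, Pr p (fun ω : Ix D P.nQ N → Bool =>
        ∃ x ∈ inB D P.nL, GoodAt P.nL a (shc t (tr (P.cL w + cv P.RQ) (dis a b ω))) x P.mg) ≤
        (ball D P.Lam).card • ((P.nL : ℝ) ^ D * ε) := by
      refine sum_le_card_nsmul _ _ _ fun w hw => ?_
      rw [(h1 (P.cubeIn_L hw) a b p).2
        (fun η => ∃ x ∈ inB D P.nL, GoodAt P.nL a (shc t η) x P.mg)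
        fun ξ ξ' h => by simp only [(h.shc t).GoodAt]]
      exact e2.trans (mul_le_mul_of_nonneg_right (hin _) ε0)
    rw [card_ball, nsmul_eq_mul] at e4
    push_cast at e4
    have e5 := mul_le_mul_of_nonneg_right (hin P.nQ) ε0
    rw [← hε] at e1
    nlinarith
  have m : Pr p (fun ω : Ix D P.nQ N → Bool => P.RareQ a (dis a b ω)) ≤
      Pr p fun ω : Ix D P.nQ N → Bool => ∃ t ∈ Icc (-(P.K : ℤ)) P.K,
        ((∃ x ∈ inB D P.nQ, GoodAt P.nQ a (shc t (dis a b ω)) x P.mg) ∨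
        ∃ w ∈ ball D P.Lam, ∃ x ∈ inB D P.nL,
          GoodAt P.nL a (shc t (tr (P.cL w + cv P.RQ) (dis a b ω))) x P.mg) := by
    refine Pr_mono p0 p1 fun ω hω => ?_
    obtain ⟨t, t1, t2, h⟩ := hω
    exact ⟨t, mem_Icc.2 ⟨t1, t2⟩, h⟩
  refine m.trans ((Pr_union p0 p1 _ _).trans ((sum_le_card_nsmul _ _ _ fun t _ => key t).trans ?_))
  have hc2 : (Icc (-(P.K : ℤ)) P.K).card = 2 * P.K + 1 := by
    rw [Int.card_Icc]; omega
  rw [hc2, nsmul_eq_mul]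
  unfold Par.piR
  push_cast
  exact le_of_eq (by ring)

end Pool.Agent.P.MP_67bca4_pr
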