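import Pool.Agent.P.MP_67bca4_pr.AH.S2

/-!
The choice of the threshold `m₀` for a given box, and the growth lemma.
-/

namespace Pool.Agent.P.MP_67bca4_pr

open Finset
open scoped Classical

theorem ParN_rhoB {D : ℕ} (P : Par D) {p : ℝ} (hp : 0 < p) : 0 ≤ P.rhoB p := by
  unfold Par.rhoB
  positivity

theorem ParN_piR {D : ℕ} (P : Par D) : 0 ≤ P.piR := by
  unfold Par.piR
  positivity

theorem ParN_piS {D : ℕ} (P : Par D) {p : ℝ} (hp : 0 < p) : 0 ≤ P.piS p := by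
  have h1 := ParN_rhoB P hp
  have h2 := ParN_piR P
  unfold Par.piS
  positivity

theorem ParN_B1 {D : ℕ} (P : Par D) {b : ℝ} (hb : 0 < b) : 0 ≤ P.B1 b := by
  unfold Par.B1 Par.B0
  positivity

theorem ParN_r0 {D : ℕ} (P : Par D) : (0 : ℝ) < P.r0 := by
  have : 0 < P.r0 := by
    unfold Par.r0 Par.rc
    omega
  exact_mod_cast this

theorem ParN_kap {D : ℕ} (P : Par D) {b p : ℝ} (hb : 0 < b) (hp : 0 < p) (hp1 : p < 1) :
    0 < P.kap b p := by
  have h : 0 < min p (1 - p) := lt_min hp (by linarith)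
  unfold Par.kap Par.kap0
  positivity

theorem ParN_pow {N : ℝ} (hN : 1 ≤ N) (k : ℕ) : (N + 1) ^ k ≤ 2 ^ k * N ^ k := by
  rw [← mul_pow]
  exact pow_le_pow_left₀ (by linarith) (by linarith) k

theorem ParN_exp {η m : ℝ} (hη : 0 < η) (hm : 1 ≤ η ^ 2 * m) : Real.exp (-√m) ≤ η := by
  have h1 : 1 / η ≤ √m := by
    apply Real.le_sqrt_of_sq_le
    rw [div_pow, one_pow, div_le_iff₀ (by positivity)]
    linarith
  have h2 : 1 / η ≤ Real.exp (√m) := by
    have := Real.add_one_le_exp (√m)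
    linarith
  rw [Real.exp_neg, inv_le_comm₀ (Real.exp_pos _) hη]
  simpa [one_div] using h2

theorem ParN_n10 {η N A w m d Q R E F : ℝ} (hη : 0 < η) (hA : 0 ≤ A) (hN : 0 ≤ N) (hd : 0 ≤ d)
    (hQ : 0 ≤ Q) (hR : 0 ≤ R) (hF : F ≤ E * A) (h1 : 8 * d * E * R ≤ η * N)
    (hm : m ≤ η / 4 * (w * (N * A) + A) + 1) (h2 : d * Q * w ≤ 1) (h3 : d * Q ≤ N)
    (h4 : 4 ≤ η * A) : 2 * d * R * F + d * m * Q ≤ η * (N * A) := by
  have a1 : 2 * d * R * F ≤ η / 4 * (N * A) := by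
    have b1 : 2 * d * R * F ≤ 2 * d * R * (E * A) :=
      mul_le_mul_of_nonneg_left hF (by positivity)
    have b2 : 8 * d * E * R * A ≤ η * N * A := mul_le_mul_of_nonneg_right h1 hA
    nlinarith
  have hdQ : 0 ≤ d * Q := mul_nonneg hd hQ
  have a2 : d * m * Q ≤ d * Q * (η / 4 * (w * (N * A) + A) + 1) := by
    have := mul_le_mul_of_nonneg_left hm hdQ
    nlinarith
  have a3 : d * Q * w * (η / 4 * (N * A)) ≤ 1 * (η / 4 * (N * A)) :=
    mul_le_mul_of_nonneg_right h2 (by positivity)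
  have a4 : d * Q * (η / 4 * A) ≤ N * (η / 4 * A) :=
    mul_le_mul_of_nonneg_right h3 (by positivity)
  have a5 : N * 4 ≤ N * (η * A) := mul_le_mul_of_nonneg_left h4 hN
  nlinarith

theorem pf_ParN : StParN := by
  intro D hD η hη hη1
  set S : ℝ := 4 * (D : ℝ) ^ 3 + 8 * D * 2 ^ D + D + 4 with hS
  refine ⟨⌈S / η ^ 3⌉₊, ?_⟩
  intro P a b p C₁ ha hb hp hp1 hC hK n hn
  set c : ℕ := ⌈S / η ^ 3⌉₊ with hc
  have hD0 : (0 : ℝ) ≤ D := Nat.cast_nonneg D
  have hD3 : (0 : ℝ) ≤ (D : ℝ) ^ 3 := by positivity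
  have hD2 : (0 : ℝ) ≤ 8 * D * 2 ^ D := by positivity
  have hc0 : (0 : ℝ) ≤ c := Nat.cast_nonneg c
  have hc3 : S ≤ η ^ 3 * c := by
    have := Nat.le_ceil (S / η ^ 3)
    rw [div_le_iff₀ (by positivity)] at this
    linarith
  have hη3 : η ^ 3 ≤ η := by
    have := pow_le_pow_of_le_one hη.le hη1 (show 1 ≤ 3 by norm_num)
    simpa using this
  have hc1 : S ≤ η * c := hc3.trans (mul_le_mul_of_nonneg_right hη3 hc0)
  have hcS : S ≤ c := hc1.trans (mul_le_of_le_one_left hc0 hη1)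
  have hcpos : 1 ≤ c := by
    have : (1 : ℝ) ≤ c := by linarith
    exact_mod_cast this
  have hQ1 : 1 ≤ (2 * P.R4 + 1) ^ D := Nat.one_le_pow _ _ (by omega)
  have hn0 : P.nQ ≤ n :=
    le_trans (le_trans (by omega) (Nat.le_mul_of_pos_left _ hcpos)) hn
  have hnc : c ≤ n := le_trans (Nat.le_mul_of_pos_right _ (by omega)) hn
  have hnR : c * P.R3 ≤ n := le_trans (Nat.mul_le_mul_left _ (by omega)) hn
  have hnQ : c * (2 * P.R4 + 1) ^ D ≤ n := le_trans (Nat.mul_le_mul_left _ (by omega)) hn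
  set N : ℝ := (n : ℝ) with hN
  set Q : ℝ := (2 * (P.R4 : ℝ) + 1) ^ D with hQ
  have hQ0 : 0 ≤ Q := by positivity
  have hNc : (c : ℝ) ≤ N := by
    rw [hN]
    exact_mod_cast hnc
  have hNR : (c : ℝ) * P.R3 ≤ N := by
    rw [hN]
    exact_mod_cast hnR
  have hNQ : (c : ℝ) * Q ≤ N := by
    rw [hQ, hN]
    exact_mod_cast hnQ
  have hN1 : 1 ≤ N := by linarith
  have hN0 : 0 ≤ N := by linarith
  set A : ℝ := N ^ (D - 1) with hA
  have hNA : N ^ D = N * A := by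
    rw [hA, ← pow_succ']
    congr 1
    omega
  have hAN : N ≤ A := by
    have := pow_le_pow_right₀ hN1 (show 1 ≤ D - 1 by omega)
    simpa using this
  have hA0 : 0 ≤ A := by linarith
  have hηA : η * c ≤ η * A := mul_le_mul_of_nonneg_left (hNc.trans hAN) hη.le
  have hr0 := ParN_r0 P
  have hkap := ParN_kap P hb hp hp1
  set w : ℝ := P.kap b p / (a * P.r0 ^ D) with hw
  have hw0 : 0 < w := by positivity
  have hkw : P.kap b p = w * (a * P.r0 ^ D) := by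
    rw [hw, div_mul_cancel₀]
    positivity
  have hx0 : 0 ≤ η / 4 * (w * (N * A) + A) := by positivity
  set m : ℕ := ⌈η / 4 * (w * (N * A) + A)⌉₊ with hm
  have hm1 : η / 4 * (w * (N * A) + A) ≤ m := Nat.le_ceil _
  have hm2 : (m : ℝ) ≤ η / 4 * (w * (N * A) + A) + 1 := (Nat.ceil_lt_add_one hx0).le
  have hwNA : 0 ≤ η / 4 * (w * (N * A)) := by positivity
  have hηA0 : 0 ≤ η / 4 * A := by positivity
  have hmw : η / 4 * w * (N * A) ≤ m := by linarith
  have hmA : η / 4 * A ≤ m := by linarith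
  have hpD : (N + 1) ^ D ≤ 2 ^ D * (N * A) := by
    rw [← hNA]
    exact ParN_pow hN1 D
  have hpD1 : (N + 1) ^ (D - 1) ≤ 2 ^ D * A := by
    refine (ParN_pow hN1 (D - 1)).trans (mul_le_mul_of_nonneg_right ?_ hA0)
    exact pow_le_pow_right₀ (by norm_num) (by omega)
  have hNA0 : 0 ≤ N * A := by positivity
  refine ⟨m, hn0, ?_, ?_, hK.k3, ?_, ?_, hK.k6, hK.k7, ?_, ?_, ?_, ?_⟩
  · have : (D : ℝ) ^ 3 ≤ m := by linarith
    exact_mod_cast this
  · have h1 := mul_le_mul_of_nonneg_right hK.k2 hNA0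
    have h2 : C₁ * (N + 1) ^ D * Real.exp (-(√(P.mu : ℝ) / C₁)) ≤
        C₁ * (2 ^ D * (N * A)) * Real.exp (-(√(P.mu : ℝ) / C₁)) := by gcongr
    calc _ ≤ _ := h2
      _ = C₁ * 2 ^ D * Real.exp (-(√(P.mu : ℝ) / C₁)) * (N * A) := by ring
      _ ≤ _ := h1
      _ ≤ _ := hmw
  · have h1 := mul_le_mul_of_nonneg_right hK.k4 hNA0
    have h2 : (N + 1) ^ D * Real.exp (-(2 ^ P.l0)) ≤
        (2 ^ D * (N * A)) * Real.exp (-(2 ^ P.l0)) := by gcongr
    calc _ ≤ _ := h2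
      _ = 2 ^ D * Real.exp (-(2 ^ P.l0)) * (N * A) := by ring
      _ ≤ _ := h1
      _ ≤ _ := hmw
  · apply ParN_exp hη
    have h1 : η ^ 2 * (η / 4 * A) ≤ η ^ 2 * m := mul_le_mul_of_nonneg_left hmA (by positivity)
    have h2 : η ^ 3 * c ≤ η ^ 3 * A := mul_le_mul_of_nonneg_left (hNc.trans hAN) (by positivity)
    linarith
  · have h1 := mul_le_mul_of_nonneg_right hK.k8 hNA0
    have hB := ParN_B1 P hb
    have hpi := ParN_piS P hp
    have h2 : 32 * P.B1 b * (2 * P.rs + 1) ^ D * ((N + 1) ^ D * P.piS p) ≤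
        32 * P.B1 b * (2 * P.rs + 1) ^ D * ((2 ^ D * (N * A)) * P.piS p) := by gcongr
    calc _ ≤ _ := h2
      _ = 32 * P.B1 b * (2 * P.rs + 1) ^ D * (2 ^ D * P.piS p) * (N * A) := by ring
      _ ≤ _ := h1
      _ = η * (a * (η / 4 * w * (N * A))) := by ring
      _ ≤ _ := by gcongr
  · have h1 := mul_le_mul_of_nonneg_right hK.k9 hA0
    have h2 : 32 * b * (2 * D * P.R3 * (N + 1) ^ (D - 1) * Real.exp (-√(P.h0 : ℝ))) ≤
        32 * b * (2 * D * P.R3 * (2 ^ D * A) * Real.exp (-√(P.h0 : ℝ))) := by gcongr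
    calc _ ≤ _ := h2
      _ = 32 * b * (2 * D * P.R3 * 2 ^ D * Real.exp (-√(P.h0 : ℝ))) * A := by ring
      _ ≤ _ := h1
      _ = η * (a * (η / 4 * A)) := by ring
      _ ≤ _ := by gcongr
  · rw [hNA]
    have hR0 : (0 : ℝ) ≤ P.R3 := Nat.cast_nonneg _
    refine ParN_n10 hη hA0 hN0 hD0 hQ0 hR0 hpD1 ?_ hm2 hK.k10 ?_ (by linarith)
    · have h1 : 8 * D * 2 ^ D * (P.R3 : ℝ) ≤ η * c * P.R3 :=
        mul_le_mul_of_nonneg_right (by linarith) hR0
      have h2 : η * (c * P.R3) ≤ η * N := mul_le_mul_of_nonneg_left hNR hη.le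
      linarith
    · have h1 : (D : ℝ) * Q ≤ c * Q := mul_le_mul_of_nonneg_right (by linarith) hQ0
      linarith
  · rw [hNA]
    have h4 : 4 ≤ η * A := by linarith
    rcases le_or_gt (w * N) 1 with h | h
    · left
      have h1 : w * N * A ≤ 1 * A := mul_le_mul_of_nonneg_right h hA0
      have h2 : η / 4 * (w * (N * A)) ≤ η / 4 * A := by
        apply mul_le_mul_of_nonneg_left _ (by positivity)
        linarith
      have h3 : (m : ℝ) ≤ η * A := by linarith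
      have h5 := mul_le_mul_of_nonneg_left h3 hN0
      linarith
    · right
      have h1 : 1 * A ≤ w * N * A := mul_le_mul_of_nonneg_right h.le hA0
      have h2 : η / 4 * A ≤ η / 4 * (w * (N * A)) := by
        apply mul_le_mul_of_nonneg_left _ (by positivity)
        linarith
      have h3 : (m : ℝ) / 2 ≤ w * (η * (N * A)) := by linarith
      have h5 := mul_le_mul_of_nonneg_left h3 (show 0 ≤ a * (P.r0 : ℝ) ^ D by positivity)
      rw [hkw]
      linarith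

theorem pf_Grow : StGrow := by
  intro C c e
  refine ⟨⌈(c : ℝ) * C ^ (e + 1) * ((2 * (e + 1)).factorial : ℝ)⌉₊, ?_⟩
  intro n H hH hn hlt
  have hH0 : (0 : ℝ) ≤ H := Nat.cast_nonneg H
  have hn1 : (1 : ℝ) ≤ n := by exact_mod_cast (show 1 ≤ n by omega)
  have hL : 0 ≤ Real.log n := Real.log_nonneg hn1
  have hC : 0 < C := by
    by_contra h
    have : C * Real.log n ^ 2 ≤ 0 := mul_nonpos_of_nonpos_of_nonneg (not_lt.mp h) (by positivity)
    linarith
  set F : ℝ := ((2 * (e + 1)).factorial : ℝ) with hF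
  have hF0 : 0 < F := by
    rw [hF]
    exact_mod_cast Nat.factorial_pos _
  have h1 : Real.log n ^ (2 * (e + 1)) / F ≤ n := by
    have := Real.pow_div_factorial_le_exp (Real.log n) hL (2 * (e + 1))
    rwa [Real.exp_log (by linarith)] at this
  rw [div_le_iff₀ hF0, pow_mul] at h1
  have h2 : (H : ℝ) ^ (e + 1) ≤ C ^ (e + 1) * (Real.log n ^ 2) ^ (e + 1) := by
    rw [← mul_pow]
    exact pow_le_pow_left₀ hH0 hlt.le _
  have h3 : (c : ℝ) * C ^ (e + 1) * F ≤ H := (Nat.ceil_le.mp hH)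
  have hCe : 0 < C ^ (e + 1) := by positivity
  have h4 : (c : ℝ) * C ^ (e + 1) * F * H ^ e ≤ H * H ^ e :=
    mul_le_mul_of_nonneg_right h3 (by positivity)
  have h5 : C ^ (e + 1) * (Real.log n ^ 2) ^ (e + 1) ≤ C ^ (e + 1) * (n * F) :=
    mul_le_mul_of_nonneg_left h1 hCe.le
  have h6 : (C ^ (e + 1) * F) * ((c : ℝ) * H ^ e) ≤ (C ^ (e + 1) * F) * n := by
    rw [pow_succ' (H : ℝ) e] at h2
    nlinarith
  have h7 : (c : ℝ) * H ^ e ≤ n := le_of_mul_le_mul_left h6 (by positivity)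
  exact_mod_cast h7

end Pool.Agent.P.MP_67bca4_pr
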